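import Pool.Agent.TSP.StmtsS

/-!
# Abel's equation for the weight `ww`

Antiderivative of `(π/2) ww p √(y² - p²)`:
`p S + S³ log ((2+p)/(2-p))/4 + (q y²/2) arcsin (q p/(y √(4 - p²)))`, `S = √(y² - p²)`, `q = √(4 - y²)`.
-/

set_option autoImplicit false

namespace TSP

open Set MeasureTheory Real Filter Topology

namespace ABLSAux

/-- the bracket of the weight -/
noncomputable def WW (p : ℝ) : ℝ :=
  3 / 2 - 3 / 4 * p * log ((2 + p) / (2 - p)) + (4 - 3 * p ^ 2) / (2 * (4 - p ^ 2))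

/-- the antiderivative -/
noncomputable def FA (y p : ℝ) : ℝ :=
  p * √(y ^ 2 - p ^ 2) + √(y ^ 2 - p ^ 2) ^ 3 * log ((2 + p) / (2 - p)) / 4 +
    √(4 - y ^ 2) * y ^ 2 / 2 * arcsin (√(4 - y ^ 2) * p / (y * √(4 - p ^ 2)))

lemma FA_zero (y : ℝ) : FA y 0 = 0 := by
  simp [FA]

lemma FA_self {y : ℝ} (h0 : 0 < y) (h2 : y < 2) :
    FA y y = √(4 - y ^ 2) * y ^ 2 / 2 * (π / 2) := by
  have hq : 0 < √(4 - y ^ 2) := Real.sqrt_pos.2 (by nlinarith)
  have h : √(4 - y ^ 2) * y / (y * √(4 - y ^ 2)) = 1 := by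
    field_simp
  simp [FA, h]

lemma FA_cont {y : ℝ} (h0 : 0 < y) (h2 : y < 2) : ContinuousOn (FA y) (Icc 0 y) := by
  unfold FA
  have hlog : ContinuousOn (fun p : ℝ => log ((2 + p) / (2 - p))) (Icc 0 y) := by
    apply ContinuousOn.log
    · apply ContinuousOn.div
      · fun_prop
      · fun_prop
      · intro p hp
        have := hp.2
        linarith
    · intro p hp
      have := hp.2
      have := hp.1
      have h1 : 0 < 2 + p := by linarith
      have h3 : 0 < 2 - p := by linarith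
      positivity
  have harc : ContinuousOn (fun p : ℝ => arcsin (√(4 - y ^ 2) * p / (y * √(4 - p ^ 2))))
      (Icc 0 y) := by
    apply Real.continuous_arcsin.comp_continuousOn
    apply ContinuousOn.div
    · fun_prop
    · fun_prop
    · intro p hp
      have h1 := hp.1
      have h3 := hp.2
      have : 0 < √(4 - p ^ 2) := Real.sqrt_pos.2 (by nlinarith)
      positivity
  have h1 : ContinuousOn (fun p : ℝ => √(y ^ 2 - p ^ 2)) (Icc 0 y) := by fun_prop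
  exact ((continuousOn_id.mul h1).add (((h1.pow 3).mul hlog).div_const 4)).add
    (continuousOn_const.mul harc)

lemma FA_deriv {y : ℝ} (h0 : 0 < y) (h2 : y < 2) {p : ℝ} (hp : p ∈ Ioo 0 y) :
    HasDerivAt (FA y) (WW p * √(y ^ 2 - p ^ 2)) p := by
  obtain ⟨hp0, hpy⟩ := hp
  have e1 : 0 < y ^ 2 - p ^ 2 := by nlinarith
  have e2 : 0 < 4 - p ^ 2 := by nlinarith
  have e3 : 0 < 4 - y ^ 2 := by nlinarith
  have hS : 0 < √(y ^ 2 - p ^ 2) := Real.sqrt_pos.2 e1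
  have hT : 0 < √(4 - p ^ 2) := Real.sqrt_pos.2 e2
  have hq : 0 < √(4 - y ^ 2) := Real.sqrt_pos.2 e3
  have hS2 : √(y ^ 2 - p ^ 2) ^ 2 = y ^ 2 - p ^ 2 := Real.sq_sqrt e1.le
  have hT2 : √(4 - p ^ 2) ^ 2 = 4 - p ^ 2 := Real.sq_sqrt e2.le
  have hq2 : √(4 - y ^ 2) ^ 2 = 4 - y ^ 2 := Real.sq_sqrt e3.le
  have hm : 0 < 2 - p := by linarith
  have hpl : 0 < 2 + p := by linarith
  -- derivative of the square roots
  have dS : HasDerivAt (fun p : ℝ => √(y ^ 2 - p ^ 2)) (-p / √(y ^ 2 - p ^ 2)) p := by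
    have h : HasDerivAt (fun p : ℝ => y ^ 2 - p ^ 2) (-(2 * p)) p := by
      have := (hasDerivAt_pow 2 p).const_sub (y ^ 2)
      simpa using this
    have := h.sqrt e1.ne'
    convert this using 1
    field_simp
  have dT : HasDerivAt (fun p : ℝ => √(4 - p ^ 2)) (-p / √(4 - p ^ 2)) p := by
    have h : HasDerivAt (fun p : ℝ => 4 - p ^ 2) (-(2 * p)) p := by
      have := (hasDerivAt_pow 2 p).const_sub (4 : ℝ)
      simpa using this
    have := h.sqrt e2.ne'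
    convert this using 1
    field_simp
  have dL : HasDerivAt (fun p : ℝ => log ((2 + p) / (2 - p))) (4 / (4 - p ^ 2)) p := by
    have h1 : HasDerivAt (fun p : ℝ => 2 + p) 1 p := (hasDerivAt_id p).const_add 2
    have h3 : HasDerivAt (fun p : ℝ => 2 - p) (-1) p := (hasDerivAt_id p).const_sub 2
    have h4 : HasDerivAt (fun p : ℝ => (2 + p) / (2 - p))
        ((1 * (2 - p) - (2 + p) * -1) / (2 - p) ^ 2) p := h1.div h3 hm.ne'
    have h6 : (2 + p) / (2 - p) ≠ 0 := by positivity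
    have h5 : (4 : ℝ) - p ^ 2 = (2 - p) * (2 + p) := by ring
    refine (h4.log h6).congr_deriv ?_
    rw [h5]
    field_simp
    ring
  have dU : HasDerivAt (fun p : ℝ => √(4 - y ^ 2) * p / (y * √(4 - p ^ 2)))
      (√(4 - y ^ 2) * 4 / (y * √(4 - p ^ 2) ^ 3)) p := by
    have h1 : HasDerivAt (fun p : ℝ => √(4 - y ^ 2) * p) (√(4 - y ^ 2)) p := by
      simpa using (hasDerivAt_id p).const_mul (√(4 - y ^ 2))
    have h3 : HasDerivAt (fun p : ℝ => y * √(4 - p ^ 2)) (y * (-p / √(4 - p ^ 2))) p :=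
      dT.const_mul y
    have h5 : y * √(4 - p ^ 2) ≠ 0 := by positivity
    have h4 : HasDerivAt (fun p : ℝ => √(4 - y ^ 2) * p / (y * √(4 - p ^ 2)))
        ((√(4 - y ^ 2) * (y * √(4 - p ^ 2)) - √(4 - y ^ 2) * p * (y * (-p / √(4 - p ^ 2)))) /
          (y * √(4 - p ^ 2)) ^ 2) p := h1.div h3 h5
    refine h4.congr_deriv ?_
    set T := √(4 - p ^ 2) with hTdef
    set q := √(4 - y ^ 2) with hqdef
    have h6 : (4 : ℝ) = T ^ 2 + p ^ 2 := by linarith
    field_simp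
    rw [h6]
    ring
  have hu : (√(4 - y ^ 2) * p / (y * √(4 - p ^ 2))) ^ 2 = (4 - y ^ 2) * p ^ 2 / (y ^ 2 * (4 - p ^ 2)) := by
    rw [div_pow, mul_pow, mul_pow, hq2, hT2]
  have hu1 : 1 - (√(4 - y ^ 2) * p / (y * √(4 - p ^ 2))) ^ 2 =
      4 * (y ^ 2 - p ^ 2) / (y ^ 2 * (4 - p ^ 2)) := by
    rw [hu]
    field_simp
    ring
  have hpos : 0 < 1 - (√(4 - y ^ 2) * p / (y * √(4 - p ^ 2))) ^ 2 := by
    rw [hu1]; positivity
  have hlt : (√(4 - y ^ 2) * p / (y * √(4 - p ^ 2))) ^ 2 < 1 := by linarith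
  have hne1 : √(4 - y ^ 2) * p / (y * √(4 - p ^ 2)) ≠ -1 := by
    intro h; rw [h] at hlt; norm_num at hlt
  have hne2 : √(4 - y ^ 2) * p / (y * √(4 - p ^ 2)) ≠ 1 := by
    intro h; rw [h] at hlt; norm_num at hlt
  have hsq : √(1 - (√(4 - y ^ 2) * p / (y * √(4 - p ^ 2))) ^ 2) =
      2 * √(y ^ 2 - p ^ 2) / (y * √(4 - p ^ 2)) := by
    rw [Real.sqrt_eq_iff_mul_self_eq hpos.le (by positivity), hu1]
    have : 2 * √(y ^ 2 - p ^ 2) / (y * √(4 - p ^ 2)) * (2 * √(y ^ 2 - p ^ 2) / (y * √(4 - p ^ 2))) =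
      4 * √(y ^ 2 - p ^ 2) ^ 2 / (y ^ 2 * √(4 - p ^ 2) ^ 2) := by
      field_simp
      ring
    rw [this, hS2, hT2]
  have dA : HasDerivAt (fun p : ℝ => arcsin (√(4 - y ^ 2) * p / (y * √(4 - p ^ 2))))
      (2 * √(4 - y ^ 2) / ((4 - p ^ 2) * √(y ^ 2 - p ^ 2))) p := by
    have h : HasDerivAt (fun p : ℝ => arcsin (√(4 - y ^ 2) * p / (y * √(4 - p ^ 2))))
        (1 / √(1 - (√(4 - y ^ 2) * p / (y * √(4 - p ^ 2))) ^ 2) *
          (√(4 - y ^ 2) * 4 / (y * √(4 - p ^ 2) ^ 3))) p :=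
      HasDerivAt.comp (h₂ := arcsin) p (Real.hasDerivAt_arcsin hne1 hne2) dU
    refine h.congr_deriv ?_
    rw [hsq]
    set T := √(4 - p ^ 2) with hTdef
    set q := √(4 - y ^ 2) with hqdef
    set S := √(y ^ 2 - p ^ 2) with hSdef
    rw [← hT2]
    field_simp
    ring
  have dS3 : HasDerivAt (fun p : ℝ => √(y ^ 2 - p ^ 2) ^ 3)
      (3 * √(y ^ 2 - p ^ 2) ^ 2 * (-p / √(y ^ 2 - p ^ 2))) p :=
    (dS.pow 3).congr_deriv (by norm_num)
  have key : HasDerivAt (FA y) (1 * √(y ^ 2 - p ^ 2) + p * (-p / √(y ^ 2 - p ^ 2)) +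
      ((3 * √(y ^ 2 - p ^ 2) ^ 2 * (-p / √(y ^ 2 - p ^ 2))) * log ((2 + p) / (2 - p)) +
        √(y ^ 2 - p ^ 2) ^ 3 * (4 / (4 - p ^ 2))) / 4 +
      √(4 - y ^ 2) * y ^ 2 / 2 * (2 * √(4 - y ^ 2) / ((4 - p ^ 2) * √(y ^ 2 - p ^ 2)))) p :=
    (((hasDerivAt_id p).mul dS).add ((dS3.mul dL).div_const 4)).add
      (dA.const_mul (√(4 - y ^ 2) * y ^ 2 / 2))
  refine key.congr_deriv ?_
  unfold WW
  set S := √(y ^ 2 - p ^ 2) with hSdef
  set q := √(4 - y ^ 2) with hqdef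
  set l := log ((2 + p) / (2 - p)) with hldef
  have hy : y ^ 2 = S ^ 2 + p ^ 2 := by linarith
  have hqq : q ^ 2 = 4 - S ^ 2 - p ^ 2 := by rw [hq2, hy]; ring
  have e4 : (4 : ℝ) - p ^ 2 ≠ 0 := e2.ne'
  have t1 : q * y ^ 2 / 2 * (2 * q / ((4 - p ^ 2) * S)) =
      (4 - S ^ 2 - p ^ 2) * (S ^ 2 + p ^ 2) / ((4 - p ^ 2) * S) := by
    rw [← hqq, ← hy]
    field_simp
  rw [t1]
  field_simp
  ring

end ABLSAux

theorem q_ABL : Q_ABL := by
  intro y h0 h2
  have hS : ∀ p ∈ Icc 0 y, √(1 - p ^ 2 / y ^ 2) = √(y ^ 2 - p ^ 2) / y := by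
    intro p hp
    have h1 : 1 - p ^ 2 / y ^ 2 = (y ^ 2 - p ^ 2) / y ^ 2 := by field_simp
    rw [h1, Real.sqrt_div' _ (by positivity), Real.sqrt_sq h0.le]
  have hcW : ContinuousOn ABLSAux.WW (Icc 0 y) := by
    unfold ABLSAux.WW
    have hlog : ContinuousOn (fun p : ℝ => log ((2 + p) / (2 - p))) (Icc 0 y) := by
      apply ContinuousOn.log
      · apply ContinuousOn.div
        · fun_prop
        · fun_prop
        · intro p hp
          have := hp.2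
          linarith
      · intro p hp
        have := hp.2
        have := hp.1
        have h1 : 0 < 2 + p := by linarith
        have h3 : 0 < 2 - p := by linarith
        positivity
    have hr : ContinuousOn (fun p : ℝ => (4 - 3 * p ^ 2) / (2 * (4 - p ^ 2))) (Icc 0 y) := by
      apply ContinuousOn.div
      · fun_prop
      · fun_prop
      · intro p hp
        have h1 := hp.1
        have h3 := hp.2
        nlinarith
    have h3 : ContinuousOn (fun p : ℝ => 3 / 4 * p) (Icc 0 y) := by fun_prop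
    exact (continuousOn_const.sub (h3.mul hlog)).add hr
  have hcS : ContinuousOn (fun p : ℝ => √(y ^ 2 - p ^ 2)) (Icc 0 y) := by fun_prop
  have hint : IntervalIntegrable (fun p => ABLSAux.WW p * √(y ^ 2 - p ^ 2)) volume 0 y := by
    apply ContinuousOn.intervalIntegrable
    rw [uIcc_of_le h0.le]
    exact hcW.mul hcS
  have hFTC := intervalIntegral.integral_eq_sub_of_hasDerivAt_of_le h0.le
    (ABLSAux.FA_cont h0 h2) (fun p hp => ABLSAux.FA_deriv h0 h2 hp) hint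
  have hcongr : (∫ p in (0 : ℝ)..y, ww p * √(1 - p ^ 2 / y ^ 2)) =
      ∫ p in (0 : ℝ)..y, 2 / π / y * (ABLSAux.WW p * √(y ^ 2 - p ^ 2)) := by
    apply intervalIntegral.integral_congr
    intro p hp
    rw [uIcc_of_le h0.le] at hp
    show ww p * √(1 - p ^ 2 / y ^ 2) = 2 / π / y * (ABLSAux.WW p * √(y ^ 2 - p ^ 2))
    rw [hS p hp]
    unfold ww ABLSAux.WW
    field_simp
  rw [hcongr, intervalIntegral.integral_const_mul, hFTC, ABLSAux.FA_zero, ABLSAux.FA_self h0 h2]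
  have h4 : √(1 - y ^ 2 / 4) = √(4 - y ^ 2) / 2 := by
    have h1 : 1 - y ^ 2 / 4 = (4 - y ^ 2) / 2 ^ 2 := by ring
    rw [h1, Real.sqrt_div' _ (by positivity), Real.sqrt_sq (by norm_num)]
  rw [h4]
  have hpi := Real.pi_pos
  field_simp
  ring

end TSP
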