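import Pool.Agent.TSP.StmtsS

/-!
# Minima on the left axis, first part
-/

set_option autoImplicit false

namespace TSP

open Set MeasureTheory Real Filter Topology

namespace AX1SAux

section
variable {L : ℝ} {f A η : ℝ → ℝ}

lemma adm_ax {s r : ℝ} : Adm f A η (0, s) r ↔ s ^ 2 ≤ η r ^ 2 := by
  unfold Adm
  simp only [mul_zero, sub_zero]
  constructor
  · exact fun h => h.2
  · intro h
    refine ⟨?_, h⟩
    have h1 := mul_le_mul_of_nonneg_right h (sq_nonneg (f r))
    nlinarith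

lemma HH_ax (s r : ℝ) : HH f A η (0, s) r = s ^ 2 / η r ^ 2 := by
  simp [HH]

lemma FK_ax (k β s : ℝ) : FK f A η k (0, β) (0, s) =
    (∫ r in (0 : ℝ)..β, √(1 - s ^ 2 / η r ^ 2)) + π * s := by
  unfold FK
  simp only [HH_ax, mul_zero, zero_add]

lemma fst_zero (H : Profile L f A η) {w : ℝ × ℝ} {β : ℝ} (hβ : 0 ≤ β)
    (h : w ∈ KK f A η (0, β)) : w.1 = 0 := by
  have h1 := (h 0 ⟨le_rfl, hβ⟩).1
  rw [H.f_zero] at h1
  have h2 : w.1 ^ 2 * η 0 ^ 2 ≤ 0 := by nlinarith
  have h3 : 0 < η 0 ^ 2 := by have := H.η_pos 0; positivity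
  have h4 : w.1 ^ 2 ≤ 0 := by
    by_contra h5
    push Not at h5
    have := mul_pos h5 h3
    linarith
  have h5 : w.1 ^ 2 = 0 := le_antisymm h4 (sq_nonneg _)
  exact pow_eq_zero_iff (two_ne_zero) |>.1 h5

lemma mem_ax {s β : ℝ} : (0, s) ∈ KK f A η (0, β) ↔ ∀ r ∈ Icc 0 β, s ^ 2 ≤ η r ^ 2 :=
  forall₂_congr fun _ _ => adm_ax

/-- the function on the axis is continuous -/
lemma cont_g (H : Profile L f A η) (s : ℝ) : Continuous (fun x => √(1 - s ^ 2 / η x ^ 2)) := by
  exact (continuous_const.sub (continuous_const.div (H.η_cont.pow 2)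
    fun x => pow_ne_zero 2 (H.η_pos x).ne')).sqrt

/-- the integral of an even continuous function -/
lemma int_even {g : ℝ → ℝ} (hg : Continuous g) (he : ∀ x, g (-x) = g x) (β : ℝ) :
    (∫ x in (-β)..β, g x) = 2 * ∫ x in (0 : ℝ)..β, g x := by
  have h1 : (∫ x in (-β)..0, g x) = ∫ x in (0 : ℝ)..β, g x := by
    have h2 := intervalIntegral.integral_comp_neg (a := (0 : ℝ)) (b := β) g
    rw [neg_zero] at h2
    rw [← h2]
    exact intervalIntegral.integral_congr fun x _ => he x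
  rw [← intervalIntegral.integral_add_adjacent_intervals (hg.intervalIntegrable (-β) 0)
    (hg.intervalIntegrable 0 β), h1]
  ring

end

/-- the doubled profile agrees with the doubled functions near `[2 L - b, 2 L + b]` -/
def Ag (L : ℝ) (η : ℝ → ℝ) (f' A' η' : ℝ → ℝ) (c : ℝ) : Prop :=
  ∀ r, |r - 2 * L| ≤ c → f' r = 2 * η (r - 2 * L) ∧ A' r = 0 ∧ η' r = 1

section
variable {L : ℝ} {f A η f' A' η' : ℝ → ℝ} {c : ℝ}

lemma Ag.HH_eq (hag : Ag L η f' A' η' c) (w : ℝ × ℝ) {r : ℝ} (hr : |r - 2 * L| ≤ c) :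
    HH f' A' η' w r = (w.1 / 2) ^ 2 / η (r - 2 * L) ^ 2 + w.2 ^ 2 := by
  obtain ⟨h1, h2, h3⟩ := hag r hr
  unfold HH
  rw [h1, h2, h3]
  ring

lemma Ag.adm (H : Profile L f A η) (hag : Ag L η f' A' η' c) (w : ℝ × ℝ) {r : ℝ}
    (hr : |r - 2 * L| ≤ c) : Adm f' A' η' w r ↔ HH f' A' η' w r ≤ 1 := by
  obtain ⟨h1, -, h3⟩ := hag r hr
  have h4 := H.η_pos (r - 2 * L)
  apply adm_iff
  · rw [h1]; positivity
  · rw [h3]; exact one_ne_zero

lemma Ag.mem (H : Profile L f A η) (hag : Ag L η f' A' η' c) {β s : ℝ} (_hβ : 0 ≤ β)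
    (hβc : β ≤ c) (h : (0, s) ∈ KK f A η (0, β)) :
    (2 * s, 0) ∈ KK f' A' η' (2 * L - β, 2 * L + β) := by
  intro r hr
  have h1 : |r - 2 * L| ≤ β := abs_le.2 ⟨by linarith [hr.1], by linarith [hr.2]⟩
  rw [hag.adm H _ (h1.trans hβc), hag.HH_eq _ (h1.trans hβc)]
  have h2 := mem_ax.1 h |r - 2 * L| ⟨abs_nonneg _, h1⟩
  have h3 : η |r - 2 * L| = η (r - 2 * L) := by
    rcases abs_choice (r - 2 * L) with h | h <;> rw [h]
    exact H.η_even _
  rw [h3] at h2
  have h4 := H.η_pos (r - 2 * L)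
  have h5 : (2 * s / 2) ^ 2 / η (r - 2 * L) ^ 2 ≤ 1 := by
    rw [div_le_one (by positivity)]
    have e : 2 * s / 2 = s := by ring
    rw [e]
    exact h2
  simpa using h5

lemma Ag.mem' (H : Profile L f A η) (hag : Ag L η f' A' η' c) {β : ℝ} {w : ℝ × ℝ}
    (hβc : β ≤ c) (h : w ∈ KK f' A' η' (2 * L - β, 2 * L + β)) :
    (0, w.1 / 2) ∈ KK f A η (0, β) := by
  refine mem_ax.2 fun r hr => ?_
  have e : 2 * L + r - 2 * L = r := by ring
  have h1 : |2 * L + r - 2 * L| ≤ c := by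
    rw [e, abs_of_nonneg hr.1]
    exact hr.2.trans hβc
  have h2 := h (2 * L + r) ⟨by linarith [hr.1, hr.2], by linarith [hr.2]⟩
  rw [hag.adm H _ h1, hag.HH_eq _ h1, e] at h2
  have h4 := H.η_pos r
  have h5 : (w.1 / 2) ^ 2 / η r ^ 2 ≤ 1 := by nlinarith [sq_nonneg w.2]
  rwa [div_le_one (by positivity)] at h5

lemma Ag.FF_eq (H : Profile L f A η) (hag : Ag L η f' A' η' c) {β s : ℝ} (k : ℝ) (hβ : 0 ≤ β)
    (hβc : β ≤ c) : FF f' A' η' (2 * L - β, 2 * L + β) (2 * s, 0) =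
      2 * FK f A η k (0, β) (0, s) := by
  rw [FK_ax]
  unfold FF
  have h1 : (∫ r in (2 * L - β)..(2 * L + β), √(1 - HH f' A' η' (2 * s, 0) r)) =
      ∫ r in (2 * L - β)..(2 * L + β), (fun x => √(1 - s ^ 2 / η x ^ 2)) (r - 2 * L) := by
    refine intervalIntegral.integral_congr fun r hr => ?_
    rw [uIcc_of_le (by linarith)] at hr
    have h2 : |r - 2 * L| ≤ c :=
      (abs_le.2 ⟨by linarith [hr.1], by linarith [hr.2]⟩ : |r - 2 * L| ≤ β).trans hβc
    show √(1 - HH f' A' η' (2 * s, 0) r) = √(1 - s ^ 2 / η (r - 2 * L) ^ 2)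
    rw [hag.HH_eq _ h2]
    congr 1
    have e : (2 * s, (0 : ℝ)).1 / 2 = s := by show 2 * s / 2 = s; ring
    rw [e]
    ring
  rw [h1, intervalIntegral.integral_comp_sub_right (fun x => √(1 - s ^ 2 / η x ^ 2)) (2 * L)]
  have e1 : 2 * L - β - 2 * L = -β := by ring
  have e2 : 2 * L + β - 2 * L = β := by ring
  rw [e1, e2, int_even (cont_g H s) (fun x => by simp only [H.η_even])]
  ring

lemma Ag.FF_le (H' : Profile (4 * L) f' A' η') (hag : Ag L η f' A' η' c) {β : ℝ} (w : ℝ × ℝ)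
    (hβ : 0 ≤ β) (hβc : β ≤ c) : FF f' A' η' (2 * L - β, 2 * L + β) w ≤
      FF f' A' η' (2 * L - β, 2 * L + β) (2 * (w.1 / 2), 0) := by
  unfold FF
  have e : 2 * (w.1 / 2) = w.1 := by ring
  rw [e]
  refine add_le_add_left ?_ _
  refine intervalIntegral.integral_mono_on (by simp only; linarith) (H'.ii _ _ _) (H'.ii _ _ _) ?_
  intro r hr
  have h2 : |r - 2 * L| ≤ c :=
    (abs_le.2 ⟨by linarith [hr.1], by linarith [hr.2]⟩ : |r - 2 * L| ≤ β).trans hβc
  apply Real.sqrt_le_sqrt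
  rw [hag.HH_eq _ h2, hag.HH_eq _ h2]
  have := sq_nonneg w.2
  simp only
  nlinarith

end

end AX1SAux

open AX1SAux in
theorem q_AX1 (hglu : Q_GLU) : Q_AX1 := by
  intro L f A η k b z H hb hbL hMK hmin
  have hL := H.L_pos
  -- the axis
  have hz1 : z.1 = 0 := fst_zero H hb.le hMK.1
  obtain ⟨z1, s⟩ := z
  simp only at hz1
  subst hz1
  -- the doubled profile
  obtain ⟨f', A', η', δ, H', hδ, hδ1, hδ2, hag0⟩ := hglu (4 * L) (2 * L - b) (2 * L + b)
    (fun r => 2 * η (r - 2 * L)) (fun _ => 0) (fun _ => 1) (by linarith) (by linarith)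
    (by linarith) (by
      intro r _ _
      refine ⟨?_, contDiffAt_const, contDiffAt_const, ?_, one_pos⟩
      · exact contDiffAt_const.mul (H.smooth_η.contDiffAt.comp r
          (contDiffAt_id.sub contDiffAt_const))
      · have := H.η_pos (r - 2 * L)
        positivity)
  have hag : Ag L η f' A' η' (b + δ) := by
    intro r hr
    have h1 := abs_le.1 hr
    exact hag0 r ⟨by linarith [h1.1], by linarith [h1.2]⟩
  set x : ℝ × ℝ := (2 * L - b, 2 * L + b) with hx
  have hxT : x ∈ Tri (4 * L) := ⟨by simp only [hx]; linarith, by simp only [hx]; linarith,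
    by simp only [hx]; linarith⟩
  have hMx : Mx f' A' η' x (2 * s, 0) := by
    refine ⟨hag.mem H hb.le (by linarith) hMK.1, fun w hw => ?_⟩
    have h1 := hag.mem' H (by linarith) hw
    calc FF f' A' η' x w ≤ FF f' A' η' x (2 * (w.1 / 2), 0) :=
          hag.FF_le H' w hb.le (by linarith)
      _ = 2 * FK f A η k (0, b) (0, w.1 / 2) := hag.FF_eq H k hb.le (by linarith)
      _ ≤ 2 * FK f A η k (0, b) (0, s) := by have := hMK.2 _ h1; linarith
      _ = FF f' A' η' x (2 * s, 0) := (hag.FF_eq H k hb.le (by linarith)).symm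
  have hDDb : DD f' A' η' x = 2 * FK f A η k (0, b) (0, s) := by
    rw [hMx.DD_eq]
    exact hag.FF_eq H k hb.le (by linarith)
  obtain ⟨m1, -, -, -⟩ := c_MAX (4 * L) f' A' η' H'
  have hDD : ∀ β : ℝ, 0 < β → β < L → β ≤ b + δ →
      DD f' A' η' x ≤ DD f' A' η' (2 * L - β, 2 * L + β) := by
    intro β hβ hβL hβδ
    obtain ⟨w, hw, hw2⟩ := hmin β hβ hβL
    have hw1 : w.1 = 0 := fst_zero H hβ.le hw
    obtain ⟨w1, s'⟩ := w
    simp only at hw1
    subst hw1
    obtain ⟨v, hv⟩ := m1 (2 * L - β, 2 * L + β)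
      ⟨by simp only; linarith, by simp only; linarith, by simp only; linarith⟩
    have h1 := hv.le_DD (hag.mem H hβ.le hβδ hw)
    rw [hag.FF_eq H k hβ.le hβδ] at h1
    rw [hDDb]
    linarith
  -- no descent
  have hno1 : ¬ Desc (Tri (4 * L)) (DD f' A' η') x (-1, 1) := by
    rintro ⟨ε, hε, h⟩
    set t := min ε (min δ ((L - b) / 2)) with ht
    have ht0 : 0 < t := lt_min hε (lt_min hδ (by linarith))
    have ht1 : t ≤ ε := min_le_left _ _
    have ht2 : t ≤ δ := (min_le_right _ _).trans (min_le_left _ _)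
    have ht3 : t ≤ (L - b) / 2 := (min_le_right _ _).trans (min_le_right _ _)
    have h1 := (h x hxT (by rw [dist_self]; exact hε) t ht0 ht1).2
    have e : x + t • ((-1, 1) : ℝ × ℝ) = (2 * L - (b + t), 2 * L + (b + t)) := by
      apply Prod.ext
      · simp only [hx, Prod.fst_add, Prod.smul_fst, smul_eq_mul]; ring
      · simp only [hx, Prod.snd_add, Prod.smul_snd, smul_eq_mul]; ring
    rw [e] at h1
    exact absurd (hDD (b + t) (by linarith) (by linarith) (by linarith)) (not_le.2 h1)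
  have hno2 : Desc (Tri (4 * L)) (DD f' A' η') x (0, -1) →
      ¬ Desc (Tri (4 * L)) (DD f' A' η') x (1, 0) := by
    rintro ⟨ε, hε, h⟩ ⟨ε', hε', h'⟩
    set t := min ε (min (ε' / 2) (b / 2)) with ht
    have ht0 : 0 < t := lt_min hε (lt_min (by linarith) (by linarith))
    have ht1 : t ≤ ε := min_le_left _ _
    have ht2 : t ≤ ε' / 2 := (min_le_right _ _).trans (min_le_left _ _)
    have ht3 : t ≤ b / 2 := (min_le_right _ _).trans (min_le_right _ _)
    obtain ⟨h0, h1⟩ := h x hxT (by rw [dist_self]; exact hε) t ht0 ht1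
    have hd : dist (x + t • ((0, -1) : ℝ × ℝ)) x < ε' := by
      rw [dist_eq_norm, add_sub_cancel_left, norm_smul, Real.norm_of_nonneg ht0.le]
      have e : ‖((0, -1) : ℝ × ℝ)‖ = 1 := by
        rw [Prod.norm_def]
        simp
      rw [e]
      linarith
    have h2 := (h' _ h0 hd t ht0 (by linarith)).2
    have e : x + t • ((0, -1) : ℝ × ℝ) + t • ((1, 0) : ℝ × ℝ) =
        (2 * L - (b - t), 2 * L + (b - t)) := by
      apply Prod.ext
      · simp only [hx, Prod.fst_add, Prod.smul_fst, smul_eq_mul]; ring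
      · simp only [hx, Prod.snd_add, Prod.smul_snd, smul_eq_mul]; ring
    rw [e] at h2
    exact absurd (hDD (b - t) (by linarith) (by linarith) (by linarith))
      (not_le.2 (h2.trans h1))
  -- the ends
  have habs1 : |x.1 - 2 * L| ≤ b + δ := by
    have e : x.1 - 2 * L = -b := by simp only [hx]; ring
    rw [e, abs_neg, abs_of_pos hb]
    linarith
  have habs2 : |x.2 - 2 * L| ≤ b + δ := by
    have e : x.2 - 2 * L = b := by simp only [hx]; ring
    rw [e, abs_of_pos hb]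
    linarith
  have hHe : ∀ r, |r - 2 * L| ≤ b + δ →
      HH f' A' η' (2 * s, 0) r = s ^ 2 / η (r - 2 * L) ^ 2 := by
    intro r hr
    rw [hag.HH_eq _ hr]
    have e : (2 * s, (0 : ℝ)).1 / 2 = s := by show 2 * s / 2 = s; ring
    rw [e]
    ring
  have hHe1 : HH f' A' η' (2 * s, 0) x.1 = s ^ 2 / η b ^ 2 := by
    rw [hHe _ habs1]
    have e : x.1 - 2 * L = -b := by simp only [hx]; ring
    rw [e, H.η_even]
  have hHe2 : HH f' A' η' (2 * s, 0) x.2 = s ^ 2 / η b ^ 2 := by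
    rw [hHe _ habs2]
    have e : x.2 - 2 * L = b := by simp only [hx]; ring
    rw [e]
  have hx0 : 0 < x.1 := by simp only [hx]; linarith
  have hx12 : x.1 < x.2 := by simp only [hx]; linarith
  have hxL : x.2 < 4 * L := by simp only [hx]; linarith
  have hone : s ^ 2 / η b ^ 2 = 1 := by
    have h1 : s ^ 2 / η b ^ 2 ≤ 1 := by
      have h2 := mem_ax.1 hMK.1 b ⟨hb.le, le_rfl⟩
      have := H.η_pos b
      rwa [div_le_one (by positivity)]
    refine le_antisymm h1 (not_lt.1 fun h2 => ?_)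
    exact hno2 ((t_ENR t_REF c_ENL) (4 * L) f' A' η' H' x _ hxT hxL hx12 hMx (by rw [hHe2]; exact h2))
      (c_ENL (4 * L) f' A' η' H' x _ hxT hx0 hx12 hMx (by rw [hHe1]; exact h2))
  have hw := (t_WEL t_NDG) (4 * L) f' A' η' H' x.1 x.2 _ hx0 hx12 hxL hMx
    (by rw [hHe1]; exact hone) (by rw [hHe2]; exact hone)
  obtain ⟨d1, d2⟩ := t_GRD (4 * L) f' A' η' H' x.1 x.2 _ hx0 hx12 hxL hMx hw
  have heq : (∫ r in x.1..x.2, HH f' A' η' (2 * s, 0) r / √(1 - HH f' A' η' (2 * s, 0) r)) =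
      π * (2 * s) := by
    refine le_antisymm d1 (not_lt.1 fun h => ?_)
    exact hno1 (c_DSC (4 * L) f' A' η' H' x.1 x.2 _ hx0 hx12 hxL hMx hw h)
  have hint := d2 heq (2, 0)
  -- translation
  have hint2 : (∫ r in (-b)..b, s / η r ^ 2 / √(1 - s ^ 2 / η r ^ 2)) = 2 * π := by
    have h1 : (∫ r in x.1..x.2, BB f' A' η' (2 * s, 0) (2, 0) r /
        √(1 - HH f' A' η' (2 * s, 0) r)) = ∫ r in (2 * L - b)..(2 * L + b),
          (fun y => s / η y ^ 2 / √(1 - s ^ 2 / η y ^ 2)) (r - 2 * L) := by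
      refine intervalIntegral.integral_congr fun r hr => ?_
      rw [uIcc_of_le hx12.le] at hr
      have h2 : |r - 2 * L| ≤ b + δ :=
        (abs_le.2 ⟨by have := hr.1; simp only [hx] at this; linarith,
          by have := hr.2; simp only [hx] at this; linarith⟩ : |r - 2 * L| ≤ b).trans
          (by linarith)
      obtain ⟨g1, g2, g3⟩ := hag r h2
      have hη := H.η_pos (r - 2 * L)
      show BB f' A' η' (2 * s, 0) (2, 0) r / √(1 - HH f' A' η' (2 * s, 0) r) =
        s / η (r - 2 * L) ^ 2 / √(1 - s ^ 2 / η (r - 2 * L) ^ 2)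
      rw [hHe r h2]
      congr 1
      unfold BB
      rw [g1, g2, g3]
      simp only
      field_simp
      ring
    rw [h1, intervalIntegral.integral_comp_sub_right
      (fun y => s / η y ^ 2 / √(1 - s ^ 2 / η y ^ 2)) (2 * L)] at hint
    have e1 : 2 * L - b - 2 * L = -b := by ring
    have e2 : 2 * L + b - 2 * L = b := by ring
    rw [e1, e2] at hint
    rw [hint]
    ring
  have hs : 0 < s := by
    by_contra h
    push Not at h
    have h1 : (∫ r in (-b)..b, s / η r ^ 2 / √(1 - s ^ 2 / η r ^ 2)) ≤ 0 := by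
      have h2 : 0 ≤ ∫ r in (-b)..b, -(s / η r ^ 2 / √(1 - s ^ 2 / η r ^ 2)) := by
        refine intervalIntegral.integral_nonneg (by linarith) fun r _ => ?_
        have h3 : s / η r ^ 2 / √(1 - s ^ 2 / η r ^ 2) ≤ 0 :=
          div_nonpos_of_nonpos_of_nonneg (div_nonpos_of_nonpos_of_nonneg h (sq_nonneg _))
            (Real.sqrt_nonneg _)
        linarith
      rw [intervalIntegral.integral_neg] at h2
      linarith
    rw [hint2] at h1
    have := Real.pi_pos
    linarith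
  refine ⟨rfl, hs, ?_, hint2⟩
  -- the well
  have hev : ∀ r : ℝ, |r| < b + δ →
      (fun r => 1 - s ^ 2 / η r ^ 2) =ᶠ[𝓝 r]
        fun r => (fun r => 1 - HH f' A' η' (2 * s, 0) r) (r + 2 * L) := by
    intro r hr
    have h1 : ∀ᶠ y in 𝓝 r, |y| < b + δ := by
      exact (continuous_abs.continuousAt).eventually (gt_mem_nhds hr)
    filter_upwards [h1] with y hy
    have e : y + 2 * L - 2 * L = y := by ring
    have h2 := hHe (y + 2 * L) (by rw [e]; exact hy.le)
    rw [e] at h2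
    show 1 - s ^ 2 / η y ^ 2 = 1 - HH f' A' η' (2 * s, 0) (y + 2 * L)
    rw [h2]
  have hval : ∀ r : ℝ, |r| < b + δ →
      1 - s ^ 2 / η r ^ 2 = 1 - HH f' A' η' (2 * s, 0) (r + 2 * L) :=
    fun r hr => (hev r hr).eq_of_nhds
  have hder : ∀ r : ℝ, |r| < b + δ → deriv (fun r => 1 - s ^ 2 / η r ^ 2) r =
      deriv (fun r => 1 - HH f' A' η' (2 * s, 0) r) (r + 2 * L) := by
    intro r hr
    rw [(hev r hr).deriv_eq, deriv_comp_add_const (fun r => 1 - HH f' A' η' (2 * s, 0) r) (2 * L)]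
  have hbb : |b| < b + δ := by rw [abs_of_pos hb]; linarith
  have hbb' : |(-b)| < b + δ := by rw [abs_neg]; exact hbb
  have e1 : -b + 2 * L = x.1 := by simp only [hx]; ring
  have e2 : b + 2 * L = x.2 := by simp only [hx]; ring
  constructor
  · linarith
  · intro r _
    refine contDiffAt_const.sub (contDiffAt_const.div (H.smooth_η.contDiffAt.pow 2) ?_)
    have := H.η_pos r
    positivity
  · show 1 - s ^ 2 / η (-b) ^ 2 = 0
    rw [hval (-b) hbb', e1]
    exact hw.left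
  · show 1 - s ^ 2 / η b ^ 2 = 0
    rw [hval b hbb, e2]
    exact hw.right
  · intro r hr
    have h1 : |r| < b + δ := (abs_lt.2 ⟨hr.1, hr.2⟩).trans (by linarith)
    show 0 < 1 - s ^ 2 / η r ^ 2
    rw [hval r h1]
    exact hw.pos (r + 2 * L) ⟨by simp only [hx]; linarith [hr.1], by simp only [hx]; linarith [hr.2]⟩
  · show 0 < deriv (fun r => 1 - s ^ 2 / η r ^ 2) (-b)
    rw [hder (-b) hbb', e1]
    exact hw.dleft
  · show deriv (fun r => 1 - s ^ 2 / η r ^ 2) b < 0
    rw [hder b hbb, e2]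
    exact hw.dright

end TSP
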