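import Pool.Agent.TSP.StmtsS

/-!
# Minima on the left axis, second part: blow up (module TSS_AX2)
-/

set_option autoImplicit false

namespace TSP

open Set MeasureTheory Real Filter Topology

namespace AX2SAux

variable {L : ℝ} {f A η : ℝ → ℝ}

/-- the tangent inequality for the unit circle, with a quadratic gain -/
lemma tangent {x y K : ℝ} (hK : 0 < K) (hx : K ^ 2 = 1 - x ^ 2) (hy : y ^ 2 ≤ 1) :
    √(1 - y ^ 2) + (y - x) ^ 2 / 2 ≤ K + (x - y) * (x / K) := by
  have h0 : 0 ≤ √(1 - y ^ 2) := Real.sqrt_nonneg _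
  have h1 : √(1 - y ^ 2) ^ 2 = 1 - y ^ 2 := Real.sq_sqrt (by linarith)
  generalize √(1 - y ^ 2) = K' at h0 h1 ⊢
  have hK1 : K ≤ 1 := by nlinarith [sq_nonneg x]
  have e : K + (x - y) * (x / K) = (1 - x * y) / K := by
    have h2 : K + (x - y) * (x / K) = (K ^ 2 + (x - y) * x) / K := by
      field_simp
    rw [h2, hx]
    congr 1
    ring
  rw [e, le_div_iff₀ hK]
  have h3 := mul_nonneg (sub_nonneg.2 hK1) (sq_nonneg (y - x))
  nlinarith [sq_nonneg (K - K'), sq_nonneg (y - x)]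

/-- the pointwise inequality -/
lemma pw (H : Profile L f A η) {s : ℝ} {w : ℝ × ℝ} {r : ℝ} (hU : 0 < 1 - s ^ 2 / η r ^ 2)
    (hw : HH f A η w r ≤ 1) :
    √(1 - HH f A η w r) + (w.2 - A r * w.1 - s) ^ 2 / (2 * η r ^ 2)
      ≤ √(1 - s ^ 2 / η r ^ 2)
        + (s - w.2 + A r * w.1) * (s / η r ^ 2 / √(1 - s ^ 2 / η r ^ 2)) := by
  have hη := H.η_pos r
  have hK : 0 < √(1 - s ^ 2 / η r ^ 2) := Real.sqrt_pos.2 hU
  have hK2 : √(1 - s ^ 2 / η r ^ 2) ^ 2 = 1 - (s / η r) ^ 2 := by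
    rw [Real.sq_sqrt hU.le, div_pow]
  have hy : ((w.2 - A r * w.1) / η r) ^ 2 ≤ 1 := by
    have h1 : 0 ≤ w.1 ^ 2 / f r ^ 2 := by positivity
    have h2 : HH f A η w r = w.1 ^ 2 / f r ^ 2 + ((w.2 - A r * w.1) / η r) ^ 2 := by
      unfold HH; rw [div_pow]
    linarith
  have h3 : √(1 - HH f A η w r) ≤ √(1 - ((w.2 - A r * w.1) / η r) ^ 2) := by
    apply Real.sqrt_le_sqrt
    have h1 : 0 ≤ w.1 ^ 2 / f r ^ 2 := by positivity
    have h2 : HH f A η w r = w.1 ^ 2 / f r ^ 2 + ((w.2 - A r * w.1) / η r) ^ 2 := by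
      unfold HH; rw [div_pow]
    linarith
  have h4 := tangent hK hK2 hy
  generalize √(1 - s ^ 2 / η r ^ 2) = K at hK h4 ⊢
  have e1 : (w.2 - A r * w.1 - s) ^ 2 / (2 * η r ^ 2)
      = ((w.2 - A r * w.1) / η r - s / η r) ^ 2 / 2 := by
    field_simp
  have e2 : (s - w.2 + A r * w.1) * (s / η r ^ 2 / K)
      = (s / η r - (w.2 - A r * w.1) / η r) * (s / η r / K) := by
    field_simp
    ring
  rw [e1, e2]
  linarith

/-- the data of the well on the doubled interval -/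
structure Dat (L : ℝ) (f A η : ℝ → ℝ) (b s : ℝ) : Prop where
  H : Profile L f A η
  b_pos : 0 < b
  b_lt : b < L
  s_pos : 0 < s
  well : SGR.Well (fun r => 1 - s ^ 2 / η r ^ 2) (-b) b
  int : (∫ r in (-b)..b, s / η r ^ 2 / √(1 - s ^ 2 / η r ^ 2)) = 2 * π

/-- the density -/
noncomputable def Ph (η : ℝ → ℝ) (s r : ℝ) : ℝ := s / η r ^ 2 / √(1 - s ^ 2 / η r ^ 2)

/-- the root -/
noncomputable def ka (η : ℝ → ℝ) (s r : ℝ) : ℝ := √(1 - s ^ 2 / η r ^ 2)

section
variable {b s : ℝ}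

lemma Dat.U_pos (D : Dat L f A η b s) {r : ℝ} (h0 : -b < r) (h1 : r < b) :
    0 < 1 - s ^ 2 / η r ^ 2 := D.well.pos r ⟨h0, h1⟩

lemma Dat.ka_cont (D : Dat L f A η b s) : Continuous (ka η s) := by
  have h1 := D.H.η_cont
  have h2 : ∀ r, η r ^ 2 ≠ 0 := fun r => (pow_pos (D.H.η_pos r) 2).ne'
  unfold ka
  exact (continuous_const.sub (continuous_const.div (h1.pow 2) h2)).sqrt

lemma Dat.Ph_ii (D : Dat L f A η b s) {F : ℝ → ℝ} (hF : Continuous F) {u v : ℝ}
    (hu : -b ≤ u) (huv : u ≤ v) (hv : v ≤ b) :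
    IntervalIntegrable (fun r => F r * Ph η s r) volume u v := by
  have h1 := D.H.η_cont
  have h2 : ∀ r, η r ^ 2 ≠ 0 := fun r => (pow_pos (D.H.η_pos r) 2).ne'
  have h3 : ContinuousOn (fun r => F r * (s / η r ^ 2)) (Icc (-b) b) :=
    (hF.mul (continuous_const.div (h1.pow 2) h2)).continuousOn
  have h4 := D.well.integrableOn h3
  have hb := D.b_pos
  have h5 : IntervalIntegrable (fun r => F r * Ph η s r) volume (-b) b := by
    rw [intervalIntegrable_iff_integrableOn_Ioo_of_le (by linarith)]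
    refine h4.congr_fun (fun r _ => ?_) measurableSet_Ioo
    unfold Ph
    exact mul_div_assoc _ _ _
  refine h5.mono_set ?_
  rw [uIcc_of_le huv, uIcc_of_le (by linarith)]
  exact Icc_subset_Icc hu hv

lemma Dat.Ph_ii' (D : Dat L f A η b s) {u v : ℝ}
    (hu : -b ≤ u) (huv : u ≤ v) (hv : v ≤ b) : IntervalIntegrable (Ph η s) volume u v := by
  have := D.Ph_ii (F := fun _ => 1) continuous_const hu huv hv
  simpa using this

lemma Dat.Ph_int (D : Dat L f A η b s) : ∫ r in (0 : ℝ)..b, Ph η s r = π := by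
  have hb := D.b_pos
  have h1 : (∫ r in (-b)..b, Ph η s r) = 2 * π := D.int
  have h2 := intervalIntegral.integral_add_adjacent_intervals
    (D.Ph_ii' (le_refl _) (by linarith : -b ≤ 0) hb.le)
    (D.Ph_ii' (by linarith : -b ≤ 0) hb.le (le_refl b))
  have h3 : (∫ r in (-b)..0, Ph η s r) = ∫ r in (0 : ℝ)..b, Ph η s r := by
    have h4 := intervalIntegral.integral_comp_neg (f := Ph η s) (a := 0) (b := b)
    rw [neg_zero] at h4
    rw [← h4]
    refine intervalIntegral.integral_congr (fun r _ => ?_)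
    simp only [Ph, D.H.η_even r]
  linarith

/-- the integrated inequality -/
lemma Dat.key (D : Dat L f A η b s) {k ε ρ δ : ℝ} (hε : 0 < ε) (hρ : ε ≤ ρ) (hρb : ρ ≤ b)
    {w : ℝ × ℝ}
    (hD : (∫ r in (0 : ℝ)..b, ka η s r) + π * s ≤ FK f A η k (ε, b) w)
    (hδ : ∀ r ∈ Ioo ρ b, √(1 - HH f A η w r) + δ
      ≤ ka η s r + (s - w.2 + A r * w.1) * Ph η s r) :
    (∫ r in (0 : ℝ)..ρ, ka η s r) + (b - ρ) * δ
      ≤ (∫ r in ε..ρ, √(1 - HH f A η w r)) - (s - w.2) * (∫ r in (0 : ℝ)..ρ, Ph η s r)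
        + w.1 * ((k * π + ∫ r in (0 : ℝ)..b, A r * Ph η s r)
          - ∫ r in (0 : ℝ)..ρ, A r * Ph η s r) := by
  have hb := D.b_pos
  have hρ0 : 0 ≤ ρ := hε.le.trans hρ
  have i1 := D.H.ii w ε ρ
  have i2 := D.H.ii w ρ b
  have k1 : IntervalIntegrable (ka η s) volume 0 ρ := D.ka_cont.intervalIntegrable _ _
  have k2 : IntervalIntegrable (ka η s) volume ρ b := D.ka_cont.intervalIntegrable _ _
  have p1 := D.Ph_ii' (u := 0) (v := ρ) (by linarith) hρ0 hρb
  have p2 := D.Ph_ii' (u := ρ) (v := b) (by linarith) hρb (le_refl b)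
  have a1 := D.Ph_ii (u := 0) (v := ρ) D.H.A_cont (by linarith) hρ0 hρb
  have a2 := D.Ph_ii (u := ρ) (v := b) D.H.A_cont (by linarith) hρb (le_refl b)
  have e1 := intervalIntegral.integral_add_adjacent_intervals i1 i2
  have e2 := intervalIntegral.integral_add_adjacent_intervals k1 k2
  have e3 := intervalIntegral.integral_add_adjacent_intervals p1 p2
  have e4 := intervalIntegral.integral_add_adjacent_intervals a1 a2
  have e5 := D.Ph_int
  have hm : (∫ r in ρ..b, (√(1 - HH f A η w r) + δ))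
      ≤ ∫ r in ρ..b, (ka η s r + ((s - w.2) * Ph η s r + w.1 * (A r * Ph η s r))) := by
    refine intervalIntegral.integral_mono_on_of_le_Ioo hρb (i2.add intervalIntegrable_const)
      (k2.add ((p2.const_mul _).add (a2.const_mul _))) (fun r hr => ?_)
    refine (hδ r hr).trans (le_of_eq ?_)
    ring
  rw [intervalIntegral.integral_add i2 intervalIntegrable_const,
    intervalIntegral.integral_add k2 ((p2.const_mul _).add (a2.const_mul _)),
    intervalIntegral.integral_add (p2.const_mul _) (a2.const_mul _),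
    intervalIntegral.integral_const_mul, intervalIntegral.integral_const_mul,
    intervalIntegral.integral_const, smul_eq_mul] at hm
  unfold FK at hD
  simp only at hD
  rw [← e1, ← e2] at hD
  have e3' : (∫ r in ρ..b, Ph η s r) = π - ∫ r in (0 : ℝ)..ρ, Ph η s r := by linarith
  rw [e3'] at hm
  have e4' : (∫ r in ρ..b, A r * Ph η s r)
      = (∫ r in (0 : ℝ)..b, A r * Ph η s r) - ∫ r in (0 : ℝ)..ρ, A r * Ph η s r := by
    linarith
  rw [e4'] at hm
  nlinarith

end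

/-- averages over small intervals -/
lemma avg {G : ℝ → ℝ} {g0 K : ℝ} (hG : HasDerivAt G g0 0) (hG0 : G 0 = 0) (hK : 0 < K)
    {e : ℕ → ℝ} (he : Tendsto e atTop (𝓝 0)) (hpos : ∀ n, 0 < e n) :
    Tendsto (fun n => G (e n * K) / e n) atTop (𝓝 (K * g0)) := by
  have h1 := hG.tendsto_slope_zero
  have h2 : Tendsto (fun n => e n * K) atTop (𝓝[≠] 0) := by
    rw [tendsto_nhdsWithin_iff]
    constructor
    · simpa using he.mul_const K
    · exact Eventually.of_forall fun n => (mul_pos (hpos n) hK).ne'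
  have h3 := (h1.comp h2).const_mul K
  refine h3.congr (fun n => ?_)
  have h4 := (hpos n).ne'
  have h5 := hK.ne'
  simp only [Function.comp, zero_add, hG0, sub_zero, smul_eq_mul]
  field_simp

/-- the derivative at `0` of a primitive -/
lemma prim {g : ℝ → ℝ} (hm : Measurable g) (hc : ContinuousAt g 0) :
    HasDerivAt (fun x => ∫ r in (0 : ℝ)..x, g r) (g 0) 0 :=
  intervalIntegral.integral_hasDerivAt_right (by simp)
    hm.stronglyMeasurable.stronglyMeasurableAtFilter hc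

lemma f_hasDerivAt (H : Profile L f A η) : HasDerivAt f 1 0 := by
  have := (H.f_diff 0).hasDerivAt
  rwa [H.deriv_zero] at this

/-- the limit of the norm under blow up -/
lemma HH_lim (H : Profile L f A η) {u q s : ℝ} (hu : 0 < u) {e : ℕ → ℝ} {w : ℕ → ℝ × ℝ}
    (he : Tendsto e atTop (𝓝 0)) (hpos : ∀ n, 0 < e n)
    (hq : Tendsto (fun n => (w n).1 / e n) atTop (𝓝 q))
    (hs : Tendsto (fun n => (w n).2) atTop (𝓝 s)) :
    Tendsto (fun n => HH f A η (w n) (e n * u)) atTop (𝓝 (q ^ 2 / u ^ 2 + s ^ 2 / η 0 ^ 2)) := by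
  have h1 : Tendsto (fun n => f (e n * u) / e n) atTop (𝓝 (u * 1)) :=
    avg (f_hasDerivAt H) H.f_zero hu he hpos
  rw [mul_one] at h1
  have h2 : Tendsto (fun n => e n * u) atTop (𝓝 0) := by simpa using he.mul_const u
  have h3 : Tendsto (fun n => A (e n * u)) atTop (𝓝 (A 0)) :=
    (H.A_cont.tendsto 0).comp h2
  have h4 : Tendsto (fun n => η (e n * u)) atTop (𝓝 (η 0)) :=
    (H.η_cont.tendsto 0).comp h2
  have h5 : Tendsto (fun n => (w n).1) atTop (𝓝 0) := by
    have := hq.mul he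
    rw [mul_zero] at this
    refine this.congr (fun n => ?_)
    exact div_mul_cancel₀ _ (hpos n).ne'
  have h6 : Tendsto (fun n => ((w n).1 / e n) ^ 2 / (f (e n * u) / e n) ^ 2) atTop
      (𝓝 (q ^ 2 / u ^ 2)) := (hq.pow 2).div (h1.pow 2) (pow_pos hu 2).ne'
  have h7 : Tendsto (fun n => ((w n).2 - A (e n * u) * (w n).1) ^ 2 / η (e n * u) ^ 2) atTop
      (𝓝 ((s - A 0 * 0) ^ 2 / η 0 ^ 2)) :=
    ((hs.sub (h3.mul h5)).pow 2).div (h4.pow 2) (pow_pos (H.η_pos 0) 2).ne'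
  rw [mul_zero, sub_zero] at h7
  refine (h6.add h7).congr (fun n => ?_)
  have h8 := (hpos n).ne'
  unfold HH
  congr 1
  by_cases h9 : f (e n * u) = 0
  · rw [h9]
    simp
  · field_simp

end AX2SAux

open AX2SAux in
/-- **Minima on the left axis, second part (blow up)** -/
theorem q_AX2 (haxe : Q_AXE) : Q_AX2 := by
  intro L f A η k b s H hb hbL hs hwell hint hex
  have D : Dat L f A η b s := ⟨H, hb, hbL, hs, hwell, hint⟩
  -- the sequences
  have hn0 : ∀ n : ℕ, 0 < b / ((n : ℝ) + 2) := fun n => by positivity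
  have hn1 : ∀ n : ℕ, b / ((n : ℝ) + 2) < b := fun n => by
    rw [div_lt_iff₀ (by positivity)]
    have : (0 : ℝ) ≤ n := Nat.cast_nonneg n
    nlinarith
  choose w0 hw0 hD0 using fun n : ℕ => hex (b / ((n : ℝ) + 2)) (hn0 n) (hn1 n)
  have he0 : Tendsto (fun n : ℕ => b / ((n : ℝ) + 2)) atTop (𝓝 0) := by
    refine tendsto_const_nhds.div_atTop ?_
    exact tendsto_atTop_add_const_right _ _ tendsto_natCast_atTop_atTop
  obtain ⟨R, hR⟩ := (t_CMP L f A η H).1
  have hRb : ∀ n, ‖w0 n‖ ≤ R := fun n =>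
    hR (b / ((n : ℝ) + 2), b) ⟨(hn0 n).le, (hn1 n).le, hbL.le⟩ (w0 n) (hw0 n)
  have hf1 : Tendsto (fun n : ℕ => f (b / ((n : ℝ) + 2) * 1) / (b / ((n : ℝ) + 2))) atTop
      (𝓝 (1 * 1)) := avg (f_hasDerivAt H) H.f_zero one_pos he0 hn0
  rw [mul_one] at hf1
  have hev : ∀ᶠ n : ℕ in atTop, ((w0 n).1 / (b / ((n : ℝ) + 2)), (w0 n).2) ∈
      Icc (-2 : ℝ) 2 ×ˢ Icc (-R) R := by
    filter_upwards [hf1.eventually (gt_mem_nhds (show (1 : ℝ) < 2 by norm_num))] with n hn
    rw [mul_one] at hn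
    have h1 : Adm f A η (w0 n) (b / ((n : ℝ) + 2)) :=
      hw0 n _ ⟨le_refl _, (hn1 n).le⟩
    have hfp := H.f_pos _ (hn0 n) ((hn1 n).trans hbL)
    have h2 := H.HH_le_one h1
    have hη := H.η_pos (b / ((n : ℝ) + 2))
    have h3 : (w0 n).1 ^ 2 / f (b / ((n : ℝ) + 2)) ^ 2 ≤ 1 := by
      unfold HH at h2
      have : 0 ≤ ((w0 n).2 - A (b / ((n : ℝ) + 2)) * (w0 n).1) ^ 2 / η (b / ((n : ℝ) + 2)) ^ 2 := by
        positivity
      linarith
    rw [div_le_one (by positivity)] at h3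
    have h4 : |(w0 n).1| ≤ f (b / ((n : ℝ) + 2)) := abs_le_of_sq_le_sq h3 hfp.le
    rw [div_lt_iff₀ (hn0 n)] at hn
    have h5 : |(w0 n).1 / (b / ((n : ℝ) + 2))| ≤ 2 := by
      rw [abs_div, abs_of_pos (hn0 n), div_le_iff₀ (hn0 n)]
      linarith
    have h6 : |(w0 n).2| ≤ R := by
      have := hRb n
      rw [Prod.norm_def] at this
      exact (le_max_right _ _).trans this
    exact ⟨abs_le.1 h5, abs_le.1 h6⟩
  obtain ⟨⟨q, s'⟩, -, φ, hφ, hlim⟩ :=
    (isCompact_Icc.prod isCompact_Icc).tendsto_subseq' hev.frequently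
  -- the subsequence
  have key1 : ∃ (e : ℕ → ℝ) (w : ℕ → ℝ × ℝ), (∀ n, 0 < e n) ∧ (∀ n, e n < b) ∧
      (∀ n, w n ∈ KK f A η (e n, b)) ∧
      (∀ n, (∫ r in (0 : ℝ)..b, ka η s r) + π * s ≤ FK f A η k (e n, b) (w n)) ∧
      Tendsto e atTop (𝓝 0) ∧ Tendsto (fun n => (w n).1 / e n) atTop (𝓝 q) ∧
      Tendsto (fun n => (w n).2) atTop (𝓝 s') := by
    refine ⟨fun n => b / ((φ n : ℝ) + 2), fun n => w0 (φ n), fun n => hn0 (φ n),
      fun n => hn1 (φ n), fun n => hw0 (φ n), fun n => hD0 (φ n),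
      he0.comp hφ.tendsto_atTop, ?_, ?_⟩
    · exact (continuous_fst.tendsto _).comp hlim
    · exact (continuous_snd.tendsto _).comp hlim
  obtain ⟨e, w, hpos, hlt, hw, hD, he, hq, hs'⟩ := key1
  have hp : Tendsto (fun n => (w n).1) atTop (𝓝 0) := by
    have := hq.mul he
    rw [mul_zero] at this
    refine this.congr (fun n => ?_)
    exact div_mul_cancel₀ _ (hpos n).ne'
  -- primitives
  have hκc := D.ka_cont
  have hΦm : Measurable (Ph η s) := by
    unfold Ph
    have := H.η_cont.measurable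
    exact (measurable_const.div (this.pow_const 2)).div
      (measurable_const.sub (measurable_const.div (this.pow_const 2))).sqrt
  have hκ0 : 0 < ka η s 0 := Real.sqrt_pos.2 (D.U_pos (by linarith) hb)
  have hΦc : ContinuousAt (Ph η s) 0 := by
    have h1 := H.η_cont.continuousAt (x := 0)
    have h2 := (pow_pos (H.η_pos 0) 2).ne'
    exact (continuousAt_const.div (h1.pow 2) h2).div hκc.continuousAt hκ0.ne'
  have d1 := prim hκc.measurable hκc.continuousAt
  have d2 := prim hΦm hΦc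
  have d3 := prim (g := fun r => A r * Ph η s r) (H.A_cont.measurable.mul hΦm)
    (H.A_cont.continuousAt.mul hΦc)
  have hGκ : Tendsto (fun x => ∫ r in (0 : ℝ)..x, ka η s r) (𝓝 0) (𝓝 0) := by
    have := d1.continuousAt.tendsto
    simpa using this
  have hGΦ : Tendsto (fun x => ∫ r in (0 : ℝ)..x, Ph η s r) (𝓝 0) (𝓝 0) := by
    have := d2.continuousAt.tendsto
    simpa using this
  have hGA : Tendsto (fun x => ∫ r in (0 : ℝ)..x, A r * Ph η s r) (𝓝 0) (𝓝 0) := by
    have := d3.continuousAt.tendsto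
    simpa using this
  -- first step: `s' = s`
  obtain ⟨RA, hRA⟩ : ∃ RA : ℝ, ∀ r ∈ Icc 0 b, |A r| ≤ RA := by
    obtain ⟨c, hc⟩ := isCompact_Icc.exists_bound_of_continuousOn
      (s := Icc 0 b) H.A_cont.continuousOn
    exact ⟨c, hc⟩
  obtain ⟨E, hE⟩ : ∃ E : ℝ, ∀ r ∈ Icc 0 b, |η r| ≤ E := by
    obtain ⟨c, hc⟩ := isCompact_Icc.exists_bound_of_continuousOn
      (s := Icc 0 b) H.η_cont.continuousOn
    exact ⟨c, hc⟩
  have hE0 : 0 < E := lt_of_lt_of_le (abs_pos.2 (H.η_pos 0).ne') (hE 0 ⟨le_refl _, hb.le⟩)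
  have hss : s' = s := by
    have h1 : ∀ n, (∫ r in (0 : ℝ)..(e n), ka η s r)
        + (b - e n) * ((((w n).2 - s) ^ 2 / 2 - RA ^ 2 * (w n).1 ^ 2) / (2 * E ^ 2))
        ≤ 0 - (s - (w n).2) * (∫ r in (0 : ℝ)..(e n), Ph η s r)
        + (w n).1 * ((k * π + ∫ r in (0 : ℝ)..b, A r * Ph η s r)
          - ∫ r in (0 : ℝ)..(e n), A r * Ph η s r) := by
      intro n
      have h2 := D.key (hpos n) (le_refl _) (hlt n).le (hD n)
        (δ := (((w n).2 - s) ^ 2 / 2 - RA ^ 2 * (w n).1 ^ 2) / (2 * E ^ 2)) (fun r hr => ?_)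
      · rwa [intervalIntegral.integral_same] at h2
      · have hr0 : 0 < r := (hpos n).trans hr.1
        have hadm := H.HH_le_one (hw n r ⟨hr.1.le, hr.2.le⟩)
        have h3 := pw H (D.U_pos (by linarith) hr.2) hadm
        refine le_trans (add_le_add (le_refl _) ?_) h3
        have hη := H.η_pos r
        have h4 := hRA r ⟨hr0.le, hr.2.le⟩
        have h5 : η r ≤ E := (le_abs_self _).trans (hE r ⟨hr0.le, hr.2.le⟩)
        have h6 : A r ^ 2 ≤ RA ^ 2 := by
          rw [← sq_abs]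
          exact pow_le_pow_left₀ (abs_nonneg _) h4 2
        have h7 : ((w n).2 - s) ^ 2 / 2 - RA ^ 2 * (w n).1 ^ 2
            ≤ ((w n).2 - A r * (w n).1 - s) ^ 2 := by
          nlinarith [sq_nonneg ((w n).2 - s - 2 * (A r * (w n).1)),
            mul_le_mul_of_nonneg_right h6 (sq_nonneg (w n).1)]
        calc (((w n).2 - s) ^ 2 / 2 - RA ^ 2 * (w n).1 ^ 2) / (2 * E ^ 2)
            ≤ ((w n).2 - A r * (w n).1 - s) ^ 2 / (2 * E ^ 2) := by gcongr
          _ ≤ ((w n).2 - A r * (w n).1 - s) ^ 2 / (2 * η r ^ 2) := by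
              apply div_le_div_of_nonneg_left (sq_nonneg _) (by positivity)
              nlinarith
    have l1 : Tendsto (fun n => (∫ r in (0 : ℝ)..(e n), ka η s r)
        + (b - e n) * ((((w n).2 - s) ^ 2 / 2 - RA ^ 2 * (w n).1 ^ 2) / (2 * E ^ 2))) atTop
        (𝓝 (0 + (b - 0) * (((s' - s) ^ 2 / 2 - RA ^ 2 * 0 ^ 2) / (2 * E ^ 2)))) := by
      refine (hGκ.comp he).add ((tendsto_const_nhds.sub he).mul (Tendsto.div_const ?_ _))
      exact (((hs'.sub_const s).pow 2).div_const 2).sub ((hp.pow 2).const_mul _)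
    have l2 : Tendsto (fun n => 0 - (s - (w n).2) * (∫ r in (0 : ℝ)..(e n), Ph η s r)
        + (w n).1 * ((k * π + ∫ r in (0 : ℝ)..b, A r * Ph η s r)
          - ∫ r in (0 : ℝ)..(e n), A r * Ph η s r)) atTop
        (𝓝 (0 - (s - s') * 0 + 0 * ((k * π + ∫ r in (0 : ℝ)..b, A r * Ph η s r) - 0))) := by
      refine (tendsto_const_nhds.sub ((tendsto_const_nhds.sub hs').mul (hGΦ.comp he))).add
        (hp.mul (tendsto_const_nhds.sub (hGA.comp he)))
    have l3 := le_of_tendsto_of_tendsto' l1 l2 h1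
    have l4 : b * ((s' - s) ^ 2 / 2 / (2 * E ^ 2)) ≤ 0 := by
      have : (0 : ℝ) + (b - 0) * (((s' - s) ^ 2 / 2 - RA ^ 2 * 0 ^ 2) / (2 * E ^ 2))
        = b * ((s' - s) ^ 2 / 2 / (2 * E ^ 2)) := by ring
      rw [this] at l3
      simpa using l3
    by_contra hne
    have h8 : 0 < (s' - s) ^ 2 := by
      have : s' - s ≠ 0 := sub_ne_zero.2 hne
      positivity
    have h9 : 0 < b * ((s' - s) ^ 2 / 2 / (2 * E ^ 2)) := by positivity
    linarith
  subst hss
  -- the limit of the norm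
  have hHH : ∀ u : ℝ, 0 < u → Tendsto (fun n => HH f A η (w n) (e n * u)) atTop
      (𝓝 (q ^ 2 / u ^ 2 + s' ^ 2 / η 0 ^ 2)) := fun u hu => HH_lim H hu he hpos hq hs'
  have hκ2 : ka η s' 0 ^ 2 = 1 - s' ^ 2 / η 0 ^ 2 :=
    Real.sq_sqrt (D.U_pos (by linarith) hb).le
  set κ0 := ka η s' 0 with hκ0d
  set ψ := k * π + ∫ r in (0 : ℝ)..b, A r * Ph η s' r with hψ
  have hqκ : q ^ 2 ≤ κ0 ^ 2 := by
    have h1 := hHH 1 one_pos
    have h2 := le_of_tendsto' h1 (fun n => by
      rw [mul_one]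
      exact H.HH_le_one (hw n (e n) ⟨le_refl _, (hlt n).le⟩))
    rw [one_pow, div_one] at h2
    linarith
  refine haxe (q / κ0) ψ ?_ (fun K hK => ?_)
  · rw [abs_div, abs_of_pos hκ0, div_le_one hκ0]
    exact abs_le_of_sq_le_sq hqκ hκ0.le
  · have hK0 : 0 < K := by linarith
    -- the inequality for large `n`
    have hev2 : ∀ᶠ n in atTop, (∫ r in (0 : ℝ)..(e n * K), ka η s' r) / e n
        ≤ (∫ u in (1 : ℝ)..K, √(1 - HH f A η (w n) (e n * u)))
          - (s' - (w n).2) * ((∫ r in (0 : ℝ)..(e n * K), Ph η s' r) / e n)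
          + (w n).1 / e n * (ψ - ∫ r in (0 : ℝ)..(e n * K), A r * Ph η s' r) := by
      have h1 : Tendsto (fun n => e n * K) atTop (𝓝 0) := by simpa using he.mul_const K
      filter_upwards [h1.eventually (gt_mem_nhds hb)] with n hn
      have hen := hpos n
      have h2 := D.key (k := k) (ρ := e n * K) (δ := 0) hen (by nlinarith) hn.le (hD n)
        (fun r hr => ?_)
      · rw [mul_zero, add_zero] at h2
        have h3 : (∫ u in (1 : ℝ)..K, √(1 - HH f A η (w n) (e n * u)))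
            = (∫ r in (e n)..(e n * K), √(1 - HH f A η (w n) r)) / e n := by
          rw [intervalIntegral.integral_comp_mul_left (fun r => √(1 - HH f A η (w n) r))
            hen.ne', mul_one, smul_eq_mul]
          rw [div_eq_inv_mul]
        rw [h3]
        have h4 := div_le_div_of_nonneg_right h2 hen.le
        refine h4.trans (le_of_eq ?_)
        rw [← hψ]
        ring
      · have hr0 : 0 < r := lt_trans (mul_pos hen hK0) hr.1
        have hr1 : e n ≤ r := le_trans (by nlinarith) hr.1.le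
        have hadm := H.HH_le_one (hw n r ⟨hr1, hr.2.le⟩)
        have h3 := pw H (D.U_pos (by linarith) hr.2) hadm
        have h4 : 0 ≤ ((w n).2 - A r * (w n).1 - s') ^ 2 / (2 * η r ^ 2) := by positivity
        unfold ka Ph
        linarith
    -- limits
    have l1 := avg (K := K) d1 (by simp) hK0 he hpos
    have l2 := avg (K := K) d2 (by simp) hK0 he hpos
    have l3 : Tendsto (fun n => ∫ r in (0 : ℝ)..(e n * K), A r * Ph η s' r) atTop (𝓝 0) := by
      have h1 : Tendsto (fun n => e n * K) atTop (𝓝 0) := by simpa using he.mul_const K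
      exact hGA.comp h1
    have l4 : Tendsto (fun n => ∫ u in (1 : ℝ)..K, √(1 - HH f A η (w n) (e n * u))) atTop
        (𝓝 (∫ u in (1 : ℝ)..K, √(1 - (q ^ 2 / u ^ 2 + s' ^ 2 / η 0 ^ 2)))) := by
      refine intervalIntegral.tendsto_integral_filter_of_dominated_convergence
        (fun _ => (1 : ℝ)) (Eventually.of_forall fun n => ?_) (Eventually.of_forall fun n => ?_)
        intervalIntegrable_const (ae_of_all _ fun u hu => ?_)
      · have h1 : Measurable (fun u : ℝ => HH f A η (w n) (e n * u)) :=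
          (H.HH_meas (w n)).comp (measurable_const.mul measurable_id)
        exact (measurable_const.sub h1).sqrt.aestronglyMeasurable
      · refine ae_of_all _ fun u _ => ?_
        rw [Real.norm_of_nonneg (Real.sqrt_nonneg _)]
        exact sqrt_le_one _ _
      · rw [uIoc_of_le hK.le] at hu
        have hu0 : 0 < u := lt_trans one_pos hu.1
        exact (Real.continuous_sqrt.tendsto _).comp (tendsto_const_nhds.sub (hHH u hu0))
    have l0 : Tendsto (fun _ : ℕ => s') atTop (𝓝 s') := tendsto_const_nhds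
    have l0' : Tendsto (fun _ : ℕ => ψ) atTop (𝓝 ψ) := tendsto_const_nhds
    have l5 := (l4.sub ((l0.sub hs').mul l2)).add (hq.mul (l0'.sub l3))
    have l6 := le_of_tendsto_of_tendsto l1 l5 hev2
    rw [sub_self, zero_mul, sub_zero, sub_zero] at l6
    have l7 : (∫ u in (1 : ℝ)..K, √(1 - (q ^ 2 / u ^ 2 + s' ^ 2 / η 0 ^ 2)))
        = κ0 * ∫ u in (1 : ℝ)..K, √(1 - (q / κ0) ^ 2 / u ^ 2) := by
      rw [← intervalIntegral.integral_const_mul]
      refine intervalIntegral.integral_congr (fun u hu => ?_)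
      rw [uIcc_of_le hK.le] at hu
      have hu0 : 0 < u := lt_of_lt_of_le one_pos hu.1
      have h1 : 1 - (q ^ 2 / u ^ 2 + s' ^ 2 / η 0 ^ 2)
          = κ0 ^ 2 * (1 - (q / κ0) ^ 2 / u ^ 2) := by
        have h2 : κ0 ^ 2 * ((q / κ0) ^ 2 / u ^ 2) = q ^ 2 / u ^ 2 := by
          have := hκ0.ne'
          field_simp
        rw [mul_sub, h2, hκ2]
        ring
      change √(1 - (q ^ 2 / u ^ 2 + s' ^ 2 / η 0 ^ 2)) = κ0 * √(1 - (q / κ0) ^ 2 / u ^ 2)
      rw [h1, Real.sqrt_mul (sq_nonneg _), Real.sqrt_sq hκ0.le]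
    rw [l7] at l6
    have l8 : K * κ0 ≤ ((∫ u in (1 : ℝ)..K, √(1 - (q / κ0) ^ 2 / u ^ 2)) + q / κ0 * ψ) * κ0 := by
      have h1 : q / κ0 * ψ * κ0 = q * ψ := by
        have := hκ0.ne'
        field_simp
      rw [add_mul, h1]
      linarith
    exact le_of_mul_le_mul_right l8 hκ0

end TSP
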