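import Pool.Agent.TSP.StmtsS

/-!
# Torus-invariant metrics: the geodesic through the axis (`Q_AX3`)
-/

set_option autoImplicit false

namespace TSP

open Set MeasureTheory Real Filter Topology

namespace AX3SAux

section well

variable {U : ℝ → ℝ} {b : ℝ}

lemma rho_sym (φ : ℝ) : SGR.rho (-b) b φ = b * sin φ := by
  unfold SGR.rho
  ring

lemma rho_add_pi (φ : ℝ) : SGR.rho (-b) b (φ + π) = - SGR.rho (-b) b φ := by
  rw [rho_sym, rho_sym, sin_add_pi]
  ring

lemma wq_even_Ioo (hw : SGR.Well U (-b) b) (hU : ∀ x, U (-x) = U x) {x : ℝ}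
    (hx : x ∈ Ioo (-b) b) : SGR.wq U (-b) b (-x) = SGR.wq U (-b) b x := by
  have h1 := hw.eq_mul x
  have h2 := hw.eq_mul (-x)
  rw [hU, h1] at h2
  have h3 : (x - -b) * (b - x) ≠ 0 := by
    have h4 : 0 < x - -b := by linarith [hx.1]
    have h5 : 0 < b - x := by linarith [hx.2]
    positivity
  have h6 : (x - -b) * (b - x) * SGR.wq U (-b) b x =
      (x - -b) * (b - x) * SGR.wq U (-b) b (-x) := by
    rw [h2]
    ring
  exact (mul_left_cancel₀ h3 h6).symm

lemma wq_end (hw : SGR.Well U (-b) b) (hU : ∀ x, U (-x) = U x) :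
    SGR.wq U (-b) b (-b) = SGR.wq U (-b) b b := by
  have hlt := hw.lt
  have hb : 0 < b := by linarith
  have c1 : Tendsto (SGR.wq U (-b) b) (𝓝[<] b) (𝓝 (SGR.wq U (-b) b b)) :=
    (hw.wq_continuousAt (right_mem_Icc.2 hlt.le)).tendsto.mono_left nhdsWithin_le_nhds
  have c2 : Tendsto (fun x => SGR.wq U (-b) b (-x)) (𝓝[<] b) (𝓝 (SGR.wq U (-b) b (-b))) := by
    have h1 : ContinuousAt (fun x => SGR.wq U (-b) b (-x)) b :=
      ContinuousAt.comp (g := SGR.wq U (-b) b) (f := fun x : ℝ => -x)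
        (hw.wq_continuousAt (left_mem_Icc.2 hlt.le)) continuous_neg.continuousAt
    exact h1.tendsto.mono_left nhdsWithin_le_nhds
  have ev : ∀ᶠ x in 𝓝[<] b, SGR.wq U (-b) b (-x) = SGR.wq U (-b) b x := by
    filter_upwards [Ioo_mem_nhdsLT hlt] with x hx
    exact wq_even_Ioo hw hU hx
  exact tendsto_nhds_unique c2 (c1.congr' (ev.mono fun x hx => hx.symm))

lemma wq_even (hw : SGR.Well U (-b) b) (hU : ∀ x, U (-x) = U x) {x : ℝ}
    (hx : x ∈ Icc (-b) b) : SGR.wq U (-b) b (-x) = SGR.wq U (-b) b x := by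
  rcases eq_or_lt_of_le hx.1 with h1 | h1
  · rw [← h1, neg_neg]
    exact (wq_end hw hU).symm
  rcases eq_or_lt_of_le hx.2 with h2 | h2
  · rw [h2]
    exact wq_end hw hU
  exact wq_even_Ioo hw hU ⟨h1, h2⟩

lemma wQ_add_pi (hw : SGR.Well U (-b) b) (hU : ∀ x, U (-x) = U x) (φ : ℝ) :
    SGR.wQ U (-b) b (φ + π) = SGR.wQ U (-b) b φ := by
  unfold SGR.wQ
  rw [rho_add_pi, wq_even hw hU (SGR.rho_mem hw.lt φ)]

lemma inv_periodic (hw : SGR.Well U (-b) b) (hU : ∀ x, U (-x) = U x) :
    Function.Periodic (fun s => 1 / SGR.wQ U (-b) b s) π := by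
  intro s
  simp only [wQ_add_pi hw hU]

lemma half_int (hw : SGR.Well U (-b) b) (hU : ∀ x, U (-x) = U x) :
    ∫ s in (0 : ℝ)..π, 1 / SGR.wQ U (-b) b s = SGR.per U (-b) b / 2 := by
  have h1 := (inv_periodic hw hU).intervalIntegral_add_eq π 0
  rw [zero_add] at h1
  have h2 := intervalIntegral.integral_add_adjacent_intervals
    (hw.inv_continuous.intervalIntegrable 0 π) (hw.inv_continuous.intervalIntegrable π (π + π))
    (μ := volume)
  rw [h1] at h2
  unfold SGR.per
  rw [two_mul, ← h2]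
  ring

lemma tau_add_pi (hw : SGR.Well U (-b) b) (hU : ∀ x, U (-x) = U x) (φ : ℝ) :
    SGR.tau U (-b) b (φ + π) = SGR.tau U (-b) b φ + SGR.per U (-b) b / 2 := by
  have h1 := (inv_periodic hw hU).intervalIntegral_add_eq φ 0
  rw [zero_add, half_int hw hU] at h1
  unfold SGR.tau
  rw [← intervalIntegral.integral_add_adjacent_intervals
    (hw.inv_continuous.intervalIntegrable 0 φ) (hw.inv_continuous.intervalIntegrable φ _), h1]

lemma phase_half (hw : SGR.Well U (-b) b) (hU : ∀ x, U (-x) = U x) (t : ℝ) :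
    hw.phase (t + SGR.per U (-b) b / 2) = hw.phase t + π := by
  apply hw.tau_strictMono.injective
  rw [hw.tau_phase, tau_add_pi hw hU, hw.tau_phase]

lemma sol_half (hw : SGR.Well U (-b) b) (hU : ∀ x, U (-x) = U x) (t : ℝ) :
    hw.sol (t + SGR.per U (-b) b / 2) = - hw.sol t := by
  unfold SGR.Well.sol
  rw [phase_half hw hU, rho_add_pi]

lemma ang_half (hw : SGR.Well U (-b) b) (hU : ∀ x, U (-x) = U x) {P : ℝ → ℝ}
    (hP : ContinuousOn P (Icc (-b) b)) (hPe : ∀ x, P (-x) = P x) (t : ℝ) :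
    DWS.ang hw P (t + SGR.per U (-b) b / 2) = DWS.ang hw P t + ∫ x in Ioo (-b) b, P x / √(U x) := by
  have hc := DWS.comp_cont hw hP
  have hp : Function.Periodic (fun s => P (hw.sol s)) (SGR.per U (-b) b / 2) := by
    intro s
    simp only [sol_half hw hU, hPe]
  have h2 := hp.intervalIntegral_add_eq t 0
  rw [zero_add] at h2
  have h3 := hp.intervalIntegral_add_eq (SGR.per U (-b) b / 2) 0
  rw [zero_add] at h3
  have h4 := intervalIntegral.integral_add_adjacent_intervals
    (hc.intervalIntegrable 0 (SGR.per U (-b) b / 2))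
    (hc.intervalIntegrable (SGR.per U (-b) b / 2) (SGR.per U (-b) b / 2 + SGR.per U (-b) b / 2))
    (μ := volume)
  rw [h3, add_halves, hw.integral_period hP] at h4
  have h5 : ∫ s in (0 : ℝ)..(SGR.per U (-b) b / 2), P (hw.sol s) =
      ∫ x in Ioo (-b) b, P x / √(U x) := by linarith
  unfold DWS.ang
  rw [← intervalIntegral.integral_add_adjacent_intervals (hc.intervalIntegrable 0 t)
    (hc.intervalIntegrable t _), h2, h5]

end well

end AX3SAux

open AX3SAux in
theorem q_AX3 : Q_AX3 := by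
  intro L f A η b s j H hb hbL hw hQ hA
  have hUe : ∀ x, (fun r => 1 - s ^ 2 / η r ^ 2) (-x) = (fun r => 1 - s ^ 2 / η r ^ 2) x := by
    intro x
    simp only [H.η_even]
  have hηc : ∀ x, ContDiffAt ℝ (⊤ : ℕ∞) (fun y => s / η y ^ 2) x := fun x =>
    contDiffAt_const.div (H.smooth_η.contDiffAt.pow 2) (pow_ne_zero 2 (H.η_pos x).ne')
  have hPs : ∀ x, ContDiffAt ℝ (⊤ : ℕ∞) (fun y => -(A y * (s / η y ^ 2))) x := fun x =>
    (H.smooth_A.contDiffAt.mul (hηc x)).neg
  have hQc : ContinuousOn (fun y => s / η y ^ 2) (Icc (-b) b) := fun x _ =>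
    (hηc x).continuousAt.continuousWithinAt
  have hPc : ContinuousOn (fun y => -(A y * (s / η y ^ 2))) (Icc (-b) b) := fun x _ =>
    (hPs x).continuousAt.continuousWithinAt
  have hlt : -b < b := by linarith
  have toIoo : ∀ g : ℝ → ℝ, ∫ x in Ioo (-b) b, g x = ∫ x in (-b)..b, g x := by
    intro g
    rw [intervalIntegral.integral_of_le hlt.le, integral_Ioc_eq_integral_Ioo]
  have iQ : ∫ x in Ioo (-b) b, s / η x ^ 2 / √(1 - s ^ 2 / η x ^ 2) = 2 * π := by
    rw [toIoo, hQ]
  have iP : ∫ x in Ioo (-b) b, -(A x * (s / η x ^ 2)) / √(1 - s ^ 2 / η x ^ 2) =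
      -((2 * j + 1) * π) := by
    rw [← hA, toIoo, ← intervalIntegral.integral_neg]
    congr 1
    funext x
    ring
  have hηd : ∀ x, HasDerivAt (fun y => 1 - s ^ 2 / η y ^ 2)
      (2 * s ^ 2 * deriv η x / η x ^ 3) x := by
    intro x
    have hη := (H.η_pos x).ne'
    have h1 : HasDerivAt η (deriv η x) x :=
      ((H.smooth_η.differentiable (by simp)) x).hasDerivAt
    have h2 := ((hasDerivAt_const x (s ^ 2)).div (h1.pow 2) (pow_ne_zero 2 hη)).const_sub 1
    refine h2.congr_deriv ?_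
    simp only [Nat.cast_ofNat, Pi.pow_apply]
    field_simp
    ring
  refine ⟨hw.sol, DWS.ang hw (fun y => -(A y * (s / η y ^ 2))),
    DWS.ang hw (fun y => s / η y ^ 2), SGR.per (fun r => 1 - s ^ 2 / η r ^ 2) (-b) b / 2,
    ?_, ?_, ?_⟩
  · refine GEOAux.geodesic_of (s := s) (v := hw.vel)
      (w := fun t => deriv (fun r => 1 - s ^ 2 / η r ^ 2) (hw.sol t) / 2)
      (p := fun t => -(A (hw.sol t) * (s / η (hw.sol t) ^ 2)))
      (q := fun t => s / η (hw.sol t) ^ 2) (p1 := fun _ => 0) (p1' := fun _ => 0)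
      hw.sol_contDiff (DWS.ang_contDiff hw fun x _ => hPs x)
      (DWS.ang_contDiff hw fun x _ => hηc x) hw.sol_hasDerivAt
      hw.vel_hasDerivAt (DWS.ang_hasDerivAt hw hPc) (DWS.ang_hasDerivAt hw hQc) ?_ ?_ ?_ ?_ ?_ ?_
      <;> intro t
    · ring
    · exact hasDerivAt_const t 0
    · have hη := (H.η_pos (hw.sol t)).ne'
      rw [hw.vel_sq]
      field_simp
      ring
    · have hη := (H.η_pos (hw.sol t)).ne'
      rw [(hηd (hw.sol t)).deriv]
      field_simp
      ring
    · simp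
    · have hη := (H.η_pos (hw.sol t)).ne'
      field_simp
      ring
  · refine ⟨half_pos hw.per_pos, fun t => ?_⟩
    have hθ := ang_half hw hUe hPc (by intro x; simp only [H.A_even, H.η_even]) t
    have hφ := ang_half hw hUe hQc (by intro x; simp only [H.η_even]) t
    rw [iP] at hθ
    rw [iQ] at hφ
    unfold point
    rw [sol_half hw hUe, hθ, hφ]
    have e1 : Complex.exp ((DWS.ang hw (fun y => s / η y ^ 2) t + 2 * π : ℝ) * Complex.I) =
        Complex.exp ((DWS.ang hw (fun y => s / η y ^ 2) t : ℝ) * Complex.I) :=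
      GEOAux.exp_add_int _ _ 1 (by push_cast; ring)
    have e2 : Complex.exp ((DWS.ang hw (fun y => -(A y * (s / η y ^ 2))) t +
        -((2 * j + 1) * π) : ℝ) * Complex.I) =
        - Complex.exp ((DWS.ang hw (fun y => -(A y * (s / η y ^ 2))) t : ℝ) * Complex.I) := by
      have e3 : Complex.exp ((DWS.ang hw (fun y => -(A y * (s / η y ^ 2))) t +
          -((2 * j + 1) * π) : ℝ) * Complex.I) =
          Complex.exp ((DWS.ang hw (fun y => -(A y * (s / η y ^ 2))) t + π : ℝ) * Complex.I) :=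
        GEOAux.exp_add_int _ _ (-j - 1) (by push_cast; ring)
      rw [e3]
      push_cast
      rw [add_mul, Complex.exp_add, Complex.exp_pi_mul_I]
      ring
    have e4 : sin (π * (-hw.sol t) / L) = - sin (π * hw.sol t / L) := by
      rw [← sin_neg]
      congr 1
      ring
    have e5 : cos (π * (-hw.sol t) / L) = cos (π * hw.sol t / L) := by
      rw [← cos_neg]
      congr 1
      ring
    rw [e1, e2, e4, e5]
    push_cast
    rw [neg_mul_neg]
  · rw [DWS.per_eq hw, mul_div_cancel_left₀ _ (two_ne_zero)]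
    have hUc : Continuous (fun r => 1 - s ^ 2 / η r ^ 2) := by
      refine continuous_const.sub (continuous_const.div (H.smooth_η.continuous.pow 2) ?_)
      intro x
      exact pow_ne_zero 2 (H.η_pos x).ne'
    have hsc : Continuous (fun r => √(1 - s ^ 2 / η r ^ 2)) := Real.continuous_sqrt.comp hUc
    have i1 : IntervalIntegrable (fun r => √(1 - s ^ 2 / η r ^ 2)) volume (-b) b :=
      hsc.intervalIntegrable _ _
    have i2 : IntervalIntegrable (fun r => s / η r ^ 2 / √(1 - s ^ 2 / η r ^ 2)) volume (-b) b := by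
      rw [intervalIntegrable_iff_integrableOn_Ioo_of_le hlt.le]
      exact hw.integrableOn hQc
    have e6 : ∫ x in Ioo (-b) b, 1 / √(1 - s ^ 2 / η x ^ 2) =
        ∫ x in (-b)..b, (√(1 - s ^ 2 / η x ^ 2) + s * (s / η x ^ 2 / √(1 - s ^ 2 / η x ^ 2))) := by
      rw [← toIoo]
      refine setIntegral_congr_fun measurableSet_Ioo ?_
      intro x hx
      have hp : 0 < 1 - s ^ 2 / η x ^ 2 := hw.pos x hx
      have hs := Real.sqrt_pos.2 hp
      have hsq : √(1 - s ^ 2 / η x ^ 2) ^ 2 = 1 - s ^ 2 / η x ^ 2 := Real.sq_sqrt hp.le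
      simp only
      rw [div_eq_iff hs.ne', add_mul, ← pow_two, hsq]
      have e7 : s * (s / η x ^ 2 / √(1 - s ^ 2 / η x ^ 2)) * √(1 - s ^ 2 / η x ^ 2) =
          s ^ 2 / η x ^ 2 := by
        rw [mul_assoc, div_mul_cancel₀ _ hs.ne']
        ring
      rw [e7]
      ring
    rw [e6, intervalIntegral.integral_add i1 (i2.const_mul s), intervalIntegral.integral_const_mul,
      hQ]
    have e8 : ∫ x in (-b)..b, √(1 - s ^ 2 / η x ^ 2) =
        2 * ∫ x in (0 : ℝ)..b, √(1 - s ^ 2 / η x ^ 2) := by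
      rw [← intervalIntegral.integral_add_adjacent_intervals (hsc.intervalIntegrable (-b) 0)
        (hsc.intervalIntegrable 0 b)]
      have e9 : ∫ x in (-b)..(0 : ℝ), √(1 - s ^ 2 / η x ^ 2) =
          ∫ x in (0 : ℝ)..b, √(1 - s ^ 2 / η x ^ 2) := by
        have := intervalIntegral.integral_comp_neg (a := 0) (b := b)
          (fun x => √(1 - s ^ 2 / η x ^ 2))
        rw [neg_zero] at this
        rw [← this]
        refine intervalIntegral.integral_congr fun x _ => ?_
        simp only [H.η_even]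
      rw [e9]
      ring
    rw [e8]
    ring

end TSP
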