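import Pool.Agent.TSP.StmtsS

/-!
# An elementary inequality (`Q_AXE`)

`∫_1^K √(1 - σ²/u²) ≤ √(K² - 1) - σ arccos (1/K)` for `0 ≤ σ ≤ 1` (comparison of derivatives), so
the hypothesis gives `σ arccos (1/K) ≤ σ ψ` for all `K > 1`, and `K → ∞`.
-/

set_option autoImplicit false

namespace TSP

open Set MeasureTheory Real Filter Topology

namespace AXESAux

/-- the pointwise inequality between the integrand and the derivative of the antiderivative -/
theorem ptw {σ u : ℝ} (h1 : σ ≤ 1) (hu : 1 < u) :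
    √(1 - σ ^ 2 / u ^ 2) ≤ u / √(u ^ 2 - 1) - σ * (1 / (u * √(u ^ 2 - 1))) := by
  have hu0 : 0 < u := by linarith
  have hq : 0 < u ^ 2 - 1 := by nlinarith
  have hs : 0 < √(u ^ 2 - 1) := Real.sqrt_pos.mpr hq
  have hs2 : √(u ^ 2 - 1) ^ 2 = u ^ 2 - 1 := Real.sq_sqrt hq.le
  have hn : 0 ≤ u ^ 2 - σ := by nlinarith
  have e1 : u / √(u ^ 2 - 1) - σ * (1 / (u * √(u ^ 2 - 1))) = (u ^ 2 - σ) / (u * √(u ^ 2 - 1)) := by
    field_simp
  rw [e1]
  apply Real.sqrt_le_iff.mpr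
  refine ⟨by positivity, ?_⟩
  have e2 : ((u ^ 2 - σ) / (u * √(u ^ 2 - 1))) ^ 2 = (u ^ 2 - σ) ^ 2 / (u ^ 2 * (u ^ 2 - 1)) := by
    rw [div_pow, mul_pow, hs2]
  rw [e2, le_div_iff₀ (by positivity)]
  have e3 : (1 - σ ^ 2 / u ^ 2) * (u ^ 2 * (u ^ 2 - 1)) = (u ^ 2 - σ ^ 2) * (u ^ 2 - 1) := by
    field_simp
  rw [e3]
  nlinarith [mul_nonneg (sq_nonneg u) (sq_nonneg (1 - σ))]

/-- the derivative of `√(u² - 1) - σ arccos (1/u)` -/
theorem hder (σ : ℝ) {u : ℝ} (hu : 1 < u) :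
    HasDerivAt (fun x : ℝ => √(x ^ 2 - 1) - σ * arccos (1 / x))
      (u / √(u ^ 2 - 1) - σ * (1 / (u * √(u ^ 2 - 1)))) u := by
  have hu0 : 0 < u := by linarith
  have hq : 0 < u ^ 2 - 1 := by nlinarith
  have hs : 0 < √(u ^ 2 - 1) := Real.sqrt_pos.mpr hq
  have h1 : HasDerivAt (fun x : ℝ => x ^ 2 - 1) (2 * u) u := by
    simpa using (hasDerivAt_pow 2 u).sub_const (1 : ℝ)
  have h2 : HasDerivAt (fun x : ℝ => √(x ^ 2 - 1)) (2 * u / (2 * √(u ^ 2 - 1))) u :=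
    h1.sqrt hq.ne'
  have h3 : HasDerivAt (fun x : ℝ => 1 / x) (-(u ^ 2)⁻¹) u := by
    simpa [one_div] using hasDerivAt_inv hu0.ne'
  have hx1 : (1 : ℝ) / u ≠ -1 := by
    have : 0 < 1 / u := by positivity
    linarith
  have hx2 : (1 : ℝ) / u ≠ 1 := by
    have : 1 / u < 1 := by rw [div_lt_one hu0]; exact hu
    linarith
  have h4 : HasDerivAt (fun x : ℝ => arccos (1 / x)) (-(1 / √(1 - (1 / u) ^ 2)) * -(u ^ 2)⁻¹) u :=
    (Real.hasDerivAt_arccos hx1 hx2).comp u h3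
  have h5 := h2.sub (h4.const_mul σ)
  have e1 : √(1 - (1 / u) ^ 2) = √(u ^ 2 - 1) / u := by
    have : 1 - (1 / u) ^ 2 = (u ^ 2 - 1) / u ^ 2 := by field_simp
    rw [this, Real.sqrt_div hq.le, Real.sqrt_sq hu0.le]
  have e2 : u / √(u ^ 2 - 1) - σ * (1 / (u * √(u ^ 2 - 1)))
      = 2 * u / (2 * √(u ^ 2 - 1)) - σ * (-(1 / √(1 - (1 / u) ^ 2)) * -(u ^ 2)⁻¹) := by
    rw [e1]
    field_simp
  rw [e2]
  exact h5

/-- the integral is at most the value of the antiderivative -/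
theorem int_le {σ K : ℝ} (h1 : σ ≤ 1) (hK : 1 < K) :
    (∫ u in (1 : ℝ)..K, √(1 - σ ^ 2 / u ^ 2)) ≤ √(K ^ 2 - 1) - σ * arccos (1 / K) := by
  have hcg : ContinuousOn (fun x : ℝ => √(x ^ 2 - 1) - σ * arccos (1 / x)) (Icc 1 K) := by
    apply ContinuousOn.sub
    · fun_prop
    · apply ContinuousOn.mul continuousOn_const
      apply Real.continuous_arccos.comp_continuousOn
      apply ContinuousOn.div continuousOn_const continuousOn_id
      intro x hx
      have : (1 : ℝ) ≤ x := hx.1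
      simp only [id]
      linarith
  have hcf : ContinuousOn (fun u : ℝ => √(1 - σ ^ 2 / u ^ 2)) (Icc 1 K) := by
    apply ContinuousOn.sqrt
    apply ContinuousOn.sub continuousOn_const
    apply ContinuousOn.div continuousOn_const (by fun_prop)
    intro x hx
    have : (1 : ℝ) ≤ x := hx.1
    positivity
  have h := intervalIntegral.integral_le_sub_of_hasDeriv_right_of_le hK.le hcg
    (g' := fun u => u / √(u ^ 2 - 1) - σ * (1 / (u * √(u ^ 2 - 1))))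
    (fun x hx => (hder σ hx.1).hasDerivWithinAt) (hcf.integrableOn_Icc)
    (fun x hx => ptw h1 hx.1)
  simpa using h

theorem main_abs {σ ψ : ℝ} (h0 : 0 ≤ σ) (h1 : σ ≤ 1)
    (h : ∀ K : ℝ, 1 < K → K ≤ (∫ u in (1 : ℝ)..K, √(1 - σ ^ 2 / u ^ 2)) + σ * ψ) :
    π / 2 ≤ ψ := by
  have key : ∀ K : ℝ, 1 < K → σ * arccos (1 / K) ≤ σ * ψ := by
    intro K hK
    have a1 := h K hK
    have a2 := int_le h1 hK
    have a3 : √(K ^ 2 - 1) ≤ K := Real.sqrt_le_iff.mpr ⟨by linarith, by linarith⟩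
    linarith
  have hσ : 0 < σ := by
    rcases h0.lt_or_eq with h2 | h2
    · exact h2
    · exfalso
      have a1 := h 2 (by norm_num)
      rw [← h2] at a1
      norm_num at a1
  have key2 : ∀ K : ℝ, 1 < K → arccos (1 / K) ≤ ψ := fun K hK =>
    le_of_mul_le_mul_left (key K hK) hσ
  have lim : Tendsto (fun K : ℝ => arccos (1 / K)) atTop (𝓝 (π / 2)) := by
    have a1 : Tendsto (fun K : ℝ => 1 / K) atTop (𝓝 0) := by
      simpa [one_div] using tendsto_inv_atTop_zero (𝕜 := ℝ)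
    have a2 := (Real.continuous_arccos.tendsto 0).comp a1
    rw [Real.arccos_zero] at a2
    exact a2
  exact le_of_tendsto lim ((eventually_gt_atTop 1).mono fun K hK => key2 K hK)

end AXESAux

theorem q_AXE : Q_AXE := by
  intro σ ψ hσ h
  apply AXESAux.main_abs (σ := |σ|) (abs_nonneg σ) hσ
  intro K hK
  have a1 := h K hK
  have a2 : σ * ψ ≤ |σ| * |ψ| := by
    rw [← abs_mul]; exact le_abs_self _
  rw [sq_abs]
  linarith

end TSP
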