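import Pool.Agent.TSP.StmtsS

/-!
# Module CA1: first case, pointwise inequality
-/

set_option autoImplicit false

namespace TSP

open Set MeasureTheory Real Filter Topology

namespace CA1SAux

theorem sqrt_bd {x : ℝ} (h0 : 0 ≤ x) (h1 : x ≤ 1) :
    √(1 - x) ≤ 1 - x / 2 - x ^ 2 / 8 - x ^ 3 / 16 := by
  have hx2 : x ^ 2 ≤ 1 := pow_le_one₀ h0 h1
  have hx3 : x ^ 3 ≤ 1 := pow_le_one₀ h0 h1
  refine Real.sqrt_le_iff.2 ⟨by linarith, ?_⟩
  have h : (1 - x / 2 - x ^ 2 / 8 - x ^ 3 / 16) ^ 2 - (1 - x) =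
      5 / 64 * x ^ 4 + 1 / 64 * x ^ 5 + 1 / 256 * x ^ 6 := by ring
  have h2 : 0 ≤ 5 / 64 * x ^ 4 + 1 / 64 * x ^ 5 + 1 / 256 * x ^ 6 := by positivity
  linarith

theorem int_poly (c0 c1 c2 c3 c4 c5 c6 : ℝ) :
    ∫ p in (0 : ℝ)..1, (c0 + c1 * p ^ 2 + c2 * p ^ 4 + c3 * p ^ 6 + c4 * p ^ 8 + c5 * p ^ 10 +
      c6 * p ^ 12) = c0 + c1 / 3 + c2 / 5 + c3 / 7 + c4 / 9 + c5 / 11 + c6 / 13 := by
  have hd : ∀ p ∈ uIcc (0 : ℝ) 1, HasDerivAt (fun p : ℝ => c0 * p ^ 1 + c1 / 3 * p ^ 3 +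
      c2 / 5 * p ^ 5 + c3 / 7 * p ^ 7 + c4 / 9 * p ^ 9 + c5 / 11 * p ^ 11 + c6 / 13 * p ^ 13)
      (c0 + c1 * p ^ 2 + c2 * p ^ 4 + c3 * p ^ 6 + c4 * p ^ 8 + c5 * p ^ 10 + c6 * p ^ 12) p := by
    intro p _
    have h := (((((((hasDerivAt_pow 1 p).const_mul c0).add
      ((hasDerivAt_pow 3 p).const_mul (c1 / 3))).add
      ((hasDerivAt_pow 5 p).const_mul (c2 / 5))).add
      ((hasDerivAt_pow 7 p).const_mul (c3 / 7))).add
      ((hasDerivAt_pow 9 p).const_mul (c4 / 9))).add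
      ((hasDerivAt_pow 11 p).const_mul (c5 / 11))).add
      ((hasDerivAt_pow 13 p).const_mul (c6 / 13))
    refine h.congr_deriv ?_
    norm_num
    ring
  rw [intervalIntegral.integral_eq_sub_of_hasDerivAt hd
    (Continuous.intervalIntegrable (by fun_prop) _ _)]
  norm_num

/-- the integrand -/
theorem cont_int (hwwb : Q_WWB) (y : ℝ) {a b : ℝ} (ha : 0 ≤ a) (hab : a ≤ b) (hb : b ≤ 6 / 5) :
    IntervalIntegrable (fun p => ww p * √(1 - p ^ 2 / y ^ 2)) volume a b := by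
  refine ContinuousOn.intervalIntegrable_of_Icc hab ?_
  refine ContinuousOn.mul (hwwb.1.mono (Icc_subset_Icc ha hb)) ?_
  exact Continuous.continuousOn (by fun_prop)

theorem KW_le (hwwb : Q_WWB) {y q : ℝ} (hy : 0 < y) (hq0 : 0 ≤ q) (hq1 : q ≤ 1)
    (hqy : q * y ^ 2 ≤ 1) :
    KW y ≤ 4 / π * (86 / 105 - 281 / 1260 * q / 2 - 167 / 1386 * q ^ 2 / 8 -
      14533 / 180180 * q ^ 3 / 16) := by
  have hpi := Real.pi_pos
  have h1 : KW y ≤ ∫ p in (0 : ℝ)..1, 4 / π * ((1 - p ^ 2 / 2 - p ^ 4 / 16 - p ^ 6 / 80) *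
      (1 - q * p ^ 2 / 2 - (q * p ^ 2) ^ 2 / 8 - (q * p ^ 2) ^ 3 / 16)) := by
    unfold KW
    refine intervalIntegral.integral_mono_on zero_le_one
      (cont_int hwwb y le_rfl zero_le_one (by norm_num))
      (Continuous.intervalIntegrable (by fun_prop) _ _) ?_
    intro p hp
    have hp0 := hp.1
    have hp1 := hp.2
    have hp2 : p ^ 2 ≤ 1 := pow_le_one₀ hp0 hp1
    have hp4 : p ^ 4 ≤ 1 := pow_le_one₀ hp0 hp1
    have hp6 : p ^ 6 ≤ 1 := pow_le_one₀ hp0 hp1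
    have hx0 : 0 ≤ q * p ^ 2 := by positivity
    have hx1 : q * p ^ 2 ≤ 1 := by nlinarith [sq_nonneg p]
    have hs : √(1 - p ^ 2 / y ^ 2) ≤
        1 - q * p ^ 2 / 2 - (q * p ^ 2) ^ 2 / 8 - (q * p ^ 2) ^ 3 / 16 := by
      refine le_trans (Real.sqrt_le_sqrt ?_) (sqrt_bd hx0 hx1)
      have : q * p ^ 2 ≤ p ^ 2 / y ^ 2 := by
        rw [le_div_iff₀ (by positivity)]
        nlinarith [sq_nonneg p]
      linarith
    have hw := hwwb.2.2.1 p ⟨hp0, hp1⟩
    have hP : 0 ≤ 4 / π * (1 - p ^ 2 / 2 - p ^ 4 / 16 - p ^ 6 / 80) := by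
      refine mul_nonneg (by positivity) ?_
      linarith
    calc ww p * √(1 - p ^ 2 / y ^ 2)
        ≤ 4 / π * (1 - p ^ 2 / 2 - p ^ 4 / 16 - p ^ 6 / 80) * √(1 - p ^ 2 / y ^ 2) :=
          mul_le_mul_of_nonneg_right hw (Real.sqrt_nonneg _)
      _ ≤ 4 / π * (1 - p ^ 2 / 2 - p ^ 4 / 16 - p ^ 6 / 80) *
          (1 - q * p ^ 2 / 2 - (q * p ^ 2) ^ 2 / 8 - (q * p ^ 2) ^ 3 / 16) :=
          mul_le_mul_of_nonneg_left hs hP
      _ = _ := by ring
  refine h1.trans (le_of_eq ?_)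
  rw [intervalIntegral.integral_const_mul]
  congr 1
  have h2 : ∀ p : ℝ, (1 - p ^ 2 / 2 - p ^ 4 / 16 - p ^ 6 / 80) *
      (1 - q * p ^ 2 / 2 - (q * p ^ 2) ^ 2 / 8 - (q * p ^ 2) ^ 3 / 16) =
      1 + (-1 / 2 - q / 2) * p ^ 2 + (-1 / 16 + q / 4 - q ^ 2 / 8) * p ^ 4 +
        (-1 / 80 + q / 32 + q ^ 2 / 16 - q ^ 3 / 16) * p ^ 6 +
        (q / 160 + q ^ 2 / 128 + q ^ 3 / 32) * p ^ 8 +
        (q ^ 2 / 640 + q ^ 3 / 256) * p ^ 10 + (q ^ 3 / 1280) * p ^ 12 := by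
    intro p
    ring
  simp_rw [h2]
  rw [int_poly]
  ring

theorem low {y e l : ℝ} (hy : 0 < y) (he : 0 < e) (h : 1 < y ^ 2 / 4 + e ^ 2)
    (hl : l ^ 2 ≤ y ^ 2 * (1 - y ^ 2 / 4)) : l < y * e := by
  have hy2 : 0 < y ^ 2 := by positivity
  have h1 : l ^ 2 < (y * e) ^ 2 := by
    calc l ^ 2 ≤ y ^ 2 * (1 - y ^ 2 / 4) := hl
      _ < y ^ 2 * e ^ 2 := by
          refine mul_lt_mul_of_pos_left ?_ hy2
          linarith
      _ = (y * e) ^ 2 := by ring
  exact lt_of_pow_lt_pow_left₀ 2 (by positivity) h1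

theorem num {X l : ℝ} (hX : 4 * X < l * (31415 / 10000)) (hl : 0 ≤ l) : 4 / π * X < l := by
  have h1 : (3.1415 : ℝ) < π := Real.pi_gt_d4
  rw [div_mul_eq_mul_div, div_lt_iff₀ Real.pi_pos]
  have h2 : l * (31415 / 10000) ≤ l * π := mul_le_mul_of_nonneg_left (by linarith) hl
  linarith

end CA1SAux

open CA1SAux in
theorem q_CA1 (habl : Q_ABL) (hwwb : Q_WWB) : Q_CA1 := by
  intro y e hy he h
  have he0 : 0 < e := by linarith
  have hsq : √(1 - y ^ 2 / 4) < e := by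
    rw [Real.sqrt_lt' he0]
    linarith
  rcases le_total y 1 with hy1 | hy1
  · -- first case
    have h1 : KW y = y * √(1 - y ^ 2 / 4) := by
      rw [← habl y hy (by linarith)]
      unfold KW
      rw [← intervalIntegral.integral_add_adjacent_intervals
        (cont_int hwwb y le_rfl hy.le (by linarith)) (cont_int hwwb y hy.le hy1 (by norm_num))]
      have h2 : ∫ p in y..1, ww p * √(1 - p ^ 2 / y ^ 2) = ∫ p in y..1, (0 : ℝ) := by
        refine intervalIntegral.integral_congr ?_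
        intro p hp
        rw [uIcc_of_le hy1] at hp
        have h3 : 1 - p ^ 2 / y ^ 2 ≤ 0 := by
          have : y ^ 2 ≤ p ^ 2 := pow_le_pow_left₀ hy.le hp.1 2
          have h4 : 1 ≤ p ^ 2 / y ^ 2 := by
            rw [le_div_iff₀ (by positivity)]
            linarith
          linarith
        simp only [Real.sqrt_eq_zero_of_nonpos h3, mul_zero]
      rw [h2, intervalIntegral.integral_zero, add_zero]
    rw [h1]
    exact mul_lt_mul_of_pos_left hsq hy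
  rcases le_total y (6 / 5) with hy2 | hy2
  · -- second case
    have h1 : KW y ≤ y * √(1 - y ^ 2 / 4) := by
      rw [← habl y hy (by linarith)]
      unfold KW
      rw [← intervalIntegral.integral_add_adjacent_intervals (a := 0) (b := 1) (c := y)
        (cont_int hwwb y le_rfl zero_le_one (by norm_num)) (cont_int hwwb y zero_le_one hy1 hy2)]
      have h2 : 0 ≤ ∫ p in (1 : ℝ)..y, ww p * √(1 - p ^ 2 / y ^ 2) := by
        refine intervalIntegral.integral_nonneg hy1 ?_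
        intro p hp
        exact mul_nonneg (hwwb.2.1 p ⟨by linarith [hp.1], hp.2.trans hy2⟩) (Real.sqrt_nonneg _)
      linarith
    exact h1.trans_lt (mul_lt_mul_of_pos_left hsq hy)
  -- third case
  have hs0 : 0 ≤ y ^ 2 := sq_nonneg y
  rcases le_total y (13 / 10) with hy3 | hy3
  · have hu : y ^ 2 ≤ 169 / 100 := by nlinarith
    have hl : 144 / 100 ≤ y ^ 2 := by nlinarith
    have h1 := KW_le hwwb hy (q := 100 / 169) (by norm_num) (by norm_num) (by linarith)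
    have h2 := low hy he0 h (l := 951 / 1000) (by
      nlinarith [mul_nonneg (sub_nonneg.2 hl) (sub_nonneg.2 hu)])
    refine h1.trans_lt (lt_of_lt_of_le (num (l := 951 / 1000) ?_ (by norm_num)) h2.le)
    norm_num
  rcases le_total y (1537 / 1000) with hy4 | hy4
  · have hu : y ^ 2 ≤ 2362369 / 1000000 := by nlinarith
    have hl : 169 / 100 ≤ y ^ 2 := by nlinarith
    have h1 := KW_le hwwb hy (q := 1000000 / 2362369) (by norm_num) (by norm_num) (by linarith)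
    have h2 := low hy he0 h (l := 979 / 1000) (by
      nlinarith [mul_nonneg (sub_nonneg.2 hl) (sub_nonneg.2 hu)])
    refine h1.trans_lt (lt_of_lt_of_le (num (l := 979 / 1000) ?_ (by norm_num)) h2.le)
    norm_num
  rcases le_total y (156 / 100) with hy5 | hy5
  · have hu : y ^ 2 ≤ 24336 / 10000 := by nlinarith
    have h1 := KW_le hwwb hy (q := 10000 / 24336) (by norm_num) (by norm_num) (by linarith)
    have h2 : 981 / 1000 ≤ y * e := by nlinarith
    refine h1.trans_lt (lt_of_lt_of_le (num (l := 981 / 1000) ?_ (by norm_num)) h2)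
    norm_num
  rcases le_total y (17 / 10) with hy6 | hy6
  · have hu : y ^ 2 ≤ 289 / 100 := by nlinarith
    have h1 := KW_le hwwb hy (q := 100 / 289) (by norm_num) (by norm_num) (by linarith)
    have h2 : 9913 / 10000 ≤ y * e := by nlinarith
    refine h1.trans_lt (lt_of_lt_of_le (num (l := 9913 / 10000) ?_ (by norm_num)) h2)
    norm_num
  · have h1 := KW_le hwwb hy (q := 0) le_rfl (by norm_num) (by simp)
    have h2 : 105 / 100 ≤ y * e := by nlinarith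
    refine h1.trans_lt (lt_of_lt_of_le (num (l := 105 / 100) ?_ (by norm_num)) h2)
    norm_num

end TSP
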