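import Pool.Agent.TSP.StmtsS

set_option autoImplicit false

namespace TSP

open Set MeasureTheory Real Filter Topology

namespace CA2SAux

/-- The moments of the quarter circle. -/
theorem circ (A B : ℝ) :
    (∫ x in (0 : ℝ)..1, (A + B * x ^ 2) * √(1 - x ^ 2)) = A * (π / 4) + B * (π / 16) := by
  have hsub := intervalIntegral.integral_comp_mul_deriv (a := 0) (b := π / 2) (f := Real.sin)
    (f' := Real.cos) (g := fun x => (A + B * x ^ 2) * √(1 - x ^ 2))
    (fun x _ => Real.hasDerivAt_sin x) Real.continuous_cos.continuousOn (by fun_prop)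
  rw [Real.sin_zero, Real.sin_pi_div_two] at hsub
  rw [← hsub]
  have hcongr : (∫ x in (0 : ℝ)..(π / 2),
      ((fun x => (A + B * x ^ 2) * √(1 - x ^ 2)) ∘ Real.sin) x * Real.cos x)
      = ∫ x in (0 : ℝ)..(π / 2), (A * Real.cos x ^ 2 + B * (Real.sin x ^ 2 * Real.cos x ^ 2)) := by
    apply intervalIntegral.integral_congr
    intro x hx
    rw [Set.uIcc_of_le (by positivity)] at hx
    have hc : 0 ≤ Real.cos x := Real.cos_nonneg_of_mem_Icc ⟨by linarith [hx.1, Real.pi_pos], hx.2⟩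
    have h1 : √(1 - Real.sin x ^ 2) = Real.cos x := by
      rw [← Real.cos_sq', Real.sqrt_sq hc]
    simp only [Function.comp]
    rw [h1]
    ring
  rw [hcongr, intervalIntegral.integral_add, intervalIntegral.integral_const_mul,
    intervalIntegral.integral_const_mul, integral_cos_sq, integral_sin_sq_mul_cos_sq]
  · rw [show 4 * (π / 2) = 2 * π by ring, Real.sin_two_pi, Real.cos_pi_div_two]
    simp
    ring
  · exact (by fun_prop : Continuous fun x : ℝ => A * Real.cos x ^ 2).intervalIntegrable _ _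
  · exact (by fun_prop : Continuous fun x : ℝ =>
      B * (Real.sin x ^ 2 * Real.cos x ^ 2)).intervalIntegrable _ _

theorem cont_int (y : ℝ) : Continuous fun p : ℝ => uu p * √(1 - p ^ 2 / y ^ 2) := by
  unfold uu
  fun_prop

/-- The full integral. -/
theorem full (y : ℝ) (hy : 0 < y) :
    (∫ p in (0 : ℝ)..y, uu p * √(1 - p ^ 2 / y ^ 2)) = y - 27 / 200 * y ^ 3 := by
  have h := intervalIntegral.mul_integral_comp_mul_left (a := 0) (b := 1)
    (f := fun p : ℝ => uu p * √(1 - p ^ 2 / y ^ 2)) y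
  rw [mul_zero, mul_one] at h
  rw [← h]
  have hc : (∫ x in (0 : ℝ)..1, uu (y * x) * √(1 - (y * x) ^ 2 / y ^ 2))
      = ∫ x in (0 : ℝ)..1, (4 / π + (-(4 / π * (27 / 50) * y ^ 2)) * x ^ 2) * √(1 - x ^ 2) := by
    apply intervalIntegral.integral_congr
    intro x _
    have h1 : (y * x) ^ 2 / y ^ 2 = x ^ 2 := by
      field_simp
    simp only [h1]
    unfold uu
    ring
  rw [hc, circ]
  have hpi : π ≠ 0 := Real.pi_ne_zero
  field_simp
  ring

theorem uu_nonneg {p : ℝ} (hp : p ^ 2 ≤ 50 / 27) : 0 ≤ uu p := by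
  unfold uu
  have : 0 < 4 / π := by positivity
  apply mul_nonneg this.le
  linarith

theorem uw_a {y : ℝ} (hy : 0 < y) (hy1 : y ≤ 26 / 25) : UW y ≤ y - 27 / 200 * y ^ 3 := by
  rw [← full y hy]
  unfold UW
  have hi : ∀ a b : ℝ, IntervalIntegrable (fun p : ℝ => uu p * √(1 - p ^ 2 / y ^ 2)) volume a b :=
    fun a b => (cont_int y).intervalIntegrable a b
  rcases le_total y (3 / 4) with h | h
  · have h0 : (∫ p in y..(3 / 4 : ℝ), uu p * √(1 - p ^ 2 / y ^ 2)) = 0 := by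
      have : (∫ p in y..(3 / 4 : ℝ), uu p * √(1 - p ^ 2 / y ^ 2)) = ∫ p in y..(3 / 4 : ℝ), (0 : ℝ) := by
        apply intervalIntegral.integral_congr
        intro p hp
        rw [Set.uIcc_of_le h] at hp
        have h1 : 1 ≤ p ^ 2 / y ^ 2 := by
          rw [le_div_iff₀ (by positivity)]
          nlinarith [hp.1]
        have h2 : √(1 - p ^ 2 / y ^ 2) = 0 := Real.sqrt_eq_zero_of_nonpos (by linarith)
        simp only [h2, mul_zero]
      rw [this]
      simp
    rw [← intervalIntegral.integral_add_adjacent_intervals (hi 0 y) (hi y (3 / 4)), h0, add_zero]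
  · rw [← intervalIntegral.integral_add_adjacent_intervals (hi 0 (3 / 4)) (hi (3 / 4) y)]
    have h0 : 0 ≤ ∫ p in (3 / 4 : ℝ)..y, uu p * √(1 - p ^ 2 / y ^ 2) := by
      apply intervalIntegral.integral_nonneg h
      intro p hp
      apply mul_nonneg (uu_nonneg _) (Real.sqrt_nonneg _)
      have hp2 : p ≤ 26 / 25 := le_trans hp.2 hy1
      nlinarith [hp.1]
    linarith

theorem poly_int (a b c : ℝ) :
    (∫ p in (0 : ℝ)..(3 / 4), 4 / π * (1 - 27 / 50 * p ^ 2) * (a + b * p ^ 2 + c * p ^ 4))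
      = 4 / π * (a * (2157 / 3200) + b * (29439 / 256000) + c * (213111 / 5734400)) := by
  have h : ∀ x ∈ Set.uIcc (0 : ℝ) (3 / 4), HasDerivAt
      (fun p : ℝ => 4 / π * (a * p + (b - 27 / 50 * a) * (p ^ 3 / 3)
        + (c - 27 / 50 * b) * (p ^ 5 / 5) - 27 / 50 * c * (p ^ 7 / 7)))
      (4 / π * (1 - 27 / 50 * x ^ 2) * (a + b * x ^ 2 + c * x ^ 4)) x := by
    intro x _
    have h1 := (hasDerivAt_id x).const_mul a
    have h3 := ((hasDerivAt_pow 3 x).div_const 3).const_mul (b - 27 / 50 * a)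
    have h5 := ((hasDerivAt_pow 5 x).div_const 5).const_mul (c - 27 / 50 * b)
    have h7 := ((hasDerivAt_pow 7 x).div_const 7).const_mul (27 / 50 * c)
    have := (((h1.add h3).add h5).sub h7).const_mul (4 / π)
    refine this.congr_deriv ?_
    push_cast
    ring
  rw [intervalIntegral.integral_eq_sub_of_hasDerivAt h
    ((by fun_prop : Continuous fun p : ℝ =>
      4 / π * (1 - 27 / 50 * p ^ 2) * (a + b * p ^ 2 + c * p ^ 4)).intervalIntegrable _ _)]
  ring

theorem uw_le {y : ℝ} (a b c : ℝ)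
    (h : ∀ p ∈ Set.Icc (0 : ℝ) (3 / 4), √(1 - p ^ 2 / y ^ 2) ≤ a + b * p ^ 2 + c * p ^ 4) :
    UW y ≤ 4 / π * (a * (2157 / 3200) + b * (29439 / 256000) + c * (213111 / 5734400)) := by
  rw [← poly_int]
  unfold UW
  apply intervalIntegral.integral_mono_on (by norm_num) ((cont_int y).intervalIntegrable _ _)
    ((by fun_prop : Continuous fun p : ℝ =>
      4 / π * (1 - 27 / 50 * p ^ 2) * (a + b * p ^ 2 + c * p ^ 4)).intervalIntegrable _ _)
  intro p hp
  have hu : 0 ≤ uu p := uu_nonneg (by nlinarith [hp.1, hp.2])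
  exact mul_le_mul_of_nonneg_left (h p hp) hu

theorem four_div_pi : 4 / π ≤ 127325 / 100000 := by
  rw [div_le_iff₀ Real.pi_pos]
  linarith [Real.pi_gt_d6]

theorem uw_b (y : ℝ) : UW y ≤ 8583 / 10000 := by
  have h := uw_le (y := y) 1 0 0 (by
    intro p _
    have : √(1 - p ^ 2 / y ^ 2) ≤ 1 := by
      rw [Real.sqrt_le_iff]
      have : 0 ≤ p ^ 2 / y ^ 2 := by positivity
      constructor
      · norm_num
      · linarith
    linarith)
  have h2 := four_div_pi
  linarith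

theorem sqrt_taylor {x : ℝ} (h0 : 0 ≤ x) (h1 : x ≤ 1) : √(1 - x) ≤ 1 - x / 2 - x ^ 2 / 8 := by
  rw [Real.sqrt_le_iff]
  constructor
  · nlinarith
  · nlinarith [pow_nonneg h0 3, pow_nonneg h0 4]

theorem uw_c {y : ℝ} (hy : 3 / 4 ≤ y) :
    UW y ≤ 4 / π * (2157 / 3200 - 29439 / 512000 * (1 / y ^ 2)
      - 213111 / 45875200 * (1 / y ^ 2) ^ 2) := by
  have h := uw_le (y := y) 1 (-(1 / 2 * (1 / y ^ 2))) (-(1 / 8 * (1 / y ^ 2) ^ 2)) (by
    intro p hp
    have hx : p ^ 2 / y ^ 2 ≤ 1 := by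
      rw [div_le_one (by positivity)]
      nlinarith [hp.1, hp.2]
    have := sqrt_taylor (by positivity : 0 ≤ p ^ 2 / y ^ 2) hx
    refine this.trans (le_of_eq ?_)
    ring)
  refine h.trans (le_of_eq ?_)
  ring

/-- First range. -/
theorem pol_a {v : ℝ} (h0 : 0 ≤ v) (h1 : v ≤ 46 / 100) :
    1 / 2 * (v / (67 / 100) + 67 / 100) * (1 - v - 27 / 200 * (16 / 25) ^ 2)
      ≤ (1 - v) * (16 / 25 - v ^ 2 * (1 - v) / (18 * (16 / 25) ^ 3)) := by
  have h1' := sub_nonneg.2 h1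
  have e0 := pow_nonneg h1' 4
  have e1 := mul_nonneg h0 (pow_nonneg h1' 3)
  have e2 := mul_nonneg (pow_nonneg h0 2) (pow_nonneg h1' 2)
  have e3 := mul_nonneg (pow_nonneg h0 3) h1'
  have e4 := pow_nonneg h0 4
  rw [← sub_nonneg]
  ring_nf at e0 e1 e2 e3 e4 ⊢
  linarith

/-- Second range. -/
theorem pol_b {v : ℝ} (h0 : 71 / 100 ≤ v) (h1 : v ≤ 1) :
    8583 / 10000 * (1 / 2 * (v * (1 - v) / (16 / 25) ^ 2 / (7 / 10) + 7 / 10))
      ≤ 16 / 25 - v ^ 2 * (1 - v) / (18 * (16 / 25) ^ 3) := by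
  have h0' := sub_nonneg.2 h0
  have h1' := sub_nonneg.2 h1
  have e0 := pow_nonneg h1' 3
  have e1 := mul_nonneg h0' (pow_nonneg h1' 2)
  have e2 := mul_nonneg (pow_nonneg h0' 2) h1'
  have e3 := pow_nonneg h0' 3
  rw [← sub_nonneg]
  ring_nf at e0 e1 e2 e3 ⊢
  linarith

/-- Third range. -/
theorem pol_c {v : ℝ} (h0 : 45 / 100 ≤ v) (h1 : v ≤ 72 / 100) :
    127325 / 100000 * (2157 / 3200 - 29439 / 512000 * ((1 - v) / (16 / 25) ^ 2)
      - 213111 / 45875200 * ((1 - v) / (16 / 25) ^ 2) ^ 2)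
      * (1 / 2 * (v * (1 - v) / (16 / 25) ^ 2 / (3 / 4) + 3 / 4))
      ≤ 16 / 25 - v ^ 2 * (1 - v) / (18 * (16 / 25) ^ 3) := by
  have h0' := sub_nonneg.2 h0
  have h1' := sub_nonneg.2 h1
  have e0 := pow_nonneg h1' 4
  have e1 := mul_nonneg h0' (pow_nonneg h1' 3)
  have e2 := mul_nonneg (pow_nonneg h0' 2) (pow_nonneg h1' 2)
  have e3 := mul_nonneg (pow_nonneg h0' 3) h1'
  have e4 := pow_nonneg h0' 4
  rw [← sub_nonneg]
  ring_nf at e0 e1 e2 e3 e4 ⊢
  linarith

/-- The key inequality for the upper bound of `UW`. -/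
theorem key {y σ q v : ℝ} (hy : 16 / 25 < y) (hv : v = 1 - (16 / 25) ^ 2 / y ^ 2)
    (hσ : σ ^ 2 = v) (hσ0 : 0 < σ) (hq : q = σ / y) :
    UW y * q ≤ 16 / 25 - q ^ 2 * v / (18 * (16 / 25)) := by
  have hy0 : 0 < y := by linarith
  have hq0 : 0 < q := by rw [hq]; positivity
  have hinv : 1 / y ^ 2 = (1 - v) / (16 / 25) ^ 2 := by
    rw [hv]
    field_simp
    ring
  have hq2 : q ^ 2 = v * (1 - v) / (16 / 25) ^ 2 := by
    rw [hq, div_pow, hσ, div_eq_mul_one_div, hinv]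
    ring
  have hv0 : 0 < v := by rw [← hσ]; positivity
  have hv1 : v < 1 := by
    rw [hv]
    have : 0 < (16 / 25 : ℝ) ^ 2 / y ^ 2 := by positivity
    linarith
  have hR : q ^ 2 * v / (18 * (16 / 25)) = v ^ 2 * (1 - v) / (18 * (16 / 25) ^ 3) := by
    rw [hq2]
    ring
  rw [hR]
  have hysq : y ^ 2 * (1 - v) = (16 / 25) ^ 2 := by
    rw [hv]
    field_simp
    ring
  rcases le_total y (87 / 100) with hA | hA
  · have hva : v ≤ 46 / 100 := by
      have : y ^ 2 ≤ (87 / 100) ^ 2 := pow_le_pow_left₀ hy0.le hA 2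
      nlinarith
    have h1 := uw_a hy0 (by linarith)
    have h2 := pol_a hv0.le hva
    have h3 : σ ≤ 1 / 2 * (v / (67 / 100) + 67 / 100) := by
      rw [← hσ]
      nlinarith [sq_nonneg (σ - 67 / 100)]
    have hw : 0 ≤ 1 - 27 / 200 * y ^ 2 := by nlinarith
    have h4 : UW y * q ≤ σ * (1 - 27 / 200 * y ^ 2) := by
      calc UW y * q ≤ (y - 27 / 200 * y ^ 3) * q := mul_le_mul_of_nonneg_right h1 hq0.le
        _ = σ * (1 - 27 / 200 * y ^ 2) := by
          rw [hq]
          field_simp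
    have h5 : σ * (1 - 27 / 200 * y ^ 2) ≤
        1 / 2 * (v / (67 / 100) + 67 / 100) * (1 - 27 / 200 * y ^ 2) :=
      mul_le_mul_of_nonneg_right h3 hw
    have h6 : (1 - v) * (1 / 2 * (v / (67 / 100) + 67 / 100) * (1 - 27 / 200 * y ^ 2))
        = 1 / 2 * (v / (67 / 100) + 67 / 100) * (1 - v - 27 / 200 * (16 / 25) ^ 2) := by
      rw [← hysq]
      ring
    have h7 : (1 - v) * (1 / 2 * (v / (67 / 100) + 67 / 100) * (1 - 27 / 200 * y ^ 2))
        ≤ (1 - v) * (16 / 25 - v ^ 2 * (1 - v) / (18 * (16 / 25) ^ 3)) := by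
      rw [h6]
      exact h2
    have h8 := le_of_mul_le_mul_left h7 (by linarith)
    linarith
  · rcases le_total (6 / 5) y with hB | hB
    · have hvb : 71 / 100 ≤ v := by
        have : (6 / 5) ^ 2 ≤ y ^ 2 := pow_le_pow_left₀ (by norm_num) hB 2
        nlinarith
      have h2 := pol_b hvb hv1.le
      have h3 : q ≤ 1 / 2 * (v * (1 - v) / (16 / 25) ^ 2 / (7 / 10) + 7 / 10) := by
        rw [← hq2]
        nlinarith [sq_nonneg (q - 7 / 10)]
      have h4 : UW y * q ≤ 8583 / 10000 * q := mul_le_mul_of_nonneg_right (uw_b y) hq0.le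
      linarith
    · have hv45 : 45 / 100 ≤ v := by
        have : (87 / 100) ^ 2 ≤ y ^ 2 := pow_le_pow_left₀ (by norm_num) hA 2
        nlinarith
      have hv72 : v ≤ 72 / 100 := by
        have : y ^ 2 ≤ (6 / 5) ^ 2 := pow_le_pow_left₀ hy0.le hB 2
        nlinarith
      have h1 := uw_c (y := y) (by linarith)
      have h2 := pol_c hv45 hv72
      rw [hinv] at h1
      have hP : 0 ≤ 2157 / 3200 - 29439 / 512000 * ((1 - v) / (16 / 25) ^ 2)
          - 213111 / 45875200 * ((1 - v) / (16 / 25) ^ 2) ^ 2 := by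
        have ha : (1 - v) / (16 / 25) ^ 2 ≤ 2 := by
          rw [div_le_iff₀ (by norm_num)]
          linarith
        have hb : 0 ≤ (1 - v) / (16 / 25) ^ 2 := div_nonneg (by linarith) (by norm_num)
        nlinarith
      have h3 : q ≤ 1 / 2 * (v * (1 - v) / (16 / 25) ^ 2 / (3 / 4) + 3 / 4) := by
        rw [← hq2]
        nlinarith [sq_nonneg (q - 3 / 4)]
      have h4 : UW y ≤ 127325 / 100000 * (2157 / 3200 - 29439 / 512000 * ((1 - v) / (16 / 25) ^ 2)
          - 213111 / 45875200 * ((1 - v) / (16 / 25) ^ 2) ^ 2) :=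
        h1.trans (mul_le_mul_of_nonneg_right four_div_pi hP)
      have h5 := mul_le_mul_of_nonneg_right h4 hq0.le
      have h6 := mul_le_mul_of_nonneg_left h3 (mul_nonneg (by norm_num : (0 : ℝ) ≤ 127325 / 100000) hP)
      linarith

end CA2SAux

open CA2SAux in
theorem q_CA2 : Q_CA2 := by
  intro y e hy he h1 h2
  rcases le_or_gt (1 - ((16 / 25) ^ 2 / y ^ 2 + (16 / 25) ^ 2 / e ^ 2)) 0 with hu | hu
  · rw [Real.sqrt_eq_zero_of_nonpos hu, mul_zero, add_zero]
    rcases le_total y 1 with hy1 | hy1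
    · have h3 := uw_a hy (by linarith)
      have hy2 : y ^ 2 ≤ 1 := by nlinarith
      have h4 : 1 - 27 / 200 * y ^ 2 ≤ e := by
        apply le_of_pow_le_pow_left₀ two_ne_zero he.le
        nlinarith [sq_nonneg y, mul_nonneg (sq_nonneg y) (sub_nonneg.2 hy2)]
      nlinarith
    · have h3 := uw_b y
      have h4 := h2 hy1
      have h5 : (8583 / 10000 : ℝ) ≤ √3 / 2 := by
        have : (17166 / 10000 : ℝ) ≤ √3 := Real.le_sqrt_of_sq_le (by norm_num)
        linarith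
      linarith
  · have hyt : 16 / 25 < y := by
      by_contra hcon
      rw [not_lt] at hcon
      have : 1 ≤ (16 / 25) ^ 2 / y ^ 2 := by
        rw [le_div_iff₀ (by positivity)]
        nlinarith
      have : 0 < (16 / 25) ^ 2 / e ^ 2 := by positivity
      linarith
    set v := 1 - (16 / 25) ^ 2 / y ^ 2 with hv
    have hte : 0 < (16 / 25) ^ 2 / e ^ 2 := by positivity
    have hv0 : 0 < v := by linarith
    set σ := √v with hσ
    have hσ0 : 0 < σ := Real.sqrt_pos.2 hv0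
    have hσ2 : σ ^ 2 = v := Real.sq_sqrt hv0.le
    set s := √(1 - ((16 / 25) ^ 2 / y ^ 2 + (16 / 25) ^ 2 / e ^ 2)) with hs
    have hs0 : 0 < s := Real.sqrt_pos.2 hu
    have hs2 : s ^ 2 = v - (16 / 25) ^ 2 / e ^ 2 := by
      rw [hs, Real.sq_sqrt hu.le, hv]
      ring
    set q := σ / y with hq
    have hq0 : 0 < q := by positivity
    have hk := key hyt hv hσ2 hσ0 hq
    have he2 : e ^ 2 * (σ ^ 2 - s ^ 2) = (16 / 25) ^ 2 := by
      rw [hσ2, hs2]
      field_simp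
      ring
    -- lower bound for `e σ`
    have hes : 16 / 25 * (1 + s ^ 2 / (2 * σ ^ 2)) ≤ e * σ := by
      apply le_of_pow_le_pow_left₀ two_ne_zero (by positivity)
      have h3 : (16 / 25 * (1 + s ^ 2 / (2 * σ ^ 2))) ^ 2
          = e ^ 2 * ((σ ^ 2 - s ^ 2) * (1 + s ^ 2 / (2 * σ ^ 2)) ^ 2) := by
        rw [mul_pow, ← he2]
        ring
      rw [h3, mul_pow]
      apply mul_le_mul_of_nonneg_left _ (sq_nonneg e)
      have h4 : (σ ^ 2 - s ^ 2) * (1 + s ^ 2 / (2 * σ ^ 2)) ^ 2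
          = σ ^ 2 - (3 * s ^ 4 / (4 * σ ^ 2) + s ^ 6 / (4 * σ ^ 4)) := by
        field_simp
        ring
      rw [h4]
      have : 0 ≤ 3 * s ^ 4 / (4 * σ ^ 2) + s ^ 6 / (4 * σ ^ 4) := by positivity
      linarith
    have hsq : 0 ≤ (16 / 25) / (2 * σ ^ 2) * (s - q * σ ^ 2 / (3 * (16 / 25))) ^ 2 := by positivity
    have hexp : (16 / 25) / (2 * σ ^ 2) * (s - q * σ ^ 2 / (3 * (16 / 25))) ^ 2
        = 16 / 25 * (s ^ 2 / (2 * σ ^ 2)) - s * q / 3 + q ^ 2 * σ ^ 2 / (18 * (16 / 25)) := by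
      field_simp
      ring
    rw [hexp, hσ2] at hsq
    have hyq : y * e * q = e * σ := by
      rw [hq]
      field_simp
    rw [hσ2] at hes
    have hfin : (UW y + 1 / 3 * s) * q ≤ y * e * q := by
      rw [hyq]
      linarith
    exact le_of_mul_le_mul_right hfin hq0

end TSP
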