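import Pool.Agent.TSP.StmtsS

/-!
# Block S, module CLL: no short minima on the left axis
-/

set_option autoImplicit false

namespace TSP

open Set MeasureTheory Real Filter Topology

namespace CLLSAux

/-- Integral of an even function. -/
lemma integral_even {g : ℝ → ℝ} {b : ℝ} (hg : ∀ x, g (-x) = g x) (hb : 0 ≤ b)
    (hi : IntervalIntegrable g volume (-b) b) :
    ∫ x in (-b)..b, g x = 2 * ∫ x in (0 : ℝ)..b, g x := by
  have i1 : IntervalIntegrable g volume (-b) 0 :=
    hi.mono_set (by rw [uIcc_of_le (by linarith), uIcc_of_le (by linarith)]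
                    exact Icc_subset_Icc le_rfl hb)
  have i2 : IntervalIntegrable g volume 0 b :=
    hi.mono_set (by rw [uIcc_of_le hb, uIcc_of_le (by linarith)]
                    exact Icc_subset_Icc (by linarith) le_rfl)
  rw [← intervalIntegral.integral_add_adjacent_intervals i1 i2]
  have h2 := intervalIntegral.integral_comp_neg (a := 0) (b := b) g
  rw [neg_zero] at h2
  rw [← h2]
  have : (fun x => g (-x)) = g := funext hg
  rw [this]
  ring

/-- the value on the axis -/
lemma FK_axis {f A η : ℝ → ℝ} (k b : ℝ) {z : ℝ × ℝ} (hz : z.1 = 0) :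
    FK f A η k (0, b) z = (∫ r in (0 : ℝ)..b, √(1 - z.2 ^ 2 / η r ^ 2)) + π * z.2 := by
  unfold FK HH
  simp only [hz]
  simp

end CLLSAux

open CLLSAux in
theorem q_CLL (h1 : Q_AX1) (h2 : Q_AX2) (h3 : Q_AX3) : Q_CLL := by
  intro L f A η c m M R b z H hc hNS hR hRM hm hb0 hbL hMK hmin
  by_contra hcon
  rw [not_le] at hcon
  obtain ⟨hz1, hs, hwell, hint⟩ := h1 L f A η m b z H hb0 hbL hMK (by
    intro β hβ0 hβL
    exact hmin m hm (0, β) ⟨le_rfl, hβ0.le, hβL.le⟩)
  set s := z.2 with hsdef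
  have hv : FK f A η m (0, b) z = (∫ r in (0 : ℝ)..b, √(1 - s ^ 2 / η r ^ 2)) + π * s :=
    FK_axis m b hz1
  have hbb : -b ≤ b := by linarith
  have toII : ∀ g : ℝ → ℝ, IntegrableOn g (Ioo (-b) b) → IntervalIntegrable g volume (-b) b := by
    intro g hg
    rw [intervalIntegrable_iff_integrableOn_Ioo_of_le hbb]
    exact hg
  have hηc : Continuous (fun r => s / η r ^ 2) :=
    continuous_const.div (H.η_cont.pow 2) (fun r => (pow_pos (H.η_pos r) 2).ne')
  have iΦ : IntervalIntegrable (fun r => s / η r ^ 2 / √(1 - s ^ 2 / η r ^ 2)) volume (-b) b :=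
    toII _ (hwell.integrableOn hηc.continuousOn)
  have iAΦ : IntervalIntegrable (fun r => A r * (s / η r ^ 2 / √(1 - s ^ 2 / η r ^ 2)))
      volume (-b) b := iΦ.continuousOn_mul H.A_cont.continuousOn
  have hΦ0 : (∫ r in (0 : ℝ)..b, s / η r ^ 2 / √(1 - s ^ 2 / η r ^ 2)) = π := by
    have := integral_even (g := fun r => s / η r ^ 2 / √(1 - s ^ 2 / η r ^ 2))
      (fun x => by simp only [H.η_even]) hb0.le iΦ
    rw [hint] at this
    linarith
  set α := ∫ r in (0 : ℝ)..b, A r * (s / η r ^ 2 / √(1 - s ^ 2 / η r ^ 2)) with hα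
  have hα2 : (∫ r in (-b)..b, A r * (s / η r ^ 2 / √(1 - s ^ 2 / η r ^ 2))) = 2 * α :=
    integral_even (fun x => by simp only [H.η_even, H.A_even]) hb0.le iAΦ
  have isub : ∀ g : ℝ → ℝ, IntervalIntegrable g volume (-b) b → IntervalIntegrable g volume 0 b := by
    intro g hg
    exact hg.mono_set (by rw [uIcc_of_le hb0.le, uIcc_of_le hbb]
                          exact Icc_subset_Icc (by linarith) le_rfl)
  have hαle : |α| ≤ R * π := by
    have e1 : |α| ≤ ∫ r in (0 : ℝ)..b, R * (s / η r ^ 2 / √(1 - s ^ 2 / η r ^ 2)) := by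
      rw [hα, ← Real.norm_eq_abs]
      refine intervalIntegral.norm_integral_le_of_norm_le hb0.le ?_ ((isub _ iΦ).const_mul R)
      refine Eventually.of_forall fun r hr => ?_
      have hp : 0 ≤ s / η r ^ 2 / √(1 - s ^ 2 / η r ^ 2) := by positivity
      rw [norm_mul, Real.norm_eq_abs, Real.norm_eq_abs, abs_of_nonneg hp]
      exact mul_le_mul_of_nonneg_right (hR r ⟨hr.1.le, hr.2.trans hbL.le⟩) hp
    rw [intervalIntegral.integral_const_mul, hΦ0] at e1
    exact e1
  have hpi := Real.pi_pos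
  have hRM' : |α / π| ≤ R := by
    rw [abs_div, abs_of_pos hpi, div_le_iff₀ hpi]
    exact hαle
  have hround := abs_sub_round (α / π)
  set k : ℤ := - round (α / π) with hk
  have hkM : |k| ≤ M := by
    have e1 : |((round (α / π) : ℤ) : ℝ)| ≤ (M : ℝ) := by
      have : |((round (α / π) : ℤ) : ℝ)| ≤ |α / π| + |α / π - ((round (α / π) : ℤ) : ℝ)| := by
        have := abs_sub (α / π) (α / π - ((round (α / π) : ℤ) : ℝ))
        simpa using this
      linarith
    rw [hk, abs_neg]
    have : ((|round (α / π)| : ℤ) : ℝ) ≤ (M : ℝ) := by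
      rw [Int.cast_abs]; exact e1
    exact_mod_cast this
  have h4 := h2 L f A η k b s H hb0 hbL hs hwell hint (by
    intro ε hε0 hεb
    have := hmin k hkM (ε, b) ⟨hε0.le, hεb.le, hbL.le⟩
    rw [hv] at this
    exact this)
  rw [← hα] at h4
  have h5 : |(k : ℝ) * π + α| ≤ π / 2 := by
    have e : (k : ℝ) * π + α = π * (α / π - ((round (α / π) : ℤ) : ℝ)) := by
      rw [hk]; push_cast; field_simp; ring
    rw [e, abs_mul, abs_of_pos hpi]
    nlinarith
  have h6 : |(k : ℝ) * π + α| = π / 2 := le_antisymm h5 h4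
  obtain ⟨j, hj⟩ : ∃ j : ℤ, 2 * α = (2 * j + 1) * π := by
    rcases abs_cases ((k : ℝ) * π + α) with h | h
    · refine ⟨-k, ?_⟩
      push_cast
      linarith [h.1, h6]
    · refine ⟨-k - 1, ?_⟩
      push_cast
      linarith [h.1, h6]
  obtain ⟨r, θ, φ, T, hg, hcl, hT⟩ := h3 L f A η b s j H hb0 hbL hwell hint (by rw [hα2, hj])
  have := hNS r θ φ T hg hcl
  rw [hT, ← hv] at this
  linarith

end TSP
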