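import Pool.Agent.TSP.StmtsS

/-!
# Torus-invariant metrics on the product of the two-sphere and the circle: half loops are long
-/

set_option autoImplicit false

namespace TSP

open Set MeasureTheory Real Filter Topology

namespace CLSSAux

section
variable {L : ℝ} {f A η : ℝ → ℝ}

lemma FK_zero (k : ℝ) (x : ℝ × ℝ) : FK f A η k x 0 = x.2 - x.1 := by
  unfold FK
  have h : (fun r => √(1 - HH f A η 0 r)) = fun _ => (1 : ℝ) := by
    funext r
    rw [HH_zero]
    simp
  rw [h]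
  simp

lemma FK_diag (k a : ℝ) (w : ℝ × ℝ) : FK f A η k (a, a) w = π * (k * w.1 + w.2) := by
  unfold FK
  simp

/-- the covector of the circle `(m, 1)` on the torus `a` -/
lemma circ (H : Profile L f A η) (m a : ℝ) : ∃ w ∈ KK f A η (a, a),
    FK f A η m (a, a) w = π * √(f a ^ 2 * (m + A a) ^ 2 + η a ^ 2) := by
  have hη := H.η_pos a
  have hN : 0 < f a ^ 2 * (m + A a) ^ 2 + η a ^ 2 := by positivity
  have hS : 0 < √(f a ^ 2 * (m + A a) ^ 2 + η a ^ 2) := Real.sqrt_pos.2 hN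
  have hS2 := Real.sq_sqrt hN.le
  generalize √(f a ^ 2 * (m + A a) ^ 2 + η a ^ 2) = S at hS hS2 ⊢
  refine ⟨(f a ^ 2 * (m + A a) / S, (η a ^ 2 + A a * (f a ^ 2 * (m + A a))) / S), ?_, ?_⟩
  · intro r hr
    have hra : r = a := le_antisymm hr.2 hr.1
    subst hra
    have e1 : (η r ^ 2 + A r * (f r ^ 2 * (m + A r))) / S - A r * (f r ^ 2 * (m + A r) / S)
        = η r ^ 2 / S := by ring
    unfold Adm
    simp only [e1]
    constructor
    · have e2 : (f r ^ 2 * (m + A r) / S) ^ 2 * η r ^ 2 + (η r ^ 2 / S) ^ 2 * f r ^ 2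
          = f r ^ 2 * η r ^ 2 * (f r ^ 2 * (m + A r) ^ 2 + η r ^ 2) / S ^ 2 := by ring
      rw [e2, hS2, mul_div_assoc, div_self hN.ne', mul_one]
    · rw [div_pow, hS2, div_le_iff₀ hN]
      have : 0 ≤ f r ^ 2 * (m + A r) ^ 2 := by positivity
      nlinarith [sq_nonneg (η r)]
  · rw [FK_diag]
    have e3 : m * (f a ^ 2 * (m + A a) / S) + (η a ^ 2 + A a * (f a ^ 2 * (m + A a))) / S
        = (f a ^ 2 * (m + A a) ^ 2 + η a ^ 2) / S := by ring
    simp only [e3]
    rw [← hS2, sq, mul_div_assoc, div_self hS.ne', mul_one]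

lemma tri_refl {y : ℝ × ℝ} (hy : y ∈ Tri L) : ((L - y.2, L - y.1) : ℝ × ℝ) ∈ Tri L := by
  obtain ⟨h1, h2, h3⟩ := hy
  exact ⟨by simp only; linarith, by simp only; linarith, by simp only; linarith⟩

lemma refl_refl (y : ℝ × ℝ) : ((L - (L - y.1), L - (L - y.2)) : ℝ × ℝ) = y := by
  ext <;> simp

end

end CLSSAux

open CLSSAux in
theorem q_CLS (hexm : Q_EXM) (hint : Q_INT) (hgek : Q_GEK) (hcll : Q_CLL) (hrfl : Q_RFL) :
    Q_CLS := by
  intro L f A η c H hc hNS m0 x0 hx0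
  by_contra hcon
  push Not at hcon
  have hπ := Real.pi_pos
  obtain ⟨hCL, hCT, -⟩ := t_CIR L f A η c H hc hNS
  -- the bounds
  obtain ⟨R, hR⟩ : ∃ R : ℝ, ∀ r ∈ Icc 0 L, |A r| ≤ R := by
    obtain ⟨R, hR⟩ := (isCompact_Icc (a := (0 : ℝ)) (b := L)).exists_bound_of_continuousOn
      H.A_cont.continuousOn
    exact ⟨R, fun r hr => by simpa [Real.norm_eq_abs] using hR r hr⟩
  obtain ⟨M, hM1, hM2⟩ : ∃ M : ℤ, |m0| ≤ M ∧ R + 1 ≤ M :=
    ⟨max |m0| ⌈R + 1⌉, le_max_left _ _, (Int.le_ceil _).trans (by exact_mod_cast le_max_right _ _)⟩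
  -- the minimum over the integers
  have hex : ∀ m : ℤ, ∃ q : (ℝ × ℝ) × (ℝ × ℝ), q.1 ∈ Tri L ∧ MK f A η m q.1 q.2 ∧
      ∀ y ∈ Tri L, ∃ w ∈ KK f A η y, FK f A η m q.1 q.2 ≤ FK f A η m y w := by
    intro m
    obtain ⟨-, x, hx, z, hz, h⟩ := hexm L f A η m H
    exact ⟨(x, z), hx, hz, h⟩
  choose q hq1 hq2 hq3 using hex
  obtain ⟨m, hm, hmin⟩ := Finset.exists_min_image (Finset.Icc (-M) M)
    (fun m : ℤ => FK f A η m (q m).1 (q m).2) ⟨m0, by
      rw [Finset.mem_Icc]; exact abs_le.1 hM1⟩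
  have hmM : |m| ≤ M := abs_le.2 (Finset.mem_Icc.1 hm)
  have hall : ∀ m' : ℤ, |m'| ≤ M → ∀ y ∈ Tri L, ∃ w ∈ KK f A η y,
      FK f A η m (q m).1 (q m).2 ≤ FK f A η m' y w := by
    intro m' hm' y hy
    obtain ⟨w, hw, h⟩ := hq3 m' y hy
    exact ⟨w, hw, (hmin m' (Finset.mem_Icc.2 (abs_le.1 hm'))).trans h⟩
  have hv : FK f A η m (q m).1 (q m).2 < π * c := by
    obtain ⟨w, hw, h⟩ := hall m0 hM1 x0 hx0
    exact h.trans_lt (hcon w hw)
  have hx := hq1 m
  have hz := hq2 m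
  generalize (q m).2 = z at hall hv hz
  generalize (q m).1 = x at hall hv hz hx
  obtain ⟨a, b⟩ := x
  obtain ⟨ha0, hab, hbL⟩ := hx
  simp only at ha0 hab hbL
  have hLp := H.L_pos
  rcases eq_or_lt_of_le hab with hab' | hab'
  · -- the diagonal
    subst hab'
    obtain ⟨w, hw, hwe⟩ := circ H (m : ℝ) a
    have h1 := hz.2 w hw
    rw [hwe] at h1
    have h2 := hCT a ⟨ha0, hbL⟩ m 1 one_ne_zero
    have h3 : c < √(f a ^ 2 * ((m : ℝ) + A a) ^ 2 + η a ^ 2) := by
      apply Real.lt_sqrt_of_sq_lt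
      have e : f a ^ 2 * ((m : ℝ) + A a * ((1 : ℤ) : ℝ)) ^ 2 + η a ^ 2 * (((1 : ℤ) : ℝ)) ^ 2
          = f a ^ 2 * ((m : ℝ) + A a) ^ 2 + η a ^ 2 := by push_cast; ring
      rw [e] at h2
      exact h2
    have h4 := mul_lt_mul_of_pos_left h3 hπ
    linarith
  rcases eq_or_lt_of_le ha0 with ha | ha
  · subst ha
    rcases eq_or_lt_of_le hbL with hb | hb
    · -- the whole interval
      subst hb
      have h1 := hz.2 0 (zero_mem_KK _)
      rw [FK_zero] at h1
      simp only at h1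
      linarith
    · have h1 := hcll L f A η c m M R b z H hc hNS hR hM2 hmM hab' hb hz hall
      linarith
  · rcases eq_or_lt_of_le hbL with hb | hb
    · subst hb
      obtain ⟨r1, r2, r3⟩ := hrfl b f A η H
      have hz' : MK (fun r => f (b - r)) (fun r => A (b - r)) (fun r => η (b - r)) m
          (0, b - a) z := by
        have k1 := r2 (a, b)
        have k2 := r3 m (a, b)
        simp only [sub_self] at k1 k2
        refine ⟨(k1 z).2 hz.1, fun w hw => ?_⟩
        rw [k2, k2]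
        exact hz.2 w ((k1 w).1 hw)
      have k3 : FK (fun r => f (b - r)) (fun r => A (b - r)) (fun r => η (b - r)) m
          (0, b - a) z = FK f A η m (a, b) z := by
        have k2 := r3 m (a, b) z
        simp only [sub_self] at k2
        exact k2
      have h1 := hcll b (fun r => f (b - r)) (fun r => A (b - r)) (fun r => η (b - r)) c m M R
        (b - a) z (REFAux.profile H) hc (r1 c hNS)
        (fun r hr => hR (b - r) ⟨by linarith [hr.2], by linarith [hr.1]⟩) hM2 hmM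
        (by linarith) (by linarith) hz' (by
          intro m' hm' y hy
          obtain ⟨w, hw, h⟩ := hall m' hm' _ (tri_refl hy)
          have k1 := r2 (b - y.2, b - y.1) w
          have k2 := r3 m' (b - y.2, b - y.1) w
          simp only [refl_refl] at k1 k2
          refine ⟨w, k1.2 hw, ?_⟩
          rw [k2, k3]
          exact h)
      rw [k3] at h1
      linarith
    · -- the interior
      obtain ⟨hW, hI⟩ := hint L f A η m a b z H ha hab' hb hz (hall m hmM)
      obtain ⟨r, θ, φ, T, hg, hcl, hT⟩ := hgek L f A η m a b z H ha hab' hb hW hI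
      have h1 := hNS r θ φ T hg hcl
      rw [hT] at h1
      linarith

end TSP
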