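import Pool.Agent.TSP.StmtsS

/-!
# The metric without `A`
-/

set_option autoImplicit false

namespace TSP

open Set MeasureTheory Real Filter Topology

namespace DSTSAux

variable {L : ℝ} {f A η : ℝ → ℝ}

/-- the metric without `A` -/
theorem prof0 (H : Profile L f A η) : Profile L f (fun _ => 0) η where
  L_pos := H.L_pos
  smooth_f := H.smooth_f
  smooth_A := contDiff_const
  smooth_η := H.smooth_η
  f_odd := H.f_odd
  f_odd' := H.f_odd'
  A_even := fun _ => rfl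
  A_even' := fun _ => rfl
  η_even := H.η_even
  η_even' := H.η_even'
  f_pos := H.f_pos
  η_pos := H.η_pos
  deriv_zero := H.deriv_zero
  deriv_L := H.deriv_L

theorem HH0 (z : ℝ × ℝ) (r : ℝ) :
    HH f (fun _ => 0) η z r = z.1 ^ 2 / f r ^ 2 + z.2 ^ 2 / η r ^ 2 := by
  unfold HH
  simp

theorem adm0_iff (z : ℝ × ℝ) (r : ℝ) : Adm f (fun _ => 0) η z r ↔
    z.1 ^ 2 * η r ^ 2 + z.2 ^ 2 * f r ^ 2 ≤ f r ^ 2 * η r ^ 2 ∧ z.2 ^ 2 ≤ η r ^ 2 := by
  unfold Adm
  simp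

/-- absolute values -/
theorem abs_KK {x w : ℝ × ℝ} (h : w ∈ KK f (fun _ => 0) η x) :
    (|w.1|, |w.2|) ∈ KK f (fun _ => 0) η x := by
  intro r hr
  have h1 := h r hr
  rw [adm0_iff] at h1 ⊢
  simpa [sq_abs] using h1

theorem abs_FK (x w : ℝ × ℝ) :
    FK f (fun _ => 0) η (1 / 2) x w ≤ FK f (fun _ => 0) η (1 / 2) x (|w.1|, |w.2|) := by
  unfold FK
  have e : ∀ r, HH f (fun _ => 0) η (|w.1|, |w.2|) r = HH f (fun _ => 0) η w r := by
    intro r
    rw [HH0, HH0]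
    simp [sq_abs]
  simp only [e]
  have h1 := le_abs_self w.1
  have h2 := le_abs_self w.2
  have h3 : π * (1 / 2 * w.1 + w.2) ≤ π * (1 / 2 * |w.1| + |w.2|) :=
    mul_le_mul_of_nonneg_left (by linarith) pi_pos.le
  linarith

/-- the lattice bound -/
theorem lat (H : Profile L f A η) {c : ℝ} (hc : 0 < c) (hn : NoShort L f A η c) {r : ℝ}
    (hr : r ∈ Icc 0 L) : c ^ 2 < f r ^ 2 / 4 + η r ^ 2 := by
  have h := (t_CIR L f A η c H hc hn).2.1 r hr (-round (A r)) 1 one_ne_zero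
  push_cast at h
  have h1 : |A r - round (A r)| ≤ 1 / 2 := abs_sub_round (A r)
  have h2 : (A r - round (A r)) ^ 2 ≤ 1 / 4 := by
    rw [← sq_abs]
    nlinarith [abs_nonneg (A r - round (A r))]
  have h3 : f r ^ 2 * (A r - round (A r)) ^ 2 ≤ f r ^ 2 * (1 / 4) :=
    mul_le_mul_of_nonneg_left h2 (sq_nonneg _)
  nlinarith

/-- the diagonal -/
theorem diag {c : ℝ} (hc : 0 < c) {a : ℝ}
    (hl : c ^ 2 < f a ^ 2 / 4 + η a ^ 2) :
    ∃ w ∈ KK f (fun _ => 0) η (a, a), π * c < FK f (fun _ => 0) η (1 / 2) (a, a) w := by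
  set N : ℝ := f a ^ 2 / 4 + η a ^ 2 with hN
  have hNp : 0 < N := lt_trans (by positivity) hl
  have hs : 0 < √N := Real.sqrt_pos.2 hNp
  have hss : √N ^ 2 = N := Real.sq_sqrt hNp.le
  refine ⟨(f a ^ 2 / 2 / √N, η a ^ 2 / √N), ?_, ?_⟩
  · intro r hr
    have hra : r = a := le_antisymm hr.2 hr.1
    subst hra
    rw [adm0_iff]
    simp only [div_pow]
    rw [hss]
    constructor
    · have e : (f r ^ 2) ^ 2 / 2 ^ 2 / N * η r ^ 2 + (η r ^ 2) ^ 2 / N * f r ^ 2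
          = f r ^ 2 * η r ^ 2 := by
        have h1 : (f r ^ 2) ^ 2 / 2 ^ 2 / N * η r ^ 2 + (η r ^ 2) ^ 2 / N * f r ^ 2
            = f r ^ 2 * η r ^ 2 * ((f r ^ 2 / 4 + η r ^ 2) / N) := by ring
        rw [h1, ← hN, div_self hNp.ne', mul_one]
      exact e.le
    · rw [div_le_iff₀ hNp, hN]
      nlinarith [sq_nonneg (f r * η r)]
  · unfold FK
    simp only [intervalIntegral.integral_same, zero_add]
    have e : 1 / 2 * (f a ^ 2 / 2 / √N) + η a ^ 2 / √N = √N := by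
      have h1 : 1 / 2 * (f a ^ 2 / 2 / √N) + η a ^ 2 / √N = N / √N := by
        rw [hN]
        ring
      rw [h1, div_eq_iff hs.ne', ← pow_two, hss]
    rw [e]
    refine mul_lt_mul_of_pos_left ?_ pi_pos
    exact Real.lt_sqrt_of_sq_lt hl

/-- covectors on the axis -/
theorem axis_KK (H : Profile L f A η) {x w : ℝ × ℝ} (hx : x ∈ Tri L) (hax : x.1 = 0 ∨ x.2 = L)
    (h : w ∈ KK f A η x) : w.1 = 0 ∧ w ∈ KK f (fun _ => 0) η x ∧
      FK f (fun _ => 0) η (1 / 2) x w = FK f A η 0 x w := by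
  have hw1 : w.1 = 0 := by
    have key : ∀ r, f r = 0 → r ∈ Icc x.1 x.2 → w.1 = 0 := by
      intro r hfr hr
      have h1 := (h r hr).1
      rw [hfr] at h1
      have h2 := H.η_pos r
      have h3 : w.1 ^ 2 * η r ^ 2 ≤ 0 := by nlinarith
      have h4 : 0 < η r ^ 2 := by positivity
      have h5 : w.1 ^ 2 ≤ 0 := by
        by_contra hcon
        push Not at hcon
        have := mul_pos hcon h4
        linarith
      exact pow_eq_zero_iff (two_ne_zero) |>.1 (le_antisymm h5 (sq_nonneg _))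
    rcases hax with h0 | hL
    · exact key 0 H.f_zero ⟨h0.le, h0 ▸ hx.2.1⟩
    · exact key L H.f_L ⟨hL ▸ hx.2.1, hL.ge⟩
  refine ⟨hw1, ?_, ?_⟩
  · intro r hr
    have h1 := h r hr
    unfold Adm at h1 ⊢
    rw [hw1] at h1 ⊢
    simpa using h1
  · unfold FK
    have e : ∀ r, HH f (fun _ => 0) η w r = HH f A η w r := by
      intro r
      unfold HH
      rw [hw1]
      simp
    simp only [e]
    rw [hw1]
    ring

/-- the pointwise inequality -/
theorem point {F E a z1 z2 w1 w2 lam : ℝ} (hF : 0 < F) (hE : 0 < E) (hlam : |lam| ≤ 1)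
    (hz : z1 ^ 2 / F ^ 2 + z2 ^ 2 / E ^ 2 < 1)
    (hw : w1 ^ 2 / F ^ 2 + (w2 - a * w1) ^ 2 / E ^ 2 ≤ 1) :
    √(1 - (w1 ^ 2 / F ^ 2 + (w2 - a * w1) ^ 2 / E ^ 2))
        + w1 * lam * (z1 / F ^ 2 / √(1 - (z1 ^ 2 / F ^ 2 + z2 ^ 2 / E ^ 2)))
        + w2 * (z2 / E ^ 2 / √(1 - (z1 ^ 2 / F ^ 2 + z2 ^ 2 / E ^ 2)))
        - w1 * (a * (z2 / E ^ 2) / √(1 - (z1 ^ 2 / F ^ 2 + z2 ^ 2 / E ^ 2)))
      ≤ √(1 - (z1 ^ 2 / F ^ 2 + z2 ^ 2 / E ^ 2))
        + (z1 ^ 2 / F ^ 2 + z2 ^ 2 / E ^ 2) / √(1 - (z1 ^ 2 / F ^ 2 + z2 ^ 2 / E ^ 2)) := by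
  set S := √(1 - (z1 ^ 2 / F ^ 2 + z2 ^ 2 / E ^ 2)) with hS
  set T := √(1 - (w1 ^ 2 / F ^ 2 + (w2 - a * w1) ^ 2 / E ^ 2)) with hT
  have hSp : 0 < S := Real.sqrt_pos.2 (by linarith)
  have hS2 : S ^ 2 = 1 - (z1 ^ 2 / F ^ 2 + z2 ^ 2 / E ^ 2) := Real.sq_sqrt (by linarith)
  have hT2 : T ^ 2 = 1 - (w1 ^ 2 / F ^ 2 + (w2 - a * w1) ^ 2 / E ^ 2) := Real.sq_sqrt (by linarith)
  obtain ⟨u1, hu1⟩ : ∃ u, u = w1 / F := ⟨_, rfl⟩
  obtain ⟨u2, hu2⟩ : ∃ u, u = (w2 - a * w1) / E := ⟨_, rfl⟩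
  obtain ⟨v1, hv1⟩ : ∃ u, u = z1 / F := ⟨_, rfl⟩
  obtain ⟨v2, hv2⟩ : ∃ u, u = z2 / E := ⟨_, rfl⟩
  have e1 : w1 ^ 2 / F ^ 2 = u1 ^ 2 := by rw [hu1, div_pow]
  have e2 : (w2 - a * w1) ^ 2 / E ^ 2 = u2 ^ 2 := by rw [hu2, div_pow]
  have e3 : z1 ^ 2 / F ^ 2 = v1 ^ 2 := by rw [hv1, div_pow]
  have e4 : z2 ^ 2 / E ^ 2 = v2 ^ 2 := by rw [hv2, div_pow]
  rw [e1, e2] at hT2
  rw [e3, e4] at hS2 ⊢
  -- multiply with `S`
  have hmul : T * S + lam * (u1 * v1) + u2 * v2 ≤ 1 := by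
    have h1 : T * S ≤ (T ^ 2 + S ^ 2) / 2 := by nlinarith [sq_nonneg (T - S)]
    have h2 : u2 * v2 ≤ (u2 ^ 2 + v2 ^ 2) / 2 := by nlinarith [sq_nonneg (u2 - v2)]
    have h3 : lam * (u1 * v1) ≤ (u1 ^ 2 + v1 ^ 2) / 2 := by
      have h4 : lam * (u1 * v1) ≤ |lam| * |u1 * v1| := by
        rw [← abs_mul]
        exact le_abs_self _
      have h5 : |lam| * |u1 * v1| ≤ 1 * |u1 * v1| :=
        mul_le_mul_of_nonneg_right hlam (abs_nonneg _)
      have h6 : |u1 * v1| ≤ (u1 ^ 2 + v1 ^ 2) / 2 := by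
        rw [abs_le]
        constructor
        · nlinarith [sq_nonneg (u1 + v1)]
        · nlinarith [sq_nonneg (u1 - v1)]
      linarith
    linarith
  have hL : T + w1 * lam * (z1 / F ^ 2 / S) + w2 * (z2 / E ^ 2 / S) - w1 * (a * (z2 / E ^ 2) / S)
      = (T * S + lam * (u1 * v1) + u2 * v2) / S := by
    rw [hu1, hu2, hv1, hv2]
    field_simp
    ring
  have hR : S + (v1 ^ 2 + v2 ^ 2) / S = 1 / S := by
    have h7 : S + (v1 ^ 2 + v2 ^ 2) / S = (S ^ 2 + (v1 ^ 2 + v2 ^ 2)) / S := by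
      field_simp
    rw [h7, hS2]
    congr 1
    ring
  rw [hL, hR]
  exact div_le_div_of_nonneg_right hmul hSp.le

/-- the interior case -/
theorem interior (H : Profile L f A η) (hint : Q_INT) (hcls : Q_CLS) {c : ℝ} (hc : 0 < c)
    (hn : NoShort L f A η c) {a b : ℝ} {z : ℝ × ℝ} (ha : 0 < a) (hab : a < b) (hbL : b < L)
    (hz : MK f (fun _ => 0) η (1 / 2) (a, b) z)
    (hmin : ∀ y ∈ Tri L, ∃ w ∈ KK f (fun _ => 0) η y,
      FK f (fun _ => 0) η (1 / 2) (a, b) z ≤ FK f (fun _ => 0) η (1 / 2) y w) :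
    π * c ≤ FK f (fun _ => 0) η (1 / 2) (a, b) z := by
  have H0 := prof0 H
  obtain ⟨hw, hI⟩ := hint L f (fun _ => 0) η (1 / 2) a b z H0 ha hab hbL hz hmin
  set S : ℝ → ℝ := fun r => √(1 - HH f (fun _ => 0) η z r) with hS
  have hf : ∀ r ∈ Icc a b, 0 < f r := fun r hr =>
    H.f_pos r (lt_of_lt_of_le ha hr.1) (lt_of_le_of_lt hr.2 hbL)
  have hη : ∀ r, 0 < η r := H.η_pos
  have toII : ∀ g : ℝ → ℝ, ContinuousOn g (Icc a b) →
      IntervalIntegrable (fun r => g r / S r) volume a b := by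
    intro g hg
    rw [intervalIntegrable_iff_integrableOn_Ioo_of_le hab.le]
    exact hw.integrableOn hg
  have cX : ContinuousOn (fun r => z.1 / f r ^ 2) (Icc a b) :=
    continuousOn_const.div (H.f_cont.continuousOn.pow 2) fun r hr => pow_ne_zero 2 (hf r hr).ne'
  have cP : ContinuousOn (fun r => z.2 / η r ^ 2) (Icc a b) :=
    continuousOn_const.div (H.η_cont.continuousOn.pow 2) fun r _ => pow_ne_zero 2 (hη r).ne'
  have cAP : ContinuousOn (fun r => A r * (z.2 / η r ^ 2)) (Icc a b) :=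
    H.A_cont.continuousOn.mul cP
  have cH : ContinuousOn (HH f (fun _ => 0) η z) (Icc a b) := fun r hr =>
    (H0.HH_contDiffAt (hf r hr).ne').continuousAt.continuousWithinAt
  have iX := toII _ cX
  have iP := toII _ cP
  have iAP := toII _ cAP
  have iH := toII _ cH
  have IX : ∫ r in a..b, z.1 / f r ^ 2 / S r = π / 2 := by
    have h1 := hI (1, 0)
    simp only [mul_one, add_zero] at h1
    rw [show π / 2 = π * (1 / 2) by ring, ← h1]
    refine intervalIntegral.integral_congr fun r _ => ?_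
    simp only [BB, hS]
    congr 1
    ring
  have IP : ∫ r in a..b, z.2 / η r ^ 2 / S r = π := by
    have h1 := hI (0, 1)
    simp only [mul_zero, zero_add, mul_one] at h1
    refine Eq.trans ?_ h1
    refine intervalIntegral.integral_congr fun r _ => ?_
    simp only [BB, hS]
    congr 1
    ring
  have IH : ∫ r in a..b, HH f (fun _ => 0) η z r / S r = π * (1 / 2 * z.1 + z.2) := by
    have h1 := hI z
    simp only [BB_self] at h1
    exact h1
  obtain ⟨α, hα⟩ : ∃ α, α = ∫ r in a..b, A r * (z.2 / η r ^ 2) / S r := ⟨_, rfl⟩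
  obtain ⟨m, hm⟩ : ∃ m : ℤ, m = -round (α / π) := ⟨_, rfl⟩
  obtain ⟨lam, hlam⟩ : ∃ l : ℝ, l = (m * π + α) / (π / 2) := ⟨_, rfl⟩
  have hπ := pi_pos
  have hlam1 : |lam| ≤ 1 := by
    have h1 : |α / π - round (α / π)| ≤ 1 / 2 := abs_sub_round (α / π)
    have h2 : lam = 2 * (α / π - round (α / π)) := by
      rw [hlam, hm]
      push_cast
      field_simp
      ring
    rw [h2, abs_mul, abs_of_pos (by norm_num : (0 : ℝ) < 2)]
    linarith
  have hlam2 : lam * (π / 2) = m * π + α := by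
    rw [hlam]
    field_simp
  have hxT : ((a, b) : ℝ × ℝ) ∈ Tri L := ⟨ha.le, hab.le, hbL.le⟩
  obtain ⟨w, hwK, hwc⟩ := hcls L f A η c H hc hn m (a, b) hxT
  have i1 := H.ii w a b
  have i0 := H0.ii z a b
  have hlhs : IntervalIntegrable (fun r => √(1 - HH f A η w r)
      + w.1 * lam * (z.1 / f r ^ 2 / S r) + w.2 * (z.2 / η r ^ 2 / S r)
      - w.1 * (A r * (z.2 / η r ^ 2) / S r)) volume a b :=
    ((i1.add (iX.const_mul _)).add (iP.const_mul _)).sub (iAP.const_mul _)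
  have hrhs : IntervalIntegrable (fun r => S r + HH f (fun _ => 0) η z r / S r) volume a b :=
    i0.add iH
  have hmono := intervalIntegral.integral_mono_on_of_le_Ioo hab.le hlhs hrhs (by
    intro r hr
    have hr' : r ∈ Icc a b := ⟨hr.1.le, hr.2.le⟩
    have h1 : HH f (fun _ => 0) η z r < 1 := by
      have := hw.pos r hr
      linarith
    have h2 : HH f A η w r ≤ 1 := H.HH_le_one (hwK r hr')
    rw [HH0] at h1
    have h3 := point (a := A r) (w1 := w.1) (w2 := w.2) (hf r hr') (hη r) hlam1 h1 h2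
    simp only [hS, HH0]
    exact h3)
  rw [intervalIntegral.integral_sub ((i1.add (iX.const_mul _)).add (iP.const_mul _))
      (iAP.const_mul _),
    intervalIntegral.integral_add (i1.add (iX.const_mul _)) (iP.const_mul _),
    intervalIntegral.integral_add i1 (iX.const_mul _), intervalIntegral.integral_const_mul,
    intervalIntegral.integral_const_mul, intervalIntegral.integral_const_mul, IX, IP, ← hα,
    intervalIntegral.integral_add i0 iH, IH] at hmono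
  have hl : (∫ r in a..b, √(1 - HH f A η w r)) + w.1 * lam * (π / 2) + w.2 * π - w.1 * α
      = FK f A η m (a, b) w := by
    unfold FK
    simp only
    have : w.1 * lam * (π / 2) = w.1 * (m * π + α) := by rw [← hlam2]; ring
    rw [this]
    ring
  rw [hl] at hmono
  unfold FK
  simp only
  linarith

end DSTSAux

open DSTSAux in
theorem q_DST (hexm : Q_EXM) (hint : Q_INT) (hcls : Q_CLS) : Q_DST := by
  intro L f A η c H hc hn x hx
  have H0 := prof0 H
  obtain ⟨x1, hx1, z, hz, hmin⟩ := (hexm L f (fun _ => 0) η (1 / 2) H0).2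
  have hv : π * c ≤ FK f (fun _ => 0) η (1 / 2) x1 z := by
    by_contra hcon
    push Not at hcon
    obtain ⟨a, b⟩ := x1
    rcases eq_or_lt_of_le hx1.2.1 with hab | hab
    · simp only at hab
      subst hab
      obtain ⟨w, hw, hwc⟩ := diag hc (lat H hc hn ⟨hx1.1, hx1.2.2⟩)
      have := hz.2 w hw
      linarith
    · by_cases hax : a = 0 ∨ b = L
      · obtain ⟨w, hw, hwc⟩ := hcls L f A η c H hc hn 0 (a, b) hx1
        obtain ⟨-, h2, h3⟩ := axis_KK H hx1 hax hw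
        have h4 := hz.2 w h2
        rw [h3] at h4
        rw [Int.cast_zero] at hwc
        linarith
      · push Not at hax
        have ha : 0 < a := lt_of_le_of_ne hx1.1 (Ne.symm hax.1)
        have hb : b < L := lt_of_le_of_ne hx1.2.2 hax.2
        have := interior H hint hcls hc hn ha hab hb hz hmin
        linarith
  obtain ⟨w, hw, hwc⟩ := hmin x hx
  exact ⟨(|w.1|, |w.2|), abs_KK hw, abs_nonneg _, abs_nonneg _, (hv.trans hwc).trans (abs_FK x w)⟩

end TSP
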