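import Pool.Agent.TSP.StmtsS

/-!
# The sharp constant: existence of maximizers and of a minimal interval (module TSS_EXM)
-/

set_option autoImplicit false

namespace TSP

open Set MeasureTheory Real Filter Topology

namespace EXMSAux

variable {L : ℝ} {f A η : ℝ → ℝ}

lemma FK_eq (k : ℝ) (x z : ℝ × ℝ) :
    FK f A η k x z = FF f A η x z + π * ((k - 1) * z.1 + z.2) := by
  unfold FK FF; ring

/-- joint continuity -/
lemma cont_FK (H : Profile L f A η) (k : ℝ) :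
    ContinuousOn (fun q : (ℝ × ℝ) × (ℝ × ℝ) => FK f A η k q.1 q.2)
      ((Icc 0 L ×ˢ Icc 0 L) ×ˢ univ) := by
  have h1 := t_CNT L f A η H
  have h2 : Continuous fun q : (ℝ × ℝ) × (ℝ × ℝ) => π * ((k - 1) * q.2.1 + q.2.2) := by fun_prop
  have h3 := h1.add h2.continuousOn (s := (Icc 0 L ×ˢ Icc 0 L) ×ˢ univ)
  refine h3.congr fun q _ => ?_
  exact FK_eq k q.1 q.2

/-- continuity in the covector -/
lemma cont_FK' (H : Profile L f A η) (k : ℝ) {x : ℝ × ℝ} (hx : x ∈ Tri L) :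
    Continuous (FK f A η k x) := by
  have h2 : ContinuousOn (fun z : ℝ × ℝ =>
      (fun q : (ℝ × ℝ) × (ℝ × ℝ) => FK f A η k q.1 q.2) (x, z)) univ := by
    refine (cont_FK H k).comp (g := fun q : (ℝ × ℝ) × (ℝ × ℝ) => FK f A η k q.1 q.2)
      (f := fun z : ℝ × ℝ => (x, z)) (by fun_prop) ?_
    intro z _
    exact ⟨LSCAux.tri_mem hx, mem_univ _⟩
  exact continuousOn_univ.1 h2

lemma exists_mk (H : Profile L f A η) (k : ℝ) {x : ℝ × ℝ} (hx : x ∈ Tri L) :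
    ∃ z, MK f A η k x z := by
  obtain ⟨z, hz, hmax⟩ := (MAXAux.isCompact_KK H t_CMP hx).exists_isMaxOn ⟨0, zero_mem_KK x⟩
    (cont_FK' H k hx).continuousOn
  exact ⟨z, hz, fun w hw => hmax hw⟩

/-- lower semicontinuity, if the multiples of the covector are admissible on open sets -/
lemma core (H : Profile L f A η) (k : ℝ) {x : ℝ × ℝ} (hx : x ∈ Tri L) {u : ℝ × ℝ}
    (hO : ∀ c : ℝ, 0 < c → c < 1 → ∃ O : Set ℝ, IsOpen O ∧ Icc x.1 x.2 ⊆ O ∧
      ∀ r ∈ O, Adm f A η (c • u) r)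
    {ε : ℝ} (hε : 0 < ε) : ∃ δ > 0, ∀ y ∈ Tri L, dist y x < δ →
    ∃ u' ∈ KK f A η y, FK f A η k x u - ε ≤ FK f A η k y u' := by
  have hC := cont_FK H k
  -- a scale factor
  have hcont : Continuous fun c : ℝ => FK f A η k x (c • u) :=
    (cont_FK' H k hx).comp (by fun_prop)
  have hev : ∀ᶠ c in 𝓝 (1 : ℝ), FK f A η k x u - ε / 2 < FK f A η k x (c • u) := by
    have h1 : Tendsto (fun c : ℝ => FK f A η k x (c • u)) (𝓝 1)
        (𝓝 (FK f A η k x ((1 : ℝ) • u))) := hcont.continuousAt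
    rw [one_smul] at h1
    exact h1.eventually (lt_mem_nhds (by linarith))
  obtain ⟨ρ, hρ, hball⟩ := Metric.eventually_nhds_iff.1 hev
  set c : ℝ := 1 - min (ρ / 2) (1 / 2) with hc
  have hm1 : 0 < min (ρ / 2) (1 / 2) := lt_min (by positivity) (by norm_num)
  have hm2 : min (ρ / 2) (1 / 2) ≤ 1 / 2 := min_le_right _ _
  have hm3 : min (ρ / 2) (1 / 2) ≤ ρ / 2 := min_le_left _ _
  have hc1 : c < 1 := by rw [hc]; linarith
  have hc0 : 0 < c := by rw [hc]; linarith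
  have hcv : FK f A η k x u - ε / 2 < FK f A η k x (c • u) := by
    apply hball
    rw [Real.dist_eq, hc]
    rw [show (1 - min (ρ / 2) (1 / 2) - 1 : ℝ) = - min (ρ / 2) (1 / 2) by ring, abs_neg,
      abs_of_pos hm1]
    linarith
  obtain ⟨O, hopen, hsub, hadm⟩ := hO c hc0 hc1
  obtain ⟨δ₁, hδ₁, hth⟩ := isCompact_Icc.exists_thickening_subset_open hopen hsub
  -- continuity at the point
  have hxm : ((x, c • u) : (ℝ × ℝ) × (ℝ × ℝ)) ∈ (Icc (0 : ℝ) L ×ˢ Icc (0 : ℝ) L) ×ˢ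
      (univ : Set (ℝ × ℝ)) := ⟨LSCAux.tri_mem hx, mem_univ _⟩
  obtain ⟨δ₂, hδ₂, hδ₂'⟩ := Metric.continuousWithinAt_iff.1 (hC _ hxm) (ε / 2) (by positivity)
  refine ⟨min δ₁ δ₂, lt_min hδ₁ hδ₂, fun y hy hd => ⟨c • u, ?_, ?_⟩⟩
  · intro r hr
    obtain ⟨s, hs, hrs⟩ := LSCAux.near hx.2.1 (lt_of_lt_of_le hd (min_le_left _ _)) hr
    exact hadm r (hth (Metric.mem_thickening_iff.2 ⟨s, hs, hrs⟩))
  · have hdy : dist ((y, c • u) : (ℝ × ℝ) × (ℝ × ℝ)) (x, c • u) < δ₂ := by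
      rw [Prod.dist_eq, dist_self, max_eq_left dist_nonneg]
      exact lt_of_lt_of_le hd (min_le_right _ _)
    have h1 := hδ₂' (show ((y, c • u) : (ℝ × ℝ) × (ℝ × ℝ)) ∈
      (Icc (0 : ℝ) L ×ˢ Icc (0 : ℝ) L) ×ˢ (univ : Set (ℝ × ℝ)) from
        ⟨LSCAux.tri_mem hy, mem_univ _⟩) hdy
    rw [Real.dist_eq] at h1
    have h2 := (abs_lt.1 h1).1
    simp only at h2
    linarith

/-- multiples of a covector on an axis -/
lemma openA (H : Profile L f A η) {x u : ℝ × ℝ} (hu : u ∈ KK f A η x) (hu1 : u.1 = 0)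
    (c : ℝ) (hc0 : 0 < c) (hc1 : c < 1) : ∃ O : Set ℝ, IsOpen O ∧ Icc x.1 x.2 ⊆ O ∧
      ∀ r ∈ O, Adm f A η (c • u) r := by
  refine ⟨{r | (c * u.2) ^ 2 < η r ^ 2}, isOpen_lt continuous_const (H.η_cont.pow 2), ?_, ?_⟩
  · intro r hr
    have h1 := (hu r hr).2
    rw [hu1, mul_zero, sub_zero] at h1
    have hη := H.η_pos r
    have h2 : 0 < η r ^ 2 := by positivity
    have hc2 : c ^ 2 < 1 := by nlinarith
    show (c * u.2) ^ 2 < η r ^ 2
    rw [mul_pow]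
    nlinarith [sq_nonneg c]
  · intro r hr
    have h1 : (c * u.2) ^ 2 < η r ^ 2 := hr
    unfold Adm
    simp only [Prod.smul_fst, Prod.smul_snd, smul_eq_mul, hu1, mul_zero, sub_zero]
    refine ⟨?_, h1.le⟩
    nlinarith [sq_nonneg (f r), mul_le_mul_of_nonneg_left h1.le (sq_nonneg (f r))]

/-- multiples of a covector for an interval inside `(0, L)` -/
lemma openB (H : Profile L f A η) {x u : ℝ × ℝ} (hx0 : 0 < x.1) (hxL : x.2 < L)
    (hu : u ∈ KK f A η x) (c : ℝ) (hc0 : 0 < c) (hc1 : c < 1) :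
    ∃ O : Set ℝ, IsOpen O ∧ Icc x.1 x.2 ⊆ O ∧ ∀ r ∈ O, Adm f A η (c • u) r := by
  have hc2 : c ^ 2 < 1 := by nlinarith
  have hcO : ContinuousOn (HH f A η (c • u)) (Ioo 0 L) := by
    intro r hr
    have h1 := H.HH_contAt (z := c • u) (r := r) (H.f_pos r hr.1 hr.2).ne'
    have h2 : ContinuousAt (fun s : ℝ => ((c • u, s) : (ℝ × ℝ) × ℝ)) r := by fun_prop
    exact (ContinuousAt.comp (f := fun s : ℝ => ((c • u, s) : (ℝ × ℝ) × ℝ))
      (g := fun q : (ℝ × ℝ) × ℝ => HH f A η q.1 q.2) h1 h2).continuousWithinAt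
  refine ⟨Ioo 0 L ∩ (HH f A η (c • u)) ⁻¹' Iio 1,
    hcO.isOpen_inter_preimage isOpen_Ioo isOpen_Iio, ?_, ?_⟩
  · intro r hr
    have hr0 : 0 < r := lt_of_lt_of_le hx0 hr.1
    have hrL : r < L := lt_of_le_of_lt hr.2 hxL
    refine ⟨⟨hr0, hrL⟩, ?_⟩
    have h1 := H.HH_le_one (hu r hr)
    have h2 := HH_nonneg (f := f) (A := A) (η := η) u r
    change HH f A η (c • u) r < 1
    rw [HH_smul]
    nlinarith
  · intro r hr
    exact (H.adm_iff hr.1.1 hr.1.2).2 (le_of_lt hr.2)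

/-- lower semicontinuity -/
lemma lsc (H : Profile L f A η) (k : ℝ) {x : ℝ × ℝ} (hx : x ∈ Tri L) {u : ℝ × ℝ}
    (hu : u ∈ KK f A η x) {ε : ℝ} (hε : 0 < ε) : ∃ δ > 0, ∀ y ∈ Tri L, dist y x < δ →
    ∃ u' ∈ KK f A η y, FK f A η k x u - ε ≤ FK f A η k y u' := by
  refine core H k hx ?_ hε
  by_cases h0 : x.1 = 0
  · refine openA H hu ?_
    have := hu x.1 ⟨le_refl _, hx.2.1⟩
    rw [h0] at this
    exact LSCAux.fst_zero H H.f_zero this
  · by_cases hL : x.2 = L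
    · refine openA H hu ?_
      have := hu x.2 ⟨hx.2.1, le_refl _⟩
      rw [hL] at this
      exact LSCAux.fst_zero H H.f_L this
    · exact openB H (lt_of_le_of_ne hx.1 (Ne.symm h0)) (lt_of_le_of_ne hx.2.2 hL) hu

lemma isCompact_Tri (L : ℝ) : IsCompact (Tri L) := by
  refine (isCompact_Icc.prod isCompact_Icc : IsCompact (Icc (0 : ℝ) L ×ˢ Icc (0 : ℝ) L)).of_isClosed_subset
    ?_ (fun x hx => LSCAux.tri_mem hx)
  exact (isClosed_le continuous_const continuous_fst).inter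
    ((isClosed_le continuous_fst continuous_snd).inter
      (isClosed_le continuous_snd continuous_const))

end EXMSAux

/-- **Existence** -/
theorem q_EXM : Q_EXM := by
  intro L f A η k H
  have hex : ∀ x ∈ Tri L, ∃ z, MK f A η k x z := fun x hx => EXMSAux.exists_mk H k hx
  refine ⟨hex, ?_⟩
  choose! m hm using hex
  have hlsc : LowerSemicontinuousOn (fun x => FK f A η k x (m x)) (Tri L) := by
    intro x hx y hy
    have hε : 0 < (FK f A η k x (m x) - y) / 2 := by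
      have : y < FK f A η k x (m x) := hy
      linarith
    obtain ⟨δ, hδ, h⟩ := EXMSAux.lsc H k hx (hm x hx).1 hε
    have h1 : ∀ᶠ x' in 𝓝[Tri L] x, dist x' x < δ :=
      mem_nhdsWithin_of_mem_nhds (Metric.ball_mem_nhds x hδ)
    filter_upwards [h1, self_mem_nhdsWithin] with x' hd hx'
    obtain ⟨u', hu', hle⟩ := h x' hx' hd
    have h2 := (hm x' hx').2 u' hu'
    have h3 : y < FK f A η k x (m x) := hy
    show y < FK f A η k x' (m x')
    linarith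
  have hne : (Tri L).Nonempty := ⟨(0, 0), le_refl _, le_refl _, H.L_pos.le⟩
  obtain ⟨x, hx, hmin⟩ := hlsc.exists_isMinOn hne (EXMSAux.isCompact_Tri L)
  exact ⟨x, hx, m x, hm x hx, fun y hy => ⟨m y, (hm y hy).1, hmin hy⟩⟩

end TSP
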