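import Pool.Agent.TSP.StmtsS

/-!
# Torus-invariant metrics on the product of the two-sphere and the circle: the oscillating geodesic
with displacement `(m π, π)`
-/

set_option autoImplicit false

namespace TSP

open Set MeasureTheory Real Filter Topology

namespace GEKSAux

/-- the length of one oscillation -/
lemma per_length {L : ℝ} {f A η : ℝ → ℝ} {k a b : ℝ} {z : ℝ × ℝ} (H : Profile L f A η)
    (ha : 0 < a) (hab : a < b) (hbL : b < L) (hw : SGR.Well (fun r => 1 - HH f A η z r) a b)
    (hI : ∀ w : ℝ × ℝ, ∫ r in a..b, BB f A η z w r / √(1 - HH f A η z r)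
      = π * (k * w.1 + w.2)) :
    SGR.per (fun r => 1 - HH f A η z r) a b = 2 * FK f A η k (a, b) z := by
  have h0 : ∀ x ∈ Icc a b, f x ≠ 0 := fun x hx =>
    (H.f_pos x (ha.trans_le hx.1) (hx.2.trans_lt hbL)).ne'
  have toIoo : ∀ g : ℝ → ℝ, ∫ x in Ioo a b, g x = ∫ x in a..b, g x := by
    intro g
    rw [intervalIntegral.integral_of_le hab.le, integral_Ioc_eq_integral_Ioo]
  have hHc : ContinuousOn (HH f A η z) (Icc a b) := fun x hx =>
    (H.HH_contDiffAt (h0 x hx)).continuousAt.continuousWithinAt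
  have i1 : IntervalIntegrable (fun r => HH f A η z r / √(1 - HH f A η z r)) volume a b := by
    rw [intervalIntegrable_iff_integrableOn_Ioo_of_le hab.le]
    exact hw.integrableOn hHc
  have h2 : (∫ r in a..b, HH f A η z r / √(1 - HH f A η z r)) = π * (k * z.1 + z.2) := by
    have := hI z
    simp only [BB_self] at this
    exact this
  rw [DWS.per_eq hw, toIoo]
  unfold FK
  simp only
  rw [← h2, ← intervalIntegral.integral_add (H.ii z a b) i1]
  congr 1
  rw [← toIoo, ← toIoo]
  refine setIntegral_congr_fun measurableSet_Ioo ?_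
  intro x hx
  have hp : 0 < 1 - HH f A η z x := hw.pos x hx
  have hs := Real.sqrt_pos.2 hp
  have hsq : √(1 - HH f A η z x) ^ 2 = 1 - HH f A η z x := Real.sq_sqrt hp.le
  simp only
  rw [div_eq_iff hs.ne', add_mul, div_mul_cancel₀ _ hs.ne', ← pow_two, hsq]
  ring

end GEKSAux

open GEOAux in
theorem q_GEK : Q_GEK := by
  intro L f A η m a b z H ha hab hbL hw hI
  have h0 : ∀ x ∈ Icc a b, f x ≠ 0 := fun x hx =>
    (H.f_pos x (ha.trans_le hx.1) (hx.2.trans_lt hbL)).ne'
  have hPc : ContinuousOn (PP f A η z) (Icc a b) := fun x hx =>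
    (smooth_PP H (h0 x hx)).continuousAt.continuousWithinAt
  have hQc : ContinuousOn (QQ f A η z) (Icc a b) := fun x _ =>
    (smooth_QQ H z x).continuousAt.continuousWithinAt
  have toIoo : ∀ g : ℝ → ℝ, ∫ x in Ioo a b, g x = ∫ x in a..b, g x := by
    intro g
    rw [intervalIntegral.integral_of_le hab.le, integral_Ioc_eq_integral_Ioo]
  refine ⟨hw.sol, DWS.ang hw (PP f A η z), DWS.ang hw (QQ f A η z),
    SGR.per (fun r => 1 - HH f A η z r) a b, geodesic_well H hw h0, ?_,
    GEKSAux.per_length H ha hab hbL hw hI⟩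
  refine osc_closes hw hPc hQc m 1 ?_ ?_
  · rw [toIoo]
    have := hI (1, 0)
    simp only [PP]
    rw [this]
    push_cast
    ring
  · rw [toIoo]
    have := hI (0, 1)
    simp only [QQ]
    rw [this]
    push_cast
    ring

end TSP
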