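import Pool.Agent.TSP.StmtsS

/-!
# Gluing: a profile with prescribed functions on a compact interval
-/

set_option autoImplicit false

namespace TSP

open Set MeasureTheory Real Filter Topology

namespace GLUSAux

/-- the inverse of `r ↦ cos (π r / L)` -/
noncomputable def ss (L y : ℝ) : ℝ := L / π * arccos y

theorem ss_cos {L r : ℝ} (hL : 0 < L) (h0 : 0 ≤ r) (h1 : r ≤ L) : ss L (cos (π / L * r)) = r := by
  have hπ := Real.pi_pos
  unfold ss
  rw [arccos_cos (by positivity)]
  · field_simp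
  · rw [div_mul_eq_mul_div, div_le_iff₀ hL]
    exact mul_le_mul_of_nonneg_left h1 hπ.le

theorem ss_mem {L y : ℝ} (hL : 0 < L) (h1 : -1 < y) (h2 : y < 1) : 0 < ss L y ∧ ss L y < L := by
  have hπ := Real.pi_pos
  have h3 : 0 < arccos y := arccos_pos.2 h2
  have h4 : arccos y < π := by
    rcases lt_or_eq_of_le (arccos_le_pi y) with h | h
    · exact h
    · exact absurd (arccos_eq_pi.1 h) (by linarith)
  unfold ss
  refine ⟨by positivity, ?_⟩
  rw [div_mul_eq_mul_div, div_lt_iff₀ hπ]
  exact mul_lt_mul_of_pos_left h4 hL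

theorem ss_smooth (L : ℝ) {y : ℝ} (h1 : -1 < y) (h2 : y < 1) :
    ContDiffAt ℝ (⊤ : ℕ∞) (ss L) y := by
  unfold ss
  exact contDiffAt_const.mul (contDiffAt_arccos h1.ne' h2.ne)

/-- the product of a cut-off function and a function smooth on `(0, L)`, in the variable `y` -/
theorem smooth_mul {L : ℝ} (hL : 0 < L) {χ g : ℝ → ℝ} (hχ : ContDiff ℝ (⊤ : ℕ∞) χ)
    (hs : tsupport χ ⊆ Ioo (-1) 1)
    (hg : ∀ r, 0 < r → r < L → ContDiffAt ℝ (⊤ : ℕ∞) g r) :
    ContDiff ℝ (⊤ : ℕ∞) (fun y => χ y * g (ss L y)) := by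
  rw [contDiff_iff_contDiffAt]
  intro y
  by_cases hy : y ∈ Ioo (-1 : ℝ) 1
  · have h1 := ss_mem hL hy.1 hy.2
    exact hχ.contDiffAt.mul ((hg _ h1.1 h1.2).comp y (ss_smooth L hy.1 hy.2))
  · have h1 : y ∉ tsupport χ := fun h => hy (hs h)
    have h2 : χ =ᶠ[𝓝 y] 0 := notMem_tsupport_iff_eventuallyEq.1 h1
    have h3 : (fun y => χ y * g (ss L y)) =ᶠ[𝓝 y] fun _ => (0 : ℝ) := by
      filter_upwards [h2] with x hx
      rw [hx]
      simp
    exact contDiffAt_const.congr_of_eventuallyEq h3

end GLUSAux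

open GLUSAux

theorem q_GLU : Q_GLU := by
  intro L a b g1 g2 g3 ha hab hb hg
  have hπ := Real.pi_pos
  have hL : 0 < L := by linarith
  have hc : 0 < π / L := by positivity
  set c := π / L with hcdef
  have hcL : c * L = π := by rw [hcdef]; field_simp
  -- δ
  obtain ⟨δ, hδ, hδa, hδb⟩ : ∃ δ : ℝ, 0 < δ ∧ δ < a ∧ b + δ < L := by
    refine ⟨min a (L - b) / 2, ?_, ?_, ?_⟩
    · have : 0 < min a (L - b) := lt_min ha (by linarith)
      linarith
    · have h1 : min a (L - b) ≤ a := min_le_left _ _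
      linarith
    · have h1 : min a (L - b) ≤ L - b := min_le_right _ _
      have h2 : 0 < L - b := by linarith
      linarith
  have hcos : ∀ r, 0 < r → r < L → -1 < cos (c * r) ∧ cos (c * r) < 1 := by
    intro r h0 h1
    have h2 : 0 < c * r := by positivity
    have h3 : c * r < π := by rw [← hcL]; exact mul_lt_mul_of_pos_left h1 hc
    constructor
    · rw [← cos_pi]
      exact cos_lt_cos_of_nonneg_of_le_pi h2.le le_rfl h3
    · rw [← cos_zero]
      exact cos_lt_cos_of_nonneg_of_le_pi le_rfl h3.le h2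
  set y1 := cos (c * (b + δ)) with hy1
  set y2 := cos (c * (a - δ)) with hy2
  have hy1a := (hcos (b + δ) (by linarith) hδb).1
  have hy2a := (hcos (a - δ) (by linarith) (by linarith)).2
  have hy12 : y1 ≤ y2 := by
    apply cos_le_cos_of_nonneg_of_le_pi
    · have : 0 < a - δ := by linarith
      positivity
    · rw [← hcL]
      exact mul_le_mul_of_nonneg_left hδb.le hc.le
    · exact mul_le_mul_of_nonneg_left (by linarith) hc.le
  obtain ⟨ε, hε, hε1, hε2⟩ : ∃ ε : ℝ, 0 < ε ∧ y2 + 2 * ε < 1 ∧ -1 < y1 - 2 * ε := by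
    refine ⟨min (1 - y2) (1 + y1) / 4, ?_, ?_, ?_⟩
    · have : 0 < min (1 - y2) (1 + y1) := lt_min (by linarith) (by linarith)
      linarith
    · have h1 : min (1 - y2) (1 + y1) ≤ 1 - y2 := min_le_left _ _
      have h2 : 0 < 1 - y2 := by linarith
      linarith
    · have h1 : min (1 - y2) (1 + y1) ≤ 1 + y1 := min_le_right _ _
      have h2 : 0 < 1 + y1 := by linarith
      linarith
  let B : ContDiffBump ((y1 + y2) / 2) :=
    ⟨(y2 - y1) / 2 + ε, (y2 - y1) / 2 + 2 * ε, by linarith, by linarith⟩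
  obtain ⟨χ, hχs, hχ0, hχ1, hχt, hχo⟩ : ∃ χ : ℝ → ℝ, ContDiff ℝ (⊤ : ℕ∞) χ ∧ (∀ y, 0 ≤ χ y) ∧
      (∀ y, χ y ≤ 1) ∧ tsupport χ ⊆ Ioo (-1) 1 ∧ ∀ y ∈ Icc y1 y2, χ y = 1 := by
    refine ⟨B, B.contDiff, fun y => B.nonneg, fun y => B.le_one, ?_, ?_⟩
    · rw [B.tsupport_eq, Real.closedBall_eq_Icc]
      intro y hy
      have h1 : (y1 + y2) / 2 - ((y2 - y1) / 2 + 2 * ε) ≤ y := hy.1
      have h2 : y ≤ (y1 + y2) / 2 + ((y2 - y1) / 2 + 2 * ε) := hy.2
      exact ⟨by linarith, by linarith⟩
    · intro y hy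
      apply B.one_of_mem_closedBall
      rw [Real.closedBall_eq_Icc]
      show (y1 + y2) / 2 - ((y2 - y1) / 2 + ε) ≤ y ∧ y ≤ (y1 + y2) / 2 + ((y2 - y1) / 2 + ε)
      exact ⟨by linarith [hy.1], by linarith [hy.2]⟩
  have hχz : ∀ y, ¬ (-1 < y ∧ y < 1) → χ y = 0 := by
    intro y hy
    by_contra h
    exact hy (hχt (subset_tsupport χ h))
  -- the function h1 = g1 / sin
  set h1 : ℝ → ℝ := fun r => g1 r / sin (c * r) with hh1
  have hsin : ∀ r, 0 < r → r < L → 0 < sin (c * r) := by
    intro r h0 h2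
    apply sin_pos_of_pos_of_lt_pi (by positivity)
    rw [← hcL]
    exact mul_lt_mul_of_pos_left h2 hc
  have hh1s : ∀ r, 0 < r → r < L → ContDiffAt ℝ (⊤ : ℕ∞) h1 r := by
    intro r h0 h2
    apply (hg r h0 h2).1.div
    · exact (contDiff_sin.comp (contDiff_const.mul contDiff_id)).contDiffAt
    · exact (hsin r h0 h2).ne'
  have hh1p : ∀ r, 0 < r → r < L → 0 < h1 r := fun r h0 h2 =>
    div_pos (hg r h0 h2).2.2.2.1 (hsin r h0 h2)
  set F : ℝ → ℝ := fun y => χ y * h1 (ss L y) + (1 - χ y) * (L / π) with hF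
  have hFs : ContDiff ℝ (⊤ : ℕ∞) F :=
    (smooth_mul hL hχs hχt hh1s).add ((contDiff_const.sub hχs).mul contDiff_const)
  set E : ℝ → ℝ := fun y => χ y * g3 (ss L y) + (1 - χ y) * 1 with hE
  have hEs : ContDiff ℝ (⊤ : ℕ∞) E :=
    (smooth_mul hL hχs hχt fun r h0 h2 => (hg r h0 h2).2.2.1).add
      ((contDiff_const.sub hχs).mul contDiff_const)
  set D : ℝ → ℝ := fun y => χ y * g2 (ss L y) with hD
  have hDs : ContDiff ℝ (⊤ : ℕ∞) D := smooth_mul hL hχs hχt fun r h0 h2 => (hg r h0 h2).2.1
  have conv : ∀ {t u v : ℝ}, 0 ≤ t → t ≤ 1 → 0 < u → 0 < v → 0 < t * u + (1 - t) * v := by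
    intro t u v h0 h2 hu hv
    rcases eq_or_lt_of_le h0 with h | h
    · rw [← h]
      linarith
    · have h3 : 0 < t * u := by positivity
      have h4 : 0 ≤ (1 - t) * v := mul_nonneg (by linarith) hv.le
      linarith
  have hFp : ∀ y, 0 < F y := by
    intro y
    by_cases hy : -1 < y ∧ y < 1
    · have h2 := ss_mem hL hy.1 hy.2
      exact conv (hχ0 y) (hχ1 y) (hh1p _ h2.1 h2.2) (by positivity)
    · show 0 < χ y * h1 (ss L y) + (1 - χ y) * (L / π)
      rw [hχz y hy]
      simp only [zero_mul, sub_zero, one_mul, zero_add]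
      positivity
  have hEp : ∀ y, 0 < E y := by
    intro y
    by_cases hy : -1 < y ∧ y < 1
    · have h2 := ss_mem hL hy.1 hy.2
      exact conv (hχ0 y) (hχ1 y) (hg _ h2.1 h2.2).2.2.2.2 one_pos
    · show 0 < χ y * g3 (ss L y) + (1 - χ y) * 1
      rw [hχz y hy]
      norm_num
  have hF1 : F 1 = L / π := by
    show χ 1 * h1 (ss L 1) + (1 - χ 1) * (L / π) = L / π
    rw [hχz 1 (by rintro ⟨_, h⟩; exact lt_irrefl _ h)]
    ring
  have hFm1 : F (-1) = L / π := by
    show χ (-1) * h1 (ss L (-1)) + (1 - χ (-1)) * (L / π) = L / π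
    rw [hχz (-1) (by rintro ⟨h, _⟩; exact lt_irrefl _ h)]
    ring
  have hcs : ContDiff ℝ (⊤ : ℕ∞) fun r : ℝ => cos (c * r) :=
    contDiff_cos.comp (contDiff_const.mul contDiff_id)
  have hsn : ContDiff ℝ (⊤ : ℕ∞) fun r : ℝ => sin (c * r) :=
    contDiff_sin.comp (contDiff_const.mul contDiff_id)
  have hcneg : ∀ r, cos (c * -r) = cos (c * r) := by
    intro r
    rw [mul_neg, cos_neg]
  have hc2 : ∀ r, cos (c * (2 * L - r)) = cos (c * r) := by
    intro r
    have h2 : c * (2 * L - r) = 2 * π - c * r := by rw [← hcL]; ring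
    rw [h2, cos_two_pi_sub]
  have hsneg : ∀ r, sin (c * -r) = - sin (c * r) := by
    intro r
    rw [mul_neg, sin_neg]
  have hs2 : ∀ r, sin (c * (2 * L - r)) = - sin (c * r) := by
    intro r
    have h2 : c * (2 * L - r) = 2 * π - c * r := by rw [← hcL]; ring
    rw [h2, sin_two_pi_sub]
  have hder : ∀ x : ℝ, HasDerivAt (fun r => sin (c * r) * F (cos (c * r)))
      (cos (c * x) * c * F (cos (c * x)) + sin (c * x) * deriv (fun r => F (cos (c * r))) x) x := by
    intro x
    have h2 : HasDerivAt (fun r : ℝ => c * r) c x := by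
      simpa using (hasDerivAt_id x).const_mul c
    have h3 : HasDerivAt (fun r : ℝ => sin (c * r)) (cos (c * x) * c) x :=
      (hasDerivAt_sin (c * x)).comp x h2
    have h4 : DifferentiableAt ℝ (fun r => F (cos (c * r))) x :=
      ((hFs.comp hcs).differentiable (by simp)) x
    exact h3.mul h4.hasDerivAt
  refine ⟨fun r => sin (c * r) * F (cos (c * r)), fun r => D (cos (c * r)),
    fun r => E (cos (c * r)), δ, ?_, hδ, hδa, hδb, ?_⟩
  · exact
      { L_pos := hL
        smooth_f := hsn.mul (hFs.comp hcs)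
        smooth_A := hDs.comp hcs
        smooth_η := hEs.comp hcs
        f_odd := fun r => by
          show sin (c * -r) * F (cos (c * -r)) = -(sin (c * r) * F (cos (c * r)))
          rw [hcneg, hsneg]
          ring
        f_odd' := fun r => by
          show sin (c * (2 * L - r)) * F (cos (c * (2 * L - r))) = -(sin (c * r) * F (cos (c * r)))
          rw [hc2, hs2]
          ring
        A_even := fun r => by
          show D (cos (c * -r)) = D (cos (c * r))
          rw [hcneg]
        A_even' := fun r => by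
          show D (cos (c * (2 * L - r))) = D (cos (c * r))
          rw [hc2]
        η_even := fun r => by
          show E (cos (c * -r)) = E (cos (c * r))
          rw [hcneg]
        η_even' := fun r => by
          show E (cos (c * (2 * L - r))) = E (cos (c * r))
          rw [hc2]
        f_pos := fun r h0 h2 => mul_pos (hsin r h0 h2) (hFp _)
        η_pos := fun r => hEp _
        deriv_zero := by
          rw [(hder 0).deriv]
          rw [mul_zero, cos_zero, sin_zero, hF1, hcdef]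
          field_simp
          ring
        deriv_L := by
          rw [(hder L).deriv]
          rw [hcL, cos_pi, sin_pi, hFm1, hcdef]
          field_simp
          ring }
  · intro r hr
    have h0 : 0 < r := by linarith [hr.1]
    have h2 : r < L := by linarith [hr.2]
    have hm : cos (c * r) ∈ Icc y1 y2 := by
      constructor
      · apply cos_le_cos_of_nonneg_of_le_pi (by positivity)
        · rw [← hcL]
          exact mul_le_mul_of_nonneg_left hδb.le hc.le
        · exact mul_le_mul_of_nonneg_left hr.2 hc.le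
      · apply cos_le_cos_of_nonneg_of_le_pi
        · have : 0 < a - δ := by linarith
          positivity
        · rw [← hcL]
          exact mul_le_mul_of_nonneg_left h2.le hc.le
        · exact mul_le_mul_of_nonneg_left hr.1 hc.le
    have hone := hχo _ hm
    have hss : ss L (cos (c * r)) = r := ss_cos hL h0.le h2.le
    refine ⟨?_, ?_, ?_⟩
    · show sin (c * r) * (χ (cos (c * r)) * h1 (ss L (cos (c * r))) +
        (1 - χ (cos (c * r))) * (L / π)) = g1 r
      rw [hone, hss]
      have h3 := (hsin r h0 h2).ne'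
      show sin (c * r) * (1 * (g1 r / sin (c * r)) + (1 - 1) * (L / π)) = g1 r
      field_simp
      ring
    · show χ (cos (c * r)) * g2 (ss L (cos (c * r))) = g2 r
      rw [hone, hss, one_mul]
    · show χ (cos (c * r)) * g3 (ss L (cos (c * r))) + (1 - χ (cos (c * r))) * 1 = g3 r
      rw [hone, hss]
      ring

end TSP
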