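import Pool.Agent.TSP.StmtsS

/-!
# Interior minima are critical

An interior minimum of the length of the shortest curves with displacement `(k π, π)` between two
orbits satisfies the first order condition with equality, and its covector gives a well. The proof
uses the results for the displacement `(π, 0)` for the metric in another basis of the angles
(extended to a profile by `Q_GLU`).
-/

set_option autoImplicit false

namespace TSP

open Set MeasureTheory Real Filter Topology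

namespace INTSAux

/-- the change of basis of the covectors -/
def tau (k : ℝ) (z : ℝ × ℝ) : ℝ × ℝ := (k * z.1 + z.2, -z.1)

lemma tau_surj (k : ℝ) (u : ℝ × ℝ) : ∃ w, tau k w = u := by
  refine ⟨(-u.2, u.1 + k * u.2), ?_⟩
  unfold tau
  refine Prod.ext ?_ ?_
  · simp only
    ring
  · simp only
    ring

/-- what is needed of the extended profile: it represents the same metric near `[a, b]` -/
structure Same (L : ℝ) (f A η f' A' η' : ℝ → ℝ) (k a b δ : ℝ) : Prop where
  prof : Profile L f' A' η'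
  δ_pos : 0 < δ
  left : δ < a
  right : b + δ < L
  hh : ∀ r ∈ Icc (a - δ) (b + δ), ∀ w : ℝ × ℝ, HH f' A' η' (tau k w) r = HH f A η w r
  bb : ∀ r ∈ Icc (a - δ) (b + δ), ∀ z w : ℝ × ℝ,
    BB f' A' η' (tau k z) (tau k w) r = BB f A η z w r

lemma exists_same (hglu : Q_GLU) (hswa : Q_SWA) {L : ℝ} {f A η : ℝ → ℝ} (H : Profile L f A η)
    {k a b : ℝ} (ha : 0 < a) (hab : a < b) (hb : b < L) :
    ∃ (f' A' η' : ℝ → ℝ) (δ : ℝ), Same L f A η f' A' η' k a b δ := by
  obtain ⟨s1, s2⟩ := hswa L f A η k H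
  obtain ⟨f', A', η', δ, H', hδ, h1, h2, hag⟩ :=
    hglu L a b (fS f A η k) (aS f A η k) (eS f A η k) ha hab.le hb s1
  refine ⟨f', A', η', δ, H', hδ, h1, h2, ?_, ?_⟩
  · intro r hr w
    obtain ⟨e1, e2, e3⟩ := hag r hr
    have h0 : 0 < r := by linarith [hr.1]
    have hL : r < L := by linarith [hr.2]
    rw [← (s2 r h0 hL w w).1]
    unfold HH tau
    rw [e1, e2, e3]
  · intro r hr z w
    obtain ⟨e1, e2, e3⟩ := hag r hr
    have h0 : 0 < r := by linarith [hr.1]
    have hL : r < L := by linarith [hr.2]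
    rw [← (s2 r h0 hL z w).2]
    unfold BB tau
    rw [e1, e2, e3]

section
variable {L : ℝ} {f A η f' A' η' : ℝ → ℝ} {k a b δ : ℝ}

lemma Same.mem_iff (S : Same L f A η f' A' η' k a b δ) (H : Profile L f A η) {y : ℝ × ℝ}
    (h1 : a - δ ≤ y.1) (h2 : y.2 ≤ b + δ) (w : ℝ × ℝ) :
    tau k w ∈ KK f' A' η' y ↔ w ∈ KK f A η y := by
  have key : ∀ r ∈ Icc y.1 y.2, (Adm f' A' η' (tau k w) r ↔ Adm f A η w r) := by
    intro r hr
    have hr' : r ∈ Icc (a - δ) (b + δ) := ⟨h1.trans hr.1, hr.2.trans h2⟩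
    have h0 : 0 < r := by linarith [hr'.1, S.left]
    have hL : r < L := by linarith [hr'.2, S.right]
    rw [S.prof.adm_iff h0 hL, H.adm_iff h0 hL, S.hh r hr']
  constructor
  · intro h r hr
    exact (key r hr).1 (h r hr)
  · intro h r hr
    exact (key r hr).2 (h r hr)

lemma Same.val (S : Same L f A η f' A' η' k a b δ) {y : ℝ × ℝ} (h1 : a - δ ≤ y.1)
    (h12 : y.1 ≤ y.2) (h2 : y.2 ≤ b + δ) (w : ℝ × ℝ) :
    FF f' A' η' y (tau k w) = FK f A η k y w := by
  unfold FF FK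
  have e : (∫ r in y.1..y.2, √(1 - HH f' A' η' (tau k w) r))
      = ∫ r in y.1..y.2, √(1 - HH f A η w r) := by
    refine intervalIntegral.integral_congr (fun r hr => ?_)
    rw [uIcc_of_le h12] at hr
    rw [S.hh r ⟨h1.trans hr.1, hr.2.trans h2⟩]
  rw [e]
  rfl

lemma Same.mx (S : Same L f A η f' A' η' k a b δ) (H : Profile L f A η) (hab : a < b)
    {z : ℝ × ℝ} (hM : MK f A η k (a, b) z) : Mx f' A' η' (a, b) (tau k z) := by
  have h1 : a - δ ≤ a := by linarith [S.δ_pos]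
  have h2 : b ≤ b + δ := by linarith [S.δ_pos]
  refine ⟨(S.mem_iff H (y := (a, b)) h1 h2 z).2 hM.1, ?_⟩
  intro u hu
  obtain ⟨w, rfl⟩ := tau_surj k u
  rw [S.val (y := (a, b)) h1 hab.le h2, S.val (y := (a, b)) h1 hab.le h2]
  exact hM.2 w ((S.mem_iff H (y := (a, b)) h1 h2 w).1 hu)

/-- there is no descent direction at a minimum -/
lemma Same.no_desc (S : Same L f A η f' A' η' k a b δ) (H : Profile L f A η) (ha : 0 < a)
    (hab : a < b) (hb : b < L) {z : ℝ × ℝ} (hM : MK f A η k (a, b) z)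
    (hmin : ∀ y ∈ Tri L, ∃ w ∈ KK f A η y, FK f A η k (a, b) z ≤ FK f A η k y w) (v : ℝ × ℝ) :
    ¬ Desc (Tri L) (DD f' A' η') (a, b) v := by
  rintro ⟨ε, hε, hD⟩
  have hT : ((a, b) : ℝ × ℝ) ∈ Tri L := ⟨ha.le, hab.le, hb.le⟩
  have hδ := S.δ_pos
  have h1 : a - δ ≤ a := by linarith
  have h2 : b ≤ b + δ := by linarith
  set N : ℝ := |v.1| + |v.2| + 1 with hN
  have hN1 : |v.1| ≤ N := by
    have := abs_nonneg v.2
    rw [hN]; linarith
  have hN2 : |v.2| ≤ N := by
    have := abs_nonneg v.1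
    rw [hN]; linarith
  have hN0 : 0 < N := by
    have := abs_nonneg v.1
    have := abs_nonneg v.2
    rw [hN]; linarith
  set t : ℝ := min ε (δ / N) with ht
  have ht0 : 0 < t := lt_min hε (by positivity)
  have htN : t * N ≤ δ := by
    have : t ≤ δ / N := min_le_right _ _
    rwa [le_div_iff₀ hN0] at this
  have hv1 : |t * v.1| ≤ δ := by
    rw [abs_mul, abs_of_pos ht0]
    exact (mul_le_mul_of_nonneg_left hN1 ht0.le).trans htN
  have hv2 : |t * v.2| ≤ δ := by
    rw [abs_mul, abs_of_pos ht0]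
    exact (mul_le_mul_of_nonneg_left hN2 ht0.le).trans htN
  obtain ⟨hyT, hlt⟩ := hD (a, b) hT (by rw [dist_self]; exact hε) t ht0 (min_le_left _ _)
  set y : ℝ × ℝ := (a, b) + t • v with hy
  have hy1 : y.1 = a + t * v.1 := by rw [hy]; rfl
  have hy2 : y.2 = b + t * v.2 := by rw [hy]; rfl
  have g1 : a - δ ≤ y.1 := by
    rw [hy1]
    have := (abs_le.1 hv1).1
    linarith
  have g2 : y.2 ≤ b + δ := by
    rw [hy2]
    have := (abs_le.1 hv2).2
    linarith
  obtain ⟨w, hw, hle⟩ := hmin y hyT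
  obtain ⟨m1, -, -, -⟩ := c_MAX L f' A' η' S.prof
  obtain ⟨u, hu⟩ := m1 y hyT
  have k1 : FF f' A' η' y (tau k w) ≤ DD f' A' η' y := hu.le_DD ((S.mem_iff H g1 g2 w).2 hw)
  rw [S.val g1 hyT.2.1 g2] at k1
  have k2 : DD f' A' η' (a, b) = FK f A η k (a, b) z := by
    rw [(S.mx H hab hM).DD_eq, S.val (y := (a, b)) h1 hab.le h2]
  rw [k2] at hlt
  linarith

/-- the well is the same for both representations -/
lemma Same.well (S : Same L f A η f' A' η' k a b δ) {z : ℝ × ℝ}
    (hw : SGR.Well (fun r => 1 - HH f' A' η' (tau k z) r) a b) :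
    SGR.Well (fun r => 1 - HH f A η z r) a b := by
  have hδ := S.δ_pos
  have hab := hw.lt
  have hev : ∀ r ∈ Icc a b, (fun x => 1 - HH f' A' η' (tau k z) x) =ᶠ[𝓝 r]
      (fun x => 1 - HH f A η z x) := by
    intro r hr
    have hn : Icc (a - δ) (b + δ) ∈ 𝓝 r :=
      Icc_mem_nhds (by linarith [hr.1]) (by linarith [hr.2])
    filter_upwards [hn] with x hx
    rw [S.hh x hx]
  have ha : a ∈ Icc a b := ⟨le_rfl, hab.le⟩
  have hb : b ∈ Icc a b := ⟨hab.le, le_rfl⟩
  refine ⟨hab, ?_, ?_, ?_, ?_, ?_, ?_⟩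
  · intro x hx
    exact (hw.smooth x hx).congr_of_eventuallyEq (hev x hx).symm
  · rw [← (hev a ha).eq_of_nhds]
    exact hw.left
  · rw [← (hev b hb).eq_of_nhds]
    exact hw.right
  · intro x hx
    rw [← (hev x (Ioo_subset_Icc_self hx)).eq_of_nhds]
    exact hw.pos x hx
  · rw [← (hev a ha).deriv_eq]
    exact hw.dleft
  · rw [← (hev b hb).deriv_eq]
    exact hw.dright

end

end INTSAux

open INTSAux in
theorem q_INT (hglu : Q_GLU) (hswa : Q_SWA) : Q_INT := by
  intro L f A η k a b z H ha hab hb hM hmin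
  obtain ⟨f', A', η', δ, S⟩ := exists_same hglu hswa H (k := k) ha hab hb
  have hT : ((a, b) : ℝ × ℝ) ∈ Tri L := ⟨ha.le, hab.le, hb.le⟩
  have hmx := S.mx H hab hM
  have hno := S.no_desc H ha hab hb hM hmin
  have e1 : HH f' A' η' (tau k z) a ≤ 1 :=
    S.prof.HH_le_one (hmx.1 a ⟨le_rfl, hab.le⟩)
  have e2 : HH f' A' η' (tau k z) b ≤ 1 :=
    S.prof.HH_le_one (hmx.1 b ⟨hab.le, le_rfl⟩)
  have g1 : HH f' A' η' (tau k z) a = 1 := by
    rcases lt_or_eq_of_le e1 with g | g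
    · exact absurd (c_ENL L f' A' η' S.prof (a, b) (tau k z) hT ha hab hmx g) (hno _)
    · exact g
  have g2 : HH f' A' η' (tau k z) b = 1 := by
    rcases lt_or_eq_of_le e2 with g | g
    · exact absurd (t_ENR t_REF c_ENL L f' A' η' S.prof (a, b) (tau k z) hT hb hab hmx g) (hno _)
    · exact g
  have hw := t_WEL t_NDG L f' A' η' S.prof a b (tau k z) ha hab hb hmx g1 g2
  obtain ⟨d1, d2⟩ := t_GRD L f' A' η' S.prof a b (tau k z) ha hab hb hmx hw
  have hB : ∀ w' : ℝ × ℝ, ∫ r in a..b, BB f' A' η' (tau k z) w' r /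
      √(1 - HH f' A' η' (tau k z) r) = π * w'.1 := by
    rcases lt_or_eq_of_le d1 with g | g
    · exact absurd (c_DSC L f' A' η' S.prof a b (tau k z) ha hab hb hmx hw g) (hno _)
    · exact d2 g
  refine ⟨S.well hw, fun w => ?_⟩
  have h := hB (tau k w)
  have e : (∫ r in a..b, BB f' A' η' (tau k z) (tau k w) r / √(1 - HH f' A' η' (tau k z) r))
      = ∫ r in a..b, BB f A η z w r / √(1 - HH f A η z r) := by
    refine intervalIntegral.integral_congr (fun r hr => ?_)
    rw [uIcc_of_le hab.le] at hr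
    have hr' : r ∈ Icc (a - δ) (b + δ) :=
      ⟨by linarith [hr.1, S.δ_pos], by linarith [hr.2, S.δ_pos]⟩
    rw [S.hh r hr', S.bb r hr']
  rw [e] at h
  exact h

end TSP
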