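import Pool.Agent.TSP.StmtsS

/-!
# Reflection, statement `Q_RFL`

The reflection `r ↦ L - r` maps the closed geodesics of the reflected profile to the closed geodesics of the given
profile, with the same period; the sets `KK` and the functions `FK` are preserved.
-/

set_option autoImplicit false

namespace TSP

open Set MeasureTheory Real Filter Topology

namespace RFLSAux

variable {L : ℝ} {f A η : ℝ → ℝ}

lemma geo {r θ φ : ℝ → ℝ}
    (h : IsUnitGeodesic (fun r => f (L - r)) (fun r => A (L - r)) (fun r => η (L - r)) r θ φ) :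
    IsUnitGeodesic f A η (fun t => L - r t) θ φ := by
  have d1 : deriv (fun t => L - r t) = fun t => - deriv r t := by
    funext t
    exact deriv_const_sub L
  have d2 : ∀ t, deriv (deriv (fun t => L - r t)) t = - deriv (deriv r) t := by
    intro t
    rw [d1]
    exact deriv.fun_neg
  have d3 : ∀ (g : ℝ → ℝ) (x : ℝ), deriv (fun y => g (L - y)) x = - deriv g (L - x) := by
    intro g x
    exact deriv_comp_const_sub g L x
  refine ⟨contDiff_const.sub h.smooth_r, h.smooth_θ, h.smooth_φ, ?_, ?_, ?_, ?_⟩
  · intro t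
    have h1 := h.unit_speed t
    rw [d1]
    simp only at h1 ⊢
    rw [neg_sq]
    exact h1
  · intro t
    have h1 := h.radial t
    rw [d3 f, d3 A, d3 η] at h1
    rw [d2, h1]
    ring
  · intro t
    have h1 := h.angular_θ t
    rw [d3 f] at h1
    rw [d1]
    linear_combination h1
  · intro t
    exact h.angular_φ t

lemma point_refl (hL : L ≠ 0) (r θ φ : ℝ) :
    point L (L - r) θ φ = (((point L r θ φ).1.1, -(point L r θ φ).1.2), (point L r θ φ).2) := by
  have e : π * (L - r) / L = π - π * r / L := by
    field_simp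
  unfold point
  rw [e]
  simp only [sin_pi_sub, cos_pi_sub]

lemma closes (hL : L ≠ 0) {r θ φ : ℝ → ℝ} {T : ℝ} (h : Closes L r θ φ T) :
    Closes L (fun t => L - r t) θ φ T := by
  refine ⟨h.1, ?_⟩
  intro t
  have h1 := h.2 t
  show point L (L - r (t + T)) (θ (t + T)) (φ (t + T)) = point L (L - r t) (θ t) (φ t)
  rw [point_refl hL, point_refl hL, h1]

lemma FK_eq (k : ℝ) (x w : ℝ × ℝ) :
    FK (fun r => f (L - r)) (fun r => A (L - r)) (fun r => η (L - r)) k (L - x.2, L - x.1) w
      = FK f A η k x w := by
  unfold FK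
  simp only [REFAux.HH_eq]
  rw [intervalIntegral.integral_comp_sub_left (fun r => √(1 - HH f A η w r)) L]
  simp only [sub_sub_cancel]

end RFLSAux

theorem q_RFL : Q_RFL := by
  intro L f A η H
  refine ⟨?_, ?_, ?_⟩
  · intro c h r θ φ T hg hc
    exact h _ _ _ T (RFLSAux.geo hg) (RFLSAux.closes H.L_pos.ne' hc)
  · intro x w
    rw [REFAux.KK_eq]
  · intro k x w
    exact RFLSAux.FK_eq k x w

end TSP
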