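import Pool.Agent.TSP.StmtsS

/-!
# Change of basis of the angles: `Q_SWA`
-/

set_option autoImplicit false

namespace TSP

open Set MeasureTheory Real Filter Topology

namespace SWASAux

theorem alg_HH (F a h k p s : ℝ) (hF : F ≠ 0) (hh : h ≠ 0) (N : ℝ)
    (hN : N = F ^ 2 * (k + a) ^ 2 + h ^ 2) (hN0 : N ≠ 0) :
    (k * p + s) ^ 2 / N + (-p - (-(F ^ 2 * (k + a)) / N) * (k * p + s)) ^ 2 / (F ^ 2 * h ^ 2 / N)
      = p ^ 2 / F ^ 2 + (s - a * p) ^ 2 / h ^ 2 := by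
  field_simp
  rw [hN]
  ring

theorem alg_BB (F a h k p s p' s' : ℝ) (hF : F ≠ 0) (hh : h ≠ 0) (N : ℝ)
    (hN : N = F ^ 2 * (k + a) ^ 2 + h ^ 2) (hN0 : N ≠ 0) :
    (k * p + s) * (k * p' + s') / N
      + (-p - (-(F ^ 2 * (k + a)) / N) * (k * p + s)) * (-p' - (-(F ^ 2 * (k + a)) / N) * (k * p' + s'))
        / (F ^ 2 * h ^ 2 / N)
      = p * p' / F ^ 2 + (s - a * p) * (s' - a * p') / h ^ 2 := by
  field_simp
  rw [hN]
  ring

theorem rad_pos (F a h k : ℝ) (hh : 0 < h) : 0 < F ^ 2 * (k + a) ^ 2 + h ^ 2 := by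
  have : 0 < h ^ 2 := by positivity
  have h2 : 0 ≤ F ^ 2 * (k + a) ^ 2 := by positivity
  linarith

end SWASAux

open SWASAux in
theorem q_SWA : Q_SWA := by
  intro L f A η k P
  have hN : ∀ r, 0 < f r ^ 2 * (k + A r) ^ 2 + η r ^ 2 := fun r => rad_pos _ _ _ _ (P.η_pos r)
  have cN : ContDiff ℝ (⊤ : ℕ∞) (fun r => f r ^ 2 * (k + A r) ^ 2 + η r ^ 2) :=
    ((P.smooth_f.pow 2).mul ((contDiff_const.add P.smooth_A).pow 2)).add (P.smooth_η.pow 2)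
  have cS : ContDiff ℝ (⊤ : ℕ∞) (fun r => √(f r ^ 2 * (k + A r) ^ 2 + η r ^ 2)) :=
    cN.sqrt (fun r => (hN r).ne')
  have hS : ∀ r, 0 < √(f r ^ 2 * (k + A r) ^ 2 + η r ^ 2) := fun r => Real.sqrt_pos.mpr (hN r)
  refine ⟨fun r h0 hL => ⟨cS.contDiffAt, ?_, ?_, hS r, ?_⟩, fun r h0 hL z w => ?_⟩
  · exact ((((P.smooth_f.pow 2).mul (contDiff_const.add P.smooth_A)).neg).div cN
      (fun r => (hN r).ne')).contDiffAt
  · exact ((P.smooth_f.mul P.smooth_η).div cS (fun r => (hS r).ne')).contDiffAt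
  · exact div_pos (mul_pos (P.f_pos r h0 hL) (P.η_pos r)) (hS r)
  · have hf := (P.f_pos r h0 hL).ne'
    have he := (P.η_pos r).ne'
    have e1 : fS f A η k r ^ 2 = f r ^ 2 * (k + A r) ^ 2 + η r ^ 2 := Real.sq_sqrt (hN r).le
    have e2 : eS f A η k r ^ 2 = f r ^ 2 * η r ^ 2 / (f r ^ 2 * (k + A r) ^ 2 + η r ^ 2) := by
      unfold eS
      rw [div_pow, Real.sq_sqrt (hN r).le, mul_pow]
    refine ⟨?_, ?_⟩
    · unfold HH
      rw [e1, e2]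
      exact alg_HH (f r) (A r) (η r) k z.1 z.2 hf he _ rfl (hN r).ne'
    · unfold BB
      rw [e1, e2]
      exact alg_BB (f r) (A r) (η r) k z.1 z.2 w.1 w.2 hf he _ rfl (hN r).ne'

end TSP
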