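import Pool.Agent.TSP.StmtsS

/-!
# The well inequality, variation
-/

set_option autoImplicit false

namespace TSP

open Set MeasureTheory Real Filter Topology

namespace WTCSAux

variable {L : ℝ} {f A η : ℝ → ℝ}

/-- the profile without `A` -/
lemma zeroA (H : Profile L f A η) : Profile L f (fun _ => 0) η :=
  { L_pos := H.L_pos
    smooth_f := H.smooth_f
    smooth_A := contDiff_const
    smooth_η := H.smooth_η
    f_odd := H.f_odd
    f_odd' := H.f_odd'
    A_even := fun _ => rfl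
    A_even' := fun _ => rfl
    η_even := H.η_even
    η_even' := H.η_even'
    f_pos := H.f_pos
    η_pos := H.η_pos
    deriv_zero := H.deriv_zero
    deriv_L := H.deriv_L }

/-- the varied covector `(1 + ε) z - ε w` -/
def ze (ε : ℝ) (z w : ℝ × ℝ) : ℝ × ℝ := ((1 + ε) * z.1 - ε * w.1, (1 + ε) * z.2 - ε * w.2)

lemma HH_ze (ε : ℝ) (z w : ℝ × ℝ) (r : ℝ) : HH f A η (ze ε z w) r =
    (1 + ε) ^ 2 * HH f A η z r - 2 * ε * (1 + ε) * BB f A η z w r + ε ^ 2 * HH f A η w r := by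
  unfold HH BB ze
  simp only
  ring

/-- `2 |BB| ≤ HH + HH` -/
lemma BB_le (z w : ℝ × ℝ) (r : ℝ) : 2 * BB f A η z w r ≤ HH f A η z r + HH f A η w r := by
  have e : HH f A η z r + HH f A η w r - 2 * BB f A η z w r =
      (z.1 / f r - w.1 / f r) ^ 2 +
        ((z.2 - A r * z.1) / η r - (w.2 - A r * w.1) / η r) ^ 2 := by
    unfold HH BB
    simp only [← div_pow]
    ring
  nlinarith [sq_nonneg (z.1 / f r - w.1 / f r),
    sq_nonneg ((z.2 - A r * z.1) / η r - (w.2 - A r * w.1) / η r)]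

lemma BB_ge (z w : ℝ × ℝ) (r : ℝ) : -(HH f A η z r + HH f A η w r) ≤ 2 * BB f A η z w r := by
  have e : HH f A η z r + HH f A η w r + 2 * BB f A η z w r =
      (z.1 / f r + w.1 / f r) ^ 2 +
        ((z.2 - A r * z.1) / η r + (w.2 - A r * w.1) / η r) ^ 2 := by
    unfold HH BB
    simp only [← div_pow]
    ring
  nlinarith [sq_nonneg (z.1 / f r + w.1 / f r),
    sq_nonneg ((z.2 - A r * z.1) / η r + (w.2 - A r * w.1) / η r)]

/-- convexity -/
lemma HH_ze_ge {ε : ℝ} (hε : 0 ≤ ε) (z w : ℝ × ℝ) (r : ℝ) :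
    (1 + ε) * HH f A η z r - ε * HH f A η w r ≤ HH f A η (ze ε z w) r := by
  rw [HH_ze]
  have h := mul_le_mul_of_nonneg_left (BB_le (f := f) (A := A) (η := η) z w r)
    (mul_nonneg hε (by linarith : 0 ≤ 1 + ε))
  nlinarith

/-- upper bound -/
lemma HH_ze_le {ε δ : ℝ} (hε : 0 ≤ ε) (hε1 : ε ≤ 1) (hδ : 8 * ε ≤ δ) (z w : ℝ × ℝ) (r : ℝ)
    (hz : HH f A η z r ≤ 1 - δ) (hw : HH f A η w r ≤ 1) : HH f A η (ze ε z w) r ≤ 1 := by
  rw [HH_ze]
  have h := mul_le_mul_of_nonneg_left (BB_ge (f := f) (A := A) (η := η) z w r)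
    (mul_nonneg hε (by linarith : 0 ≤ 1 + ε))
  have h1 : (1 + ε) * (1 + 2 * ε) * HH f A η z r ≤ (1 + ε) * (1 + 2 * ε) * (1 - δ) :=
    mul_le_mul_of_nonneg_left hz (by positivity)
  have h2 : ε * (1 + 2 * ε) * HH f A η w r ≤ ε * (1 + 2 * ε) * 1 :=
    mul_le_mul_of_nonneg_left hw (by positivity)
  have h3 : (1 + ε) * (1 + 2 * ε) * (8 * ε) ≤ (1 + ε) * (1 + 2 * ε) * δ :=
    mul_le_mul_of_nonneg_left hδ (by positivity)
  nlinarith [mul_nonneg hε hε, mul_nonneg (mul_nonneg hε hε) hε]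

/-- concavity of `√(1 - HH)` -/
lemma sqrt_conc {ε : ℝ} (hε : 0 ≤ ε) (z w : ℝ × ℝ) (r : ℝ) (hz : HH f A η z r ≤ 1)
    (hw : HH f A η w r ≤ 1) (hze : HH f A η (ze ε z w) r ≤ 1) :
    √(1 - HH f A η (ze ε z w) r) ≤ (1 + ε) * √(1 - HH f A η z r) - ε * √(1 - HH f A η w r) := by
  have a0 := Real.sqrt_nonneg (1 - HH f A η (ze ε z w) r)
  have b0 := Real.sqrt_nonneg (1 - HH f A η w r)
  have a1 := Real.sq_sqrt (show 0 ≤ 1 - HH f A η (ze ε z w) r by linarith)
  have b1 := Real.sq_sqrt (show 0 ≤ 1 - HH f A η w r by linarith)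
  -- it is enough that `(a + ε b)² ≤ (1 + ε)² (1 - HH z)`
  have key : √(1 - HH f A η (ze ε z w) r) + ε * √(1 - HH f A η w r) ≤
      (1 + ε) * √(1 - HH f A η z r) := by
    have e1 : (1 + ε) * √(1 - HH f A η z r) = √((1 + ε) ^ 2 * (1 - HH f A η z r)) := by
      rw [Real.sqrt_mul (by positivity), Real.sqrt_sq (by linarith)]
    rw [e1]
    apply Real.le_sqrt_of_sq_le
    -- `z = (ze + ε w)/(1 + ε)`: `(1+ε)² HH z = HH ze + 2 ε BB ze w + ε² HH w`
    have e2 : (1 + ε) ^ 2 * HH f A η z r = HH f A η (ze ε z w) r +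
        2 * ε * BB f A η (ze ε z w) w r + ε ^ 2 * HH f A η w r := by
      unfold HH BB ze
      simp only
      ring
    -- Cauchy: `a b + BB ≤ 1`
    have e3 : √(1 - HH f A η (ze ε z w) r) * √(1 - HH f A η w r) +
        BB f A η (ze ε z w) w r ≤ 1 := by
      have h1 := BB_le (f := f) (A := A) (η := η) (ze ε z w) w r
      nlinarith [sq_nonneg (√(1 - HH f A η (ze ε z w) r) - √(1 - HH f A η w r))]
    have e4 := mul_le_mul_of_nonneg_left e3 hε
    nlinarith
  linarith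

end WTCSAux

open WTCSAux in
/-- **The well inequality, variation.** -/
theorem q_WTC : Q_WTC := by
  intro L f A η c z w α β H hc hM hw hw1 hw2 hcw
  obtain ⟨hα, hαβ, hβL, hz1, hz2, hzc, hlt, hα0, hαp, hβ1, hβ2, hzlt, hmin⟩ := hM
  have H0 := zeroA H
  set F : ℝ × ℝ → ℝ := fun u => FK f (fun _ => 0) η (1 / 2) (α, β) u with hF
  have hwle : ∀ r ∈ Icc α β, HH f (fun _ => 0) η w r ≤ 1 := fun r hr => H0.HH_le_one (hw r hr)
  -- the gap
  obtain ⟨δ, hδ0, hδ1, hδ2⟩ : ∃ δ : ℝ, 0 < δ ∧ 4 * δ ≤ β - α ∧ 2 * δ < π * c - F z := by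
    have h1 : 0 < β - α := by linarith
    have h2 : 0 < π * c - F z := by
      have : F z < π * c := hzlt
      linarith
    refine ⟨min ((β - α) / 4) ((π * c - F z) / 4), by positivity, ?_, ?_⟩
    · have := min_le_left ((β - α) / 4) ((π * c - F z) / 4)
      linarith
    · have := min_le_right ((β - α) / 4) ((π * c - F z) / 4)
      linarith
  -- the maximum of `HH z` on the compact middle part
  obtain ⟨δ', hδ'0, hδ'⟩ : ∃ δ' : ℝ, 0 < δ' ∧
      ∀ r ∈ Icc (α + δ) (β - δ), HH f (fun _ => 0) η z r ≤ 1 - δ' := by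
    have hcont : ContinuousOn (HH f (fun _ => 0) η z) (Icc (α + δ) (β - δ)) := by
      intro r hr
      have h1 : 0 < r := by linarith [hr.1]
      have h2 : r < L := by linarith [hr.2]
      exact (H0.HH_contDiffAt (H.f_pos r h1 h2).ne').continuousAt.continuousWithinAt
    obtain ⟨m, hm, hmax⟩ := isCompact_Icc.exists_isMaxOn
      (nonempty_Icc.2 (by linarith : α + δ ≤ β - δ)) hcont
    refine ⟨1 - HH f (fun _ => 0) η z m, ?_, ?_⟩
    · have := hlt m ⟨by linarith [hm.1], by linarith [hm.2]⟩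
      linarith
    · intro r hr
      have := hmax hr
      simp only [mem_setOf_eq] at this
      linarith
  -- the conditions for small `ε`
  have hw10 : z.1 = 0 → w.1 = 0 := by
    intro h0
    have hα00 : α = 0 := by
      by_contra hne
      have := (hαp (lt_of_le_of_ne hα (Ne.symm hne))).1
      linarith
    have h1 := (hw α ⟨le_rfl, hαβ.le⟩).1
    rw [hα00, H.f_zero] at h1
    have h2 := H.η_pos 0
    have h3 : w.1 ^ 2 * η 0 ^ 2 ≤ 0 := by
      simpa using h1
    have h4 : w.1 ^ 2 * η 0 ^ 2 = 0 := le_antisymm h3 (by positivity)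
    rcases mul_eq_zero.1 h4 with h | h
    · exact pow_eq_zero_iff (two_ne_zero) |>.1 h
    · exact absurd (pow_eq_zero_iff (two_ne_zero) |>.1 h) h2.ne'
  have ev : ∀ X Y : ℝ, 0 < X → ∀ᶠ ε in 𝓝[>] (0 : ℝ), 0 < (1 + ε) * X - ε * Y := by
    intro X Y hX
    have hc1 : Continuous fun ε : ℝ => (1 + ε) * X - ε * Y := by fun_prop
    have h0 : (0 : ℝ) < (1 + 0) * X - 0 * Y := by simpa using hX
    exact (hc1.tendsto' 0 _ rfl).mono_left nhdsWithin_le_nhds |>.eventually_const_lt h0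
  have e1 : ∀ᶠ ε in 𝓝[>] (0 : ℝ), 0 ≤ (ze ε z w).1 := by
    rcases hz1.eq_or_lt with h | h
    · refine Eventually.of_forall fun ε => ?_
      unfold ze
      simp only
      rw [← h, hw10 h.symm]
      simp
    · filter_upwards [ev z.1 w.1 h] with ε hε
      exact hε.le
  have e2 := ev z.2 w.2 hz2
  have e3 := ev (c - (z.2 + z.1 / 2)) (c - (w.2 + w.1 / 2)) (by linarith)
  have e4 : ∀ᶠ ε in 𝓝[>] (0 : ℝ), 0 < α →
      1 ≤ HH f (fun _ => 0) η (ze ε z w) α ∧
        (ze ε z w).2 * f α ^ 2 ≤ 2 * (ze ε z w).1 * η α ^ 2 := by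
    by_cases hp : 0 < α
    · obtain ⟨-, h1, h2⟩ := hαp hp
      filter_upwards [ev (2 * z.1 * η α ^ 2 - z.2 * f α ^ 2) (2 * w.1 * η α ^ 2 - w.2 * f α ^ 2)
        (by linarith), self_mem_nhdsWithin] with ε hε hε0 _
      have hε0' : (0 : ℝ) ≤ ε := le_of_lt hε0
      refine ⟨?_, ?_⟩
      · have h3 := HH_ze_ge (f := f) (A := fun _ => 0) (η := η) hε0' z w α
        have h4 := hwle α ⟨le_rfl, hαβ.le⟩
        nlinarith
      · unfold ze
        simp only
        nlinarith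
    · exact Eventually.of_forall fun _ h => absurd h hp
  have e5 := ev (z.2 * f β ^ 2 - 2 * z.1 * η β ^ 2) (w.2 * f β ^ 2 - 2 * w.1 * η β ^ 2)
    (by linarith)
  have e6 : ∀ᶠ ε in 𝓝[>] (0 : ℝ), ε ≤ 1 ∧ 8 * ε ≤ δ' := by
    have h1 : ∀ᶠ ε in 𝓝[>] (0 : ℝ), ε < min 1 (δ' / 8) :=
      nhdsWithin_le_nhds (Iio_mem_nhds (by positivity))
    filter_upwards [h1] with ε hε
    have h2 := hε.trans_le (min_le_left _ _)
    have h3 := hε.trans_le (min_le_right _ _)
    exact ⟨h2.le, by linarith⟩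
  obtain ⟨ε, g1, g2, g3, g4, g5, ⟨g6, g7⟩, g8⟩ :=
    (e1.and (e2.and (e3.and (e4.and (e5.and (e6.and self_mem_nhdsWithin)))))).exists
  have hε : (0 : ℝ) < ε := g8
  -- minimality
  have hle : F z ≤ F (ze ε z w) := by
    refine hmin (ze ε z w) g1 g2.le ?_ g4 ?_ ?_
    · unfold ze
      simp only
      linarith
    · have h3 := HH_ze_ge (f := f) (A := fun _ => 0) (η := η) hε.le z w β
      have h4 := hwle β ⟨hαβ.le, le_rfl⟩
      nlinarith
    · unfold ze
      simp only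
      linarith
  -- the upper bound
  set I : (ℝ × ℝ) → ℝ → ℝ := fun u r => √(1 - HH f (fun _ => 0) η u r) with hI
  have hint : ∀ (u : ℝ × ℝ) (a b : ℝ), IntervalIntegrable (I u) volume a b := fun u a b =>
    H0.ii u a b
  have hI1 : ∀ u r, I u r ≤ 1 := fun u r => sqrt_le_one u r
  have hI0 : ∀ u r, 0 ≤ I u r := fun u r => Real.sqrt_nonneg _
  have hint2 : ∀ a b : ℝ, IntervalIntegrable (fun r => (1 + ε) * I z r - ε * I w r) volume a b :=
    fun a b => ((hint z a b).const_mul _).sub ((hint w a b).const_mul _)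
  have hpt : ∀ r ∈ Icc α β, HH f (fun _ => 0) η (ze ε z w) r ≤ 1 → HH f (fun _ => 0) η z r ≤ 1 →
      I (ze ε z w) r ≤ (1 + ε) * I z r - ε * I w r := fun r hr h1 h2 =>
    sqrt_conc hε.le z w r h2 (hwle r hr) h1
  have hpt2 : ∀ r ∈ Ioo α β, I (ze ε z w) r ≤ (1 + ε) * I z r - ε * I w r + ε := by
    intro r hr
    by_cases h1 : HH f (fun _ => 0) η (ze ε z w) r ≤ 1
    · have := hpt r ⟨hr.1.le, hr.2.le⟩ h1 (hlt r hr).le
      linarith
    · have h2 : I (ze ε z w) r = 0 := Real.sqrt_eq_zero_of_nonpos (by linarith [not_le.1 h1])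
      rw [h2]
      have h3 := hI1 w r
      have h4 := hI0 z r
      have h5 : 0 ≤ (1 + ε) * I z r := mul_nonneg (by linarith) h4
      nlinarith
  have hmid : (∫ r in (α + δ)..(β - δ), I (ze ε z w) r) ≤
      ∫ r in (α + δ)..(β - δ), ((1 + ε) * I z r - ε * I w r) := by
    refine intervalIntegral.integral_mono_on (by linarith) (hint _ _ _) (hint2 _ _) ?_
    intro r hr
    have h1 := hδ' r hr
    have hr' : r ∈ Icc α β := ⟨by linarith [hr.1], by linarith [hr.2]⟩
    exact hpt r hr' (HH_ze_le hε.le g6 g7 z w r h1 (hwle r hr')) (by linarith)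
  have hside : ∀ a b : ℝ, α ≤ a → a ≤ b → b ≤ β → (∫ r in a..b, I (ze ε z w) r) ≤
      (∫ r in a..b, ((1 + ε) * I z r - ε * I w r)) + ε * (b - a) := by
    intro a b h1 h2 h3
    have h4 : (∫ r in a..b, I (ze ε z w) r) ≤
        ∫ r in a..b, (((1 + ε) * I z r - ε * I w r) + ε) := by
      refine intervalIntegral.integral_mono_on_of_le_Ioo h2 (hint _ _ _)
        ((hint2 _ _).add intervalIntegrable_const) ?_
      intro r hr
      exact hpt2 r ⟨by linarith [hr.1], by linarith [hr.2]⟩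
    rw [intervalIntegral.integral_add (hint2 _ _) intervalIntegrable_const,
      intervalIntegral.integral_const, smul_eq_mul] at h4
    linarith
  have hsplit : ∀ g : ℝ → ℝ, (∀ a b : ℝ, IntervalIntegrable g volume a b) →
      (∫ r in α..β, g r) = (∫ r in α..(α + δ), g r) + (∫ r in (α + δ)..(β - δ), g r) +
        ∫ r in (β - δ)..β, g r := by
    intro g hg
    rw [intervalIntegral.integral_add_adjacent_intervals (hg _ _) (hg _ _),
      intervalIntegral.integral_add_adjacent_intervals (hg _ _) (hg _ _)]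
  have hfull : (∫ r in α..β, I (ze ε z w) r) ≤
      (1 + ε) * (∫ r in α..β, I z r) - ε * (∫ r in α..β, I w r) + ε * (2 * δ) := by
    have h1 := hside α (α + δ) le_rfl (by linarith) (by linarith)
    have h2 := hside (β - δ) β (by linarith) (by linarith) le_rfl
    have h3 := hsplit (I (ze ε z w)) (hint _)
    have h4 := hsplit (fun r => (1 + ε) * I z r - ε * I w r) hint2
    have h5 : (∫ r in α..β, ((1 + ε) * I z r - ε * I w r)) =
        (1 + ε) * (∫ r in α..β, I z r) - ε * (∫ r in α..β, I w r) := by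
      rw [intervalIntegral.integral_sub ((hint z α β).const_mul _) ((hint w α β).const_mul _),
        intervalIntegral.integral_const_mul, intervalIntegral.integral_const_mul]
    have h6 : ε * (α + δ - α) + ε * (β - (β - δ)) = ε * (2 * δ) := by ring
    linarith
  have hFu : ∀ u : ℝ × ℝ, F u = (∫ r in α..β, I u r) + π * (1 / 2 * u.1 + u.2) := fun u => rfl
  have hlin : π * (1 / 2 * (ze ε z w).1 + (ze ε z w).2) =
      (1 + ε) * (π * (1 / 2 * z.1 + z.2)) - ε * (π * (1 / 2 * w.1 + w.2)) := by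
    unfold ze
    simp only
    ring
  have hfin : F (ze ε z w) ≤ (1 + ε) * F z - ε * F w + ε * (2 * δ) := by
    rw [hFu, hFu z, hFu w, hlin]
    linarith
  have hcw' : π * c ≤ F w := hcw
  have h7 : ε * F w ≤ ε * (F z + 2 * δ) := by linarith
  have h8 : F w ≤ F z + 2 * δ := le_of_mul_le_mul_left h7 hε
  linarith

end TSP
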