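import Pool.Agent.TSP.StmtsS

/-!
# The well inequality, compactness
-/

set_option autoImplicit false

namespace TSP

open Set MeasureTheory Real Filter Topology

namespace WTMSAux

/-- left branch -/
def Rm (f η : ℝ → ℝ) (z : ℝ × ℝ) (r : ℝ) : Prop :=
  f r ^ 2 * η r ^ 2 ≤ z.1 ^ 2 * η r ^ 2 + z.2 ^ 2 * f r ^ 2 ∧ z.2 * f r ^ 2 ≤ 2 * z.1 * η r ^ 2

/-- right branch -/
def Rp (f η : ℝ → ℝ) (z : ℝ × ℝ) (r : ℝ) : Prop :=
  f r ^ 2 * η r ^ 2 ≤ z.1 ^ 2 * η r ^ 2 + z.2 ^ 2 * f r ^ 2 ∧ 2 * z.1 * η r ^ 2 ≤ z.2 * f r ^ 2 ∧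
    4 * η r ^ 4 ≤ z.2 ^ 2 * (4 * η r ^ 2 + f r ^ 2)

lemma one_le_HH_iff {f η : ℝ → ℝ} {z : ℝ × ℝ} {r : ℝ} (hf : f r ≠ 0) (hη : η r ≠ 0) :
    1 ≤ HH f (fun _ => 0) η z r ↔
      f r ^ 2 * η r ^ 2 ≤ z.1 ^ 2 * η r ^ 2 + z.2 ^ 2 * f r ^ 2 := by
  have e : HH f (fun _ => 0) η z r
      = (z.1 ^ 2 * η r ^ 2 + z.2 ^ 2 * f r ^ 2) / (f r ^ 2 * η r ^ 2) := by
    unfold HH; field_simp; ring
  rw [e, one_le_div (by positivity)]

/-- the third condition follows from the other two -/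
lemma third {f η : ℝ → ℝ} {z : ℝ × ℝ} {r : ℝ} (hf : 0 < f r) (hη : 0 < η r) (h0 : 0 ≤ z.1)
    (h1 : f r ^ 2 * η r ^ 2 ≤ z.1 ^ 2 * η r ^ 2 + z.2 ^ 2 * f r ^ 2)
    (h2 : 2 * z.1 * η r ^ 2 ≤ z.2 * f r ^ 2) :
    4 * η r ^ 4 ≤ z.2 ^ 2 * (4 * η r ^ 2 + f r ^ 2) := by
  have h3 : (2 * z.1 * η r ^ 2) ^ 2 ≤ (z.2 * f r ^ 2) ^ 2 :=
    pow_le_pow_left₀ (by positivity) h2 2
  have h4 : 0 < f r ^ 2 := by positivity
  have h5 : 0 < η r ^ 2 := by positivity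
  have h6 : f r ^ 2 * (4 * η r ^ 4) ≤ f r ^ 2 * (z.2 ^ 2 * (4 * η r ^ 2 + f r ^ 2)) := by
    nlinarith [mul_le_mul_of_nonneg_left h1 h5.le]
  exact le_of_mul_le_mul_left h6 h4

/-- the branches are disjoint -/
lemma disj {f η : ℝ → ℝ} {z : ℝ × ℝ} {r c : ℝ} (hη : 0 < η r) (hc : 0 < c)
    (hcc : c ^ 2 < f r ^ 2 / 4 + η r ^ 2) (h0 : 0 ≤ z.1) (h0' : 0 ≤ z.2)
    (hz : z.2 + z.1 / 2 ≤ c) (h1 : Rm f η z r) (h2 : Rp f η z r) : False := by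
  obtain ⟨-, h12⟩ := h1
  obtain ⟨-, h22, h23⟩ := h2
  have e : 2 * z.1 * η r ^ 2 = z.2 * f r ^ 2 := le_antisymm h22 h12
  have h5 : 0 < η r ^ 2 := by positivity
  have h6 : 4 * η r ^ 2 * (z.2 + z.1 / 2) = z.2 * (4 * η r ^ 2 + f r ^ 2) := by
    linear_combination e
  have h7 : (z.2 + z.1 / 2) ^ 2 ≤ c ^ 2 := pow_le_pow_left₀ (by positivity) hz 2
  have h8 : (4 * η r ^ 2) ^ 2 * (z.2 + z.1 / 2) ^ 2
      = z.2 ^ 2 * (4 * η r ^ 2 + f r ^ 2) * (4 * η r ^ 2 + f r ^ 2) := by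
    calc (4 * η r ^ 2) ^ 2 * (z.2 + z.1 / 2) ^ 2
        = (4 * η r ^ 2 * (z.2 + z.1 / 2)) ^ 2 := by ring
      _ = (z.2 * (4 * η r ^ 2 + f r ^ 2)) ^ 2 := by rw [h6]
      _ = _ := by ring
  have h9 : 0 ≤ 4 * η r ^ 2 + f r ^ 2 := by positivity
  have h10 : 4 * η r ^ 4 * (4 * η r ^ 2 + f r ^ 2)
      ≤ z.2 ^ 2 * (4 * η r ^ 2 + f r ^ 2) * (4 * η r ^ 2 + f r ^ 2) :=
    mul_le_mul_of_nonneg_right h23 h9
  have h11 : (4 * η r ^ 2) ^ 2 * (z.2 + z.1 / 2) ^ 2 ≤ (4 * η r ^ 2) ^ 2 * c ^ 2 :=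
    mul_le_mul_of_nonneg_left h7 (by positivity)
  have h12' : (4 * η r ^ 2) ^ 2 * c ^ 2 < (4 * η r ^ 2) ^ 2 * (f r ^ 2 / 4 + η r ^ 2) :=
    mul_lt_mul_of_pos_left hcc (by positivity)
  nlinarith [h8, h10, h11, h12']

lemma prof0 {L : ℝ} {f A η : ℝ → ℝ} (P : Profile L f A η) : Profile L f (fun _ => 0) η :=
  { L_pos := P.L_pos
    smooth_f := P.smooth_f
    smooth_A := contDiff_const
    smooth_η := P.smooth_η
    f_odd := P.f_odd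
    f_odd' := P.f_odd'
    A_even := fun _ => rfl
    A_even' := fun _ => rfl
    η_even := P.η_even
    η_even' := P.η_even'
    f_pos := P.f_pos
    η_pos := P.η_pos
    deriv_zero := P.deriv_zero
    deriv_L := P.deriv_L }

lemma FK_eq (f η : ℝ → ℝ) (x z : ℝ × ℝ) :
    FK f (fun _ => 0) η (1 / 2) x z = FF f (fun _ => 0) η x z + π * (z.2 - z.1 / 2) := by
  unfold FK FF
  ring

lemma closed_Rm {f η : ℝ → ℝ} (hf : Continuous f) (hη : Continuous η) :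
    IsClosed {q : (ℝ × ℝ) × (ℝ × ℝ) | Rm f η q.2 q.1.1} := by
  have c1 : Continuous fun q : (ℝ × ℝ) × (ℝ × ℝ) => f q.1.1 :=
    hf.comp (continuous_fst.comp continuous_fst)
  have c2 : Continuous fun q : (ℝ × ℝ) × (ℝ × ℝ) => η q.1.1 :=
    hη.comp (continuous_fst.comp continuous_fst)
  have c3 : Continuous fun q : (ℝ × ℝ) × (ℝ × ℝ) => q.2.1 := continuous_fst.comp continuous_snd
  have c4 : Continuous fun q : (ℝ × ℝ) × (ℝ × ℝ) => q.2.2 := continuous_snd.comp continuous_snd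
  have h1 : IsClosed {q : (ℝ × ℝ) × (ℝ × ℝ) |
      f q.1.1 ^ 2 * η q.1.1 ^ 2 ≤ q.2.1 ^ 2 * η q.1.1 ^ 2 + q.2.2 ^ 2 * f q.1.1 ^ 2} :=
    isClosed_le ((c1.pow 2).mul (c2.pow 2))
      (((c3.pow 2).mul (c2.pow 2)).add ((c4.pow 2).mul (c1.pow 2)))
  have h2 : IsClosed {q : (ℝ × ℝ) × (ℝ × ℝ) | q.2.2 * f q.1.1 ^ 2 ≤ 2 * q.2.1 * η q.1.1 ^ 2} :=
    isClosed_le (c4.mul (c1.pow 2)) ((continuous_const.mul c3).mul (c2.pow 2))
  exact h1.inter h2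

lemma closed_Rp {f η : ℝ → ℝ} (hf : Continuous f) (hη : Continuous η) :
    IsClosed {q : (ℝ × ℝ) × (ℝ × ℝ) | Rp f η q.2 q.1.2} := by
  have c1 : Continuous fun q : (ℝ × ℝ) × (ℝ × ℝ) => f q.1.2 :=
    hf.comp (continuous_snd.comp continuous_fst)
  have c2 : Continuous fun q : (ℝ × ℝ) × (ℝ × ℝ) => η q.1.2 :=
    hη.comp (continuous_snd.comp continuous_fst)
  have c3 : Continuous fun q : (ℝ × ℝ) × (ℝ × ℝ) => q.2.1 := continuous_fst.comp continuous_snd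
  have c4 : Continuous fun q : (ℝ × ℝ) × (ℝ × ℝ) => q.2.2 := continuous_snd.comp continuous_snd
  have h1 : IsClosed {q : (ℝ × ℝ) × (ℝ × ℝ) |
      f q.1.2 ^ 2 * η q.1.2 ^ 2 ≤ q.2.1 ^ 2 * η q.1.2 ^ 2 + q.2.2 ^ 2 * f q.1.2 ^ 2} :=
    isClosed_le ((c1.pow 2).mul (c2.pow 2))
      (((c3.pow 2).mul (c2.pow 2)).add ((c4.pow 2).mul (c1.pow 2)))
  have h2 : IsClosed {q : (ℝ × ℝ) × (ℝ × ℝ) | 2 * q.2.1 * η q.1.2 ^ 2 ≤ q.2.2 * f q.1.2 ^ 2} :=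
    isClosed_le ((continuous_const.mul c3).mul (c2.pow 2)) (c4.mul (c1.pow 2))
  have h3 : IsClosed {q : (ℝ × ℝ) × (ℝ × ℝ) |
      4 * η q.1.2 ^ 4 ≤ q.2.2 ^ 2 * (4 * η q.1.2 ^ 2 + f q.1.2 ^ 2)} :=
    isClosed_le (continuous_const.mul (c2.pow 4))
      ((c4.pow 2).mul ((continuous_const.mul (c2.pow 2)).add (c1.pow 2)))
  exact h1.inter (h2.inter h3)

lemma closed_Rm1 {f η : ℝ → ℝ} (hf : Continuous f) (hη : Continuous η) (z : ℝ × ℝ) :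
    IsClosed {r : ℝ | Rm f η z r} :=
  (closed_Rm hf hη).preimage
    (show Continuous fun r : ℝ => (((r, r), z) : (ℝ × ℝ) × (ℝ × ℝ)) by fun_prop)

lemma closed_Rp1 {f η : ℝ → ℝ} (hf : Continuous f) (hη : Continuous η) (z : ℝ × ℝ) :
    IsClosed {r : ℝ | Rp f η z r} :=
  (closed_Rp hf hη).preimage
    (show Continuous fun r : ℝ => (((r, r), z) : (ℝ × ℝ) × (ℝ × ℝ)) by fun_prop)

/-- the constraint set -/
def CC (f η : ℝ → ℝ) (b c : ℝ) : Set ((ℝ × ℝ) × (ℝ × ℝ)) :=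
  {q | (0 ≤ q.2.1 ∧ 0 ≤ q.2.2 ∧ q.2.2 + q.2.1 / 2 ≤ c) ∧ (0 ≤ q.1.1 ∧ q.1.1 ≤ q.1.2 ∧ q.1.2 ≤ b) ∧
    Rm f η q.2 q.1.1 ∧ Rp f η q.2 q.1.2}

lemma compact_CC {f η : ℝ → ℝ} (hf : Continuous f) (hη : Continuous η) (b c : ℝ) :
    IsCompact (CC f η b c) := by
  have hK : IsCompact ((Icc (0 : ℝ) b ×ˢ Icc (0 : ℝ) b) ×ˢ (Icc (0 : ℝ) (2 * c) ×ˢ Icc (0 : ℝ) c)) :=
    (isCompact_Icc.prod isCompact_Icc).prod (isCompact_Icc.prod isCompact_Icc)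
  refine hK.of_isClosed_subset ?_ ?_
  · have c1 : Continuous fun q : (ℝ × ℝ) × (ℝ × ℝ) => q.1.1 := continuous_fst.comp continuous_fst
    have c2 : Continuous fun q : (ℝ × ℝ) × (ℝ × ℝ) => q.1.2 := continuous_snd.comp continuous_fst
    have c3 : Continuous fun q : (ℝ × ℝ) × (ℝ × ℝ) => q.2.1 := continuous_fst.comp continuous_snd
    have c4 : Continuous fun q : (ℝ × ℝ) × (ℝ × ℝ) => q.2.2 := continuous_snd.comp continuous_snd
    have k1 : IsClosed {q : (ℝ × ℝ) × (ℝ × ℝ) | 0 ≤ q.2.1 ∧ 0 ≤ q.2.2 ∧ q.2.2 + q.2.1 / 2 ≤ c} :=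
      (isClosed_le continuous_const c3).inter ((isClosed_le continuous_const c4).inter
        (isClosed_le (c4.add (c3.div_const 2)) continuous_const))
    have k2 : IsClosed {q : (ℝ × ℝ) × (ℝ × ℝ) | 0 ≤ q.1.1 ∧ q.1.1 ≤ q.1.2 ∧ q.1.2 ≤ b} :=
      (isClosed_le continuous_const c1).inter ((isClosed_le c1 c2).inter
        (isClosed_le c2 continuous_const))
    exact k1.inter (k2.inter ((closed_Rm hf hη).inter (closed_Rp hf hη)))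
  · rintro q ⟨⟨h1, h2, h3⟩, ⟨h4, h5, h6⟩, -, -⟩
    refine ⟨⟨⟨h4, h5.trans h6⟩, ⟨h4.trans h5, h6⟩⟩, ⟨⟨h1, by linarith⟩, ⟨h2, by linarith⟩⟩⟩

end WTMSAux

open WTMSAux in
theorem q_WTM : Q_WTM := by
  intro L f A η c P hc hcc b p t hb hbL hp ht htc h1 h2 hint
  have P0 := prof0 P
  have hfc := P.f_cont
  have hηc := P.η_cont
  have hfb := P.f_pos b hb hbL
  have hηb := P.η_pos b
  have hπ := Real.pi_pos
  -- the minimum
  have hcont : ContinuousOn (fun q : (ℝ × ℝ) × (ℝ × ℝ) => FK f (fun _ => 0) η (1 / 2) q.1 q.2)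
      (CC f η b c) := by
    have h := t_CNT L f (fun _ => 0) η P0
    have h' : ContinuousOn (fun q : (ℝ × ℝ) × (ℝ × ℝ) => FF f (fun _ => 0) η q.1 q.2)
        (CC f η b c) := by
      refine h.mono ?_
      rintro q ⟨-, ⟨h4, h5, h6⟩, -, -⟩
      exact ⟨⟨⟨h4, by linarith⟩, ⟨by linarith, by linarith⟩⟩, mem_univ _⟩
    have h'' : Continuous (fun q : (ℝ × ℝ) × (ℝ × ℝ) => π * (q.2.2 - q.2.1 / 2)) := by fun_prop
    refine (h'.add h''.continuousOn).congr ?_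
    intro q _
    exact FK_eq f η q.1 q.2
  have hmem : (((0 : ℝ), b), (p, t)) ∈ CC f η b c := by
    refine ⟨⟨hp, ht, htc⟩, ⟨le_rfl, hb.le, le_rfl⟩, ?_, ?_⟩
    · refine ⟨?_, ?_⟩
      · simp only [P.f_zero]
        have : 0 ≤ p ^ 2 * η 0 ^ 2 := by positivity
        nlinarith
      · simp only [P.f_zero]
        have : 0 ≤ 2 * p * η 0 ^ 2 := by positivity
        nlinarith
    · have k1 : f b ^ 2 * η b ^ 2 ≤ p ^ 2 * η b ^ 2 + t ^ 2 * f b ^ 2 := by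
        have h := (one_le_HH_iff (f := f) (η := η) (z := (p, t)) (r := b) hfb.ne' hηb.ne').1
        refine h ?_
        unfold HH
        simpa using h1
      exact ⟨k1, h2, third hfb hηb hp k1 h2⟩
  obtain ⟨q, hq, hqmin⟩ := (compact_CC hfc hηc b c).exists_isMinOn ⟨_, hmem⟩ hcont
  obtain ⟨⟨α, β⟩, z⟩ := q
  obtain ⟨⟨hz1, hz2, hzc⟩, ⟨hα, hαβ, hβ⟩, hRm, hRp⟩ := hq
  simp only at hz1 hz2 hzc hα hαβ hβ hRm hRp
  have hmin : ∀ q ∈ CC f η b c, FK f (fun _ => 0) η (1 / 2) (α, β) z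
      ≤ FK f (fun _ => 0) η (1 / 2) q.1 q.2 := fun q hq => hqmin hq
  have hval : FK f (fun _ => 0) η (1 / 2) (α, β) z < π * c := by
    refine lt_of_le_of_lt (hmin _ hmem) ?_
    have e : (∫ r in (0 : ℝ)..b, √(1 - HH f (fun _ => 0) η (p, t) r))
        = ∫ r in (0 : ℝ)..b, √(1 - (p ^ 2 / f r ^ 2 + t ^ 2 / η r ^ 2)) := by
      congr 1
      ext r
      unfold HH
      simp
    unfold FK
    simp only
    rw [e]
    nlinarith [hint]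
  -- shrink
  obtain ⟨α', hα'⟩ := ((isCompact_Icc (a := α) (b := β)).inter_right
    (closed_Rm1 hfc hηc z)).exists_isGreatest ⟨α, ⟨⟨le_rfl, hαβ⟩, hRm⟩⟩
  obtain ⟨⟨⟨hαα', hα'β⟩, hRm'⟩, hα'max⟩ := hα'
  obtain ⟨β', hβ'⟩ := ((isCompact_Icc (a := α') (b := β)).inter_right
    (closed_Rp1 hfc hηc z)).exists_isLeast ⟨β, ⟨⟨hα'β, le_rfl⟩, hRp⟩⟩
  obtain ⟨⟨⟨hα'β', hβ'β⟩, hRp'⟩, hβ'min⟩ := hβ'
  simp only [mem_setOf_eq] at hRm' hRp'
  have h0α' : 0 ≤ α' := hα.trans hαα'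
  have hβ'L : β' < L := by linarith
  have hdis : ∀ (w : ℝ × ℝ), 0 ≤ w.1 → 0 ≤ w.2 → w.2 + w.1 / 2 ≤ c → ∀ r, 0 ≤ r → r < L →
      Rm f η w r → Rp f η w r → False := by
    intro w hw1 hw2 hw3 r hr0 hrL
    exact disj (P.η_pos r) hc (hcc r ⟨hr0, hrL.le⟩) hw1 hw2 hw3
  have hlt : α' < β' := by
    rcases eq_or_lt_of_le hα'β' with h | h
    · exfalso
      refine hdis z hz1 hz2 hzc α' h0α' (by linarith) hRm' ?_
      rw [h]; exact hRp'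
    · exact h
  have hfpos : ∀ r, α' < r → r ≤ β' → 0 < f r := fun r h3 h4 =>
    P.f_pos r (lt_of_le_of_lt h0α' h3) (lt_of_le_of_lt h4 hβ'L)
  have hHH : ∀ r ∈ Ioo α' β', HH f (fun _ => 0) η z r < 1 := by
    intro r hr
    by_contra hcon
    have hcon' : 1 ≤ HH f (fun _ => 0) η z r := not_lt.1 hcon
    have hfr := hfpos r hr.1 hr.2.le
    have hηr := P.η_pos r
    have k1 := (one_le_HH_iff hfr.ne' hηr.ne').1 hcon'
    rcases le_total (z.2 * f r ^ 2) (2 * z.1 * η r ^ 2) with h | h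
    · have hmem' : r ∈ Icc α β ∩ {r : ℝ | Rm f η z r} :=
        ⟨⟨hαα'.trans hr.1.le, hr.2.le.trans hβ'β⟩, ⟨k1, h⟩⟩
      have := hα'max hmem'
      linarith [hr.1]
    · have hmem' : r ∈ Icc α' β ∩ {r : ℝ | Rp f η z r} :=
        ⟨⟨hr.1.le, hr.2.le.trans hβ'β⟩, ⟨k1, h, third hfr hηr hz1 k1 h⟩⟩
      have := hβ'min hmem'
      linarith [hr.2]
  have hvalle : FK f (fun _ => 0) η (1 / 2) (α', β') z ≤ FK f (fun _ => 0) η (1 / 2) (α, β) z := by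
    unfold FK
    simp only
    have h := intervalIntegral.integral_mono_interval hαα' hα'β' hβ'β
      (Filter.Eventually.of_forall (fun r => Real.sqrt_nonneg (1 - HH f (fun _ => 0) η z r)))
      (P0.ii z α β)
    linarith
  have hz2pos : 0 < z.2 := by
    rcases eq_or_lt_of_le hz2 with h | h
    · exfalso
      obtain ⟨-, -, h3⟩ := hRp'
      rw [← h] at h3
      have := P.η_pos β'
      have h4 : 0 < η β' ^ 4 := by positivity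
      nlinarith
    · exact h
  have hzc' : z.2 + z.1 / 2 < c := by
    have h3 : 0 ≤ ∫ r in α..β, √(1 - HH f (fun _ => 0) η z r) :=
      intervalIntegral.integral_nonneg hαβ (fun r _ => Real.sqrt_nonneg _)
    have h4 := hval
    unfold FK at h4
    simp only at h4
    have h5 : π * (1 / 2 * z.1 + z.2) < π * c := by linarith
    have h6 := lt_of_mul_lt_mul_left h5 hπ.le
    linarith
  have hfβ' : 0 < f β' := hfpos β' hlt le_rfl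
  have hηβ' := P.η_pos β'
  refine ⟨z, α', β', h0α', hlt, hβ'L, hz1, hz2pos, hzc', hHH, ?_, ?_, ?_, ?_, ?_, ?_⟩
  · -- at the axis
    intro hα0
    by_contra hne
    have hz1pos : 0 < z.1 := lt_of_le_of_ne hz1 (Ne.symm hne)
    have hnear : ∀ᶠ r in 𝓝[>] (0 : ℝ), f r < z.1 := by
      have h3 : Tendsto f (𝓝[>] (0 : ℝ)) (𝓝 0) := by
        have h4 : Tendsto f (𝓝 0) (𝓝 (f 0)) := hfc.tendsto 0
        rw [P.f_zero] at h4
        exact h4.mono_left nhdsWithin_le_nhds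
      exact h3.eventually (gt_mem_nhds hz1pos)
    have hnear2 : ∀ᶠ r in 𝓝[>] (0 : ℝ), r ∈ Ioo α' β' := by
      rw [hα0]
      exact Ioo_mem_nhdsGT (by rw [← hα0]; exact hlt)
    obtain ⟨r, hr1, hr2⟩ := (hnear.and hnear2).exists
    have hfr := hfpos r hr2.1 hr2.2.le
    have h3 := hHH r hr2
    unfold HH at h3
    have h4 : 1 ≤ z.1 ^ 2 / f r ^ 2 := by
      rw [one_le_div (by positivity)]
      exact pow_le_pow_left₀ hfr.le hr1.le 2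
    have h5 : 0 ≤ (z.2 - (fun _ => (0 : ℝ)) r * z.1) ^ 2 / η r ^ 2 := by positivity
    linarith
  · intro hα0
    have hfα : 0 < f α' := P.f_pos α' hα0 (by linarith)
    have hηα := P.η_pos α'
    have hz1pos : 0 < z.1 := by
      rcases eq_or_lt_of_le hz1 with h | h
      · exfalso
        have h3 := hRm'.2
        rw [← h] at h3
        have h4 : 0 < z.2 * f α' ^ 2 := by positivity
        nlinarith
      · exact h
    refine ⟨hz1pos, (one_le_HH_iff hfα.ne' hηα.ne').2 hRm'.1, ?_⟩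
    rcases eq_or_lt_of_le hRm'.2 with h | h
    · exfalso
      exact hdis z hz1 hz2 hzc α' h0α' (by linarith) hRm'
        ⟨hRm'.1, h.ge, third hfα hηα hz1 hRm'.1 h.ge⟩
    · exact h
  · exact (one_le_HH_iff hfβ'.ne' hηβ'.ne').2 hRp'.1
  · rcases eq_or_lt_of_le hRp'.2.1 with h | h
    · exfalso
      exact hdis z hz1 hz2 hzc β' (h0α'.trans hα'β') hβ'L ⟨hRp'.1, h.ge⟩ hRp'
    · exact h
  · exact lt_of_le_of_lt hvalle hval
  · intro w hw1 hw2 hw3 hwα hwβ hwβ'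
    refine hvalle.trans (hmin ((α', β'), w) ⟨⟨hw1, hw2, hw3⟩, ⟨h0α', hα'β', hβ'β.trans hβ⟩, ?_, ?_⟩)
    · rcases eq_or_lt_of_le h0α' with h | h
      · simp only [← h]
        refine ⟨?_, ?_⟩
        · rw [P.f_zero]
          have : 0 ≤ w.1 ^ 2 * η 0 ^ 2 := by positivity
          nlinarith
        · rw [P.f_zero]
          have : 0 ≤ 2 * w.1 * η 0 ^ 2 := by positivity
          nlinarith
      · have hfα : 0 < f α' := P.f_pos α' h (by linarith)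
        obtain ⟨k1, k2⟩ := hwα h
        exact ⟨(one_le_HH_iff hfα.ne' (P.η_pos α').ne').1 k1, k2⟩
    · have k1 := (one_le_HH_iff hfβ'.ne' hηβ'.ne').1 hwβ
      exact ⟨k1, hwβ', third hfβ' hηβ' hw1 k1 hwβ'⟩

end TSP
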