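import Pool.Agent.TSP.StmtsS

/-!
# The well inequality from compactness and variation
-/

set_option autoImplicit false

namespace TSP

open Set MeasureTheory Real Filter Topology

/-- **The well inequality.** -/
theorem q_WTY (hwtm : Q_WTM) (hwtc : Q_WTC) : Q_WTY := by
  intro L f A η c hP hc hD hr b p t hb hbL hp ht htp h1 h2
  by_contra hcon
  rw [not_le] at hcon
  obtain ⟨z, α, β, hW⟩ := hwtm L f A η c hP hc hr b p t hb hbL hp ht htp h1 h2 hcon
  have hT : ((α, β) : ℝ × ℝ) ∈ Tri L := ⟨hW.1, hW.2.1.le, hW.2.2.1.le⟩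
  obtain ⟨w, hwK, hw1, hw2, hwF⟩ := hD (α, β) hT
  exact hwtc L f A η c z w α β hP hc hW hwK hw1 hw2 hwF

end TSP
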