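import Pool.Agent.TSP.StmtsS

/-!
# The weight of Abel's equation (module TSS_WWB)
-/

set_option autoImplicit false

namespace TSP

open Set MeasureTheory Real Filter Topology

namespace WWBSAux

theorem log_quot {p : ℝ} (h0 : 0 ≤ p) (h2 : p < 2) :
    log ((2 + p) / (2 - p)) = log (2 + p) - log (2 - p) :=
  Real.log_div (by linarith) (by linarith)

theorem cont : ContinuousOn ww (Icc 0 (6 / 5)) := by
  have h2 : ∀ p ∈ Icc (0 : ℝ) (6 / 5), 2 - p ≠ 0 := fun p hp => by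
    have := hp.2
    intro h
    linarith
  have h3 : ∀ p ∈ Icc (0 : ℝ) (6 / 5), (2 + p) / (2 - p) ≠ 0 := fun p hp => by
    have h1 := hp.1
    exact div_ne_zero (by linarith) (h2 p hp)
  have h4 : ∀ p ∈ Icc (0 : ℝ) (6 / 5), 2 * (4 - p ^ 2) ≠ 0 := fun p hp => by
    have h1 := hp.1
    have h1' := hp.2
    have : 0 < 4 - p ^ 2 := by nlinarith
    positivity
  unfold ww
  refine ContinuousOn.mul continuousOn_const (ContinuousOn.add (ContinuousOn.sub continuousOn_const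
    (ContinuousOn.mul (by fun_prop) (ContinuousOn.log (ContinuousOn.div (by fun_prop) (by fun_prop) h2)
      h3))) (ContinuousOn.div (by fun_prop) (by fun_prop) h4))

theorem nonneg {p : ℝ} (hp : p ∈ Icc (0 : ℝ) (6 / 5)) : 0 ≤ ww p := by
  have h0 := hp.1
  have h1 := hp.2
  have hden : 0 < 4 - p ^ 2 := by nlinarith
  have hq1 : 1 ≤ (2 + p) / (2 - p) := by
    rw [le_div_iff₀ (by linarith)]
    linarith
  have hq4 : (2 + p) / (2 - p) ≤ 4 := by
    rw [div_le_iff₀ (by linarith)]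
    linarith
  have hl0 : 0 ≤ log ((2 + p) / (2 - p)) := Real.log_nonneg hq1
  have hl4 : log ((2 + p) / (2 - p)) ≤ 2 * log 2 := by
    have h := Real.log_le_log (by linarith) hq4
    have h4 : log 4 = 2 * log 2 := by
      rw [show (4 : ℝ) = 2 ^ 2 by norm_num, Real.log_pow]
      norm_num
    linarith
  have hlog2 := Real.log_two_lt_d9
  have hpl : p * log ((2 + p) / (2 - p)) ≤ 6 / 5 * (2 * log 2) :=
    mul_le_mul h1 hl4 hl0 (by norm_num)
  have hfr : -(1 / 16) ≤ (4 - 3 * p ^ 2) / (2 * (4 - p ^ 2)) := by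
    rw [le_div_iff₀ (by positivity)]
    nlinarith
  unfold ww
  have : 0 ≤ 3 / 2 - 3 / 4 * p * log ((2 + p) / (2 - p)) + (4 - 3 * p ^ 2) / (2 * (4 - p ^ 2)) := by
    nlinarith
  positivity

theorem log_lower {p : ℝ} (h0 : 0 ≤ p) (h1 : p ≤ 1) :
    p + p ^ 3 / 12 + p ^ 5 / 80 ≤ log ((2 + p) / (2 - p)) := by
  have hx : |p / 2| < 1 := by
    rw [abs_of_nonneg (by positivity)]
    linarith
  have h := Real.hasSum_log_sub_log_of_abs_lt_one hx
  have hs := sum_le_hasSum (Finset.range 3) (fun i _ => by positivity) h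
  have e : log (1 + p / 2) - log (1 - p / 2) = log ((2 + p) / (2 - p)) := by
    rw [← Real.log_div (by linarith) (by linarith)]
    congr 1
    field_simp
  rw [e] at hs
  refine le_trans (le_of_eq ?_) hs
  simp only [Finset.sum_range_succ, Finset.sum_range_zero]
  push_cast
  ring

theorem upper {p : ℝ} (hp : p ∈ Icc (0 : ℝ) 1) :
    ww p ≤ 4 / π * (1 - p ^ 2 / 2 - p ^ 4 / 16 - p ^ 6 / 80) := by
  have h0 := hp.1
  have h1 := hp.2
  have hden : 0 < 4 - p ^ 2 := by nlinarith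
  have hl := log_lower h0 h1
  have hpl : p * (p + p ^ 3 / 12 + p ^ 5 / 80) ≤ p * log ((2 + p) / (2 - p)) :=
    mul_le_mul_of_nonneg_left hl h0
  have hfr : (4 - 3 * p ^ 2) / (2 * (4 - p ^ 2)) ≤ 1 / 2 - p ^ 2 / 4 - p ^ 4 / 16 - p ^ 6 / 64 := by
    rw [div_le_iff₀ (by positivity)]
    have : 0 ≤ p ^ 8 := by positivity
    nlinarith
  have hm : 3 / 2 - 3 / 4 * p * log ((2 + p) / (2 - p)) + (4 - 3 * p ^ 2) / (2 * (4 - p ^ 2)) ≤
      2 * (1 - p ^ 2 / 2 - p ^ 4 / 16 - p ^ 6 / 80) := by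
    nlinarith
  have hpi : 0 ≤ 2 / π := by positivity
  unfold ww
  calc 2 / π * (3 / 2 - 3 / 4 * p * log ((2 + p) / (2 - p)) + (4 - 3 * p ^ 2) / (2 * (4 - p ^ 2)))
      ≤ 2 / π * (2 * (1 - p ^ 2 / 2 - p ^ 4 / 16 - p ^ 6 / 80)) := mul_le_mul_of_nonneg_left hm hpi
    _ = 4 / π * (1 - p ^ 2 / 2 - p ^ 4 / 16 - p ^ 6 / 80) := by ring

theorem deriv_F {x : ℝ} (h0 : 0 ≤ x) (h1 : x ≤ 1) :
    HasDerivAt (fun p : ℝ => 3 * p - 2 * p ^ 2 +
      (1 - 3 / 4 * p ^ 2 + p ^ 3 / 2) * (log (2 + p) - log (2 - p))) (ww x * (π * (1 - x))) x := by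
  have hA : HasDerivAt (fun p : ℝ => 2 + p) 1 x := by
    simpa using (hasDerivAt_id x).const_add 2
  have hB : HasDerivAt (fun p : ℝ => 2 - p) (-1) x := by
    simpa using (hasDerivAt_id x).const_sub 2
  have hlA : HasDerivAt (fun p : ℝ => log (2 + p)) (1 / (2 + x)) x := hA.log (by linarith)
  have hlB : HasDerivAt (fun p : ℝ => log (2 - p)) (-1 / (2 - x)) x := hB.log (by linarith)
  have hl : HasDerivAt (fun p : ℝ => log (2 + p) - log (2 - p)) (1 / (2 + x) - -1 / (2 - x)) x :=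
    hlA.sub hlB
  have hp2 : HasDerivAt (fun p : ℝ => p ^ 2) (2 * x) x := by
    simpa using hasDerivAt_pow 2 x
  have hp3 : HasDerivAt (fun p : ℝ => p ^ 3) (3 * x ^ 2) x := by
    simpa using hasDerivAt_pow 3 x
  have hc : HasDerivAt (fun p : ℝ => 1 - 3 / 4 * p ^ 2 + p ^ 3 / 2)
      (0 - 3 / 4 * (2 * x) + 3 * x ^ 2 / 2) x :=
    ((hasDerivAt_const x 1).sub (hp2.const_mul (3 / 4))).add (hp3.div_const 2)
  have hd : HasDerivAt (fun p : ℝ => 3 * p - 2 * p ^ 2) (3 * 1 - 2 * (2 * x)) x :=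
    ((hasDerivAt_id x).const_mul 3).sub (hp2.const_mul 2)
  have hF := hd.add (hc.mul hl)
  refine (hF.congr_deriv ?_)
  have hden : (4 - x ^ 2) ≠ 0 := by nlinarith
  have hA' : (2 + x) ≠ 0 := by linarith
  have hB' : (2 - x) ≠ 0 := by linarith
  have hpi : π ≠ 0 := Real.pi_ne_zero
  unfold ww
  rw [log_quot h0 (by linarith)]
  have e1 : (1 : ℝ) / (2 + x) = (2 - x) / (4 - x ^ 2) := by
    rw [div_eq_div_iff hA' hden]
    ring
  have e2 : (-1 : ℝ) / (2 - x) = -(2 + x) / (4 - x ^ 2) := by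
    rw [div_eq_div_iff hB' hden]
    ring
  rw [e1, e2]
  set l := log (2 + x) - log (2 - x) with hldef
  field_simp
  ring

theorem integ : (∫ p in (0 : ℝ)..1, ww p * (π * (1 - p))) = (4 + 3 * log 3) / 4 := by
  have hc : ContinuousOn (fun p : ℝ => ww p * (π * (1 - p))) (Set.uIcc 0 1) := by
    rw [Set.uIcc_of_le zero_le_one]
    exact (cont.mono (Set.Icc_subset_Icc le_rfl (by norm_num))).mul (by fun_prop)
  have h := intervalIntegral.integral_eq_sub_of_hasDerivAt (a := 0) (b := 1)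
    (f := fun p : ℝ => 3 * p - 2 * p ^ 2 +
      (1 - 3 / 4 * p ^ 2 + p ^ 3 / 2) * (log (2 + p) - log (2 - p)))
    (f' := fun p : ℝ => ww p * (π * (1 - p)))
    (fun x hx => by
      rw [Set.uIcc_of_le zero_le_one] at hx
      exact deriv_F hx.1 hx.2) hc.intervalIntegrable
  rw [h]
  norm_num
  ring

end WWBSAux

open WWBSAux in
theorem q_WWB : Q_WWB :=
  ⟨cont, fun _ hp => nonneg hp, fun _ hp => upper hp, integ⟩

end TSP
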