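import Pool.Agent.TSP.StmtsS
import Pool.Agent.TSP.Abl
import Pool.Agent.TSP.Ax1
import Pool.Agent.TSP.Ax2
import Pool.Agent.TSP.Ax3
import Pool.Agent.TSP.Axe
import Pool.Agent.TSP.Ca1
import Pool.Agent.TSP.Ca2
import Pool.Agent.TSP.Cll
import Pool.Agent.TSP.Cls
import Pool.Agent.TSP.Dst
import Pool.Agent.TSP.Exm
import Pool.Agent.TSP.Gek
import Pool.Agent.TSP.Glu
import Pool.Agent.TSP.Int
import Pool.Agent.TSP.Rfl
import Pool.Agent.TSP.Swa
import Pool.Agent.TSP.Vols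
import Pool.Agent.TSP.Wtc
import Pool.Agent.TSP.Wtm
import Pool.Agent.TSP.Wty
import Pool.Agent.TSP.Wwb

/-!
# The statements of `StmtsS.lean`, proved
-/

set_option autoImplicit false

namespace TSP

theorem d_INT : Q_INT := q_INT q_GLU q_SWA

theorem d_CLL : Q_CLL := q_CLL (q_AX1 q_GLU) (q_AX2 q_AXE) q_AX3

theorem d_CLS : Q_CLS := q_CLS q_EXM d_INT q_GEK d_CLL q_RFL

theorem d_DST : Q_DST := q_DST q_EXM d_INT d_CLS

theorem d_WTY : Q_WTY := q_WTY q_WTM q_WTC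

theorem d_VOL : Q_VOL := q_VOL (q_CA1 q_ABL q_WWB) q_CA2 q_WWB

end TSP
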