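import Mathlib

/-!
# Torus-invariant metrics on the product of the two-sphere and the circle

Polar coordinates: a point is given by a real number `r` (distance coordinate along the geodesics
orthogonal to the orbits) and two angles `θ`, `φ`; the metric is
`dr² + f² (dθ + A dφ)² + η² dφ²`, with `f`, `A`, `η` functions of `r`.
-/

namespace TSP

open Real

/-- Profile of a smooth metric on the product of the two-sphere and the circle which is invariant
under the two-torus (rotations of the two-sphere about an axis, angle `θ`, and translations of the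
circle, angle `φ`). The orbits are the tori `r = const`; the circles in direction `θ` collapse at
both axes `r = 0` and `r = L`. The norm of the Killing field of `θ` is `f` (odd at both axes with
slopes `1` and `-1`), its scalar product with the Killing field of `φ` is `f² A` with `A` smooth and
even at both axes, and the square of the norm of the Killing field of `φ` is `η² + f² A²` with `η`
smooth, positive and even at both axes. All three functions are extended to the line. -/
structure Profile (L : ℝ) (f A η : ℝ → ℝ) : Prop where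
  L_pos : 0 < L
  smooth_f : ContDiff ℝ (⊤ : ℕ∞) f
  smooth_A : ContDiff ℝ (⊤ : ℕ∞) A
  smooth_η : ContDiff ℝ (⊤ : ℕ∞) η
  f_odd : ∀ r, f (-r) = - f r
  f_odd' : ∀ r, f (2 * L - r) = - f r
  A_even : ∀ r, A (-r) = A r
  A_even' : ∀ r, A (2 * L - r) = A r
  η_even : ∀ r, η (-r) = η r
  η_even' : ∀ r, η (2 * L - r) = η r
  f_pos : ∀ r, 0 < r → r < L → 0 < f r
  η_pos : ∀ r, 0 < η r
  deriv_zero : deriv f 0 = 1
  deriv_L : deriv f L = -1

/-- `t ↦ (r t, θ t, φ t)` is a smooth unit speed geodesic of `dr² + f² (dθ + A dφ)² + η² dφ²`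
(geodesic equations in the coordinates `r`, `θ`, `φ`; the last two say that the momenta
`f² (θ' + A φ')` and `η² φ' + A f² (θ' + A φ')` are constant). -/
structure IsUnitGeodesic (f A η : ℝ → ℝ) (r θ φ : ℝ → ℝ) : Prop where
  smooth_r : ContDiff ℝ (⊤ : ℕ∞) r
  smooth_θ : ContDiff ℝ (⊤ : ℕ∞) θ
  smooth_φ : ContDiff ℝ (⊤ : ℕ∞) φ
  unit_speed : ∀ t, (deriv r t) ^ 2 + (f (r t)) ^ 2 * (deriv θ t + A (r t) * deriv φ t) ^ 2
      + (η (r t)) ^ 2 * (deriv φ t) ^ 2 = 1
  radial : ∀ t, deriv (deriv r) t
      = f (r t) * deriv f (r t) * (deriv θ t + A (r t) * deriv φ t) ^ 2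
      + (f (r t)) ^ 2 * deriv A (r t) * ((deriv θ t + A (r t) * deriv φ t) * deriv φ t)
      + η (r t) * deriv η (r t) * (deriv φ t) ^ 2
  angular_θ : ∀ t, f (r t) * deriv (fun s => deriv θ s + A (r s) * deriv φ s) t
      + 2 * deriv f (r t) * deriv r t * (deriv θ t + A (r t) * deriv φ t) = 0
  angular_φ : ∀ t, deriv (fun s => (η (r s)) ^ 2 * deriv φ s
      + A (r s) * ((f (r s)) ^ 2 * (deriv θ s + A (r s) * deriv φ s))) t = 0

/-- The point of the product of the unit sphere of `ℂ × ℝ` and the unit circle of `ℂ` with polar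
coordinates `(r, θ, φ)`; the axes are `r = 0` and `r = L`. -/
noncomputable def point (L r θ φ : ℝ) : (ℂ × ℝ) × ℂ :=
  ((sin (π * r / L) * Complex.exp (θ * Complex.I), cos (π * r / L)), Complex.exp (φ * Complex.I))

/-- The geodesic `(r, θ, φ)` of the product of the sphere and the circle with axis distance `L`
closes after the time `T`. -/
def Closes (L : ℝ) (r θ φ : ℝ → ℝ) (T : ℝ) : Prop :=
  0 < T ∧ ∀ t, point L (r (t + T)) (θ (t + T)) (φ (t + T)) = point L (r t) (θ t) (φ t)

/-- The volume for the metric `dr² + f² (dθ + A dφ)² + η² dφ²`. -/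
noncomputable def vol (f η : ℝ → ℝ) (L : ℝ) : ℝ := ∫ r in (0 : ℝ)..L, 4 * π ^ 2 * (f r * η r)

end TSP
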