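import Pool.Agent.TSP.Vol2

/-!
# The theorem, from the statements `S_CIR` and `S_LVL`
-/

set_option autoImplicit false

namespace TSP

open Set MeasureTheory Real Filter Topology

lemma Profile.vol_pos {L : ℝ} {f A η : ℝ → ℝ} (h : Profile L f A η) : 0 < vol f η L := by
  have hc : Continuous (fun r => 4 * π ^ 2 * (f r * η r)) :=
    continuous_const.mul (h.f_cont.mul h.η_cont)
  refine intervalIntegral.intervalIntegral_pos_of_pos_on (hc.intervalIntegrable 0 L) ?_ h.L_pos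
  intro r hr
  have h1 : 0 < f r := h.f_pos r hr.1 hr.2
  have h2 : 0 < η r := h.η_pos r
  have h3 : 0 < π := Real.pi_pos
  positivity

/-- `3 √3 < 8` -/
lemma const_pos : 0 < 8 - 3 * √(3 : ℝ) := by
  have h : √(3 : ℝ) < 2 := by
    rw [Real.sqrt_lt' (by norm_num)]; norm_num
  linarith

/-- The theorem. -/
theorem main_of (hcir : S_CIR) (hlvl : S_LVL) {L : ℝ} {f A η : ℝ → ℝ} (hP : Profile L f A η) :
    ∃ (r θ φ : ℝ → ℝ) (T : ℝ), IsUnitGeodesic f A η r θ φ ∧ Closes L r θ φ T ∧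
      T ^ 3 ≤ 12 / (8 - 3 * √3) * vol f η L := by
  by_contra hcon
  have hlong : ∀ (r θ φ : ℝ → ℝ) (T : ℝ), IsUnitGeodesic f A η r θ φ → Closes L r θ φ T →
      12 / (8 - 3 * √3) * vol f η L < T ^ 3 := by
    intro r θ φ T h1 h2
    by_contra h3
    exact hcon ⟨r, θ, φ, T, h1, h2, not_lt.mp h3⟩
  have hV : 0 < vol f η L := hP.vol_pos
  have hπ : 0 < π := Real.pi_pos
  have h3 := const_pos
  set V : ℝ := vol f η L with hVdef
  set K : ℝ := 8 - 3 * √(3 : ℝ) with hK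
  have hq : 0 < V / (2 / 3 * π ^ 3 * K) := by positivity
  obtain ⟨c, hc, hc3⟩ : ∃ c : ℝ, 0 < c ∧ c ^ 3 = V / (2 / 3 * π ^ 3 * K) := by
    refine ⟨(V / (2 / 3 * π ^ 3 * K)) ^ ((1 : ℝ) / 3), Real.rpow_pos_of_pos hq _, ?_⟩
    rw [← Real.rpow_natCast, ← Real.rpow_mul hq.le]
    norm_num
  have hVc : 2 / 3 * π ^ 3 * K * c ^ 3 = V := by
    rw [hc3]
    field_simp
  have hNS : NoShort L f A η c := by
    intro r θ φ T h1 h2
    have h4 : 12 / K * V < T ^ 3 := hlong r θ φ T h1 h2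
    have h5 : (2 * π * c) ^ 3 = 12 / K * V := by
      rw [← hVc]
      field_simp
      ring
    have h6 : (2 * π * c) ^ 3 < T ^ 3 := by rw [h5]; exact h4
    exact lt_of_pow_lt_pow_left₀ 3 h2.1.le h6
  have hC := hcir L f A η c hP hc hNS
  have hL := hlvl L f A η c hP hc hNS
  have hfin := vol2 hP hc hC.2.1 hL
  rw [← hK, hVc] at hfin
  exact lt_irrefl _ hfin

end TSP
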