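import Pool.Agent.TSP.Core
import Pool.Agent.SGR.Width

/-!
# The width inequality

If every closed geodesic is longer than `2 π c` then `∫_0^L √(1 - p² / f²)₊ ≥ π (c - p)` for `0 ≤ p ≤ c`.
-/

set_option autoImplicit false

namespace TSP

open Set MeasureTheory Real Filter Topology

namespace WIDAux

variable {L : ℝ} {f A η : ℝ → ℝ}

/-- `f` is the profile of a rotationally symmetric metric -/
lemma sphere (H : Profile L f A η) : SGR.SphereProfile L f where
  L_pos := H.L_pos
  smooth := H.smooth_f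
  odd := H.f_odd
  periodic := by
    intro r
    have h1 := H.f_odd' (-r)
    rw [H.f_odd r, neg_neg] at h1
    rw [← h1]
    congr 1
    ring
  pos := H.f_pos
  deriv_zero := H.deriv_zero
  deriv_L := H.deriv_L

lemma abs_fst_le (H : Profile L f A η) {z : ℝ × ℝ} {r : ℝ} (h0 : 0 ≤ r) (h1 : r ≤ L)
    (h : Adm f A η z r) : |z.1| ≤ f r := by
  have hη : 0 < η r ^ 2 := by
    have := H.η_pos r
    positivity
  have hf := H.f_nonneg h0 h1
  have h2 : 0 ≤ (z.2 - A r * z.1) ^ 2 * f r ^ 2 := by positivity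
  have h3 : z.1 ^ 2 * η r ^ 2 ≤ f r ^ 2 * η r ^ 2 := by linarith [h.1]
  have h4 : z.1 ^ 2 ≤ f r ^ 2 := le_of_mul_le_mul_right h3 hη
  exact abs_le_of_sq_le_sq h4 hf

/-- pointwise: the integrand of the action is at most the one of the width -/
lemma sqrt_le_phi {z : ℝ × ℝ} {r : ℝ} (hf : 0 < f r) :
    √(1 - HH f A η z r) ≤ SGR.phi f |z.1| r := by
  rw [SGR.phi_eq_pot hf]
  apply Real.sqrt_le_sqrt
  unfold HH SGR.pot
  have h1 : 0 ≤ (z.2 - A r * z.1) ^ 2 / η r ^ 2 := by positivity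
  rw [sq_abs]
  linarith

/-- the action is at most the width plus the momentum term at the critical level -/
lemma ff_le (H : Profile L f A η) {c0 r1 r2 : ℝ} (h : SGR.Lev L f c0 r1 r2)
    (hang : ∫ x in Ioo r1 r2, SGR.theta f c0 x = π) {x z : ℝ × ℝ} (h1 : r1 ≤ x.1)
    (h12 : x.1 ≤ x.2) (h2 : x.2 ≤ r2) (hz : |z.1| ≤ c0) :
    FF f A η x z ≤ SGR.wid f L c0 + π * c0 := by
  have hπ := Real.pi_pos
  have hc0 := h.osc.c_pos
  have hsub : Ioo x.1 x.2 ⊆ Ioo r1 r2 := fun y hy => ⟨h1.trans_lt hy.1, hy.2.trans_le h2⟩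
  have i1 := h.prof.phi_intble |z.1| (s := Ioo r1 r2) measurableSet_Ioo h.sub
  have i2 := h.prof.phi_intble c0 (s := Ioo r1 r2) measurableSet_Ioo h.sub
  have i3 := h.theta_intble
  have e1 : (∫ r in x.1..x.2, √(1 - HH f A η z r)) ≤ ∫ r in Ioo r1 r2, SGR.phi f |z.1| r := by
    rw [intervalIntegral.integral_of_le h12, integral_Ioc_eq_integral_Ioo]
    have i0 : IntegrableOn (fun r => √(1 - HH f A η z r)) (Ioo x.1 x.2) := by
      have := H.ii z x.1 x.2
      rwa [intervalIntegrable_iff_integrableOn_Ioo_of_le h12] at this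
    calc ∫ r in Ioo x.1 x.2, √(1 - HH f A η z r)
        ≤ ∫ r in Ioo x.1 x.2, SGR.phi f |z.1| r := by
          refine setIntegral_mono_on i0 (i1.mono_set hsub) measurableSet_Ioo ?_
          intro r hr
          exact sqrt_le_phi (hc0.trans (h.osc.above r (hsub hr)))
      _ ≤ ∫ r in Ioo r1 r2, SGR.phi f |z.1| r := by
          refine setIntegral_mono_set i1 ?_ (Filter.Eventually.of_forall hsub)
          filter_upwards [ae_restrict_mem measurableSet_Ioo] with r hr
          exact SGR.phi_nonneg (hc0.trans (h.osc.above r hr)).le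
  have e2 : (∫ r in Ioo r1 r2, SGR.phi f |z.1| r) ≤ (∫ r in Ioo r1 r2, SGR.phi f c0 r)
      + (c0 - |z.1|) * ∫ r in Ioo r1 r2, SGR.theta f c0 r := by
    rw [← integral_const_mul, ← integral_add i2 (i3.const_mul _)]
    refine setIntegral_mono_on i1 (i2.add (i3.const_mul _)) measurableSet_Ioo ?_
    intro r hr
    have h3 := h.osc.above r hr
    have h4 := SGR.phi_le (f := f) (abs_nonneg z.1) hc0 h3
    rw [if_neg, add_zero] at h4
    · exact h4
    · push Not
      nlinarith [abs_nonneg z.1]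
  rw [hang, ← h.wid_eq le_rfl] at e2
  have h5 : π * z.1 ≤ π * |z.1| := mul_le_mul_of_nonneg_left (le_abs_self _) hπ.le
  unfold FF
  nlinarith

end WIDAux

open WIDAux LVLAux in
/-- **The width inequality.** -/
theorem t_WID (L : ℝ) (f A η : ℝ → ℝ) (c : ℝ) (H : Profile L f A η) (hc : 0 < c)
    (hns : NoShort L f A η c) (p : ℝ) (hp : 0 ≤ p) (hpc : p ≤ c) :
    π * (c - p) ≤ SGR.wid f L p := by
  have h := sphere H
  have hL := H.L_pos
  have hπ := Real.pi_pos
  obtain ⟨hcL, -, hcrit⟩ := t_CIR L f A η c H hc hns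
  have hcrit' : ∀ x ∈ Ioo 0 L, f x ≤ c → deriv f x ≠ 0 := by
    intro x hx hfx hd
    exact absurd (hcrit x hx.1 hx.2 hd) (not_lt.2 hfx)
  obtain ⟨xM, hxM, hM⟩ : ∃ xM ∈ Ioo 0 L, c < f xM := by
    obtain ⟨z, hz, hzmax⟩ := isCompact_Icc.exists_isMaxOn (nonempty_Icc.2 hL.le)
      (h.cont.continuousOn (s := Icc 0 L))
    have h1 : 0 < f (L / 2) := h.pos _ (by linarith) (by linarith)
    have h2 : f (L / 2) ≤ f z := hzmax ⟨by linarith, by linarith⟩
    have hz1 : 0 < z := by
      rcases eq_or_lt_of_le hz.1 with h3 | h3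
      · rw [← h3, h.zero] at h2; linarith
      · exact h3
    have hz2 : z < L := by
      rcases eq_or_lt_of_le hz.2 with h3 | h3
      · rw [h3, h.at_L] at h2; linarith
      · exact h3
    refine ⟨z, ⟨hz1, hz2⟩, ?_⟩
    have hloc : IsLocalMax f z := hzmax.isLocalMax (Icc_mem_nhds hz1 hz2)
    exact hcrit z hz1 hz2 hloc.deriv_eq_zero
  have hkc : Continuous (fun c => SGR.wid f L c + π * c) :=
    h.wid_continuous.add (continuous_const.mul continuous_id)
  obtain ⟨c0, hc0, hmin⟩ := isCompact_Icc.exists_isMinOn (nonempty_Icc.2 hc.le)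
    (hkc.continuousOn (s := Icc 0 c))
  have hkey : π * c ≤ SGR.wid f L c0 + π * c0 := by
    by_contra hle
    push Not at hle
    have hnn : 0 ≤ SGR.wid f L c0 := by
      unfold SGR.wid
      refine setIntegral_nonneg measurableSet_Ioo fun r hr => ?_
      exact SGR.phi_nonneg (h.nonneg ⟨hr.1.le, hr.2.le⟩)
    have hc0pos : 0 < c0 := by
      rcases eq_or_lt_of_le hc0.1 with h3 | h3
      · rw [← h3, h.wid_zero] at hle; linarith
      · exact h3
    have hc0lt : c0 < c := by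
      have : π * c0 < π * c := by linarith
      exact lt_of_mul_lt_mul_left this hπ.le
    obtain ⟨r1, r2, a1, a2, a3, a4, a5⟩ := h.osc hc0pos hc0lt.le hcrit' hxM hM
    have hlev : SGR.Lev L f c0 r1 r2 := ⟨h, a1, a2, a3, a4, a5⟩
    have hang := hlev.angle hc0lt (fun c hc => hmin hc)
    have hr12 := a3.lt
    have hB := c_BND L f A η H
    have hmem : ∀ r, 0 ≤ r → r ≤ L → (r, r) ∈ Tri L := fun r h0 h1 => ⟨h0, le_rfl, h1⟩
    have hdiag : ∀ r, 0 ≤ r → r ≤ L → DD f A η (r, r) = π * f r := fun r h0 h1 =>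
      (hB (r, r) (hmem r h0 h1)).2.2.2 rfl
    have hπt : π * c0 < π * c := mul_lt_mul_of_pos_left hc0lt hπ
    have hfl : ∀ r ∈ Icc 0 r1, f r ≤ c0 := fun r hr => hlev.left_le hr
    have hfr : ∀ r ∈ Icc r2 L, f r ≤ c0 := fun r hr => hlev.right_le hr
    have hDD : ∀ x ∈ Tri L, r1 ≤ x.1 → x.2 ≤ r2 → (x.1 = r1 ∨ x.2 = r2) →
        DD f A η x < π * c := by
      intro x hx h1 h2 h3
      obtain ⟨z, hz⟩ := (c_MAX L f A η H).1 x hx
      rw [hz.DD_eq]
      refine (ff_le H hlev hang h1 hx.2.1 h2 ?_).trans_lt hle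
      rcases h3 with h3 | h3
      · refine (abs_fst_le H hx.1 (hx.2.1.trans hx.2.2) (hz.1 x.1 ⟨le_rfl, hx.2.1⟩)).trans ?_
        rw [h3]
        exact hfl r1 ⟨a1.le, le_rfl⟩
      · refine (abs_fst_le H (hx.1.trans hx.2.1) hx.2.2 (hz.1 x.2 ⟨hx.2.1, le_rfl⟩)).trans ?_
        rw [h3]
        exact hfr r2 ⟨le_rfl, a2.le⟩
    have hnot := t_MPS (Tri L) (DD f A η) (fun x => x.1 + x.2 - L) (0, 0) (L, L) (π * c)
      (convex_tri L) (compact_tri L) (c_DCO L f A η H)
      ((continuous_fst.add continuous_snd).sub continuous_const) (hmem 0 le_rfl hL.le)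
      (hmem L hL.le le_rfl) (by rw [hdiag 0 le_rfl hL.le, H.f_zero, mul_zero])
      (by rw [hdiag L hL.le le_rfl, H.f_L, mul_zero]) (by dsimp only; linarith)
      (by dsimp only; linarith) (by
        intro x hx hx0
        rcases hx.2.1.eq_or_lt with he | hl
        · have hx' : x = (x.1, x.1) := Prod.ext rfl he.symm
          have h4 : x.1 = L / 2 := by rw [← he] at hx0; linarith
          rw [hx', hdiag x.1 hx.1 (hx.2.1.trans hx.2.2), h4]
          exact mul_pos hπ (H.f_pos _ (by linarith) (by linarith))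
        · exact lt_of_lt_of_le (sub_pos.mpr hl) (hB x hx).1) (by
        intro x hx h4 h5
        exact c_LOC L f A η c H hc hns x hx h4 h5)
    apply hnot
    have j1 : JoinedIn (Tri L ∩ {x | DD f A η x < π * c}) (0, 0) (r1, r1) := by
      apply seg
      intro θ h0 h1'
      have e1 : (0 : ℝ) + θ * (r1 - 0) = θ * r1 := by ring
      have h4 : 0 ≤ θ * r1 := mul_nonneg h0 a1.le
      have h5 : θ * r1 ≤ r1 := by nlinarith
      rw [e1]
      refine ⟨hmem _ h4 (by linarith), ?_⟩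
      show DD f A η (θ * r1, θ * r1) < π * c
      rw [hdiag _ h4 (by linarith)]
      exact lt_of_le_of_lt (mul_le_mul_of_nonneg_left (hfl _ ⟨h4, h5⟩) hπ.le) hπt
    have j2 : JoinedIn (Tri L ∩ {x | DD f A η x < π * c}) (r1, r1) (r1, r2) := by
      apply seg
      intro θ h0 h1'
      have e1 : r1 + θ * (r1 - r1) = r1 := by ring
      have h4 : 0 ≤ θ * (r2 - r1) := mul_nonneg h0 (by linarith)
      have h5 : θ * (r2 - r1) ≤ r2 - r1 := by nlinarith
      rw [e1]
      have hT : (r1, r1 + θ * (r2 - r1)) ∈ Tri L := ⟨a1.le, by simpa using h4, by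
        show r1 + θ * (r2 - r1) ≤ L
        linarith⟩
      refine ⟨hT, ?_⟩
      exact hDD _ hT le_rfl (by dsimp only; linarith) (Or.inl rfl)
    have j3 : JoinedIn (Tri L ∩ {x | DD f A η x < π * c}) (r1, r2) (r2, r2) := by
      apply seg
      intro θ h0 h1'
      have e1 : r2 + θ * (r2 - r2) = r2 := by ring
      have h4 : 0 ≤ θ * (r2 - r1) := mul_nonneg h0 (by linarith)
      have h5 : θ * (r2 - r1) ≤ r2 - r1 := by nlinarith
      rw [e1]
      have hT : (r1 + θ * (r2 - r1), r2) ∈ Tri L := ⟨by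
        show 0 ≤ r1 + θ * (r2 - r1)
        linarith, by
        show r1 + θ * (r2 - r1) ≤ r2
        linarith, a2.le⟩
      refine ⟨hT, ?_⟩
      exact hDD _ hT (by dsimp only; linarith) le_rfl (Or.inr rfl)
    have j4 : JoinedIn (Tri L ∩ {x | DD f A η x < π * c}) (r2, r2) (L, L) := by
      apply seg
      intro θ h0 h1'
      have h4 : 0 ≤ θ * (L - r2) := mul_nonneg h0 (by linarith)
      have h5 : θ * (L - r2) ≤ L - r2 := by nlinarith
      have h6 : r2 + θ * (L - r2) ≤ L := by linarith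
      refine ⟨hmem _ (by linarith) h6, ?_⟩
      show DD f A η (r2 + θ * (L - r2), r2 + θ * (L - r2)) < π * c
      rw [hdiag _ (by linarith) h6]
      exact lt_of_le_of_lt (mul_le_mul_of_nonneg_left (hfr _ ⟨by linarith, h6⟩) hπ.le) hπt
    exact ((j1.trans j2).trans j3).trans j4
  have h1 := hmin (show p ∈ Icc 0 c from ⟨hp, hpc⟩)
  simp only [Set.mem_ofPred_eq] at h1
  linarith

end TSP
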