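import Pool.Agent.TSP.StmtsS
import Pool.Agent.TSP.Wid
import Pool.Agent.TSP.Main

/-!
# The theorem with the sharp constant (module TSS_FIN)
-/

set_option autoImplicit false

namespace TSP

open Set MeasureTheory Real Filter Topology

namespace FINSAux

variable {L : ℝ} {f A η : ℝ → ℝ}

/-- the width as an interval integral -/
lemma wid_eq (H : Profile L f A η) (p : ℝ) :
    SGR.wid f L p = ∫ r in (0 : ℝ)..L, √(1 - p ^ 2 / f r ^ 2) := by
  unfold SGR.wid
  rw [intervalIntegral.integral_of_le H.L_pos.le, integral_Ioc_eq_integral_Ioo]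
  refine setIntegral_congr_fun measurableSet_Ioo (fun r hr => ?_)
  change SGR.phi f p r = √(1 - p ^ 2 / f r ^ 2)
  rw [SGR.phi_eq_pot (H.f_pos r hr.1 hr.2)]
  rfl

/-- the lattice inequality for the shortest transversal direction -/
lemma hone {c : ℝ} (h : ∀ r ∈ Icc 0 L, ∀ m n : ℤ, n ≠ 0 →
    c ^ 2 < f r ^ 2 * (m + A r * n) ^ 2 + η r ^ 2 * (n : ℝ) ^ 2) :
    ∀ r ∈ Icc 0 L, c ^ 2 < f r ^ 2 / 4 + η r ^ 2 := by
  intro r hr
  have h1 := h r hr (-round (A r)) 1 one_ne_zero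
  have e : ((-round (A r) : ℤ) : ℝ) + A r * ((1 : ℤ) : ℝ) = A r - round (A r) := by
    push_cast
    ring
  rw [e] at h1
  have h2 := abs_le.1 (abs_sub_round (A r))
  have h3 : (A r - round (A r)) ^ 2 ≤ 1 / 4 := by nlinarith [h2.1, h2.2]
  simp only [Int.cast_one, one_pow, mul_one] at h1
  have h5 := mul_le_mul_of_nonneg_left h3 (sq_nonneg (f r))
  linarith

lemma ii2 (H : Profile L f A η) (p t a b : ℝ) :
    IntervalIntegrable (fun r => √(1 - (p ^ 2 / f r ^ 2 + t ^ 2 / η r ^ 2))) volume a b := by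
  refine (intervalIntegrable_const (c := (1 : ℝ))).mono_fun (Measurable.aestronglyMeasurable ?_)
    (ae_of_all _ fun r => ?_)
  · have h1 := H.f_cont.measurable
    have h2 := H.η_cont.measurable
    exact (measurable_const.sub ((measurable_const.div
      (h1.pow_const 2)).add (measurable_const.div (h2.pow_const 2)))).sqrt
  · have h1 : √(1 - (p ^ 2 / f r ^ 2 + t ^ 2 / η r ^ 2)) ≤ 1 := by
      apply Real.sqrt_le_one.2
      have h2 : 0 ≤ p ^ 2 / f r ^ 2 := by positivity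
      have h3 : 0 ≤ t ^ 2 / η r ^ 2 := by positivity
      linarith
    change ‖√(1 - (p ^ 2 / f r ^ 2 + t ^ 2 / η r ^ 2))‖ ≤ ‖(1 : ℝ)‖
    rw [norm_one, Real.norm_of_nonneg (Real.sqrt_nonneg _)]
    exact h1

/-- the well inequality on both sides -/
lemma both (hdst : Q_DST) (hwty : Q_WTY) (hrfl : Q_RFL) {c : ℝ} (H : Profile L f A η)
    (hc : 0 < c) (hns : NoShort L f A η c) (b p t : ℝ) (hb : 0 < b) (hbL : b < L)
    (hp : 0 ≤ p) (ht : 0 ≤ t) (hpt : t + p / 2 ≤ c)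
    (h1 : 1 ≤ p ^ 2 / f b ^ 2 + t ^ 2 / η b ^ 2) (h2 : 2 * p * η b ^ 2 ≤ t * f b ^ 2) :
    2 * π * (c - t - p / 2)
      ≤ ∫ r in (0 : ℝ)..L, √(1 - (p ^ 2 / f r ^ 2 + t ^ 2 / η r ^ 2)) := by
  have hL := H.L_pos
  -- left part
  have hlat := (t_CIR L f A η c H hc hns).2.1
  have l1 := hwty L f A η c H hc (hdst L f A η c H hc hns) (hone hlat) b p t hb hbL hp ht hpt
    h1 h2
  -- right part
  have H' := (t_REF L f A η H).1
  have hns' := (hrfl L f A η H).1 c hns
  have hlat' := (t_CIR L _ _ _ c H' hc hns').2.1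
  have e0 : L - (L - b) = b := by ring
  have l2 := hwty L _ _ _ c H' hc (hdst L _ _ _ c H' hc hns') (hone hlat') (L - b) p t
    (by linarith) (by linarith) hp ht hpt (by simpa only [e0] using h1)
    (by simpa only [e0] using h2)
  have e1 := intervalIntegral.integral_comp_sub_left
    (fun r => √(1 - (p ^ 2 / f r ^ 2 + t ^ 2 / η r ^ 2))) (a := 0) (b := L - b) L
  rw [e0, sub_zero] at e1
  rw [e1] at l2
  have e2 := intervalIntegral.integral_add_adjacent_intervals (ii2 H p t 0 b) (ii2 H p t b L)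
  linarith

end FINSAux

open FINSAux in
/-- **The theorem** -/
theorem q_FIN (hdst : Q_DST) (hwty : Q_WTY) (hrfl : Q_RFL) (hvol : Q_VOL) : Q_FIN := by
  intro L f A η hP
  by_contra hcon
  have hπ : 0 < π := Real.pi_pos
  have hlog : 0 < log 3 := Real.log_pos (by norm_num)
  set K : ℝ := 4 + 3 * log 3 with hK
  have hK0 : 0 < K := by positivity
  have hlong : ∀ (r θ φ : ℝ → ℝ) (T : ℝ), IsUnitGeodesic f A η r θ φ → Closes L r θ φ T →
      8 * π / K * vol f η L < T ^ 3 := by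
    intro r θ φ T h1 h2
    by_contra h3
    exact hcon ⟨r, θ, φ, T, h1, h2, not_lt.mp h3⟩
  have hV : 0 < vol f η L := hP.vol_pos
  set V : ℝ := vol f η L with hVdef
  have hq : 0 < V / (π ^ 2 * K) := by positivity
  obtain ⟨c, hc, hc3⟩ : ∃ c : ℝ, 0 < c ∧ c ^ 3 = V / (π ^ 2 * K) := by
    refine ⟨(V / (π ^ 2 * K)) ^ ((1 : ℝ) / 3), Real.rpow_pos_of_pos hq _, ?_⟩
    rw [← Real.rpow_natCast, ← Real.rpow_mul hq.le]
    norm_num
  have hVc : π ^ 2 * K * c ^ 3 = V := by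
    rw [hc3]
    field_simp
  have hNS : NoShort L f A η c := by
    intro r θ φ T h1 h2
    have h4 : 8 * π / K * V < T ^ 3 := hlong r θ φ T h1 h2
    have h5 : (2 * π * c) ^ 3 = 8 * π / K * V := by
      rw [← hVc]
      field_simp
      ring
    have h6 : (2 * π * c) ^ 3 < T ^ 3 := by rw [h5]; exact h4
    exact lt_of_pow_lt_pow_left₀ 3 h2.1.le h6
  have hC := t_CIR L f A η c hP hc hNS
  have hW : ∀ p : ℝ, 0 ≤ p → p ≤ c →
      π * (c - p) ≤ ∫ r in (0 : ℝ)..L, √(1 - p ^ 2 / f r ^ 2) := by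
    intro p h0 h1
    rw [← wid_eq hP]
    exact t_WID L f A η c hP hc hNS p h0 h1
  have hfin := hvol L f A η c hP hc hC.2.1 hW
    (fun b p t hb hbL hp ht hpt h1 h2 =>
      both hdst hwty hrfl hP hc hNS b p t hb hbL hp ht hpt h1 h2)
  rw [← hK, hVc] at hfin
  exact lt_irrefl _ hfin

end TSP
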