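import Pool.Agent.TSP.Defs
import Pool.Agent.DWS.Sharp

/-!
# A metric without short closed geodesics

For `f = sin`, `A = 1/2`, `η² = 1 - sin²/4` every closed geodesic has length at least `2 π`: the map
`F = (η e^{iφ/2}, (sin r / 2) e^{i(θ + φ/2)})` into the three-sphere halves lengths, and
`F (T) = - F (0)` if `φ` turns an odd number of times.
-/

set_option autoImplicit false

namespace TSP

open Set MeasureTheory Real Filter Topology

namespace LowAux

/-- the function `η` of the example -/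
noncomputable def et (r : ℝ) : ℝ := √(1 - sin r ^ 2 / 4)

lemma rad_ge (r : ℝ) : 3 / 4 ≤ 1 - sin r ^ 2 / 4 := by
  have := sin_sq_le_one r
  linarith

lemma et_sq (r : ℝ) : et r ^ 2 = 1 - sin r ^ 2 / 4 := Real.sq_sqrt (by linarith [rad_ge r])

lemma et_pos (r : ℝ) : 0 < et r := Real.sqrt_pos.2 (by linarith [rad_ge r])

lemma et_smooth : ContDiff ℝ (⊤ : ℕ∞) et := by
  unfold et
  refine ContDiff.sqrt ?_ (fun r => by have := rad_ge r; positivity)
  exact contDiff_const.sub ((contDiff_sin.pow 2).div_const 4)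

lemma prof : Profile π sin (fun _ => 1 / 2) et := by
  refine ⟨pi_pos, contDiff_sin, contDiff_const, et_smooth, sin_neg, ?_, fun _ => rfl,
    fun _ => rfl, ?_, ?_, ?_, et_pos, ?_, ?_⟩
  · intro r
    rw [show 2 * π - r = -r + 2 * π by ring, sin_add_two_pi, sin_neg]
  · intro r
    unfold et
    rw [sin_neg, neg_sq]
  · intro r
    unfold et
    rw [show 2 * π - r = -r + 2 * π by ring, sin_add_two_pi, sin_neg, neg_sq]
  · intro r h1 h2
    exact sin_pos_of_pos_of_lt_pi h1 h2
  · rw [Real.deriv_sin, cos_zero]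
  · rw [Real.deriv_sin, cos_pi]

/-- an antiderivative of `√(3 + x²)` -/
noncomputable def PP (x : ℝ) : ℝ := x * √(3 + x ^ 2) / 2 + 3 / 2 * log (x + √(3 + x ^ 2))

lemma PP_der (x : ℝ) : HasDerivAt PP (√(3 + x ^ 2)) x := by
  have h0 : 0 < 3 + x ^ 2 := by positivity
  have hs : 0 < √(3 + x ^ 2) := Real.sqrt_pos.2 h0
  have hsq : √(3 + x ^ 2) ^ 2 = 3 + x ^ 2 := Real.sq_sqrt h0.le
  have hsum : 0 < x + √(3 + x ^ 2) := by
    have : |x| < √(3 + x ^ 2) := by
      rw [← Real.sqrt_sq_eq_abs]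
      exact Real.sqrt_lt_sqrt (sq_nonneg x) (by linarith)
    have := neg_abs_le x
    linarith
  have d0 : HasDerivAt (fun x : ℝ => 3 + x ^ 2) (2 * x) x := by
    have := (hasDerivAt_pow 2 x).const_add 3
    refine this.congr_deriv ?_
    push_cast
    ring
  have d1 := d0.sqrt h0.ne'
  have d2 := ((hasDerivAt_id x).mul d1).div_const 2
  have d3 := (((hasDerivAt_id x).add d1).log hsum.ne').const_mul (3 / 2 : ℝ)
  refine (d2.add d3).congr_deriv ?_
  simp only [id, Pi.add_apply]
  generalize √(3 + x ^ 2) = s at hs hsq hsum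
  field_simp
  have : s ^ 2 - x ^ 2 = 3 := by rw [hsq]; ring
  nlinarith [this]

lemma vol_eq : vol sin et π = π ^ 2 * (4 + 3 * log 3) := by
  have e1 : ∀ r, et r = √(3 + cos r ^ 2) / 2 := by
    intro r
    unfold et
    have : 1 - sin r ^ 2 / 4 = (3 + cos r ^ 2) / 2 ^ 2 := by
      have := sin_sq_add_cos_sq r
      linarith
    rw [this, Real.sqrt_div (by positivity), Real.sqrt_sq (by norm_num)]
  unfold vol
  rw [intervalIntegral.integral_const_mul]
  have hd : ∀ r ∈ uIcc 0 π, HasDerivAt (fun r : ℝ => -(PP (cos r) / 2)) (sin r * et r) r := by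
    intro r _
    have := (((PP_der (cos r)).comp r (hasDerivAt_cos r)).div_const 2).neg
    refine this.congr_deriv ?_
    rw [e1]
    ring
  rw [intervalIntegral.integral_eq_sub_of_hasDerivAt hd
    ((continuous_sin.mul et_smooth.continuous).intervalIntegrable _ _)]
  rw [cos_pi, cos_zero]
  have h4 : √(3 + 1 ^ 2 : ℝ) = 2 := by
    rw [show (3 + 1 ^ 2 : ℝ) = 2 ^ 2 by norm_num]
    exact Real.sqrt_sq (by norm_num)
  have h5 : √(3 + (-1) ^ 2 : ℝ) = 2 := by
    rw [show (3 + (-1) ^ 2 : ℝ) = 2 ^ 2 by norm_num]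
    exact Real.sqrt_sq (by norm_num)
  unfold PP
  rw [h4, h5]
  norm_num
  ring

/-- A curve on the unit sphere with speed at most one half needs time `2 π` from a point to its
antipode; `g` is the scalar product with the starting point. -/
lemma half_speed {g dg : ℝ → ℝ} {T : ℝ} (hT : 0 < T) (hd : ∀ t, HasDerivAt g (dg t) t)
    (h0 : g 0 = 1) (h1 : g T = -1) (hb : ∀ t, g t ^ 2 ≤ 1)
    (hs : ∀ t, 4 * dg t ^ 2 ≤ 1 - g t ^ 2) : 2 * π ≤ T := by
  have hc : Continuous g := continuous_iff_continuousAt.2 fun t => (hd t).continuousAt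
  have c1 : IsCompact {t | t ∈ Icc 0 T ∧ g t = 1} := by
    have : {t | t ∈ Icc 0 T ∧ g t = 1} = Icc 0 T ∩ {t | g t = 1} := rfl
    rw [this]
    exact isCompact_Icc.inter_right (isClosed_eq hc continuous_const)
  obtain ⟨a, ha, hag⟩ := c1.exists_isGreatest ⟨0, ⟨le_rfl, hT.le⟩, h0⟩
  have c2 : IsCompact {t | t ∈ Icc a T ∧ g t = -1} := by
    have : {t | t ∈ Icc a T ∧ g t = -1} = Icc a T ∩ {t | g t = -1} := rfl
    rw [this]
    exact isCompact_Icc.inter_right (isClosed_eq hc continuous_const)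
  obtain ⟨b, hb', hbl⟩ := c2.exists_isLeast ⟨T, ⟨ha.1.2, le_rfl⟩, h1⟩
  have hab : a < b := by
    rcases eq_or_lt_of_le hb'.1.1 with h | h
    · exfalso
      have e1 := ha.2
      have e2 := hb'.2
      rw [← h, e1] at e2
      norm_num at e2
    · exact h
  have hne : ∀ t ∈ Ioo a b, g t ≠ 1 ∧ g t ≠ -1 := by
    intro t ht
    constructor
    · intro h
      have := hag (show t ∈ {t | t ∈ Icc 0 T ∧ g t = 1} from
        ⟨⟨ha.1.1.trans ht.1.le, ht.2.le.trans hb'.1.2⟩, h⟩)
      exact absurd ht.1 (not_lt.2 this)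
    · intro h
      have := hbl (show t ∈ {t | t ∈ Icc a T ∧ g t = -1} from
        ⟨⟨ht.1.le, ht.2.le.trans hb'.1.2⟩, h⟩)
      exact absurd ht.2 (not_lt.2 this)
  obtain ⟨c, hcc, hcs⟩ := exists_hasDerivAt_eq_slope (fun t => arccos (g t))
    (fun t => -(1 / √(1 - g t ^ 2)) * dg t) hab
    (continuous_arccos.comp hc).continuousOn (fun t ht => by
      have := (Real.hasDerivAt_arccos (hne t ht).2 (hne t ht).1).comp t (hd t)
      exact this)
  have e1 : arccos (g b) = π := by rw [hb'.2, arccos_neg_one]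
  have e2 : arccos (g a) = 0 := by rw [ha.2, arccos_one]
  rw [e1, e2, sub_zero] at hcs
  have hpos : 0 < 1 - g c ^ 2 := by
    have n1 := (hne c hcc).1
    have n2 := (hne c hcc).2
    have : g c ^ 2 ≠ 1 := by
      intro h
      rw [sq] at h
      rcases mul_self_eq_one_iff.1 h with h | h
      · exact n1 h
      · exact n2 h
    exact sub_pos.2 (lt_of_le_of_ne (hb c) this)
  have hs1 : 0 < √(1 - g c ^ 2) := Real.sqrt_pos.2 hpos
  have hs2 : √(1 - g c ^ 2) ^ 2 = 1 - g c ^ 2 := Real.sq_sqrt hpos.le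
  have key : -(1 / √(1 - g c ^ 2)) * dg c ≤ 1 / 2 := by
    have h3 := hs c
    rw [← hs2] at h3
    have h4 : |2 * dg c| ≤ |√(1 - g c ^ 2)| := by
      apply sq_le_sq.1
      linarith
    rw [abs_of_pos hs1] at h4
    have h5 := neg_abs_le (2 * dg c)
    have h6 : -(1 / √(1 - g c ^ 2)) * dg c = -dg c / √(1 - g c ^ 2) := by ring
    rw [h6, div_le_iff₀ hs1]
    linarith
  rw [hcs, div_le_iff₀ (by linarith)] at key
  have := ha.1.1
  have := hb'.1.2
  linarith

lemma cs4 (x₁ x₂ x₃ x₄ y₁ y₂ y₃ y₄ : ℝ) : (x₁ * y₁ + x₂ * y₂ + x₃ * y₃ + x₄ * y₄) ^ 2 ≤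
    (x₁ ^ 2 + x₂ ^ 2 + x₃ ^ 2 + x₄ ^ 2) * (y₁ ^ 2 + y₂ ^ 2 + y₃ ^ 2 + y₄ ^ 2) := by
  nlinarith [sq_nonneg (x₁ * y₂ - x₂ * y₁), sq_nonneg (x₁ * y₃ - x₃ * y₁),
    sq_nonneg (x₁ * y₄ - x₄ * y₁), sq_nonneg (x₂ * y₃ - x₃ * y₂), sq_nonneg (x₂ * y₄ - x₄ * y₂),
    sq_nonneg (x₃ * y₄ - x₄ * y₃)]

lemma cs_unit {x₁ x₂ x₃ x₄ y₁ y₂ y₃ y₄ z₁ z₂ z₃ z₄ : ℝ}
    (hx : x₁ ^ 2 + x₂ ^ 2 + x₃ ^ 2 + x₄ ^ 2 = 1) (hy : y₁ ^ 2 + y₂ ^ 2 + y₃ ^ 2 + y₄ ^ 2 = 1)
    (hyz : y₁ * z₁ + y₂ * z₂ + y₃ * z₃ + y₄ * z₄ = 0)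
    (hz : z₁ ^ 2 + z₂ ^ 2 + z₃ ^ 2 + z₄ ^ 2 ≤ 1 / 4) :
    (x₁ * y₁ + x₂ * y₂ + x₃ * y₃ + x₄ * y₄) ^ 2 ≤ 1 ∧
    4 * (x₁ * z₁ + x₂ * z₂ + x₃ * z₃ + x₄ * z₄) ^ 2
      ≤ 1 - (x₁ * y₁ + x₂ * y₂ + x₃ * y₃ + x₄ * y₄) ^ 2 := by
  have h1 := cs4 x₁ x₂ x₃ x₄ y₁ y₂ y₃ y₄
  rw [hx, hy, one_mul] at h1
  refine ⟨h1, ?_⟩
  set g := x₁ * y₁ + x₂ * y₂ + x₃ * y₃ + x₄ * y₄ with hg
  have h2 := cs4 (x₁ - g * y₁) (x₂ - g * y₂) (x₃ - g * y₃) (x₄ - g * y₄) z₁ z₂ z₃ z₄
  have e1 : (x₁ - g * y₁) * z₁ + (x₂ - g * y₂) * z₂ + (x₃ - g * y₃) * z₃ + (x₄ - g * y₄) * z₄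
      = x₁ * z₁ + x₂ * z₂ + x₃ * z₃ + x₄ * z₄ := by linear_combination (-g) * hyz
  have e2 : (x₁ - g * y₁) ^ 2 + (x₂ - g * y₂) ^ 2 + (x₃ - g * y₃) ^ 2 + (x₄ - g * y₄) ^ 2
      = 1 - g ^ 2 := by
    have : x₁ * y₁ + x₂ * y₂ + x₃ * y₃ + x₄ * y₄ = g := rfl
    linear_combination hx + g ^ 2 * hy - 2 * g * this
  rw [e1, e2] at h2
  have h3 : 0 ≤ 1 - g ^ 2 := by linarith
  have h4 := mul_le_mul_of_nonneg_left hz h3
  linarith

/-- In the example every closed geodesic has length at least `2 π`. -/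
lemma length {r θ φ : ℝ → ℝ} {T : ℝ} (g : IsUnitGeodesic sin (fun _ => 1 / 2) et r θ φ)
    (hT : Closes π r θ φ T) : 2 * π ≤ T := by
  have hπ := pi_pos
  have hTp := hT.1
  have hr : ∀ t, HasDerivAt r (deriv r t) t := fun t =>
    (g.smooth_r.differentiable (by simp) t).hasDerivAt
  have hθ : ∀ t, HasDerivAt θ (deriv θ t) t := fun t =>
    (g.smooth_θ.differentiable (by simp) t).hasDerivAt
  have hφ : ∀ t, HasDerivAt φ (deriv φ t) t := fun t =>
    (g.smooth_φ.differentiable (by simp) t).hasDerivAt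
  have hθ2 : ∀ t, HasDerivAt (deriv θ) (deriv (deriv θ) t) t := fun t =>
    ((contDiff_infty_iff_deriv.1 g.smooth_θ).2.differentiable (by simp) t).hasDerivAt
  have hφ2 : ∀ t, HasDerivAt (deriv φ) (deriv (deriv φ) t) t := fun t =>
    ((contDiff_infty_iff_deriv.1 g.smooth_φ).2.differentiable (by simp) t).hasDerivAt
  -- the closing conditions
  have hcl := hT.2 0
  rw [zero_add] at hcl
  have hx : ∀ x : ℝ, π * x / π = x := fun x => by field_simp
  unfold point at hcl
  rw [hx, hx] at hcl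
  have c1 := congrArg (fun x => x.1.1) hcl
  have c2 := congrArg (fun x => x.1.2) hcl
  have c3 := congrArg (fun x => x.2) hcl
  simp only at c1 c2 c3
  obtain ⟨n, hn⟩ := Complex.exp_eq_exp_iff_exists_int.1 c3
  have hn' : φ T = φ 0 + 2 * π * n := by
    have h1 := congrArg Complex.im hn
    simp only [Complex.add_im, Complex.mul_im, Complex.ofReal_re, Complex.ofReal_im,
      Complex.I_re, Complex.I_im, mul_one, mul_zero, Complex.intCast_re,
      Complex.intCast_im, Complex.mul_re, zero_mul, add_zero, sub_zero,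
      Complex.re_ofNat, Complex.im_ofNat] at h1
    rw [h1]
    ring
  have re : ∀ (s x : ℝ), ((s : ℂ) * Complex.exp (x * Complex.I)).re = s * cos x := by
    intro s x
    rw [Complex.re_ofReal_mul, Complex.exp_ofReal_mul_I_re]
  have im : ∀ (s x : ℝ), ((s : ℂ) * Complex.exp (x * Complex.I)).im = s * sin x := by
    intro s x
    rw [Complex.im_ofReal_mul, Complex.exp_ofReal_mul_I_im]
  have r1 := congrArg Complex.re c1
  have i1 := congrArg Complex.im c1
  rw [re, re] at r1
  rw [im, im] at i1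
  have hphi : ∀ t, deriv φ t ^ 2 ≤ 4 / 3 := by
    intro t
    have h1 := g.unit_speed t
    rw [et_sq] at h1
    have h2 := rad_ge (r t)
    have h3 := sq_nonneg (deriv r t)
    have h4 := mul_nonneg (sq_nonneg (sin (r t))) (sq_nonneg (deriv θ t + 1 / 2 * deriv φ t))
    have h5 := mul_le_mul_of_nonneg_right h2 (sq_nonneg (deriv φ t))
    linarith
  rcases Int.even_or_odd' n with ⟨k, hk | hk⟩
  · by_cases hk0 : k = 0
    · -- `φ` does not turn
      have hφT : φ T = φ 0 := by rw [hn', hk, hk0]; simp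
      obtain ⟨c, -, hc⟩ := exists_hasDerivAt_eq_slope φ (deriv φ) hTp
        (g.smooth_φ.continuous.continuousOn) (fun t _ => hφ t)
      rw [hφT, sub_self, zero_div] at hc
      have hw : ∀ t, HasDerivAt (fun s => deriv θ s + 1 / 2 * deriv φ s)
          (deriv (deriv θ) t + 1 / 2 * deriv (deriv φ) t) t := fun t =>
        (hθ2 t).add ((hφ2 t).const_mul (1 / 2))
      have haθ : ∀ t, sin (r t) * (deriv (deriv θ) t + 1 / 2 * deriv (deriv φ) t)
          + 2 * cos (r t) * deriv r t * (deriv θ t + 1 / 2 * deriv φ t) = 0 := by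
        intro t
        have h1 := g.angular_θ t
        rw [(hw t).deriv, Real.deriv_sin] at h1
        exact h1
      have dp : ∀ t, HasDerivAt (fun s => sin (r s) ^ 2 * (deriv θ s + 1 / 2 * deriv φ s)) 0 t := by
        intro t
        have h1 := ((hr t).sin.pow 2).mul (hw t)
        refine h1.congr_deriv ?_
        simp only [Pi.pow_apply, Nat.cast_ofNat]
        linear_combination sin (r t) * haθ t
      have cp : ∀ t, sin (r t) ^ 2 * (deriv θ t + 1 / 2 * deriv φ t)
          = sin (r 0) ^ 2 * (deriv θ 0 + 1 / 2 * deriv φ 0) := fun t =>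
        is_const_of_deriv_eq_zero (fun t => (dp t).differentiableAt) (fun t => (dp t).deriv) t 0
      have het : ∀ t, DifferentiableAt ℝ (fun s => et (r s)) t := fun t =>
        (et_smooth.differentiable (by simp) (r t)).comp t (hr t).differentiableAt
      have cq : ∀ t, et (r t) ^ 2 * deriv φ t = et (r c) ^ 2 * deriv φ c := by
        intro t
        have h1 : ∀ t, DifferentiableAt ℝ (fun s => (et (r s)) ^ 2 * deriv φ s
            + 1 / 2 * ((sin (r s)) ^ 2 * (deriv θ s + 1 / 2 * deriv φ s))) t := fun t =>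
          (((het t).pow 2).mul (hφ2 t).differentiableAt).add
            ((dp t).differentiableAt.const_mul (1 / 2))
        have h2 := is_const_of_deriv_eq_zero h1 g.angular_φ t c
        rw [cp t, cp c] at h2
        linarith
      have hφ0 : ∀ t, deriv φ t = 0 := by
        intro t
        have h1 := cq t
        rw [hc, mul_zero] at h1
        have h2 := et_pos (r t)
        rcases mul_eq_zero.1 h1 with h | h
        · have : 0 < et (r t) ^ 2 := by positivity
          linarith
        · exact h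
      have hφ20 : ∀ t, deriv (deriv φ) t = 0 := by
        intro t
        have : deriv φ = fun _ => 0 := funext hφ0
        rw [this]
        simp
      have g' : DWS.IsUnitGeodesic sin cos r θ φ := by
        refine ⟨g.smooth_r, g.smooth_θ, g.smooth_φ, ?_, ?_, ?_, ?_⟩
        · intro t
          have h1 := g.unit_speed t
          rw [hφ0 t] at h1 ⊢
          linarith
        · intro t
          have h1 := g.radial t
          rw [hφ0 t] at h1 ⊢
          rw [h1]
          ring
        · intro t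
          have h1 := haθ t
          rw [hφ0 t, hφ20 t] at h1
          rw [Real.deriv_sin]
          linarith
        · intro t
          rw [hφ0 t, hφ20 t]
          ring
      apply DWS.round_length g'
      refine ⟨hTp, fun t => ?_⟩
      have hcl := hT.2 t
      unfold point at hcl
      rw [hx, hx] at hcl
      have c1 := congrArg (fun x => x.1.1) hcl
      have c2 := congrArg (fun x => x.1.2) hcl
      have c3 := congrArg (fun x => x.2) hcl
      simp only at c1 c2 c3
      unfold DWS.spherePoint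
      have hx2 : ∀ x : ℝ, π * x / (2 * (π / 2)) = x := fun x => by field_simp
      rw [hx2, hx2, c1, c2, c3]
    · -- `φ` turns an even number of times
      obtain ⟨c, -, hc⟩ := exists_hasDerivAt_eq_slope φ (deriv φ) hTp
        (g.smooth_φ.continuous.continuousOn) (fun t _ => hφ t)
      have h1 := hphi c
      rw [hc, hn', hk, sub_zero, div_pow, div_le_iff₀ (by positivity)] at h1
      have h2 : (1 : ℝ) ≤ (k : ℝ) ^ 2 := by
        have : (1 : ℤ) ≤ k ^ 2 := by
          have := sq_pos_of_pos (abs_pos.2 hk0)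
          rw [sq_abs] at this
          linarith
        exact_mod_cast this
      push_cast at h1
      have h3 : 16 * π ^ 2 * (k : ℝ) ^ 2 ≤ 4 / 3 * T ^ 2 := by
        have e : (φ 0 + 2 * π * (2 * (k : ℝ)) - φ 0) ^ 2 = 16 * π ^ 2 * (k : ℝ) ^ 2 := by ring
        rw [e] at h1
        exact h1
      have h4 : 16 * π ^ 2 * 1 ≤ 16 * π ^ 2 * (k : ℝ) ^ 2 :=
        mul_le_mul_of_nonneg_left h2 (by positivity)
      apply le_of_sq_le_sq _ hTp.le
      nlinarith [sq_nonneg π]
  · -- `φ` turns an odd number of times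
    have det : ∀ t, HasDerivAt (fun s => et (r s))
        (-(sin (r t) * cos (r t) * deriv r t) / (4 * et (r t))) t := by
      intro t
      have h1 := ((((hr t).sin.pow 2).div_const 4).const_sub 1).sqrt
        (by have := rad_ge (r t); simp only [Pi.pow_apply]; linarith)
      refine h1.congr_deriv ?_
      have h2 : √(1 - sin (r t) ^ 2 / 4) = et (r t) := rfl
      have h3 := et_pos (r t)
      simp only [Pi.pow_apply, Nat.cast_ofNat]
      rw [h2]
      field_simp
      ring
    have dα : ∀ t, HasDerivAt (fun s => (φ s - φ 0) / 2) (deriv φ t / 2) t := fun t =>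
      ((hφ t).sub_const (φ 0)).div_const 2
    have dβ : ∀ t, HasDerivAt (fun s => θ s - θ 0 + (φ s - φ 0) / 2)
        (deriv θ t + deriv φ t / 2) t := fun t => ((hθ t).sub_const (θ 0)).add (dα t)
    set α : ℝ → ℝ := fun s => (φ s - φ 0) / 2 with hα
    set β : ℝ → ℝ := fun s => θ s - θ 0 + (φ s - φ 0) / 2 with hβ
    set e' : ℝ → ℝ := fun t => -(sin (r t) * cos (r t) * deriv r t) / (4 * et (r t)) with he'
    set z₁ : ℝ → ℝ := fun t => e' t * cos (α t) + et (r t) * (-sin (α t) * (deriv φ t / 2))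
      with hz₁
    set z₂ : ℝ → ℝ := fun t => e' t * sin (α t) + et (r t) * (cos (α t) * (deriv φ t / 2))
      with hz₂
    set z₃ : ℝ → ℝ := fun t => cos (r t) * deriv r t / 2 * cos (β t)
      + sin (r t) / 2 * (-sin (β t) * (deriv θ t + deriv φ t / 2)) with hz₃
    set z₄ : ℝ → ℝ := fun t => cos (r t) * deriv r t / 2 * sin (β t)
      + sin (r t) / 2 * (cos (β t) * (deriv θ t + deriv φ t / 2)) with hz₄
    have d₁ : ∀ t, HasDerivAt (fun s => et (r s) * cos (α s)) (z₁ t) t := fun t =>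
      (det t).mul (dα t).cos
    have d₃ : ∀ t, HasDerivAt (fun s => sin (r s) / 2 * cos (β s)) (z₃ t) t := fun t =>
      ((hr t).sin.div_const 2).mul (dβ t).cos
    have key : ∀ t, (et (r 0) * (et (r t) * cos (α t)) + 0 * (et (r t) * sin (α t))
          + sin (r 0) / 2 * (sin (r t) / 2 * cos (β t)) + 0 * (sin (r t) / 2 * sin (β t))) ^ 2 ≤ 1 ∧
        4 * (et (r 0) * z₁ t + 0 * z₂ t + sin (r 0) / 2 * z₃ t + 0 * z₄ t) ^ 2
          ≤ 1 - (et (r 0) * (et (r t) * cos (α t)) + 0 * (et (r t) * sin (α t))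
          + sin (r 0) / 2 * (sin (r t) / 2 * cos (β t)) + 0 * (sin (r t) / 2 * sin (β t))) ^ 2 := by
      intro t
      have ha := sin_sq_add_cos_sq (α t)
      have hb := sin_sq_add_cos_sq (β t)
      have he0 := et_pos (r t)
      have hes := et_sq (r t)
      have hsc := sin_sq_add_cos_sq (r t)
      have hee : et (r t) * e' t = -(sin (r t) * cos (r t) * deriv r t) / 4 := by
        simp only [he']
        field_simp
      apply cs_unit
      · rw [et_sq]; ring
      · linear_combination (et (r t) ^ 2) * ha + (sin (r t) ^ 2 / 4) * hb + hes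
      · simp only [hz₁, hz₂, hz₃, hz₄]
        linear_combination (et (r t) * e' t) * ha + (sin (r t) * cos (r t) * deriv r t / 4) * hb
          + hee
      · have e1 : z₁ t ^ 2 + z₂ t ^ 2 + z₃ t ^ 2 + z₄ t ^ 2 = e' t ^ 2
            + et (r t) ^ 2 * (deriv φ t / 2) ^ 2 + (cos (r t) * deriv r t / 2) ^ 2
            + (sin (r t) / 2) ^ 2 * (deriv θ t + deriv φ t / 2) ^ 2 := by
          simp only [hz₁, hz₂, hz₃, hz₄]
          linear_combination (e' t ^ 2 + et (r t) ^ 2 * (deriv φ t / 2) ^ 2) * ha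
            + ((cos (r t) * deriv r t / 2) ^ 2
            + (sin (r t) / 2) ^ 2 * (deriv θ t + deriv φ t / 2) ^ 2) * hb
        rw [e1]
        have hu := g.unit_speed t
        have h1 : et (r t) ^ 2 * e' t ^ 2 = (sin (r t) * cos (r t) * deriv r t) ^ 2 / 16 := by
          rw [← mul_pow, hee]
          ring
        have h2 : et (r t) ^ 2 * (e' t ^ 2 + (cos (r t) * deriv r t / 2) ^ 2)
            = (cos (r t) * deriv r t) ^ 2 / 4 := by
          have : sin (r t) ^ 2 = 4 - 4 * et (r t) ^ 2 := by linarith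
          rw [mul_add, h1, mul_pow, mul_pow, this]
          ring
        have h3 : (cos (r t) * deriv r t) ^ 2 / 4 ≤ et (r t) ^ 2 * (deriv r t ^ 2 / 4) := by
          have h4 : cos (r t) ^ 2 ≤ et (r t) ^ 2 := by
            rw [hes]
            have := sq_nonneg (sin (r t))
            linarith
          have := mul_le_mul_of_nonneg_right h4 (by positivity : 0 ≤ deriv r t ^ 2 / 4)
          calc (cos (r t) * deriv r t) ^ 2 / 4 = cos (r t) ^ 2 * (deriv r t ^ 2 / 4) := by ring
            _ ≤ _ := this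
        have h5 : e' t ^ 2 + (cos (r t) * deriv r t / 2) ^ 2 ≤ deriv r t ^ 2 / 4 := by
          rw [← h2] at h3
          exact le_of_mul_le_mul_left h3 (by positivity)
        nlinarith [h5, hu]
    apply half_speed (g := fun t => et (r 0) * (et (r t) * cos (α t))
        + sin (r 0) / 2 * (sin (r t) / 2 * cos (β t)))
      (dg := fun t => et (r 0) * z₁ t + sin (r 0) / 2 * z₃ t) hTp
    · intro t
      exact ((d₁ t).const_mul (et (r 0))).add ((d₃ t).const_mul (sin (r 0) / 2))
    · simp only [hα, hβ, sub_self, zero_div, add_zero, cos_zero, mul_one]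
      have := et_sq (r 0)
      linear_combination this
    · have hTα : α T = π + k * (2 * π) := by
        simp only [hα]
        rw [hn', hk]
        push_cast
        ring
      have hTβ : β T = (θ T - θ 0 + π) + k * (2 * π) := by
        have : β T = θ T - θ 0 + α T := rfl
        rw [this, hTα]
        ring
      have k1 : cos (α T) = -1 := by
        rw [hTα, cos_add_int_mul_two_pi, cos_pi]
      have k2 : cos (β T) = -cos (θ T - θ 0) := by
        rw [hTβ, cos_add_int_mul_two_pi, cos_add_pi]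
      have s1 := sin_sq_add_cos_sq (r 0)
      have s2 := sin_sq_add_cos_sq (r T)
      have k3 : et (r T) = et (r 0) := by
        unfold et
        have : sin (r T) ^ 2 = sin (r 0) ^ 2 := by
          rw [c2] at s2
          linarith
        rw [this]
      have k4 : sin (r T) * cos (θ T - θ 0) = sin (r 0) := by
        rw [cos_sub]
        have s3 := sin_sq_add_cos_sq (θ 0)
        linear_combination cos (θ 0) * r1 + sin (θ 0) * i1 + sin (r 0) * s3
      have k5 := et_sq (r 0)
      simp only [k1, k2, k3]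
      linear_combination (-1 : ℝ) * k5 - (sin (r 0) / 4) * k4
    · intro t
      have := (key t).1
      simp only [zero_mul, add_zero] at this
      exact this
    · intro t
      have := (key t).2
      simp only [zero_mul, add_zero] at this
      exact this

end LowAux

open LowAux in
/-- The best constant of the class is at least `8 π / (4 + 3 log 3) > 3.44`. -/
theorem t_LOW : ∃ (L : ℝ) (f A η : ℝ → ℝ), Profile L f A η ∧
    ∀ (r θ φ : ℝ → ℝ) (T : ℝ), IsUnitGeodesic f A η r θ φ → Closes L r θ φ T →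
      8 * π / (4 + 3 * log 3) * vol f η L ≤ T ^ 3 := by
  refine ⟨π, sin, fun _ => 1 / 2, et, prof, ?_⟩
  intro r θ φ T g hT
  have h1 := length g hT
  have hπ := pi_pos
  have h2 : 0 < log 3 := log_pos (by norm_num)
  have h3 : 0 < 4 + 3 * log 3 := by positivity
  rw [vol_eq]
  have e : 8 * π / (4 + 3 * log 3) * (π ^ 2 * (4 + 3 * log 3)) = (2 * π) ^ 3 := by
    field_simp
    ring
  rw [e]
  exact pow_le_pow_left₀ (by positivity) h1 3

end TSP
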