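import Pool.Agent.TSP.Defs

/-!
# Basic definitions and lemmas

`HH f A η z r` is the squared norm of the covector `z = (p, s)` on the torus `r`. `KK f A η x` is the
convex set of the covectors of norm at most one on all tori `r ∈ [x.1, x.2]`, and `FF f A η x z` is
the action of `z` on this interval plus `π p`; its maximum over `KK f A η x` is `DD f A η x` (the
length of the shortest curves from the torus `x.1` to the torus `x.2` with displacement `(π, 0)`).
-/

set_option autoImplicit false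

namespace TSP

open Set MeasureTheory Real Filter Topology

/-- squared norm of the covector `z = (p, s)` on the torus `r` -/
noncomputable def HH (f A η : ℝ → ℝ) (z : ℝ × ℝ) (r : ℝ) : ℝ :=
  z.1 ^ 2 / f r ^ 2 + (z.2 - A r * z.1) ^ 2 / η r ^ 2

/-- the covector has norm at most one (closed condition, also on the axes) -/
def Adm (f A η : ℝ → ℝ) (z : ℝ × ℝ) (r : ℝ) : Prop :=
  z.1 ^ 2 * η r ^ 2 + (z.2 - A r * z.1) ^ 2 * f r ^ 2 ≤ f r ^ 2 * η r ^ 2 ∧
    (z.2 - A r * z.1) ^ 2 ≤ η r ^ 2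

/-- the admissible covectors for the interval `[x.1, x.2]` -/
def KK (f A η : ℝ → ℝ) (x : ℝ × ℝ) : Set (ℝ × ℝ) := {z | ∀ r ∈ Icc x.1 x.2, Adm f A η z r}

/-- the action plus `π p` -/
noncomputable def FF (f A η : ℝ → ℝ) (x z : ℝ × ℝ) : ℝ :=
  (∫ r in x.1..x.2, √(1 - HH f A η z r)) + π * z.1

/-- the intervals in `[0, L]` -/
def Tri (L : ℝ) : Set (ℝ × ℝ) := {x | 0 ≤ x.1 ∧ x.1 ≤ x.2 ∧ x.2 ≤ L}

/-- the maximal value -/
noncomputable def DD (f A η : ℝ → ℝ) (x : ℝ × ℝ) : ℝ := sSup (FF f A η x '' KK f A η x)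

/-- `z` is a maximizer for the interval `x` -/
def Mx (f A η : ℝ → ℝ) (x z : ℝ × ℝ) : Prop :=
  z ∈ KK f A η x ∧ ∀ w ∈ KK f A η x, FF f A η x w ≤ FF f A η x z

/-- `v` is a local descent direction of `D` at `x` in `T`, uniformly near `x` -/
def Desc (T : Set (ℝ × ℝ)) (D : ℝ × ℝ → ℝ) (x v : ℝ × ℝ) : Prop :=
  ∃ ε > 0, ∀ y ∈ T, dist y x < ε → ∀ t : ℝ, 0 < t → t ≤ ε → y + t • v ∈ T ∧ D (y + t • v) < D y

/-- half the derivative of `HH` in the direction `w` -/
noncomputable def BB (f A η : ℝ → ℝ) (z w : ℝ × ℝ) (r : ℝ) : ℝ :=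
  z.1 * w.1 / f r ^ 2 + (z.2 - A r * z.1) * (w.2 - A r * w.1) / η r ^ 2

section
variable {L : ℝ} {f A η : ℝ → ℝ}

lemma Profile.f_zero (H : Profile L f A η) : f 0 = 0 := by
  have := H.f_odd 0
  rw [neg_zero] at this
  linarith

lemma Profile.f_L (H : Profile L f A η) : f L = 0 := by
  have := H.f_odd' L
  rw [show 2 * L - L = L by ring] at this
  linarith

lemma Profile.f_nonneg (H : Profile L f A η) {r : ℝ} (h0 : 0 ≤ r) (h1 : r ≤ L) : 0 ≤ f r := by
  rcases eq_or_lt_of_le h0 with h | h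
  · rw [← h, H.f_zero]
  · rcases eq_or_lt_of_le h1 with h' | h'
    · rw [h', H.f_L]
    · exact (H.f_pos r h h').le

lemma Profile.f_cont (H : Profile L f A η) : Continuous f := H.smooth_f.continuous
lemma Profile.A_cont (H : Profile L f A η) : Continuous A := H.smooth_A.continuous
lemma Profile.η_cont (H : Profile L f A η) : Continuous η := H.smooth_η.continuous
lemma Profile.f_diff (H : Profile L f A η) : Differentiable ℝ f := H.smooth_f.differentiable (by simp)
lemma Profile.A_diff (H : Profile L f A η) : Differentiable ℝ A := H.smooth_A.differentiable (by simp)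
lemma Profile.η_diff (H : Profile L f A η) : Differentiable ℝ η := H.smooth_η.differentiable (by simp)

lemma HH_nonneg (z : ℝ × ℝ) (r : ℝ) : 0 ≤ HH f A η z r := by
  unfold HH; positivity

lemma HH_zero (r : ℝ) : HH f A η 0 r = 0 := by simp [HH]

lemma HH_smul (c : ℝ) (z : ℝ × ℝ) (r : ℝ) : HH f A η (c • z) r = c ^ 2 * HH f A η z r := by
  unfold HH
  simp only [Prod.smul_fst, Prod.smul_snd, smul_eq_mul]
  ring

/-- expansion of the square norm -/
lemma HH_add (z w : ℝ × ℝ) (t r : ℝ) : HH f A η (z + t • w) r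
    = HH f A η z r + 2 * t * BB f A η z w r + t ^ 2 * HH f A η w r := by
  unfold HH BB
  simp only [Prod.fst_add, Prod.snd_add, Prod.smul_fst, Prod.smul_snd, smul_eq_mul]
  ring

lemma BB_self (z : ℝ × ℝ) (r : ℝ) : BB f A η z z r = HH f A η z r := by
  unfold BB HH; ring

lemma BB_neg (z w : ℝ × ℝ) (r : ℝ) : BB f A η z (-w) r = - BB f A η z w r := by
  unfold BB
  simp only [Prod.fst_neg, Prod.snd_neg]
  ring

lemma BB_lin (z u w : ℝ × ℝ) (a b r : ℝ) :
    BB f A η z (a • u + b • w) r = a * BB f A η z u r + b * BB f A η z w r := by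
  unfold BB
  simp only [Prod.fst_add, Prod.snd_add, Prod.smul_fst, Prod.smul_snd, smul_eq_mul]
  ring

lemma sqrt_le_one (z : ℝ × ℝ) (r : ℝ) : √(1 - HH f A η z r) ≤ 1 := by
  have := HH_nonneg (f := f) (A := A) (η := η) z r
  exact Real.sqrt_le_iff.2 ⟨zero_le_one, by linarith⟩

/-- the norm condition away from the axes -/
lemma adm_iff {z : ℝ × ℝ} {r : ℝ} (hf : f r ≠ 0) (hη : η r ≠ 0) :
    Adm f A η z r ↔ HH f A η z r ≤ 1 := by
  have h1 : 0 < f r ^ 2 := by positivity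
  have h2 : 0 < η r ^ 2 := by positivity
  have e : HH f A η z r
      = (z.1 ^ 2 * η r ^ 2 + (z.2 - A r * z.1) ^ 2 * f r ^ 2) / (f r ^ 2 * η r ^ 2) := by
    unfold HH; field_simp
  have e2 : HH f A η z r ≤ 1 ↔
      z.1 ^ 2 * η r ^ 2 + (z.2 - A r * z.1) ^ 2 * f r ^ 2 ≤ f r ^ 2 * η r ^ 2 := by
    rw [e, div_le_one (by positivity)]
  constructor
  · intro h
    exact e2.2 h.1
  · intro h
    refine ⟨e2.1 h, ?_⟩
    have h3 := e2.1 h
    have h4 : (z.2 - A r * z.1) ^ 2 * f r ^ 2 ≤ η r ^ 2 * f r ^ 2 := by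
      nlinarith [sq_nonneg (z.1 * η r)]
    exact le_of_mul_le_mul_right h4 h1

lemma Profile.adm_iff (H : Profile L f A η) {z : ℝ × ℝ} {r : ℝ} (h0 : 0 < r) (h1 : r < L) :
    Adm f A η z r ↔ HH f A η z r ≤ 1 :=
  TSP.adm_iff (H.f_pos r h0 h1).ne' (H.η_pos r).ne'

/-- an admissible covector has squared norm at most one, also on the axes -/
lemma Profile.HH_le_one (H : Profile L f A η) {z : ℝ × ℝ} {r : ℝ} (h : Adm f A η z r) :
    HH f A η z r ≤ 1 := by
  by_cases hf : f r = 0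
  · unfold HH
    rw [hf]
    have := H.η_pos r
    simp only [ne_eq, OfNat.ofNat_ne_zero, not_false_eq_true, zero_pow, div_zero, zero_add]
    rw [div_le_one (by positivity)]
    exact h.2
  · exact (TSP.adm_iff hf (H.η_pos r).ne').1 h

lemma adm_smul {z : ℝ × ℝ} {r c : ℝ} (hc : c ^ 2 ≤ 1) (h : Adm f A η z r) :
    Adm f A η (c • z) r := by
  unfold Adm at h ⊢
  simp only [Prod.smul_fst, Prod.smul_snd, smul_eq_mul]
  have e1 : (c * z.1) ^ 2 * η r ^ 2 + (c * z.2 - A r * (c * z.1)) ^ 2 * f r ^ 2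
      = c ^ 2 * (z.1 ^ 2 * η r ^ 2 + (z.2 - A r * z.1) ^ 2 * f r ^ 2) := by ring
  have e2 : (c * z.2 - A r * (c * z.1)) ^ 2 = c ^ 2 * (z.2 - A r * z.1) ^ 2 := by ring
  rw [e1, e2]
  have h1 : 0 ≤ z.1 ^ 2 * η r ^ 2 + (z.2 - A r * z.1) ^ 2 * f r ^ 2 := by positivity
  constructor
  · nlinarith [h.1]
  · nlinarith [h.2, sq_nonneg (z.2 - A r * z.1)]

lemma adm_zero (r : ℝ) : Adm f A η 0 r := by
  unfold Adm
  simp only [Prod.fst_zero, Prod.snd_zero, mul_zero, sub_zero]
  constructor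
  · have : 0 ≤ f r ^ 2 * η r ^ 2 := by positivity
    linarith
  · have := sq_nonneg (η r)
    linarith

lemma zero_mem_KK (x : ℝ × ℝ) : (0 : ℝ × ℝ) ∈ KK f A η x := fun r _ => adm_zero r

lemma smul_mem_KK {x z : ℝ × ℝ} {c : ℝ} (hc : c ^ 2 ≤ 1) (h : z ∈ KK f A η x) :
    c • z ∈ KK f A η x := fun r hr => adm_smul hc (h r hr)

lemma Profile.HH_meas (H : Profile L f A η) (z : ℝ × ℝ) : Measurable (HH f A η z) := by
  unfold HH
  exact (measurable_const.div (H.f_cont.measurable.pow_const 2)).add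
    (((measurable_const.sub (H.A_cont.measurable.mul_const _)).pow_const 2).div
      (H.η_cont.measurable.pow_const 2))

/-- the integrand of the action is integrable -/
lemma Profile.ii (H : Profile L f A η) (z : ℝ × ℝ) (a b : ℝ) :
    IntervalIntegrable (fun r => √(1 - HH f A η z r)) volume a b := by
  refine intervalIntegrable_const.mono_fun (g := fun r => √(1 - HH f A η z r)) (f := fun _ => (1 : ℝ))
    ((measurable_const.sub (H.HH_meas z)).sqrt.aestronglyMeasurable) ?_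
  filter_upwards with r
  rw [Real.norm_of_nonneg (Real.sqrt_nonneg _), norm_one]
  exact sqrt_le_one z r

/-- the squared norm is jointly continuous away from the zeros of `f` -/
lemma Profile.HH_contAt (H : Profile L f A η) {z : ℝ × ℝ} {r : ℝ} (hf : f r ≠ 0) :
    ContinuousAt (fun q : (ℝ × ℝ) × ℝ => HH f A η q.1 q.2) (z, r) := by
  have hη := (H.η_pos r).ne'
  have h1 : ContinuousAt (fun q : (ℝ × ℝ) × ℝ => f q.2) (z, r) :=
    (H.f_cont.comp continuous_snd).continuousAt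
  have h2 : ContinuousAt (fun q : (ℝ × ℝ) × ℝ => A q.2) (z, r) :=
    (H.A_cont.comp continuous_snd).continuousAt
  have h3 : ContinuousAt (fun q : (ℝ × ℝ) × ℝ => η q.2) (z, r) :=
    (H.η_cont.comp continuous_snd).continuousAt
  have h4 : ContinuousAt (fun q : (ℝ × ℝ) × ℝ => q.1.1) (z, r) :=
    (continuous_fst.comp continuous_fst).continuousAt
  have h5 : ContinuousAt (fun q : (ℝ × ℝ) × ℝ => q.1.2) (z, r) :=
    (continuous_snd.comp continuous_fst).continuousAt
  exact ((h4.pow 2).div (h1.pow 2) (pow_ne_zero 2 hf)).add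
    (((h5.sub (h2.mul h4)).pow 2).div (h3.pow 2) (pow_ne_zero 2 hη))

/-- the squared norm is smooth in `r` away from the zeros of `f` -/
lemma Profile.HH_contDiffAt (H : Profile L f A η) {z : ℝ × ℝ} {r : ℝ} (hf : f r ≠ 0) :
    ContDiffAt ℝ (⊤ : ℕ∞) (HH f A η z) r := by
  have hη := (H.η_pos r).ne'
  exact (contDiffAt_const.div (H.smooth_f.contDiffAt.pow 2) (pow_ne_zero 2 hf)).add
    (((contDiffAt_const.sub (H.smooth_A.contDiffAt.mul contDiffAt_const)).pow 2).div
      (H.smooth_η.contDiffAt.pow 2) (pow_ne_zero 2 hη))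

/-- the derivative of the squared norm -/
noncomputable def HHd (f A η : ℝ → ℝ) (z : ℝ × ℝ) (r : ℝ) : ℝ :=
  -(2 * z.1 ^ 2 * deriv f r / f r ^ 3)
    - 2 * (z.2 - A r * z.1) * (deriv A r * z.1) / η r ^ 2
    - 2 * (z.2 - A r * z.1) ^ 2 * deriv η r / η r ^ 3

lemma Profile.HH_hasDerivAt (H : Profile L f A η) {z : ℝ × ℝ} {r : ℝ} (hf : f r ≠ 0) :
    HasDerivAt (HH f A η z) (HHd f A η z r) r := by
  have hη := (H.η_pos r).ne'
  have d1 := (hasDerivAt_const r (z.1 ^ 2)).div ((H.f_diff r).hasDerivAt.pow 2)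
    (pow_ne_zero 2 hf)
  have d2 := ((((H.A_diff r).hasDerivAt.mul_const z.1).const_sub z.2).pow 2).div
    ((H.η_diff r).hasDerivAt.pow 2) (pow_ne_zero 2 hη)
  have d3 := d1.add d2
  refine d3.congr_deriv ?_
  unfold HHd
  simp only [Nat.cast_ofNat, Pi.pow_apply]
  field_simp
  ring

lemma Profile.HHd_contAt (H : Profile L f A η) {z : ℝ × ℝ} {r : ℝ} (hf : f r ≠ 0) :
    ContinuousAt (fun q : (ℝ × ℝ) × ℝ => HHd f A η q.1 q.2) (z, r) := by
  have hη := (H.η_pos r).ne'
  have c1 : Continuous (deriv f) := H.smooth_f.continuous_deriv (by simp)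
  have c2 : Continuous (deriv A) := H.smooth_A.continuous_deriv (by simp)
  have c3 : Continuous (deriv η) := H.smooth_η.continuous_deriv (by simp)
  have h1 : ContinuousAt (fun q : (ℝ × ℝ) × ℝ => f q.2) (z, r) :=
    (H.f_cont.comp continuous_snd).continuousAt
  have h2 : ContinuousAt (fun q : (ℝ × ℝ) × ℝ => A q.2) (z, r) :=
    (H.A_cont.comp continuous_snd).continuousAt
  have h3 : ContinuousAt (fun q : (ℝ × ℝ) × ℝ => η q.2) (z, r) :=
    (H.η_cont.comp continuous_snd).continuousAt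
  have h1' : ContinuousAt (fun q : (ℝ × ℝ) × ℝ => deriv f q.2) (z, r) :=
    (c1.comp continuous_snd).continuousAt
  have h2' : ContinuousAt (fun q : (ℝ × ℝ) × ℝ => deriv A q.2) (z, r) :=
    (c2.comp continuous_snd).continuousAt
  have h3' : ContinuousAt (fun q : (ℝ × ℝ) × ℝ => deriv η q.2) (z, r) :=
    (c3.comp continuous_snd).continuousAt
  have h4 : ContinuousAt (fun q : (ℝ × ℝ) × ℝ => q.1.1) (z, r) :=
    (continuous_fst.comp continuous_fst).continuousAt
  have h5 : ContinuousAt (fun q : (ℝ × ℝ) × ℝ => q.1.2) (z, r) :=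
    (continuous_snd.comp continuous_fst).continuousAt
  have h6 := h5.sub (h2.mul h4)
  exact ((((continuousAt_const.mul (h4.pow 2)).mul h1').div (h1.pow 3)
      (pow_ne_zero 3 hf)).neg.sub
    (((continuousAt_const.mul h6).mul (h2'.mul h4)).div (h3.pow 2) (pow_ne_zero 2 hη))).sub
    (((continuousAt_const.mul (h6.pow 2)).mul h3').div (h3.pow 3) (pow_ne_zero 3 hη))

/-- the value of a maximizer -/
lemma Mx.DD_eq {x z : ℝ × ℝ} (h : Mx f A η x z) : DD f A η x = FF f A η x z := by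
  unfold DD
  refine IsGreatest.csSup_eq ⟨⟨z, h.1, rfl⟩, ?_⟩
  rintro _ ⟨w, hw, rfl⟩
  exact h.2 w hw

lemma Mx.le_DD {x z w : ℝ × ℝ} (h : Mx f A η x z) (hw : w ∈ KK f A η x) :
    FF f A η x w ≤ DD f A η x := by
  rw [h.DD_eq]; exact h.2 w hw

end

end TSP
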