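import Pool.Agent.TSP.Stmts

/-!
# Bounds for the maximal value
-/

set_option autoImplicit false

namespace TSP

open Set MeasureTheory Real Filter Topology

namespace BNDAux

variable {L : ℝ} {f A η : ℝ → ℝ}

lemma fst_le (H : Profile L f A η) {z : ℝ × ℝ} {r : ℝ} (h0 : 0 ≤ r) (h1 : r ≤ L)
    (h : Adm f A η z r) : z.1 ≤ f r := by
  have hη : 0 < η r ^ 2 := by
    have := H.η_pos r
    positivity
  have hf := H.f_nonneg h0 h1
  have h2 : 0 ≤ (z.2 - A r * z.1) ^ 2 * f r ^ 2 := by positivity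
  have h3 : z.1 ^ 2 * η r ^ 2 ≤ f r ^ 2 * η r ^ 2 := by linarith [h.1]
  have h4 : z.1 ^ 2 ≤ f r ^ 2 := le_of_mul_le_mul_right h3 hη
  exact le_trans (le_abs_self _) (abs_le_of_sq_le_sq h4 hf)

lemma FF_le (H : Profile L f A η) {x : ℝ × ℝ} (hx : x.1 ≤ x.2) (z : ℝ × ℝ) :
    FF f A η x z ≤ x.2 - x.1 + π * z.1 := by
  unfold FF
  have h : (∫ r in x.1..x.2, √(1 - HH f A η z r)) ≤ ∫ r in x.1..x.2, (1 : ℝ) :=
    intervalIntegral.integral_mono_on hx (H.ii z x.1 x.2) intervalIntegrable_const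
      (fun r _ => sqrt_le_one z r)
  rw [intervalIntegral.integral_const, smul_eq_mul, mul_one] at h
  linarith

lemma FF_zero (x : ℝ × ℝ) : FF f A η x 0 = x.2 - x.1 := by
  unfold FF
  simp [HH_zero]

lemma diag_mem (a : ℝ) : ((f a, A a * f a) : ℝ × ℝ) ∈ KK f A η (a, a) := by
  intro r hr
  have : r = a := le_antisymm hr.2 hr.1
  subst this
  constructor
  · show f r ^ 2 * η r ^ 2 + (A r * f r - A r * f r) ^ 2 * f r ^ 2 ≤ f r ^ 2 * η r ^ 2
    rw [sub_self]
    simp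
  · show (A r * f r - A r * f r) ^ 2 ≤ η r ^ 2
    rw [sub_self]
    have := sq_nonneg (η r)
    simpa using this

end BNDAux

open BNDAux

theorem t_BND (hmax : S_MAX) : S_BND := by
  intro L f A η H x hx
  obtain ⟨z, hz⟩ := (hmax L f A η H).1 x hx
  have hx0 := hx.1
  have hx1 := hx.2.1
  have hx2 := hx.2.2
  have e := hz.DD_eq
  have u1 := FF_le (z := z) H hx1
  have p1 : z.1 ≤ f x.1 := fst_le H hx0 (hx1.trans hx2) (hz.1 x.1 ⟨le_rfl, hx1⟩)
  have p2 : z.1 ≤ f x.2 := fst_le H (hx0.trans hx1) hx2 (hz.1 x.2 ⟨hx1, le_rfl⟩)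
  have hπ := Real.pi_pos
  have m1 : π * z.1 ≤ π * f x.1 := mul_le_mul_of_nonneg_left p1 hπ.le
  have m2 : π * z.1 ≤ π * f x.2 := mul_le_mul_of_nonneg_left p2 hπ.le
  refine ⟨?_, by linarith, by linarith, ?_⟩
  · have := hz.le_DD (zero_mem_KK x)
    rwa [FF_zero] at this
  · intro hd
    refine le_antisymm (by linarith) ?_
    obtain ⟨a, b⟩ := x
    simp only at hd
    subst hd
    have := hz.le_DD (diag_mem (f := f) (A := A) (η := η) a)
    unfold FF at this
    simpa using this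

end TSP
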