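import Pool.Agent.TSP.Stmts

/-!
# Torus-invariant metrics on the product of the two-sphere and the circle: meridians and circles
-/

set_option autoImplicit false

namespace TSP

open Set MeasureTheory Real Filter Topology

namespace CIRAux

section
variable {L : ℝ} {f A η : ℝ → ℝ}

lemma exp_add_int (x y : ℝ) (j : ℤ) (h : x = y + 2 * π * j) :
    Complex.exp (x * Complex.I) = Complex.exp (y * Complex.I) := by
  rw [h]
  push_cast
  have : ((y : ℂ) + 2 * π * j) * Complex.I = y * Complex.I + j * (2 * π * Complex.I) := by ring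
  rw [this, Complex.exp_add, Complex.exp_int_mul_two_pi_mul_I, mul_one]

lemma geodesic_of {r θ φ v w p q p1 p1' : ℝ → ℝ} {s : ℝ}
    (hr : ContDiff ℝ (⊤ : ℕ∞) r) (hθ : ContDiff ℝ (⊤ : ℕ∞) θ) (hφ : ContDiff ℝ (⊤ : ℕ∞) φ)
    (h1 : ∀ t, HasDerivAt r (v t) t) (h2 : ∀ t, HasDerivAt v (w t) t)
    (h3 : ∀ t, HasDerivAt θ (p t) t) (h5 : ∀ t, HasDerivAt φ (q t) t)
    (hp1 : ∀ t, p t + A (r t) * q t = p1 t) (h4 : ∀ t, HasDerivAt p1 (p1' t) t)
    (e1 : ∀ t, v t ^ 2 + f (r t) ^ 2 * p1 t ^ 2 + η (r t) ^ 2 * q t ^ 2 = 1)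
    (e2 : ∀ t, w t = f (r t) * deriv f (r t) * p1 t ^ 2
      + f (r t) ^ 2 * deriv A (r t) * (p1 t * q t) + η (r t) * deriv η (r t) * q t ^ 2)
    (e3 : ∀ t, f (r t) * p1' t + 2 * deriv f (r t) * v t * p1 t = 0)
    (e4 : ∀ t, η (r t) ^ 2 * q t + A (r t) * (f (r t) ^ 2 * p1 t) = s) :
    IsUnitGeodesic f A η r θ φ := by
  have d1 : deriv r = v := funext fun t => (h1 t).deriv
  have d2 : deriv v = w := funext fun t => (h2 t).deriv
  have d3 : deriv θ = p := funext fun t => (h3 t).deriv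
  have d5 : deriv φ = q := funext fun t => (h5 t).deriv
  have d4 : deriv p1 = p1' := funext fun t => (h4 t).deriv
  have c1 : (fun s => p s + A (r s) * q s) = p1 := funext hp1
  refine ⟨hr, hθ, hφ, ?_, ?_, ?_, ?_⟩
  · intro t; rw [d1, d3, d5, hp1]; exact e1 t
  · intro t; rw [d1, d2, d3, d5, hp1]; exact e2 t
  · intro t; rw [d3, d5, c1, d4, d1, hp1]; exact e3 t
  · intro t
    rw [d3, d5]
    have c2 : (fun u => (η (r u)) ^ 2 * q u + A (r u) * ((f (r u)) ^ 2 * (p u + A (r u) * q u)))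
        = fun _ => s := by
      funext u
      rw [hp1]; exact e4 u
    rw [c2, deriv_const]

/-- Meridians. -/
lemma geodesic_meridian (f A η : ℝ → ℝ) :
    IsUnitGeodesic f A η (fun t => t) (fun _ => 0) (fun _ => 0) := by
  refine geodesic_of (s := 0) (v := fun _ => 1) (w := fun _ => 0) (p := fun _ => 0)
    (q := fun _ => 0) (p1 := fun _ => 0) (p1' := fun _ => 0) contDiff_id contDiff_const
    contDiff_const (fun t => hasDerivAt_id t) (fun t => hasDerivAt_const t 1)
    (fun t => hasDerivAt_const t 0) (fun t => hasDerivAt_const t 0) ?_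
    (fun t => hasDerivAt_const t 0) ?_ ?_ ?_ ?_ <;> intro t <;> simp

lemma meridian_closes {L : ℝ} (hL : 0 < L) :
    Closes L (fun t => t) (fun _ => 0) (fun _ => 0) (2 * L) := by
  refine ⟨by positivity, fun t => ?_⟩
  unfold point
  have : π * (t + 2 * L) / L = π * t / L + 2 * π := by field_simp
  rw [this, cos_add_two_pi, sin_add_two_pi]

/-- squared norm of the vector `(m, n)` -/
noncomputable def NN (f A η : ℝ → ℝ) (m n r : ℝ) : ℝ :=
  f r ^ 2 * (m + A r * n) ^ 2 + η r ^ 2 * n ^ 2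

/-- half of its derivative -/
noncomputable def ND (f A η : ℝ → ℝ) (m n r : ℝ) : ℝ :=
  f r * deriv f r * (m + A r * n) ^ 2 + f r ^ 2 * deriv A r * ((m + A r * n) * n)
    + η r * deriv η r * n ^ 2

lemma NN_hasDerivAt (H : Profile L f A η) (m n r : ℝ) :
    HasDerivAt (NN f A η m n) (2 * ND f A η m n r) r := by
  have d1 := ((H.f_diff r).hasDerivAt.pow 2).mul
    ((((H.A_diff r).hasDerivAt.mul_const n).const_add m).pow 2)
  have d2 := ((H.η_diff r).hasDerivAt.pow 2).mul_const (n ^ 2)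
  refine (d1.add d2).congr_deriv ?_
  unfold ND
  simp only [Nat.cast_ofNat, Pi.pow_apply]
  ring

/-- Circles on a torus (or an axis) where the norm of the Killing field is critical. -/
lemma geodesic_circle {x ρ m n : ℝ} (hρ : 0 < ρ) (hx : NN f A η m n x = ρ ^ 2)
    (hd : ND f A η m n x = 0) :
    IsUnitGeodesic f A η (fun _ => x) (fun t => m * t / ρ) (fun t => n * t / ρ) := by
  have hdiv : ∀ (j t : ℝ), HasDerivAt (fun t : ℝ => j * t / ρ) (j / ρ) t := by
    intro j t
    have := ((hasDerivAt_id t).const_mul j).div_const ρ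
    refine this.congr_deriv ?_
    rw [mul_one]
  refine geodesic_of (s := η x ^ 2 * (n / ρ) + A x * (f x ^ 2 * (m / ρ + A x * (n / ρ))))
    (v := fun _ => 0) (w := fun _ => 0) (p := fun _ => m / ρ)
    (q := fun _ => n / ρ) (p1 := fun _ => m / ρ + A x * (n / ρ)) (p1' := fun _ => 0)
    contDiff_const ((contDiff_const.mul contDiff_id).div_const _)
    ((contDiff_const.mul contDiff_id).div_const _)
    (fun t => hasDerivAt_const t x) (fun t => hasDerivAt_const t 0) (hdiv m) (hdiv n)
    (fun t => rfl) (fun t => hasDerivAt_const t _)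
    ?_ ?_ ?_ ?_ <;> intro t
  · have : (0 : ℝ) ^ 2 + f x ^ 2 * (m / ρ + A x * (n / ρ)) ^ 2 + η x ^ 2 * (n / ρ) ^ 2
        = NN f A η m n x / ρ ^ 2 := by unfold NN; ring
    rw [this, hx, div_self (by positivity)]
  · have : f x * deriv f x * (m / ρ + A x * (n / ρ)) ^ 2
        + f x ^ 2 * deriv A x * ((m / ρ + A x * (n / ρ)) * (n / ρ))
        + η x * deriv η x * (n / ρ) ^ 2 = ND f A η m n x / ρ ^ 2 := by unfold ND; ring
    rw [this, hd, zero_div]
  · simp
  · rfl

lemma circle_closes {L x ρ : ℝ} (m n : ℤ) (hρ : 0 < ρ) :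
    Closes L (fun _ => x) (fun t => m * t / ρ) (fun t => n * t / ρ) (2 * π * ρ) := by
  have hπ := pi_pos
  refine ⟨by positivity, fun t => ?_⟩
  unfold point
  have e : ∀ j : ℤ, (j : ℝ) * (t + 2 * π * ρ) / ρ = j * t / ρ + 2 * π * j := by
    intro j; field_simp
  rw [exp_add_int _ _ m (e m), exp_add_int _ _ n (e n)]

/-- a critical torus circle is long -/
lemma crit_long {c x ρ : ℝ} (hc : NoShort L f A η c) (m n : ℤ) (hρ : 0 < ρ)
    (hx : NN f A η m n x = ρ ^ 2) (hd : ND f A η m n x = 0) : c < ρ := by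
  have h := hc _ _ _ _ (geodesic_circle hρ hx hd) (circle_closes m n hρ)
  have hπ := pi_pos
  have h2 : 2 * π * (c - ρ) < 0 := by linarith
  by_contra hcon
  push Not at hcon
  have : 0 ≤ 2 * π * (c - ρ) := mul_nonneg (by positivity) (by linarith)
  linarith

lemma NN_even (H : Profile L f A η) (m n r : ℝ) : NN f A η m n (-r) = NN f A η m n r := by
  unfold NN
  rw [H.f_odd, H.A_even, H.η_even]
  ring

lemma NN_even' (H : Profile L f A η) (m n r : ℝ) :
    NN f A η m n (2 * L - r) = NN f A η m n r := by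
  unfold NN
  rw [H.f_odd', H.A_even', H.η_even']
  ring

/-- the minimum over `[0, L]` is critical -/
lemma exists_crit (H : Profile L f A η) (m n : ℝ) :
    ∃ x : ℝ, (∀ r ∈ Icc 0 L, NN f A η m n x ≤ NN f A η m n r) ∧ ND f A η m n x = 0 := by
  have hcont : Continuous (NN f A η m n) :=
    continuous_iff_continuousAt.2 fun r => (NN_hasDerivAt H m n r).continuousAt
  obtain ⟨x, hx, hmin⟩ := isCompact_Icc.exists_isMinOn (nonempty_Icc.2 H.L_pos.le)
    hcont.continuousOn (s := Icc (0 : ℝ) L)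
  refine ⟨x, fun r hr => hmin hr, ?_⟩
  have hloc : IsLocalMin (NN f A η m n) x := by
    have hL := H.L_pos
    have hnb : Ioo (-L) (2 * L) ∈ 𝓝 x :=
      Ioo_mem_nhds (by linarith [hx.1]) (by linarith [hx.2])
    filter_upwards [hnb] with y hy
    rcases le_total 0 y with h0 | h0
    · rcases le_total y L with h1 | h1
      · exact hmin ⟨h0, h1⟩
      · rw [← NN_even' H m n y]
        exact hmin ⟨by linarith [hy.2], by linarith⟩
    · rw [← NN_even H m n y]
      exact hmin ⟨by linarith, by linarith [hy.1]⟩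
  have := hloc.hasDerivAt_eq_zero (NN_hasDerivAt H m n x)
  linarith

end

end CIRAux

open CIRAux in
theorem t_CIR : S_CIR := by
  intro L f A η c H hc hns
  refine ⟨?_, ?_, ?_⟩
  · have := hns _ _ _ _ (geodesic_meridian f A η) (meridian_closes H.L_pos)
    linarith
  · intro r hr m n hn
    obtain ⟨x, hmin, hd⟩ := exists_crit H (m : ℝ) (n : ℝ)
    have hn' : (n : ℝ) ≠ 0 := by exact_mod_cast hn
    have hpos : 0 < NN f A η m n x := by
      unfold NN
      have h1 := H.η_pos x
      have h2 : 0 < (n : ℝ) ^ 2 := by positivity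
      positivity
    have hlt := crit_long hns m n (Real.sqrt_pos.2 hpos) (Real.sq_sqrt hpos.le).symm hd
    have h3 : c ^ 2 < NN f A η m n x := by
      have := Real.lt_sqrt hc.le (y := NN f A η m n x)
      exact this.1 hlt
    exact lt_of_lt_of_le h3 (hmin r hr)
  · intro r h0 h1 hd
    have hf := H.f_pos r h0 h1
    refine crit_long (x := r) hns 1 0 hf ?_ ?_
    · unfold NN; push_cast; ring
    · unfold ND; rw [hd]; push_cast; ring

end TSP
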