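import Pool.Agent.TSP.Stmts

/-!
# Compactness of the set of admissible covectors
-/

set_option autoImplicit false

namespace TSP

open Set MeasureTheory Real Filter Topology

namespace CMPAux

lemma isClosed_adm {f A η : ℝ → ℝ} (hf : Continuous f) (hA : Continuous A) (hη : Continuous η)
    (r : ℝ) :
    IsClosed {q : (ℝ × ℝ) × (ℝ × ℝ) | Adm f A η q.2 (max q.1.1 (min r q.1.2))} := by
  have hr : Continuous fun q : (ℝ × ℝ) × (ℝ × ℝ) => max q.1.1 (min r q.1.2) := by fun_prop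
  have h1 := hf.comp hr
  have h2 := hA.comp hr
  have h3 := hη.comp hr
  have h4 : Continuous fun q : (ℝ × ℝ) × (ℝ × ℝ) => q.2.1 := by fun_prop
  have h5 : Continuous fun q : (ℝ × ℝ) × (ℝ × ℝ) => q.2.2 := by fun_prop
  have h6 := (h5.sub (h2.mul h4)).pow 2
  unfold Adm
  rw [Set.ofPred_and]
  refine IsClosed.inter ?_ ?_
  · exact isClosed_le (((h4.pow 2).mul (h3.pow 2)).add (h6.mul (h1.pow 2)))
      ((h1.pow 2).mul (h3.pow 2))
  · exact isClosed_le h6 (h3.pow 2)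

lemma isClosed_tri (L : ℝ) : IsClosed {q : (ℝ × ℝ) × (ℝ × ℝ) | q.1 ∈ Tri L} := by
  have c1 : Continuous fun q : (ℝ × ℝ) × (ℝ × ℝ) => q.1.1 := by fun_prop
  have c2 : Continuous fun q : (ℝ × ℝ) × (ℝ × ℝ) => q.1.2 := by fun_prop
  have e : {q : (ℝ × ℝ) × (ℝ × ℝ) | q.1 ∈ Tri L}
      = {q | 0 ≤ q.1.1} ∩ ({q | q.1.1 ≤ q.1.2} ∩ {q | q.1.2 ≤ L}) := by
    ext q
    exact Iff.rfl
  rw [e]
  exact (isClosed_le continuous_const c1).inter ((isClosed_le c1 c2).inter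
    (isClosed_le c2 continuous_const))

end CMPAux

open CMPAux in
theorem t_CMP : S_CMP := by
  intro L f A η H
  constructor
  · obtain ⟨M1, h1⟩ := (isCompact_Icc (a := (0 : ℝ)) (b := L)).exists_bound_of_continuousOn
      H.f_cont.continuousOn
    obtain ⟨M2, h2⟩ := (isCompact_Icc (a := (0 : ℝ)) (b := L)).exists_bound_of_continuousOn
      H.A_cont.continuousOn
    obtain ⟨M3, h3⟩ := (isCompact_Icc (a := (0 : ℝ)) (b := L)).exists_bound_of_continuousOn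
      H.η_cont.continuousOn
    refine ⟨|M1| + |M3| + |M2| * |M1|, fun x hx z hz => ?_⟩
    obtain ⟨hx0, hx1, hx2⟩ := hx
    have hmem : x.1 ∈ Icc 0 L := ⟨hx0, hx1.trans hx2⟩
    have ha := hz x.1 ⟨le_refl _, hx1⟩
    have hη := H.η_pos x.1
    have hη2 : 0 < η x.1 ^ 2 := by positivity
    have b1 : |f x.1| ≤ |M1| := (h1 _ hmem).trans (le_abs_self _)
    have b2 : |A x.1| ≤ |M2| := (h2 _ hmem).trans (le_abs_self _)
    have b3 : |η x.1| ≤ |M3| := (h3 _ hmem).trans (le_abs_self _)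
    have c1 : z.1 ^ 2 ≤ f x.1 ^ 2 := by
      have h4 : z.1 ^ 2 * η x.1 ^ 2 ≤ f x.1 ^ 2 * η x.1 ^ 2 := by
        nlinarith [ha.1, sq_nonneg ((z.2 - A x.1 * z.1) * f x.1)]
      exact le_of_mul_le_mul_right h4 hη2
    have c2 : |z.1| ≤ |M1| := (sq_le_sq.1 c1).trans b1
    have c3 : |z.2 - A x.1 * z.1| ≤ |M3| := (sq_le_sq.1 ha.2).trans b3
    have c4 : |A x.1 * z.1| ≤ |M2| * |M1| := by
      rw [abs_mul]
      exact mul_le_mul b2 c2 (abs_nonneg _) (abs_nonneg _)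
    have c5 : |z.2| ≤ |M3| + |M2| * |M1| := by
      calc |z.2| = |(z.2 - A x.1 * z.1) + A x.1 * z.1| := by ring_nf
        _ ≤ |z.2 - A x.1 * z.1| + |A x.1 * z.1| := abs_add_le _ _
        _ ≤ |M3| + |M2| * |M1| := add_le_add c3 c4
    have p1 := abs_nonneg M1
    have p2 := abs_nonneg M3
    have p3 := mul_nonneg (abs_nonneg M2) (abs_nonneg M1)
    rw [Prod.norm_def]
    refine max_le ?_ ?_
    · rw [Real.norm_eq_abs]; linarith
    · rw [Real.norm_eq_abs]; linarith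
  · have e : {q : (ℝ × ℝ) × (ℝ × ℝ) | q.1 ∈ Tri L ∧ q.2 ∈ KK f A η q.1}
        = {q : (ℝ × ℝ) × (ℝ × ℝ) | q.1 ∈ Tri L} ∩
          ⋂ r : ℝ, {q : (ℝ × ℝ) × (ℝ × ℝ) | Adm f A η q.2 (max q.1.1 (min r q.1.2))} := by
      ext q
      simp only [Set.mem_ofPred_eq, Set.mem_inter_iff, Set.mem_iInter]
      constructor
      · rintro ⟨hq, hz⟩
        refine ⟨hq, fun r => hz _ ⟨le_max_left _ _, ?_⟩⟩
        exact max_le hq.2.1 (min_le_right _ _)
      · rintro ⟨hq, hz⟩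
        refine ⟨hq, fun r hr => ?_⟩
        have h := hz r
        rw [min_eq_left hr.2, max_eq_right hr.1] at h
        exact h
    rw [e]
    exact (isClosed_tri L).inter (isClosed_iInter fun r =>
      isClosed_adm H.f_cont H.A_cont H.η_cont r)

end TSP
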