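import Pool.Agent.TSP.Stmts

/-! # Joint continuity of the action (`S_CNT`) -/

set_option autoImplicit false

namespace TSP

open Set MeasureTheory Real Filter Topology

namespace CNTAux

lemma HH_cont_z (f A η : ℝ → ℝ) (r : ℝ) : Continuous (fun z : ℝ × ℝ => HH f A η z r) := by
  unfold HH
  fun_prop

lemma G_contAt {L : ℝ} {f A η : ℝ → ℝ} (H : Profile L f A η) (x z : ℝ × ℝ) :
    ContinuousAt (fun w : ℝ × ℝ => ∫ r in x.1..x.2, √(1 - HH f A η w r)) z := by
  refine intervalIntegral.continuousAt_of_dominated_interval (bound := fun _ => (1 : ℝ)) ?_ ?_ ?_ ?_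
  · filter_upwards with w
    exact ((measurable_const.sub (H.HH_meas w)).sqrt).aestronglyMeasurable
  · filter_upwards with w
    filter_upwards with r _
    rw [Real.norm_of_nonneg (Real.sqrt_nonneg _)]
    exact sqrt_le_one w r
  · exact intervalIntegrable_const
  · filter_upwards with r _
    exact (Real.continuous_sqrt.comp (continuous_const.sub (HH_cont_z f A η r))).continuousAt

lemma norm_int_le {f A η : ℝ → ℝ} (w : ℝ × ℝ) (a b : ℝ) :
    ‖∫ r in a..b, √(1 - HH f A η w r)‖ ≤ |b - a| := by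
  have := intervalIntegral.norm_integral_le_of_norm_le_const (a := a) (b := b) (C := 1)
    (f := fun r => √(1 - HH f A η w r)) (fun r _ => by
      rw [Real.norm_of_nonneg (Real.sqrt_nonneg _)]
      exact sqrt_le_one w r)
  simpa using this

end CNTAux

open CNTAux in
theorem t_CNT : S_CNT := by
  intro L f A η H
  apply Continuous.continuousOn
  rw [continuous_iff_continuousAt]
  rintro ⟨x, z⟩
  unfold FF
  refine ContinuousAt.add ?_ (by fun_prop)
  have e : (fun q : (ℝ × ℝ) × (ℝ × ℝ) => ∫ r in q.1.1..q.1.2, √(1 - HH f A η q.2 r))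
      = fun q => (∫ r in x.1..x.2, √(1 - HH f A η q.2 r)) +
        ((∫ r in x.2..q.1.2, √(1 - HH f A η q.2 r)) - ∫ r in x.1..q.1.1, √(1 - HH f A η q.2 r)) := by
    funext q
    have h1 := intervalIntegral.integral_add_adjacent_intervals (H.ii q.2 x.1 q.1.1) (H.ii q.2 q.1.1 q.1.2)
    have h2 := intervalIntegral.integral_add_adjacent_intervals (H.ii q.2 x.1 x.2) (H.ii q.2 x.2 q.1.2)
    linarith
  rw [e]
  unfold ContinuousAt
  have hG : Tendsto (fun q : (ℝ × ℝ) × (ℝ × ℝ) => ∫ r in x.1..x.2, √(1 - HH f A η q.2 r))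
      (𝓝 (x, z)) (𝓝 (∫ r in x.1..x.2, √(1 - HH f A η z r))) := by
    have := (G_contAt H x z).comp_of_eq (f := fun q : (ℝ × ℝ) × (ℝ × ℝ) => q.2) (x := (x, z))
      continuous_snd.continuousAt rfl
    exact this
  have hE : Tendsto (fun q : (ℝ × ℝ) × (ℝ × ℝ) =>
      (∫ r in x.2..q.1.2, √(1 - HH f A η q.2 r)) - ∫ r in x.1..q.1.1, √(1 - HH f A η q.2 r))
      (𝓝 (x, z)) (𝓝 0) := by
    have hb : Tendsto (fun q : (ℝ × ℝ) × (ℝ × ℝ) => |q.1.2 - x.2| + |q.1.1 - x.1|)
        (𝓝 (x, z)) (𝓝 0) := by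
      have hc : Continuous (fun q : (ℝ × ℝ) × (ℝ × ℝ) => |q.1.2 - x.2| + |q.1.1 - x.1|) := by
        fun_prop
      have := hc.tendsto (x, z)
      simpa using this
    refine squeeze_zero_norm (fun q => ?_) hb
    calc ‖(∫ r in x.2..q.1.2, √(1 - HH f A η q.2 r)) - ∫ r in x.1..q.1.1, √(1 - HH f A η q.2 r)‖
        ≤ ‖∫ r in x.2..q.1.2, √(1 - HH f A η q.2 r)‖ + ‖∫ r in x.1..q.1.1, √(1 - HH f A η q.2 r)‖ :=
          norm_sub_le _ _
      _ ≤ |q.1.2 - x.2| + |q.1.1 - x.1| := add_le_add (norm_int_le _ _ _) (norm_int_le _ _ _)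
  have := hG.add hE
  simpa using this

end TSP
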