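import Pool.Agent.TSP.Stmts

/-!
# TSP, module DCO: continuity of the maximal value
-/

set_option autoImplicit false

namespace TSP

open Set MeasureTheory Real Filter Topology

namespace DCOAux

variable {L : ℝ}

theorem tri_mem {x : ℝ × ℝ} (hx : x ∈ Tri L) : x ∈ Icc (0 : ℝ) L ×ˢ Icc (0 : ℝ) L :=
  ⟨⟨hx.1, hx.2.1.trans hx.2.2⟩, ⟨hx.1.trans hx.2.1, hx.2.2⟩⟩

theorem tri_norm {x : ℝ × ℝ} (hx : x ∈ Tri L) : ‖x‖ ≤ L := by
  have h := tri_mem hx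
  rw [Prod.norm_def]
  refine max_le ?_ ?_
  · rw [Real.norm_of_nonneg h.1.1]; exact h.1.2
  · rw [Real.norm_of_nonneg h.2.1]; exact h.2.2

end DCOAux

theorem t_DCO (hcnt : S_CNT) (hcmp : S_CMP) (hmax : S_MAX) (hlsc : S_LSC) : S_DCO := by
  intro L f A η H x hx
  obtain ⟨⟨R, hR⟩, hclosed⟩ := hcmp L f A η H
  obtain ⟨hex, -, -, -⟩ := hmax L f A η H
  obtain ⟨z, hz⟩ := hex x hx
  have hcomp : IsCompact {q : (ℝ × ℝ) × (ℝ × ℝ) | q.1 ∈ Tri L ∧ q.2 ∈ KK f A η q.1} := by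
    refine Metric.isCompact_of_isClosed_isBounded hclosed ?_
    refine (Metric.isBounded_closedBall (x := (0 : (ℝ × ℝ) × (ℝ × ℝ)))
      (r := max L R)).subset ?_
    intro q hq
    rw [mem_closedBall_zero_iff, Prod.norm_def]
    exact max_le_max (DCOAux.tri_norm hq.1) (hR q.1 hq.1 q.2 hq.2)
  show Tendsto (DD f A η) (𝓝[Tri L] x) (𝓝 (DD f A η x))
  refine tendsto_order.2 ⟨?_, ?_⟩
  · intro a ha
    have hε : 0 < (DD f A η x - a) / 2 := by linarith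
    obtain ⟨δ, hδ, h⟩ := hlsc L f A η H x hx z hz.1 _ hε
    have h1 : Metric.ball x δ ∈ 𝓝[Tri L] x := mem_nhdsWithin_of_mem_nhds (Metric.ball_mem_nhds x hδ)
    filter_upwards [h1, self_mem_nhdsWithin] with y hy hyT
    obtain ⟨u, hu, hu2⟩ := h y hyT hy
    obtain ⟨w, hw⟩ := hex y hyT
    have h2 := hw.le_DD hu
    have h3 := hz.DD_eq
    linarith
  · intro b hb
    by_contra hcon
    have hfr : ∃ᶠ y in 𝓝[Tri L] x, y ∈ Tri L ∧ b ≤ DD f A η y := by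
      have h1 : ∃ᶠ y in 𝓝[Tri L] x, ¬ DD f A η y < b := Filter.not_eventually.1 hcon
      refine (h1.and_eventually self_mem_nhdsWithin).mono ?_
      intro y hy
      exact ⟨hy.2, not_lt.1 hy.1⟩
    obtain ⟨y, hy, hyp⟩ := Filter.exists_seq_forall_of_frequently hfr
    choose w hw using fun n => hex (y n) (hyp n).1
    have hmem : ∀ n, ((y n, w n) : (ℝ × ℝ) × (ℝ × ℝ)) ∈
        {q : (ℝ × ℝ) × (ℝ × ℝ) | q.1 ∈ Tri L ∧ q.2 ∈ KK f A η q.1} := fun n =>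
      ⟨(hyp n).1, (hw n).1⟩
    obtain ⟨q, hq, φ, hφ, hlim⟩ := hcomp.tendsto_subseq hmem
    have hy2 : Tendsto (fun n => y (φ n)) atTop (𝓝 x) :=
      (hy.mono_right nhdsWithin_le_nhds).comp hφ.tendsto_atTop
    have hy3 : Tendsto (fun n => y (φ n)) atTop (𝓝 q.1) :=
      (continuous_fst.tendsto q).comp hlim
    have hq1 : q.1 = x := tendsto_nhds_unique hy3 hy2
    have hqS : q ∈ (Icc (0 : ℝ) L ×ˢ Icc (0 : ℝ) L) ×ˢ (univ : Set (ℝ × ℝ)) :=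
      ⟨DCOAux.tri_mem hq.1, mem_univ _⟩
    set G : (ℝ × ℝ) × (ℝ × ℝ) → ℝ := fun q => FF f A η q.1 q.2 with hG
    have hc : Tendsto G (𝓝[(Icc (0 : ℝ) L ×ˢ Icc (0 : ℝ) L) ×ˢ (univ : Set (ℝ × ℝ))] q)
        (𝓝 (G q)) := hcnt L f A η H q hqS
    have hin : Tendsto (fun n => ((y (φ n), w (φ n)) : (ℝ × ℝ) × (ℝ × ℝ))) atTop
        (𝓝[(Icc (0 : ℝ) L ×ˢ Icc (0 : ℝ) L) ×ˢ (univ : Set (ℝ × ℝ))] q) := by
      refine tendsto_nhdsWithin_iff.2 ⟨hlim, ?_⟩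
      refine Filter.Eventually.of_forall fun n => ?_
      exact ⟨DCOAux.tri_mem (hyp (φ n)).1, mem_univ _⟩
    have hlim2 : Tendsto (fun n => G (y (φ n), w (φ n))) atTop (𝓝 (G q)) := hc.comp hin
    have hge : b ≤ G q := by
      refine ge_of_tendsto' hlim2 fun n => ?_
      have h5 : G (y (φ n), w (φ n)) = DD f A η (y (φ n)) := (hw (φ n)).DD_eq.symm
      rw [h5]
      exact (hyp (φ n)).2
    have hGq : G q = FF f A η x q.2 := by
      rw [hG]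
      simp only
      rw [hq1]
    rw [hGq] at hge
    have hq2 : q.2 ∈ KK f A η x := by
      have := hq.2
      rwa [hq1] at this
    have := hz.le_DD hq2
    linarith

end TSP
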