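import Pool.Agent.TSP.Stmts

/-!
# `S_DIL`: descent on the diagonal where `f` increases
-/

set_option autoImplicit false

namespace TSP

open Set MeasureTheory Real Filter Topology

namespace DILAux

variable {L : ℝ} {f A η : ℝ → ℝ}

/-- the integral of `K/√(r - c)` -/
lemma int_inv_sqrt {c a b K : ℝ} (hc : c < a) (hab : a ≤ b) (hK : 0 ≤ K) :
    IntervalIntegrable (fun r => K / √(r - c)) volume a b ∧
      ∫ r in a..b, K / √(r - c) ≤ 2 * K * √(b - c) := by
  have hd : ∀ r ∈ uIcc a b, HasDerivAt (fun r => 2 * K * √(r - c)) (K / √(r - c)) r := by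
    intro r hr
    rw [uIcc_of_le hab] at hr
    have h1 : 0 < r - c := by linarith [hr.1]
    have h2 := ((hasDerivAt_id r).sub_const c).sqrt (by simpa using h1.ne')
    have h3 := h2.const_mul (2 * K)
    refine h3.congr_deriv ?_
    simp only [id]
    field_simp
  have hcont : ContinuousOn (fun r => K / √(r - c)) (uIcc a b) := by
    refine continuousOn_const.div (by fun_prop) ?_
    intro r hr
    rw [uIcc_of_le hab] at hr
    have h1 : 0 < r - c := by linarith [hr.1]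
    exact (Real.sqrt_pos.2 h1).ne'
  have hi : IntervalIntegrable (fun r => K / √(r - c)) volume a b := hcont.intervalIntegrable
  refine ⟨hi, ?_⟩
  rw [intervalIntegral.integral_eq_sub_of_hasDerivAt hd hi]
  have : 0 ≤ 2 * K * √(a - c) := by positivity
  linarith

lemma HH_diag (H : Profile L f A η) {a : ℝ} (h0 : 0 < a) (h1 : a < L) :
    HH f A η (f a, A a * f a) a = 1 := by
  have h := (H.f_pos a h0 h1).ne'
  unfold HH
  simp only [sub_self, ne_eq, OfNat.ofNat_ne_zero, not_false_eq_true, zero_pow, zero_div, add_zero]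
  exact div_self (pow_ne_zero 2 h)

lemma HHd_diag (H : Profile L f A η) {a : ℝ} (h0 : 0 < a) (h1 : a < L) :
    HHd f A η (f a, A a * f a) a = -(2 * (deriv f a / f a)) := by
  have h := (H.f_pos a h0 h1).ne'
  unfold HHd
  simp only [sub_self, ne_eq, OfNat.ofNat_ne_zero, not_false_eq_true, zero_pow, zero_mul, mul_zero,
    zero_div, sub_zero]
  field_simp

/-- the neighbourhood of the maximizer -/
lemma nbhd (H : Profile L f A η) {a : ℝ} (h0 : 0 < a) (h1 : a < L) (hd : 0 < deriv f a) {ω : ℝ}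
    (hω : 0 < ω) :
    ∃ δ > 0, ∀ (w : ℝ × ℝ) (r : ℝ), dist w (f a, A a * f a) < δ → |r - a| < δ →
      0 < r ∧ r < L ∧ HHd f A η w r ≤ -(deriv f a / f a) ∧ 1 - HH f A η w r ≤ ω ^ 2 ∧
        f a / 2 ≤ w.1 := by
  have hf := H.f_pos a h0 h1
  have hc : 0 < deriv f a / f a := div_pos hd hf
  have e1 : ∀ᶠ q : (ℝ × ℝ) × ℝ in 𝓝 ((f a, A a * f a), a), 0 < q.2 :=
    continuousAt_snd.eventually (lt_mem_nhds h0)
  have e2 : ∀ᶠ q : (ℝ × ℝ) × ℝ in 𝓝 ((f a, A a * f a), a), q.2 < L :=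
    continuousAt_snd.eventually (gt_mem_nhds h1)
  have e3 : ∀ᶠ q : (ℝ × ℝ) × ℝ in 𝓝 ((f a, A a * f a), a),
      HHd f A η q.1 q.2 < -(deriv f a / f a) := by
    have := H.HHd_contAt (z := (f a, A a * f a)) (r := a) hf.ne'
    refine this.eventually (gt_mem_nhds ?_)
    simp only
    rw [HHd_diag H h0 h1]
    linarith
  have e4 : ∀ᶠ q : (ℝ × ℝ) × ℝ in 𝓝 ((f a, A a * f a), a),
      1 - ω ^ 2 < HH f A η q.1 q.2 := by
    have := H.HH_contAt (z := (f a, A a * f a)) (r := a) hf.ne'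
    refine this.eventually (lt_mem_nhds ?_)
    simp only
    rw [HH_diag H h0 h1]
    have : 0 < ω ^ 2 := by positivity
    linarith
  have e5 : ∀ᶠ q : (ℝ × ℝ) × ℝ in 𝓝 ((f a, A a * f a), a), f a / 2 < q.1.1 := by
    have : ContinuousAt (fun q : (ℝ × ℝ) × ℝ => q.1.1) ((f a, A a * f a), a) :=
      (continuous_fst.comp continuous_fst).continuousAt
    refine this.eventually (lt_mem_nhds ?_)
    simp only
    linarith
  obtain ⟨δ, hδ, h⟩ := Metric.eventually_nhds_iff.1 (e1.and (e2.and (e3.and (e4.and e5))))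
  refine ⟨δ, hδ, fun w r hw hr => ?_⟩
  have h2 : dist ((w, r) : (ℝ × ℝ) × ℝ) ((f a, A a * f a), a) < δ := by
    rw [Prod.dist_eq]
    exact max_lt hw (by rwa [Real.dist_eq])
  obtain ⟨g1, g2, g3, g4, g5⟩ := h h2
  exact ⟨g1, g2, g3.le, by linarith, g5.le⟩

/-- difference of square roots -/
lemma sqrt_diff {h c s l : ℝ} (hc : 0 < c) (hs : 0 < s) (hh : h ≤ 1 - c * s)
    (hl : 1 ≤ l) : √(1 - h) - √(1 - l * h) ≤ (l - 1) / √c / √s := by
  have hh1 : h ≤ 1 := by nlinarith [mul_pos hc hs]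
  have hcs : c * s ≤ 1 - h := by linarith
  have h1 : √c * √s ≤ √(1 - h) := by
    rw [← Real.sqrt_mul hc.le]
    exact Real.sqrt_le_sqrt hcs
  have hp : 0 < √c * √s := mul_pos (Real.sqrt_pos.2 hc) (Real.sqrt_pos.2 hs)
  rw [div_div, le_div_iff₀ hp]
  have hsu : 0 < √(1 - h) := lt_of_lt_of_le hp h1
  have hsv := Real.sqrt_nonneg (1 - l * h)
  have h2 : √(1 - h) ^ 2 = 1 - h := Real.sq_sqrt (by linarith)
  have h3 : 1 - l * h ≤ √(1 - l * h) ^ 2 := by
    rcases le_total 0 (1 - l * h) with h4 | h4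
    · rw [Real.sq_sqrt h4]
    · exact h4.trans (sq_nonneg _)
  rcases le_total (√(1 - h)) (√(1 - l * h)) with h5 | h5
  · have : (√(1 - h) - √(1 - l * h)) * (√c * √s) ≤ 0 :=
      mul_nonpos_of_nonpos_of_nonneg (by linarith) hp.le
    linarith
  · calc (√(1 - h) - √(1 - l * h)) * (√c * √s)
        ≤ (√(1 - h) - √(1 - l * h)) * (√(1 - h) + √(1 - l * h)) :=
          mul_le_mul_of_nonneg_left (by linarith) (by linarith)
      _ = √(1 - h) ^ 2 - √(1 - l * h) ^ 2 := by ring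
      _ ≤ (l - 1) * h := by linarith
      _ ≤ (l - 1) * 1 := mul_le_mul_of_nonneg_left hh1 (by linarith)
      _ = l - 1 := by ring

end DILAux

open DILAux in
/-- **Descent on the diagonal where `f` increases.** -/
theorem t_DIL (hmax : S_MAX) (hstb : S_STB) : S_DIL := by
  intro L f A η H a h0 h1 hd
  have hf := H.f_pos a h0 h1
  obtain ⟨c, hc⟩ : ∃ c : ℝ, c = deriv f a / f a := ⟨_, rfl⟩
  have hcp : 0 < c := by rw [hc]; exact div_pos hd hf
  obtain ⟨ω, hω⟩ : ∃ ω : ℝ, ω = π * (c / 4) * f a / 8 := ⟨_, rfl⟩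
  have hωp : 0 < ω := by rw [hω]; positivity
  obtain ⟨δ, hδ, hn⟩ := nbhd H h0 h1 hd hωp
  obtain ⟨hex, -, hdiag, -⟩ := hmax L f A η H
  have hLpos : 0 < L := h0.trans h1
  have haT : (a, a) ∈ Tri L := ⟨h0.le, le_rfl, h1.le⟩
  have hne0 : ((a, a) : ℝ × ℝ) ≠ (0, 0) := by
    intro h
    exact h0.ne' (congrArg Prod.fst h)
  have hneL : ((a, a) : ℝ × ℝ) ≠ (L, L) := by
    intro h
    exact h1.ne (congrArg Prod.fst h)
  obtain ⟨δ', hδ', hs⟩ := hstb L f A η H (a, a) (f a, A a * f a) haT hne0 hneL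
    (hdiag a h0 h1) δ hδ
  obtain ⟨ε, hε, hε1, hε2, hε3, hε4⟩ : ∃ ε : ℝ, 0 < ε ∧ 2 * ε ≤ δ ∧ 2 * ε ≤ δ' ∧ ε ≤ 4 / c ∧
      3 * ε ≤ (π * f a * √c / 96) ^ 2 := by
    have hμ : 0 < (π * f a * √c / 96) ^ 2 := by
      have := Real.sqrt_pos.2 hcp
      positivity
    refine ⟨min (min (δ / 2) (δ' / 2)) (min (4 / c) ((π * f a * √c / 96) ^ 2 / 3)), ?_, ?_, ?_, ?_, ?_⟩
    · have : 0 < 4 / c := by positivity
      exact lt_min (lt_min (by linarith) (by linarith)) (lt_min this (by linarith))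
    · have := (min_le_left (min (δ / 2) (δ' / 2)) (min (4 / c) ((π * f a * √c / 96) ^ 2 / 3))).trans
        (min_le_left _ _)
      linarith
    · have := (min_le_left (min (δ / 2) (δ' / 2)) (min (4 / c) ((π * f a * √c / 96) ^ 2 / 3))).trans
        (min_le_right _ _)
      linarith
    · exact (min_le_right _ _).trans (min_le_left _ _)
    · have := (min_le_right (min (δ / 2) (δ' / 2)) (min (4 / c) ((π * f a * √c / 96) ^ 2 / 3))).trans
        (min_le_right _ _)
      linarith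
  refine ⟨ε, hε, fun y hy hya t ht htε => ?_⟩
  obtain ⟨y1, y2⟩ := y
  rw [Prod.dist_eq, max_lt_iff, Real.dist_eq, Real.dist_eq] at hya
  simp only at hya
  obtain ⟨hy1, hy2⟩ := hya
  rw [abs_lt] at hy1 hy2
  obtain ⟨hT1, hT2, hT3⟩ := hy
  simp only at hT1 hT2 hT3
  have hmv : ((y1, y2) : ℝ × ℝ) + t • ((-1, 0) : ℝ × ℝ) = (y1 - t, y2) := by
    ext
    · simp only [Prod.smul_mk, smul_eq_mul, Prod.mk_add_mk]; ring
    · simp
  rw [hmv]
  have hz0 : dist ((f a, A a * f a) : ℝ × ℝ) (f a, A a * f a) < δ := by rw [dist_self]; exact hδ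
  have hpos : 0 < y1 - t := (hn _ (y1 - t) hz0 (by rw [abs_lt]; constructor <;> linarith)).1
  have hT' : (y1 - t, y2) ∈ Tri L := ⟨hpos.le, by simp only; linarith, hT3⟩
  refine ⟨hT', ?_⟩
  obtain ⟨w, hw⟩ := hex _ hT'
  have hwz : dist w (f a, A a * f a) < δ := by
    refine hs _ hT' ?_ w hw
    rw [Prod.dist_eq, max_lt_iff, Real.dist_eq, Real.dist_eq, abs_lt, abs_lt]
    simp only
    refine ⟨⟨by linarith, by linarith⟩, by linarith, by linarith⟩
  have hn' : ∀ r ∈ Icc (y1 - t) y2, 0 < r ∧ r < L ∧ HHd f A η w r ≤ -c ∧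
      1 - HH f A η w r ≤ ω ^ 2 ∧ f a / 2 ≤ w.1 := by
    intro r hr
    rw [hc]
    refine hn w r hwz ?_
    rw [abs_lt]
    exact ⟨by linarith [hr.1], by linarith [hr.2]⟩
  have hw1 : f a / 2 ≤ w.1 := (hn' y2 ⟨by linarith, le_rfl⟩).2.2.2.2
  -- the norm decreases
  have hmono : ∀ r ∈ Icc (y1 - t) y2, HH f A η w r ≤ 1 - c * (r - (y1 - t)) := by
    intro r hr
    have hder : ∀ x ∈ Icc (y1 - t) y2, HasDerivAt (HH f A η w) (HHd f A η w x) x := by
      intro x hx
      obtain ⟨g1, g2, -⟩ := hn' x hx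
      exact H.HH_hasDerivAt (H.f_pos x g1 g2).ne'
    have h2 := Convex.image_sub_le_mul_sub_of_deriv_le (convex_Icc (y1 - t) y2)
      (f := HH f A η w) (fun x hx => (hder x hx).continuousAt.continuousWithinAt)
      (fun x hx => (hder x (interior_subset hx)).differentiableAt.differentiableWithinAt)
      (C := -c) (fun x hx => by
        rw [(hder x (interior_subset hx)).deriv]
        exact (hn' x (interior_subset hx)).2.2.1)
      (y1 - t) ⟨le_rfl, by linarith⟩ r hr hr.1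
    have h3 : HH f A η w (y1 - t) ≤ 1 := by
      obtain ⟨g1, g2, -⟩ := hn' (y1 - t) ⟨le_rfl, by linarith⟩
      exact (H.adm_iff g1 g2).1 (hw.1 (y1 - t) ⟨le_rfl, by simp only; linarith⟩)
    linarith
  -- the stretched covector
  obtain ⟨l, hl⟩ : ∃ l : ℝ, l = 1 + c / 4 * t := ⟨_, rfl⟩
  have hk1 : c / 4 * t ≤ 1 := by
    have : t ≤ 4 / c := htε.trans hε3
    rw [le_div_iff₀ hcp] at this
    linarith
  have hk0 : 0 < c / 4 * t := by positivity
  have hl1 : 1 ≤ l := by rw [hl]; linarith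
  have hl2 : l ^ 2 ≤ 1 + 3 * (c / 4 * t) := by
    rw [hl]
    nlinarith
  have hl3 : 1 ≤ l ^ 2 := by nlinarith
  have hlw : l • w ∈ KK f A η (y1, y2) := by
    intro r hr
    simp only at hr
    have hr' : r ∈ Icc (y1 - t) y2 := ⟨by linarith [hr.1], hr.2⟩
    obtain ⟨g1, g2, -⟩ := hn' r hr'
    rw [H.adm_iff g1 g2, HH_smul]
    have h2 := hmono r hr'
    have h3 : HH f A η w r ≤ 1 - c * t := by nlinarith [hr.1]
    have h4 := HH_nonneg (f := f) (A := A) (η := η) w r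
    have h5 : 0 ≤ 1 - c * t := h4.trans h3
    calc l ^ 2 * HH f A η w r ≤ l ^ 2 * (1 - c * t) := mul_le_mul_of_nonneg_left h3 (by positivity)
      _ ≤ (1 + 3 * (c / 4 * t)) * (1 - c * t) := mul_le_mul_of_nonneg_right hl2 h5
      _ ≤ 1 := by nlinarith [mul_pos hcp ht]
  obtain ⟨zy, hzy⟩ := hex (y1, y2) ⟨hT1, hT2, hT3⟩
  have hD1 : FF f A η (y1, y2) (l • w) ≤ DD f A η (y1, y2) := hzy.le_DD hlw
  have hD2 : DD f A η (y1 - t, y2) = FF f A η (y1 - t, y2) w := hw.DD_eq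
  refine lt_of_lt_of_le ?_ hD1
  rw [hD2]
  unfold FF
  simp only [Prod.smul_fst, smul_eq_mul]
  have hsplit : ∫ r in (y1 - t)..y2, √(1 - HH f A η w r) =
      (∫ r in (y1 - t)..y1, √(1 - HH f A η w r)) + ∫ r in y1..y2, √(1 - HH f A η w r) :=
    (intervalIntegral.integral_add_adjacent_intervals (H.ii w _ _) (H.ii w _ _)).symm
  have hI1 : ∫ r in (y1 - t)..y1, √(1 - HH f A η w r) ≤ ω * t := by
    have h2 : ‖∫ r in (y1 - t)..y1, √(1 - HH f A η w r)‖ ≤ ω * |y1 - (y1 - t)| := by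
      apply intervalIntegral.norm_integral_le_of_norm_le_const
      intro r hr
      rw [uIoc_of_le (by linarith)] at hr
      rw [Real.norm_of_nonneg (Real.sqrt_nonneg _)]
      refine Real.sqrt_le_iff.2 ⟨hωp.le, ?_⟩
      exact (hn' r ⟨hr.1.le, hr.2.trans hT2⟩).2.2.2.1
    have h3 : |y1 - (y1 - t)| = t := by
      rw [show y1 - (y1 - t) = t by ring, abs_of_pos ht]
    rw [h3] at h2
    exact (le_abs_self _).trans h2
  have hI2 : (∫ r in y1..y2, √(1 - HH f A η w r)) - ∫ r in y1..y2, √(1 - HH f A η (l • w) r) ≤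
      2 * ((l ^ 2 - 1) / √c) * √(y2 - (y1 - t)) := by
    rw [← intervalIntegral.integral_sub (H.ii w _ _) (H.ii (l • w) _ _)]
    obtain ⟨i1, i2⟩ := int_inv_sqrt (c := y1 - t) (a := y1) (b := y2) (K := (l ^ 2 - 1) / √c)
      (by linarith) hT2 (div_nonneg (by linarith) (Real.sqrt_nonneg _))
    refine le_trans ?_ i2
    refine intervalIntegral.integral_mono_on hT2 ((H.ii w _ _).sub (H.ii (l • w) _ _)) i1 ?_
    intro r hr
    rw [HH_smul]
    refine sqrt_diff hcp (by linarith [hr.1]) ?_ hl3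
    exact hmono r ⟨by linarith [hr.1], hr.2⟩
  -- final estimate
  have hsq : √(y2 - (y1 - t)) ≤ π * f a * √c / 96 := by
    refine Real.sqrt_le_iff.2 ⟨by positivity, ?_⟩
    linarith
  have hsc := Real.sqrt_pos.2 hcp
  have hI3 : 2 * ((l ^ 2 - 1) / √c) * √(y2 - (y1 - t)) ≤ c / 4 * t * (π * f a / 16) := by
    calc 2 * ((l ^ 2 - 1) / √c) * √(y2 - (y1 - t))
        ≤ 2 * ((3 * (c / 4 * t)) / √c) * (π * f a * √c / 96) := by
          apply mul_le_mul _ hsq (Real.sqrt_nonneg _) (by positivity)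
          apply mul_le_mul_of_nonneg_left _ (by norm_num)
          apply div_le_div_of_nonneg_right _ hsc.le
          linarith
      _ = c / 4 * t * (π * f a / 16) := by
          field_simp
          ring
  have hlast : π * (c / 4 * t) * (f a / 2) ≤ π * (c / 4 * t) * w.1 :=
    mul_le_mul_of_nonneg_left hw1 (by positivity)
  have hfin : ω * t = c / 4 * t * (π * f a / 8) := by rw [hω]; ring
  have hP : 0 < c / 4 * t * (π * f a) := by positivity
  have e1 : π * (l * w.1) = π * w.1 + π * (c / 4 * t) * w.1 := by rw [hl]; ring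
  rw [hsplit, e1]
  have e2 : π * (c / 4 * t) * (f a / 2) = c / 4 * t * (π * f a) / 2 := by ring
  have e3 : c / 4 * t * (π * f a / 16) = c / 4 * t * (π * f a) / 16 := by ring
  have e4 : c / 4 * t * (π * f a / 8) = c / 4 * t * (π * f a) / 8 := by ring
  rw [e2] at hlast
  rw [e3] at hI3
  rw [e4] at hfin
  linarith

end TSP
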