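import Pool.Agent.TSP.Stmts

/-!
# Descent on the diagonal where `f` decreases

`S_DIR` follows from `S_DIL` by the reflection `r ↦ L - r` (`S_REF`).
-/

set_option autoImplicit false

namespace TSP

open Set MeasureTheory Real Filter Topology

theorem t_DIR (href : S_REF) (hdil : S_DIL) : S_DIR := by
  intro L f A η H a ha haL hd
  obtain ⟨H', -, -, hD⟩ := href L f A η H
  have e : deriv (fun r => f (L - r)) (L - a) = - deriv f a := by
    have h := deriv_comp_const_sub (f := f) L (L - a)
    rw [h]
    congr 2
    ring
  have h1 := hdil L (fun r => f (L - r)) (fun r => A (L - r)) (fun r => η (L - r)) H' (L - a)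
    (by linarith) (by linarith) (by rw [e]; linarith)
  have h2 := hD (a, a) (-1, 0) h1
  simpa using h2

end TSP
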