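import Pool.Agent.TSP.Dil

/-!
# `S_DSC`: descent by enlarging the interval
-/

set_option autoImplicit false

namespace TSP

open Set MeasureTheory Real Filter Topology

namespace DSCAux

variable {L : ℝ} {f A η : ℝ → ℝ}

/-- the integral of `K/√(c - r)` -/
lemma int_inv_sqrt' {c a b K : ℝ} (hc : b < c) (hab : a ≤ b) (hK : 0 ≤ K) :
    IntervalIntegrable (fun r => K / √(c - r)) volume a b ∧
      ∫ r in a..b, K / √(c - r) ≤ 2 * K * √(c - a) := by
  have hd : ∀ r ∈ uIcc a b, HasDerivAt (fun r => (-(2 * K)) * √(c - r)) (K / √(c - r)) r := by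
    intro r hr
    rw [uIcc_of_le hab] at hr
    have h1 : 0 < c - r := by linarith [hr.2]
    have h2 := ((hasDerivAt_id r).const_sub c).sqrt (by simpa using h1.ne')
    have h3 := h2.const_mul (-(2 * K))
    refine h3.congr_deriv ?_
    simp only [id]
    field_simp
  have hcont : ContinuousOn (fun r => K / √(c - r)) (uIcc a b) := by
    refine continuousOn_const.div (by fun_prop) ?_
    intro r hr
    rw [uIcc_of_le hab] at hr
    have h1 : 0 < c - r := by linarith [hr.2]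
    exact (Real.sqrt_pos.2 h1).ne'
  have hi : IntervalIntegrable (fun r => K / √(c - r)) volume a b := hcont.intervalIntegrable
  refine ⟨hi, ?_⟩
  rw [intervalIntegral.integral_eq_sub_of_hasDerivAt hd hi]
  have : 0 ≤ 2 * K * √(c - b) := by positivity
  linarith

/-- the neighbourhood of the maximizer at an end of the interval -/
lemma nbhd (H : Profile L f A η) {a : ℝ} {z : ℝ × ℝ} (h0 : 0 < a) (h1 : a < L)
    (hz : HH f A η z a = 1) {σ c ω μ : ℝ} (hd : σ * HHd f A η z a < -c) (hω : 0 < ω)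
    (hμ : μ < z.1) :
    ∃ δ > 0, ∀ (w : ℝ × ℝ) (r : ℝ), dist w z < δ → |r - a| < δ →
      0 < r ∧ r < L ∧ σ * HHd f A η w r < -c ∧ 1 - HH f A η w r ≤ ω ^ 2 ∧ μ < w.1 := by
  have hf := H.f_pos a h0 h1
  have e1 : ∀ᶠ q : (ℝ × ℝ) × ℝ in 𝓝 (z, a), 0 < q.2 :=
    continuousAt_snd.eventually (lt_mem_nhds h0)
  have e2 : ∀ᶠ q : (ℝ × ℝ) × ℝ in 𝓝 (z, a), q.2 < L :=
    continuousAt_snd.eventually (gt_mem_nhds h1)
  have e3 : ∀ᶠ q : (ℝ × ℝ) × ℝ in 𝓝 (z, a), σ * HHd f A η q.1 q.2 < -c :=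
    (continuousAt_const.mul (H.HHd_contAt (z := z) (r := a) hf.ne')).eventually
      (gt_mem_nhds hd)
  have e4 : ∀ᶠ q : (ℝ × ℝ) × ℝ in 𝓝 (z, a), 1 - ω ^ 2 < HH f A η q.1 q.2 := by
    refine (H.HH_contAt (z := z) (r := a) hf.ne').eventually (lt_mem_nhds ?_)
    simp only
    rw [hz]
    have : 0 < ω ^ 2 := by positivity
    linarith
  have e5 : ∀ᶠ q : (ℝ × ℝ) × ℝ in 𝓝 (z, a), μ < q.1.1 := by
    have : ContinuousAt (fun q : (ℝ × ℝ) × ℝ => q.1.1) (z, a) :=
      (continuous_fst.comp continuous_fst).continuousAt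
    exact this.eventually (lt_mem_nhds hμ)
  obtain ⟨δ, hδ, h⟩ := Metric.eventually_nhds_iff.1 (e1.and (e2.and (e3.and (e4.and e5))))
  refine ⟨δ, hδ, fun w r hw hr => ?_⟩
  have h2 : dist ((w, r) : (ℝ × ℝ) × ℝ) (z, a) < δ := by
    rw [Prod.dist_eq]
    exact max_lt hw (by rwa [Real.dist_eq])
  obtain ⟨g1, g2, g3, g4, g5⟩ := h h2
  exact ⟨g1, g2, g3, by linarith, g5⟩

/-- the bound in the middle of the interval -/
lemma mid_ev (H : Profile L f A η) {z : ℝ × ℝ} {κ e a1 b1 : ℝ} (he : 0 < e) (h0 : 0 < a1)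
    (h1 : b1 < L) (hlt : ∀ r ∈ Icc a1 b1, HH f A η z r < 1) :
    ∃ δ > 0, ∀ (w : ℝ × ℝ) (t : ℝ), dist w z < δ → |t| < δ → ∀ r ∈ Icc a1 b1,
      (1 + κ * t) ^ 2 * HH f A η w r < 1 ∧
      (1 + κ * t / 2) * HH f A η w r / √(1 - (1 + κ * t) ^ 2 * HH f A η w r) <
        HH f A η z r / √(1 - HH f A η z r) + e := by
  have key : ∀ᶠ q : (ℝ × ℝ) × ℝ in 𝓝 (z, (0 : ℝ)), ∀ r ∈ Icc a1 b1,
      ((1 + κ * q.2) ^ 2 * HH f A η q.1 r < 1 ∧
      (1 + κ * q.2 / 2) * HH f A η q.1 r / √(1 - (1 + κ * q.2) ^ 2 * HH f A η q.1 r) <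
        HH f A η z r / √(1 - HH f A η z r) + e) := by
    refine isCompact_Icc.eventually_forall_of_forall_eventually
      (P := fun (q : (ℝ × ℝ) × ℝ) (r : ℝ) => (1 + κ * q.2) ^ 2 * HH f A η q.1 r < 1 ∧
      (1 + κ * q.2 / 2) * HH f A η q.1 r / √(1 - (1 + κ * q.2) ^ 2 * HH f A η q.1 r) <
        HH f A η z r / √(1 - HH f A η z r) + e) ?_
    intro r hr
    have hf : f r ≠ 0 :=
      (H.f_pos r (lt_of_lt_of_le h0 hr.1) (lt_of_le_of_lt hr.2 h1)).ne'
    have cH : ContinuousAt (fun p : ((ℝ × ℝ) × ℝ) × ℝ => HH f A η p.1.1 p.2) ((z, 0), r) :=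
      ContinuousAt.comp (g := fun q : (ℝ × ℝ) × ℝ => HH f A η q.1 q.2)
        (f := fun p : ((ℝ × ℝ) × ℝ) × ℝ => (p.1.1, p.2)) (H.HH_contAt hf) (by fun_prop)
    have cz : ContinuousAt (fun p : ((ℝ × ℝ) × ℝ) × ℝ => HH f A η z p.2) ((z, 0), r) :=
      ContinuousAt.comp (g := fun q : (ℝ × ℝ) × ℝ => HH f A η q.1 q.2)
        (f := fun p : ((ℝ × ℝ) × ℝ) × ℝ => (z, p.2)) (H.HH_contAt hf) (by fun_prop)
    have ct : ContinuousAt (fun p : ((ℝ × ℝ) × ℝ) × ℝ => p.1.2) ((z, 0), r) := by fun_prop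
    have cl : ContinuousAt (fun p : ((ℝ × ℝ) × ℝ) × ℝ => (1 + κ * p.1.2) ^ 2 * HH f A η p.1.1 p.2)
        ((z, 0), r) := ((continuousAt_const.add (continuousAt_const.mul ct)).pow 2).mul cH
    have v1 : 0 < 1 - HH f A η z r := by linarith [hlt r hr]
    have v2 : √(1 - HH f A η z r) ≠ 0 := (Real.sqrt_pos.2 v1).ne'
    have e1 : ∀ᶠ p : ((ℝ × ℝ) × ℝ) × ℝ in 𝓝 ((z, 0), r),
        (1 + κ * p.1.2) ^ 2 * HH f A η p.1.1 p.2 < 1 := by
      refine cl.eventually (gt_mem_nhds ?_)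
      simpa using hlt r hr
    have cq : ContinuousAt (fun p : ((ℝ × ℝ) × ℝ) × ℝ =>
        (1 + κ * p.1.2 / 2) * HH f A η p.1.1 p.2 /
          √(1 - (1 + κ * p.1.2) ^ 2 * HH f A η p.1.1 p.2) -
        HH f A η z p.2 / √(1 - HH f A η z p.2)) ((z, 0), r) := by
      refine ContinuousAt.sub (ContinuousAt.div ?_ ?_ ?_) (ContinuousAt.div cz ?_ ?_)
      · exact (continuousAt_const.add ((continuousAt_const.mul ct).div_const 2)).mul cH
      · exact (continuousAt_const.sub cl).sqrt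
      · simpa using v2
      · exact (continuousAt_const.sub cz).sqrt
      · simpa using v2
    have e2 : ∀ᶠ p : ((ℝ × ℝ) × ℝ) × ℝ in 𝓝 ((z, 0), r),
        (1 + κ * p.1.2 / 2) * HH f A η p.1.1 p.2 /
          √(1 - (1 + κ * p.1.2) ^ 2 * HH f A η p.1.1 p.2) -
        HH f A η z p.2 / √(1 - HH f A η z p.2) < e := by
      refine cq.eventually (gt_mem_nhds ?_)
      simpa using he
    filter_upwards [e1, e2] with p g1 g2
    exact ⟨g1, by linarith⟩
  obtain ⟨δ, hδ, h⟩ := Metric.eventually_nhds_iff.1 key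
  refine ⟨δ, hδ, fun w t hw ht => ?_⟩
  have h2 : dist ((w, t) : (ℝ × ℝ) × ℝ) (z, 0) < δ := by
    rw [Prod.dist_eq]
    exact max_lt hw (by rwa [Real.dist_eq, sub_zero])
  exact h h2

/-- difference of square roots in the middle -/
lemma sqrt_diff_mid {h k : ℝ} (hh : 0 ≤ h) (hk : 0 ≤ k) (hl : (1 + k) ^ 2 * h < 1) :
    √(1 - h) - √(1 - (1 + k) ^ 2 * h) ≤ k * ((1 + k / 2) * h / √(1 - (1 + k) ^ 2 * h)) := by
  have hv : 0 < 1 - (1 + k) ^ 2 * h := by linarith
  have h1 : h ≤ (1 + k) ^ 2 * h := by nlinarith [mul_nonneg hk hh, mul_nonneg (sq_nonneg k) hh]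
  have hsv : 0 < √(1 - (1 + k) ^ 2 * h) := Real.sqrt_pos.2 hv
  have hle : √(1 - (1 + k) ^ 2 * h) ≤ √(1 - h) := Real.sqrt_le_sqrt (by linarith)
  have s1 : √(1 - h) ^ 2 = 1 - h := Real.sq_sqrt (by linarith)
  have s2 : √(1 - (1 + k) ^ 2 * h) ^ 2 = 1 - (1 + k) ^ 2 * h := Real.sq_sqrt hv.le
  rw [← mul_div_assoc, le_div_iff₀ hsv]
  have h3 : (√(1 - h) - √(1 - (1 + k) ^ 2 * h)) * (2 * √(1 - (1 + k) ^ 2 * h)) ≤
      (√(1 - h) - √(1 - (1 + k) ^ 2 * h)) * (√(1 - h) + √(1 - (1 + k) ^ 2 * h)) :=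
    mul_le_mul_of_nonneg_left (by linarith) (by linarith)
  have h4 : (√(1 - h) - √(1 - (1 + k) ^ 2 * h)) * (√(1 - h) + √(1 - (1 + k) ^ 2 * h)) =
      2 * (k * ((1 + k / 2) * h)) := by
    have : (√(1 - h) - √(1 - (1 + k) ^ 2 * h)) * (√(1 - h) + √(1 - (1 + k) ^ 2 * h)) =
      √(1 - h) ^ 2 - √(1 - (1 + k) ^ 2 * h) ^ 2 := by ring
    rw [this, s1, s2]
    ring
  linarith

end DSCAux

open DSCAux in
/-- **Descent by enlarging the interval.** -/
theorem t_DSC (hmax : S_MAX) (hstb : S_STB) : S_DSC := by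
  intro L f A η H a b z ha hab hbL hz hwell hI
  have hbpos : 0 < b := ha.trans hab
  have haL : a < L := hab.trans hbL
  obtain ⟨I, hIdef⟩ : ∃ I : ℝ, I = ∫ r in a..b, HH f A η z r / √(1 - HH f A η z r) := ⟨_, rfl⟩
  rw [← hIdef] at hI
  obtain ⟨g, hg⟩ : ∃ g : ℝ, g = π * z.1 - I := ⟨_, rfl⟩
  have hgp : 0 < g := by rw [hg]; linarith
  -- contacts
  have hza : HH f A η z a = 1 := by
    have : 1 - HH f A η z a = 0 := hwell.left
    linarith
  have hzb : HH f A η z b = 1 := by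
    have : 1 - HH f A η z b = 0 := hwell.right
    linarith
  have hda : HHd f A η z a < 0 := by
    have h1 := (H.HH_hasDerivAt (z := z) (H.f_pos a ha haL).ne').const_sub 1
    have h2 := hwell.dleft
    rw [h1.deriv] at h2
    linarith
  have hdb : 0 < HHd f A η z b := by
    have h1 := (H.HH_hasDerivAt (z := z) (H.f_pos b hbpos hbL).ne').const_sub 1
    have h2 := hwell.dright
    rw [h1.deriv] at h2
    linarith
  obtain ⟨c, hcp, hca, hcb⟩ : ∃ c : ℝ, 0 < c ∧ 1 * HHd f A η z a < -c ∧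
      (-1) * HHd f A η z b < -c := by
    refine ⟨min (-HHd f A η z a) (HHd f A η z b) / 2, ?_, ?_, ?_⟩
    · have : 0 < min (-HHd f A η z a) (HHd f A η z b) := lt_min (by linarith) hdb
      linarith
    · have := min_le_left (-HHd f A η z a) (HHd f A η z b)
      linarith
    · have := min_le_right (-HHd f A η z a) (HHd f A η z b)
      linarith
  obtain ⟨κ, hκ⟩ : ∃ κ : ℝ, κ = c / 4 := ⟨_, rfl⟩
  have hκp : 0 < κ := by rw [hκ]; linarith
  obtain ⟨ω, hω⟩ : ∃ ω : ℝ, ω = κ * g / 16 := ⟨_, rfl⟩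
  have hωp : 0 < ω := by rw [hω]; positivity
  obtain ⟨μ, hμ⟩ : ∃ μ : ℝ, μ = z.1 - g / (8 * π) := ⟨_, rfl⟩
  have hμz : μ < z.1 := by
    rw [hμ]
    have : 0 < g / (8 * π) := by positivity
    linarith
  obtain ⟨δa, hδa, hna⟩ := nbhd H ha haL hza hca hωp hμz
  obtain ⟨δb, hδb, hnb⟩ := nbhd H hbpos hbL hzb hcb hωp hμz
  -- the length of the end pieces
  have hsc := Real.sqrt_pos.2 hcp
  obtain ⟨ρ, hρ, hρ1, hρ2, hρ3, hρ4⟩ : ∃ ρ : ℝ, 0 < ρ ∧ ρ ≤ (b - a) / 4 ∧ 4 * ρ ≤ δa ∧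
      4 * ρ ≤ δb ∧ 3 * ρ ≤ (g * √c / 96) ^ 2 := by
    have hμ : 0 < (g * √c / 96) ^ 2 := by positivity
    refine ⟨min (min ((b - a) / 4) (δa / 4)) (min (δb / 4) ((g * √c / 96) ^ 2 / 3)),
      ?_, ?_, ?_, ?_, ?_⟩
    · exact lt_min (lt_min (by linarith) (by linarith)) (lt_min (by linarith) (by linarith))
    · exact (min_le_left _ _).trans (min_le_left _ _)
    · have := (min_le_left (min ((b - a) / 4) (δa / 4))
        (min (δb / 4) ((g * √c / 96) ^ 2 / 3))).trans (min_le_right _ _)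
      linarith
    · have := (min_le_right (min ((b - a) / 4) (δa / 4))
        (min (δb / 4) ((g * √c / 96) ^ 2 / 3))).trans (min_le_left _ _)
      linarith
    · have := (min_le_right (min ((b - a) / 4) (δa / 4))
        (min (δb / 4) ((g * √c / 96) ^ 2 / 3))).trans (min_le_right _ _)
      linarith
  obtain ⟨e, he⟩ : ∃ e : ℝ, e = g / (8 * (b - a)) := ⟨_, rfl⟩
  have hba : 0 < b - a := by linarith
  have hep : 0 < e := by rw [he]; positivity
  have heb : e * (b - a) = g / 8 := by rw [he]; field_simp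
  have hlt : ∀ r ∈ Icc (a + ρ) (b - ρ), HH f A η z r < 1 := by
    intro r hr
    have : 0 < 1 - HH f A η z r := hwell.pos r ⟨by linarith [hr.1], by linarith [hr.2]⟩
    linarith
  obtain ⟨δm, hδm, hnm⟩ := mid_ev (κ := κ) H hep (by linarith : 0 < a + ρ)
    (by linarith : b - ρ < L) hlt
  obtain ⟨hex, -, -, -⟩ := hmax L f A η H
  have habT : (a, b) ∈ Tri L := ⟨ha.le, hab.le, hbL.le⟩
  have hne0 : ((a, b) : ℝ × ℝ) ≠ (0, 0) := by
    intro h
    exact ha.ne' (congrArg Prod.fst h)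
  have hneL : ((a, b) : ℝ × ℝ) ≠ (L, L) := by
    intro h
    exact haL.ne (congrArg Prod.fst h)
  obtain ⟨δs, hδs, hs⟩ := hstb L f A η H (a, b) z habT hne0 hneL hz
    (min δa (min δb δm)) (lt_min hδa (lt_min hδb hδm))
  obtain ⟨ε, hε, hε1, hε2, hε3, hε4⟩ : ∃ ε : ℝ, 0 < ε ∧ ε ≤ ρ ∧ 2 * ε ≤ δm ∧ 2 * ε ≤ δs ∧
      ε ≤ 4 / c := by
    refine ⟨min (min ρ (δm / 2)) (min (δs / 2) (4 / c)), ?_, ?_, ?_, ?_, ?_⟩
    · have : 0 < 4 / c := by positivity
      exact lt_min (lt_min hρ (by linarith)) (lt_min (by linarith) this)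
    · exact (min_le_left _ _).trans (min_le_left _ _)
    · have := (min_le_left (min ρ (δm / 2)) (min (δs / 2) (4 / c))).trans (min_le_right _ _)
      linarith
    · have := (min_le_right (min ρ (δm / 2)) (min (δs / 2) (4 / c))).trans (min_le_left _ _)
      linarith
    · exact (min_le_right _ _).trans (min_le_right _ _)
  refine ⟨ε, hε, fun y hy hya t ht htε => ?_⟩
  obtain ⟨y1, y2⟩ := y
  rw [Prod.dist_eq, max_lt_iff, Real.dist_eq, Real.dist_eq] at hya
  simp only at hya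
  obtain ⟨hy1, hy2⟩ := hya
  rw [abs_lt] at hy1 hy2
  obtain ⟨hT1, hT2, hT3⟩ := hy
  simp only at hT1 hT2 hT3
  have hmv : ((y1, y2) : ℝ × ℝ) + t • ((-1, 1) : ℝ × ℝ) = (y1 - t, y2 + t) := by
    ext
    · simp only [Prod.smul_mk, smul_eq_mul, Prod.mk_add_mk]; ring
    · simp
  rw [hmv]
  have hzz : dist z z < δa := by rw [dist_self]; exact hδa
  have hzz' : dist z z < δb := by rw [dist_self]; exact hδb
  have hpos : 0 < y1 - t := (hna z (y1 - t) hzz (by rw [abs_lt]; constructor <;> linarith)).1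
  have hposL : y2 + t < L := (hnb z (y2 + t) hzz' (by rw [abs_lt]; constructor <;> linarith)).2.1
  have hT' : (y1 - t, y2 + t) ∈ Tri L := ⟨hpos.le, by simp only; linarith, hposL.le⟩
  refine ⟨hT', ?_⟩
  obtain ⟨w, hw⟩ := hex _ hT'
  have hwz : dist w z < min δa (min δb δm) := by
    refine hs _ hT' ?_ w hw
    rw [Prod.dist_eq, max_lt_iff, Real.dist_eq, Real.dist_eq, abs_lt, abs_lt]
    simp only
    refine ⟨⟨by linarith, by linarith⟩, by linarith, by linarith⟩
  have hwa : dist w z < δa := hwz.trans_le (min_le_left _ _)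
  have hwb : dist w z < δb := hwz.trans_le ((min_le_right _ _).trans (min_le_left _ _))
  have hwm : dist w z < δm := hwz.trans_le ((min_le_right _ _).trans (min_le_right _ _))
  have hna' : ∀ r ∈ Icc (y1 - t) (a + ρ), 0 < r ∧ r < L ∧ 1 * HHd f A η w r < -c ∧
      1 - HH f A η w r ≤ ω ^ 2 ∧ μ < w.1 := by
    intro r hr
    refine hna w r hwa ?_
    rw [abs_lt]
    exact ⟨by linarith [hr.1], by linarith [hr.2]⟩
  have hnb' : ∀ r ∈ Icc (b - ρ) (y2 + t), 0 < r ∧ r < L ∧ (-1) * HHd f A η w r < -c ∧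
      1 - HH f A η w r ≤ ω ^ 2 ∧ μ < w.1 := by
    intro r hr
    refine hnb w r hwb ?_
    rw [abs_lt]
    exact ⟨by linarith [hr.1], by linarith [hr.2]⟩
  have hnm' := hnm w t hwm (by rw [abs_of_pos ht]; linarith)
  have hw1 : μ < w.1 := (hna' (y1 - t) ⟨le_rfl, by linarith⟩).2.2.2.2
  -- the norm decreases at the ends
  have hmonoa : ∀ r ∈ Icc (y1 - t) (a + ρ), HH f A η w r ≤ 1 - c * (r - (y1 - t)) := by
    intro r hr
    have hder : ∀ x ∈ Icc (y1 - t) (a + ρ), HasDerivAt (HH f A η w) (HHd f A η w x) x := by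
      intro x hx
      obtain ⟨g1, g2, -⟩ := hna' x hx
      exact H.HH_hasDerivAt (H.f_pos x g1 g2).ne'
    have h2 := Convex.image_sub_le_mul_sub_of_deriv_le (convex_Icc (y1 - t) (a + ρ))
      (f := HH f A η w) (fun x hx => (hder x hx).continuousAt.continuousWithinAt)
      (fun x hx => (hder x (interior_subset hx)).differentiableAt.differentiableWithinAt)
      (C := -c) (fun x hx => by
        rw [(hder x (interior_subset hx)).deriv]
        have := (hna' x (interior_subset hx)).2.2.1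
        linarith)
      (y1 - t) ⟨le_rfl, by linarith⟩ r hr hr.1
    have h3 : HH f A η w (y1 - t) ≤ 1 := by
      obtain ⟨g1, g2, -⟩ := hna' (y1 - t) ⟨le_rfl, by linarith⟩
      exact (H.adm_iff g1 g2).1 (hw.1 (y1 - t) ⟨le_rfl, by simp only; linarith⟩)
    linarith
  have hmonob : ∀ r ∈ Icc (b - ρ) (y2 + t), HH f A η w r ≤ 1 - c * ((y2 + t) - r) := by
    intro r hr
    have hder : ∀ x ∈ Icc (b - ρ) (y2 + t), HasDerivAt (HH f A η w) (HHd f A η w x) x := by
      intro x hx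
      obtain ⟨g1, g2, -⟩ := hnb' x hx
      exact H.HH_hasDerivAt (H.f_pos x g1 g2).ne'
    have h2 := Convex.mul_sub_le_image_sub_of_le_deriv (convex_Icc (b - ρ) (y2 + t))
      (f := HH f A η w) (fun x hx => (hder x hx).continuousAt.continuousWithinAt)
      (fun x hx => (hder x (interior_subset hx)).differentiableAt.differentiableWithinAt)
      (C := c) (fun x hx => by
        rw [(hder x (interior_subset hx)).deriv]
        have := (hnb' x (interior_subset hx)).2.2.1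
        linarith)
      r hr (y2 + t) ⟨by linarith, le_rfl⟩ hr.2
    have h3 : HH f A η w (y2 + t) ≤ 1 := by
      obtain ⟨g1, g2, -⟩ := hnb' (y2 + t) ⟨by linarith, le_rfl⟩
      exact (H.adm_iff g1 g2).1 (hw.1 (y2 + t) ⟨by simp only; linarith, le_rfl⟩)
    linarith
  -- the stretched covector
  obtain ⟨l, hl⟩ : ∃ l : ℝ, l = 1 + κ * t := ⟨_, rfl⟩
  have hk1 : κ * t ≤ 1 := by
    have : t ≤ 4 / c := htε.trans hε4
    rw [le_div_iff₀ hcp] at this
    rw [hκ]
    linarith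
  have hk0 : 0 < κ * t := by positivity
  have hl1 : 1 ≤ l := by rw [hl]; linarith
  have hl2 : l ^ 2 ≤ 1 + 3 * (κ * t) := by
    have h1 : κ * t * (κ * t) ≤ κ * t * 1 := mul_le_mul_of_nonneg_left hk1 hk0.le
    have h2 : l ^ 2 = 1 + 2 * (κ * t) + κ * t * (κ * t) := by rw [hl]; ring
    rw [h2]
    linarith
  have hl3 : 1 ≤ l ^ 2 := one_le_pow₀ hl1
  have hct : 4 * (κ * t) = c * t := by rw [hκ]; ring
  have hstretch : ∀ h : ℝ, 0 ≤ h → h ≤ 1 - c * t → l ^ 2 * h ≤ 1 := by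
    intro h h4 h3
    have h5 : 0 ≤ 1 - c * t := h4.trans h3
    calc l ^ 2 * h ≤ l ^ 2 * (1 - c * t) := mul_le_mul_of_nonneg_left h3 (by positivity)
      _ ≤ (1 + 3 * (κ * t)) * (1 - c * t) := mul_le_mul_of_nonneg_right hl2 h5
      _ = 1 - κ * t - 12 * (κ * t) ^ 2 := by rw [← hct]; ring
      _ ≤ 1 := by
        have := sq_nonneg (κ * t)
        linarith
  have hlw : l • w ∈ KK f A η (y1, y2) := by
    intro r hr
    simp only at hr
    have h4 := HH_nonneg (f := f) (A := A) (η := η) w r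
    rcases le_total r (a + ρ) with h | h
    · have hr' : r ∈ Icc (y1 - t) (a + ρ) := ⟨by linarith [hr.1], h⟩
      obtain ⟨g1, g2, -⟩ := hna' r hr'
      rw [H.adm_iff g1 g2, HH_smul]
      have h2 := hmonoa r hr'
      have h3 : c * t ≤ c * (r - (y1 - t)) :=
        mul_le_mul_of_nonneg_left (by linarith [hr.1]) hcp.le
      exact hstretch _ h4 (by linarith)
    · rcases le_total (b - ρ) r with h' | h'
      · have hr' : r ∈ Icc (b - ρ) (y2 + t) := ⟨h', by linarith [hr.2]⟩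
        obtain ⟨g1, g2, -⟩ := hnb' r hr'
        rw [H.adm_iff g1 g2, HH_smul]
        have h2 := hmonob r hr'
        have h3 : c * t ≤ c * ((y2 + t) - r) :=
          mul_le_mul_of_nonneg_left (by linarith [hr.2]) hcp.le
        exact hstretch _ h4 (by linarith)
      · rw [H.adm_iff (by linarith) (by linarith), HH_smul]
        have := (hnm' r ⟨h, h'⟩).1
        rw [hl]
        exact this.le
  obtain ⟨zy, hzy⟩ := hex (y1, y2) ⟨hT1, hT2, hT3⟩
  have hD1 : FF f A η (y1, y2) (l • w) ≤ DD f A η (y1, y2) := hzy.le_DD hlw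
  have hD2 : DD f A η (y1 - t, y2 + t) = FF f A η (y1 - t, y2 + t) w := hw.DD_eq
  refine lt_of_lt_of_le ?_ hD1
  rw [hD2]
  unfold FF
  simp only [Prod.smul_fst, smul_eq_mul]
  have hsplit : ∫ r in (y1 - t)..(y2 + t), √(1 - HH f A η w r) =
      (∫ r in (y1 - t)..y1, √(1 - HH f A η w r)) + (∫ r in y1..y2, √(1 - HH f A η w r)) +
        ∫ r in y2..(y2 + t), √(1 - HH f A η w r) := by
    rw [intervalIntegral.integral_add_adjacent_intervals (H.ii w _ _) (H.ii w _ _),
      intervalIntegral.integral_add_adjacent_intervals (H.ii w _ _) (H.ii w _ _)]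
  have hI1 : ∫ r in (y1 - t)..y1, √(1 - HH f A η w r) ≤ ω * t := by
    have h2 : ‖∫ r in (y1 - t)..y1, √(1 - HH f A η w r)‖ ≤ ω * |y1 - (y1 - t)| := by
      apply intervalIntegral.norm_integral_le_of_norm_le_const
      intro r hr
      rw [uIoc_of_le (by linarith)] at hr
      rw [Real.norm_of_nonneg (Real.sqrt_nonneg _)]
      refine Real.sqrt_le_iff.2 ⟨hωp.le, ?_⟩
      exact (hna' r ⟨hr.1.le, by linarith [hr.2]⟩).2.2.2.1
    have h3 : |y1 - (y1 - t)| = t := by
      rw [show y1 - (y1 - t) = t by ring, abs_of_pos ht]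
    rw [h3] at h2
    exact (le_abs_self _).trans h2
  have hI3 : ∫ r in y2..(y2 + t), √(1 - HH f A η w r) ≤ ω * t := by
    have h2 : ‖∫ r in y2..(y2 + t), √(1 - HH f A η w r)‖ ≤ ω * |(y2 + t) - y2| := by
      apply intervalIntegral.norm_integral_le_of_norm_le_const
      intro r hr
      rw [uIoc_of_le (by linarith)] at hr
      rw [Real.norm_of_nonneg (Real.sqrt_nonneg _)]
      refine Real.sqrt_le_iff.2 ⟨hωp.le, ?_⟩
      exact (hnb' r ⟨by linarith [hr.1], hr.2⟩).2.2.2.1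
    have h3 : |(y2 + t) - y2| = t := by
      rw [show (y2 + t) - y2 = t by ring, abs_of_pos ht]
    rw [h3] at h2
    exact (le_abs_self _).trans h2
  -- the three pieces
  have hii : ∀ u v : ℝ, IntervalIntegrable
      (fun r => √(1 - HH f A η w r) - √(1 - HH f A η (l • w) r)) volume u v := fun u v =>
    (H.ii w _ _).sub (H.ii (l • w) _ _)
  have hE : ∀ x : ℝ, x ≤ 3 * ρ →
      2 * ((l ^ 2 - 1) / √c) * √x ≤ κ * t * (g / 16) := by
    intro x hx
    have hsq : √x ≤ g * √c / 96 := by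
      refine Real.sqrt_le_iff.2 ⟨by positivity, ?_⟩
      linarith
    calc 2 * ((l ^ 2 - 1) / √c) * √x
        ≤ 2 * ((3 * (κ * t)) / √c) * (g * √c / 96) := by
          apply mul_le_mul _ hsq (Real.sqrt_nonneg _) (by positivity)
          apply mul_le_mul_of_nonneg_left _ (by norm_num)
          apply div_le_div_of_nonneg_right _ hsc.le
          linarith
      _ = κ * t * (g / 16) := by
          field_simp
          ring
  have hP1 : ∫ r in y1..(a + ρ), (√(1 - HH f A η w r) - √(1 - HH f A η (l • w) r)) ≤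
      κ * t * (g / 16) := by
    obtain ⟨i1, i2⟩ := DILAux.int_inv_sqrt (c := y1 - t) (a := y1) (b := a + ρ)
      (K := (l ^ 2 - 1) / √c) (by linarith) (by linarith)
      (div_nonneg (by linarith) (Real.sqrt_nonneg _))
    refine le_trans ?_ (i2.trans (hE _ (by linarith)))
    refine intervalIntegral.integral_mono_on (by linarith) (hii _ _) i1 ?_
    intro r hr
    rw [HH_smul]
    refine DILAux.sqrt_diff hcp (by linarith [hr.1]) ?_ hl3
    exact hmonoa r ⟨by linarith [hr.1], hr.2⟩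
  have hP3 : ∫ r in (b - ρ)..y2, (√(1 - HH f A η w r) - √(1 - HH f A η (l • w) r)) ≤
      κ * t * (g / 16) := by
    obtain ⟨i1, i2⟩ := int_inv_sqrt' (c := y2 + t) (a := b - ρ) (b := y2)
      (K := (l ^ 2 - 1) / √c) (by linarith) (by linarith)
      (div_nonneg (by linarith) (Real.sqrt_nonneg _))
    refine le_trans ?_ (i2.trans (hE _ (by linarith)))
    refine intervalIntegral.integral_mono_on (by linarith) (hii _ _) i1 ?_
    intro r hr
    rw [HH_smul]
    refine DILAux.sqrt_diff hcp (by linarith [hr.2]) ?_ hl3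
    exact hmonob r ⟨hr.1, by linarith [hr.2]⟩
  have hGc : ContinuousOn (HH f A η z) (Icc a b) := by
    intro r hr
    exact (H.HH_contDiffAt (H.f_pos r (lt_of_lt_of_le ha hr.1)
      (lt_of_le_of_lt hr.2 hbL)).ne').continuousAt.continuousWithinAt
  have hGi : IntervalIntegrable (fun r => HH f A η z r / √(1 - HH f A η z r)) volume a b := by
    rw [intervalIntegrable_iff_integrableOn_Ioo_of_le hab.le]
    exact hwell.integrableOn hGc
  have hP2 : ∫ r in (a + ρ)..(b - ρ), (√(1 - HH f A η w r) - √(1 - HH f A η (l • w) r)) ≤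
      κ * t * (I + g / 8) := by
    have hGi' : IntervalIntegrable (fun r => HH f A η z r / √(1 - HH f A η z r)) volume
        (a + ρ) (b - ρ) := by
      refine hGi.mono_set ?_
      rw [uIcc_of_le hab.le, uIcc_of_le (by linarith)]
      exact Icc_subset_Icc (by linarith) (by linarith)
    have h1 : ∫ r in (a + ρ)..(b - ρ), (√(1 - HH f A η w r) - √(1 - HH f A η (l • w) r)) ≤
        ∫ r in (a + ρ)..(b - ρ), κ * t * (HH f A η z r / √(1 - HH f A η z r) + e) := by
      refine intervalIntegral.integral_mono_on (by linarith) (hii _ _)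
        ((hGi'.add intervalIntegrable_const).const_mul _) ?_
      intro r hr
      obtain ⟨g1, g2⟩ := hnm' r hr
      rw [HH_smul, hl]
      refine (sqrt_diff_mid (HH_nonneg w r) hk0.le g1).trans ?_
      exact mul_le_mul_of_nonneg_left g2.le hk0.le
    refine h1.trans ?_
    rw [intervalIntegral.integral_const_mul]
    refine mul_le_mul_of_nonneg_left ?_ hk0.le
    rw [intervalIntegral.integral_add hGi' intervalIntegrable_const,
      intervalIntegral.integral_const]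
    have h2 : ∫ r in (a + ρ)..(b - ρ), HH f A η z r / √(1 - HH f A η z r) ≤ I := by
      rw [hIdef]
      refine intervalIntegral.integral_mono_interval (by linarith) (by linarith) (by linarith)
        ?_ hGi
      exact Eventually.of_forall fun r => div_nonneg (HH_nonneg z r) (Real.sqrt_nonneg _)
    have h3 : ((b - ρ) - (a + ρ)) • e ≤ g / 8 := by
      have h4 : 0 < e * ρ := mul_pos hep hρ
      have h5 : ((b - ρ) - (a + ρ)) • e = e * (b - a) - 2 * (e * ρ) := by
        rw [smul_eq_mul]; ring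
      rw [h5, ← heb]
      linarith
    linarith
  have hsum : (∫ r in y1..y2, √(1 - HH f A η w r)) - (∫ r in y1..y2, √(1 - HH f A η (l • w) r)) ≤
      κ * t * (g / 16) + κ * t * (I + g / 8) + κ * t * (g / 16) := by
    rw [← intervalIntegral.integral_sub (H.ii w _ _) (H.ii (l • w) _ _),
      ← intervalIntegral.integral_add_adjacent_intervals (hii y1 (b - ρ)) (hii (b - ρ) y2),
      ← intervalIntegral.integral_add_adjacent_intervals (hii y1 (a + ρ)) (hii (a + ρ) (b - ρ))]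
    linarith
  -- final estimate
  have hlast : π * (κ * t) * μ ≤ π * (κ * t) * w.1 :=
    mul_le_mul_of_nonneg_left hw1.le (by positivity)
  have hμ' : π * (κ * t) * μ = κ * t * (π * z.1 - g / 8) := by
    rw [hμ]
    field_simp
  have hfin : ω * t = κ * t * (g / 16) := by rw [hω]; ring
  have hP : 0 < κ * t * g := by positivity
  have hz1 : π * z.1 = I + g := by rw [hg]; ring
  rw [hz1] at hμ'
  have e1 : π * (l * w.1) = π * w.1 + π * (κ * t) * w.1 := by rw [hl]; ring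
  rw [hsplit, e1]
  have e2 : κ * t * (I + g - g / 8) = κ * t * I + κ * t * g * (7 / 8) := by ring
  have e3 : κ * t * (g / 16) = κ * t * g / 16 := by ring
  have e4 : κ * t * (I + g / 8) = κ * t * I + κ * t * g / 8 := by ring
  rw [hμ', e2] at hlast
  rw [e3, e4] at hsum
  rw [e3] at hfin
  linarith

end TSP
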