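import Pool.Agent.TSP.Stmts

/-!
# Descent, norm less than one at the left end
-/

set_option autoImplicit false

namespace TSP

open Set MeasureTheory Real Filter Topology

namespace ENLAux

lemma shift_eq (y : ℝ × ℝ) (t : ℝ) : y + t • ((1, 0) : ℝ × ℝ) = (y.1 + t, y.2) := by
  ext <;> simp

lemma dist_shift {y : ℝ × ℝ} {t : ℝ} (ht : 0 ≤ t) : dist (y + t • ((1, 0) : ℝ × ℝ)) y = t := by
  rw [shift_eq, Prod.dist_eq, Real.dist_eq, Real.dist_eq]
  simp [abs_of_nonneg ht, ht]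

/-- uniform strict inequality near the left end -/
lemma near {L : ℝ} {f A η : ℝ → ℝ} (H : Profile L f A η) {z : ℝ × ℝ} {a : ℝ} (h0 : 0 < a)
    (h1 : a < L) (hz : HH f A η z a < 1) :
    ∃ δ > 0, δ ≤ a ∧ δ ≤ L - a ∧ ∀ w : ℝ × ℝ, dist w z < δ → ∀ r : ℝ, |r - a| < δ →
      HH f A η w r < 1 := by
  have hc := H.HH_contAt (z := z) (H.f_pos a h0 h1).ne'
  have hev : ∀ᶠ q : (ℝ × ℝ) × ℝ in 𝓝 (z, a), HH f A η q.1 q.2 < 1 :=
    hc.eventually_lt continuousAt_const hz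
  obtain ⟨δ, hδ, hb⟩ := Metric.eventually_nhds_iff.1 hev
  refine ⟨min δ (min a (L - a)), lt_min hδ (lt_min h0 (by linarith)),
    le_trans (min_le_right _ _) (min_le_left _ _),
    le_trans (min_le_right _ _) (min_le_right _ _), ?_⟩
  intro w hw r hr
  have hw' := lt_of_lt_of_le hw (min_le_left _ _)
  have hr' := lt_of_lt_of_le hr (min_le_left _ _)
  refine hb (y := (w, r)) ?_
  rw [Prod.dist_eq]
  exact max_lt hw' (by rw [Real.dist_eq]; exact hr')

end ENLAux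

open ENLAux in
theorem t_ENL (hmax : S_MAX) (hstb : S_STB) : S_ENL := by
  intro L f A η H x z hx hx0 hx1 hz hlt
  have haL : x.1 < L := lt_of_lt_of_le hx1 hx.2.2
  obtain ⟨δ₁, hδ₁, hδa, hδL, hnear⟩ := near H hx0 haL hlt
  have hne0 : x ≠ (0, 0) := by
    intro h; rw [h] at hx0; exact lt_irrefl _ hx0
  have hneL : x ≠ (L, L) := by
    intro h; rw [h] at haL; exact lt_irrefl _ haL
  obtain ⟨δ₂, hδ₂, hstab⟩ := hstb L f A η H x z hx hne0 hneL hz δ₁ hδ₁
  set ε : ℝ := min δ₁ (min δ₂ (x.2 - x.1)) / 4 with hεdef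
  have hm : 0 < min δ₁ (min δ₂ (x.2 - x.1)) := lt_min hδ₁ (lt_min hδ₂ (by linarith))
  have hε : 0 < ε := by rw [hεdef]; positivity
  have hε1 : 4 * ε ≤ δ₁ := by
    have := min_le_left δ₁ (min δ₂ (x.2 - x.1)); rw [hεdef]; linarith
  have hε2 : 4 * ε ≤ δ₂ := by
    have h1 := min_le_right δ₁ (min δ₂ (x.2 - x.1))
    have h2 := min_le_left δ₂ (x.2 - x.1)
    rw [hεdef]; linarith
  have hε3 : 4 * ε ≤ x.2 - x.1 := by
    have h1 := min_le_right δ₁ (min δ₂ (x.2 - x.1))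
    have h2 := min_le_right δ₂ (x.2 - x.1)
    rw [hεdef]; linarith
  refine ⟨ε, hε, ?_⟩
  intro y hy hyx t ht htε
  have hy1 : |y.1 - x.1| < ε := by
    have := lt_of_le_of_lt (le_max_left (dist y.1 x.1) (dist y.2 x.2)) (by
      rw [Prod.dist_eq] at hyx; exact hyx)
    rwa [Real.dist_eq] at this
  have hy2 : |y.2 - x.2| < ε := by
    have := lt_of_le_of_lt (le_max_right (dist y.1 x.1) (dist y.2 x.2)) (by
      rw [Prod.dist_eq] at hyx; exact hyx)
    rwa [Real.dist_eq] at this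
  have a1 := abs_lt.1 hy1
  have a2 := abs_lt.1 hy2
  have hy' : y + t • ((1, 0) : ℝ × ℝ) ∈ Tri L := by
    rw [shift_eq]
    refine ⟨?_, ?_, hy.2.2⟩
    · show 0 ≤ y.1 + t
      linarith [hy.1]
    · show y.1 + t ≤ y.2
      linarith
  refine ⟨hy', ?_⟩
  obtain ⟨w, hw⟩ := (hmax L f A η H).1 _ hy'
  obtain ⟨u, hu⟩ := (hmax L f A η H).1 _ hy
  have hdist : dist (y + t • ((1, 0) : ℝ × ℝ)) x < δ₂ := by
    have h1 := dist_triangle (y + t • ((1, 0) : ℝ × ℝ)) y x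
    rw [dist_shift ht.le] at h1
    linarith
  have hwz : dist w z < δ₁ := hstab _ hy' hdist w hw
  have hlow : ∀ r : ℝ, y.1 ≤ r → r ≤ y.1 + t → |r - x.1| < δ₁ := by
    intro r h1 h2
    rw [abs_lt]
    constructor <;> linarith
  have hwK : w ∈ KK f A η y := by
    intro r hr
    rcases le_total (y.1 + t) r with h | h
    · refine hw.1 r ?_
      rw [shift_eq]
      exact ⟨h, hr.2⟩
    · have hr1 := hlow r hr.1 h
      have hr2 := abs_lt.1 hr1
      exact (H.adm_iff (by linarith) (by linarith)).2 (hnear w hwz r hr1).le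
  rw [hw.DD_eq]
  refine lt_of_lt_of_le ?_ (hu.le_DD hwK)
  unfold FF
  rw [shift_eq]
  show (∫ r in (y.1 + t)..y.2, √(1 - HH f A η w r)) + π * w.1
    < (∫ r in y.1..y.2, √(1 - HH f A η w r)) + π * w.1
  have hsplit := intervalIntegral.integral_add_adjacent_intervals
    (H.ii w y.1 (y.1 + t)) (H.ii w (y.1 + t) y.2)
  have hpos : 0 < ∫ r in y.1..(y.1 + t), √(1 - HH f A η w r) := by
    refine intervalIntegral.intervalIntegral_pos_of_pos_on (H.ii w _ _) ?_ (by linarith)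
    intro r hr
    have := hnear w hwz r (hlow r hr.1.le hr.2.le)
    exact Real.sqrt_pos.2 (by linarith)
  linarith

end TSP
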