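import Pool.Agent.TSP.Stmts

/-!
# Descent, norm less than one at the right end

Reflection of the statement for the left end.
-/

set_option autoImplicit false

namespace TSP

open Set MeasureTheory Real Filter Topology

theorem t_ENR (href : S_REF) (henl : S_ENL) : S_ENR := by
  intro L f A η H x z hx h2 h12 hM hH
  obtain ⟨H', hHH, hMx, hDesc⟩ := href L f A η H
  obtain ⟨hx1, hx2, hx3⟩ := hx
  have key := henl L (fun r => f (L - r)) (fun r => A (L - r)) (fun r => η (L - r)) H'
    (L - x.2, L - x.1) z ⟨by show 0 ≤ L - x.2; linarith, by show L - x.2 ≤ L - x.1; linarith,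
      by show L - x.1 ≤ L; linarith⟩ (by show 0 < L - x.2; linarith)
    (by show L - x.2 < L - x.1; linarith) (hMx x z hM)
    (by
      rw [hHH]
      show HH f A η z (L - (L - x.2)) < 1
      rw [sub_sub_cancel]
      exact hH)
  have key2 := hDesc x (1, 0) key
  simpa using key2

end TSP
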