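import Pool.Agent.TSP.Stmts

/-!
# First order conditions at a maximizer (`S_GRD`)
-/

set_option autoImplicit false

namespace TSP.GRDAux

open Set MeasureTheory Real Filter Topology

variable {L : ℝ} {f A η : ℝ → ℝ} {a b : ℝ} {z : ℝ × ℝ}

lemma BB_contAt (H : Profile L f A η) {r : ℝ} (z w : ℝ × ℝ) (hf : f r ≠ 0) :
    ContinuousAt (BB f A η z w) r := by
  have hη := (H.η_pos r).ne'
  have h1 : ContinuousAt f r := H.f_cont.continuousAt
  have h2 : ContinuousAt A r := H.A_cont.continuousAt
  have h3 : ContinuousAt η r := H.η_cont.continuousAt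
  exact (continuousAt_const.div (h1.pow 2) (pow_ne_zero 2 hf)).add
    (((continuousAt_const.sub (h2.mul continuousAt_const)).mul
      (continuousAt_const.sub (h2.mul continuousAt_const))).div (h3.pow 2) (pow_ne_zero 2 hη))

lemma HH_contAt (H : Profile L f A η) {r : ℝ} (z : ℝ × ℝ) (hf : f r ≠ 0) :
    ContinuousAt (HH f A η z) r := (H.HH_contDiffAt hf).continuousAt

/-- comparison of square roots -/
lemma abs_sqrt_sub_le {X G : ℝ} (hG : 0 < G) : |√X - √G| ≤ |X - G| / √G := by
  have hs : 0 < √G := Real.sqrt_pos.2 hG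
  rw [le_div_iff₀ hs]
  have h1 : 0 ≤ √X := Real.sqrt_nonneg _
  rcases le_total 0 X with hX | hX
  · have e : X - G = (√X - √G) * (√X + √G) := by
      have := Real.sq_sqrt hX
      have := Real.sq_sqrt hG.le
      nlinarith
    rw [e, abs_mul, abs_of_nonneg (show 0 ≤ √X + √G by positivity)]
    exact mul_le_mul_of_nonneg_left (by linarith) (abs_nonneg _)
  · rw [Real.sqrt_eq_zero_of_nonpos hX, zero_sub, abs_neg, abs_of_pos hs,
      Real.mul_self_sqrt hG.le, abs_sub_comm]
    exact le_trans (by linarith) (le_abs_self _)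

/-- small displacements into the ball at both ends stay in the convex set -/
lemma ev_mem (H : Profile L f A η) (ha : 0 < a) (hbL : b < L)
    (hz : z ∈ KK f A η (a, b)) (hw : SGR.Well (fun r => 1 - HH f A η z r) a b) (w : ℝ × ℝ)
    (wa : BB f A η z w a < 0) (wb : BB f A η z w b < 0) :
    ∀ᶠ t : ℝ in 𝓝 0, 0 < t → z + t • w ∈ KK f A η (a, b) := by
  have hf : ∀ r ∈ Icc a b, f r ≠ 0 := fun r hr =>
    (H.f_pos r (lt_of_lt_of_le ha hr.1) (lt_of_le_of_lt hr.2 hbL)).ne'
  have hle : ∀ r ∈ Icc a b, HH f A η z r ≤ 1 := fun r hr => H.HH_le_one (hz r hr)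
  have key : ∀ᶠ t : ℝ in 𝓝 0, ∀ r ∈ Icc a b,
      (0 < t → r ∈ Icc a b → HH f A η (z + t • w) r ≤ 1) := by
    refine isCompact_Icc.eventually_forall_of_forall_eventually
      (P := fun t r => 0 < t → r ∈ Icc a b → HH f A η (z + t • w) r ≤ 1) ?_
    intro r hr
    have c0 : ContinuousAt (fun q : ℝ × ℝ => q.1) ((0 : ℝ), r) := continuous_fst.continuousAt
    have c1 : ContinuousAt (fun q : ℝ × ℝ => HH f A η z q.2) ((0 : ℝ), r) :=
      ContinuousAt.comp (g := HH f A η z) (f := fun q : ℝ × ℝ => q.2)
        (HH_contAt H z (hf r hr)) continuous_snd.continuousAt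
    have c2 : ContinuousAt (fun q : ℝ × ℝ => BB f A η z w q.2) ((0 : ℝ), r) :=
      ContinuousAt.comp (g := BB f A η z w) (f := fun q : ℝ × ℝ => q.2)
        (BB_contAt H z w (hf r hr)) continuous_snd.continuousAt
    have c3 : ContinuousAt (fun q : ℝ × ℝ => HH f A η w q.2) ((0 : ℝ), r) :=
      ContinuousAt.comp (g := HH f A η w) (f := fun q : ℝ × ℝ => q.2)
        (HH_contAt H w (hf r hr)) continuous_snd.continuousAt
    rcases eq_or_lt_of_le (hle r hr) with h1 | h1
    · have hB : BB f A η z w r < 0 := by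
        rcases eq_or_lt_of_le hr.1 with h2 | h2
        · rw [← h2]; exact wa
        · rcases eq_or_lt_of_le hr.2 with h3 | h3
          · rw [h3]; exact wb
          · have := hw.pos r ⟨h2, h3⟩
            simp only [h1, sub_self, lt_self_iff_false] at this
      have c4 : ContinuousAt (fun q : ℝ × ℝ => 2 * BB f A η z w q.2 + q.1 * HH f A η w q.2)
          ((0 : ℝ), r) := (continuousAt_const.mul c2).add (c0.mul c3)
      have hneg : (fun q : ℝ × ℝ => 2 * BB f A η z w q.2 + q.1 * HH f A η w q.2) ((0 : ℝ), r)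
          < 0 := by
        show 2 * BB f A η z w r + 0 * HH f A η w r < 0
        linarith
      filter_upwards [c4.eventually (gt_mem_nhds hneg)] with q hq ht hr'
      rw [HH_add]
      have h5 := hle q.2 hr'
      have h6 : q.1 * (2 * BB f A η z w q.2 + q.1 * HH f A η w q.2) < 0 :=
        mul_neg_of_pos_of_neg ht hq
      nlinarith
    · have c4 : ContinuousAt (fun q : ℝ × ℝ => HH f A η z q.2 + 2 * q.1 * BB f A η z w q.2
          + q.1 ^ 2 * HH f A η w q.2) ((0 : ℝ), r) :=
        (c1.add ((continuousAt_const.mul c0).mul c2)).add ((c0.pow 2).mul c3)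
      have hlt : (fun q : ℝ × ℝ => HH f A η z q.2 + 2 * q.1 * BB f A η z w q.2
          + q.1 ^ 2 * HH f A η w q.2) ((0 : ℝ), r) < 1 := by
        show HH f A η z r + 2 * 0 * BB f A η z w r + (0 : ℝ) ^ 2 * HH f A η w r < 1
        simpa using h1
      filter_upwards [c4.eventually (gt_mem_nhds hlt)] with q hq _ _
      rw [HH_add]
      exact hq.le
  filter_upwards [key] with t ht ht0
  intro r hr
  exact (H.adm_iff (lt_of_lt_of_le ha hr.1) (lt_of_le_of_lt hr.2 hbL)).2 (ht r hr ht0 hr)

/-- the one-sided first order condition -/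
lemma first_order (H : Profile L f A η) (ha : 0 < a) (hab : a < b) (hbL : b < L)
    (hz : Mx f A η (a, b) z) (hw : SGR.Well (fun r => 1 - HH f A η z r) a b) (w : ℝ × ℝ)
    (wa : BB f A η z w a < 0) (wb : BB f A η z w b < 0) :
    π * w.1 ≤ ∫ r in a..b, BB f A η z w r / √(1 - HH f A η z r) := by
  have hf : ∀ r ∈ Icc a b, f r ≠ 0 := fun r hr =>
    (H.f_pos r (lt_of_lt_of_le ha hr.1) (lt_of_le_of_lt hr.2 hbL)).ne'
  have cB : ContinuousOn (BB f A η z w) (Icc a b) := fun r hr =>
    (BB_contAt H z w (hf r hr)).continuousWithinAt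
  have cH : ContinuousOn (HH f A η w) (Icc a b) := fun r hr =>
    (HH_contAt H w (hf r hr)).continuousWithinAt
  have hev := ev_mem H ha hbL hz.1 hw w wa wb
  set F : ℝ → ℝ → ℝ := fun t r =>
    (√(1 - HH f A η (z + t • w) r) - √(1 - HH f A η z r)) / t with hF
  -- the inequality for small t
  have hineq : ∀ᶠ t : ℝ in 𝓝[>] 0, (∫ r in a..b, F t r) ≤ -(π * w.1) := by
    have h1 : ∀ᶠ t : ℝ in 𝓝[>] 0, 0 < t → z + t • w ∈ KK f A η (a, b) := nhdsWithin_le_nhds hev
    filter_upwards [h1, self_mem_nhdsWithin] with t ht1 ht0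
    have ht0' : 0 < t := ht0
    have h2 := hz.2 _ (ht1 ht0')
    unfold FF at h2
    simp only [Prod.fst_add, Prod.smul_fst, smul_eq_mul] at h2
    have h3 : (∫ r in a..b, F t r)
        = ((∫ r in a..b, √(1 - HH f A η (z + t • w) r)) - ∫ r in a..b, √(1 - HH f A η z r)) / t := by
      rw [hF, intervalIntegral.integral_div, intervalIntegral.integral_sub (H.ii _ _ _) (H.ii _ _ _)]
    rw [h3, div_le_iff₀ ht0']
    linarith
  -- the limit
  have hlim : Tendsto (fun t : ℝ => ∫ r in a..b, F t r) (𝓝[>] 0)
      (𝓝 (∫ r in a..b, -(BB f A η z w r / √(1 - HH f A η z r)))) := by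
    refine intervalIntegral.tendsto_integral_filter_of_dominated_convergence
      (fun r => (2 * |BB f A η z w r| + HH f A η w r) / √(1 - HH f A η z r)) ?_ ?_ ?_ ?_
    · refine Eventually.of_forall fun t => ?_
      exact (((measurable_const.sub (H.HH_meas (z + t • w))).sqrt.sub
        (measurable_const.sub (H.HH_meas z)).sqrt).div_const t).aestronglyMeasurable
    · have h1 : ∀ᶠ t : ℝ in 𝓝[>] 0, t < 1 := nhdsWithin_le_nhds (gt_mem_nhds one_pos)
      filter_upwards [h1, self_mem_nhdsWithin] with t ht1 ht0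
      have ht0' : 0 < t := ht0
      have hae : ∀ᵐ r : ℝ, r ≠ b := by
        rw [ae_iff]; simp
      filter_upwards [hae] with r hrb hr
      rw [uIoc_of_le hab.le] at hr
      have hG : 0 < 1 - HH f A η z r := hw.pos r ⟨hr.1, lt_of_le_of_ne hr.2 hrb⟩
      have hs : 0 < √(1 - HH f A η z r) := Real.sqrt_pos.2 hG
      rw [hF, Real.norm_eq_abs, abs_div, abs_of_pos ht0', div_le_iff₀ ht0']
      refine le_trans (abs_sqrt_sub_le hG) ?_
      rw [div_mul_eq_mul_div]
      refine div_le_div_of_nonneg_right ?_ hs.le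
      rw [HH_add]
      have e : 1 - (HH f A η z r + 2 * t * BB f A η z w r + t ^ 2 * HH f A η w r)
          - (1 - HH f A η z r) = -(t * (2 * BB f A η z w r + t * HH f A η w r)) := by ring
      rw [e, abs_neg, abs_mul, abs_of_pos ht0', mul_comm]
      refine mul_le_mul_of_nonneg_right ?_ ht0'.le
      have h4 := HH_nonneg (f := f) (A := A) (η := η) w r
      calc |2 * BB f A η z w r + t * HH f A η w r|
          ≤ |2 * BB f A η z w r| + |t * HH f A η w r| := abs_add_le _ _
        _ = 2 * |BB f A η z w r| + t * HH f A η w r := by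
            rw [abs_mul, abs_of_pos (two_pos), abs_of_nonneg (mul_nonneg ht0'.le h4)]
        _ ≤ _ := by nlinarith
    · rw [intervalIntegrable_iff_integrableOn_Ioo_of_le hab.le]
      exact hw.integrableOn ((continuousOn_const.mul cB.abs).add cH)
    · have hae : ∀ᵐ r : ℝ, r ≠ b := by
        rw [ae_iff]; simp
      filter_upwards [hae] with r hrb hr
      rw [uIoc_of_le hab.le] at hr
      have hG : 0 < 1 - HH f A η z r := hw.pos r ⟨hr.1, lt_of_le_of_ne hr.2 hrb⟩
      have hs : 0 < √(1 - HH f A η z r) := Real.sqrt_pos.2 hG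
      have d1 : HasDerivAt (fun t : ℝ => 1 - (HH f A η z r + 2 * t * BB f A η z w r
          + t ^ 2 * HH f A η w r)) (-(2 * BB f A η z w r)) 0 := by
        have e1 : HasDerivAt (fun t : ℝ => t) 1 0 := hasDerivAt_id 0
        have e2 := ((((e1.const_mul 2).mul_const (BB f A η z w r)).const_add (HH f A η z r)).add
          ((e1.pow 2).mul_const (HH f A η w r))).const_sub 1
        refine e2.congr_deriv ?_
        simp
      have d2 := d1.sqrt (by simpa using hG.ne')
      have d3 := hasDerivAt_iff_tendsto_slope_zero.1 d2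
      have d4 := d3.mono_left (nhdsWithin_mono 0
        (show Ioi (0 : ℝ) ⊆ {0}ᶜ from fun x hx => ne_of_gt hx))
      have e0 : -(2 * BB f A η z w r) / (2 * √(1 - (HH f A η z r + 2 * 0 * BB f A η z w r
          + (0 : ℝ) ^ 2 * HH f A η w r))) = -(BB f A η z w r / √(1 - HH f A η z r)) := by
        simp only [mul_zero, zero_mul, add_zero, ne_eq, OfNat.ofNat_ne_zero, not_false_eq_true,
          zero_pow]
        rw [neg_div, mul_div_mul_left _ _ two_ne_zero]
      rw [e0] at d4
      refine d4.congr fun t => ?_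
      simp only [hF, zero_add, mul_zero, zero_mul, add_zero, ne_eq, OfNat.ofNat_ne_zero,
        not_false_eq_true, zero_pow, smul_eq_mul]
      rw [HH_add]
      ring
  have h5 := le_of_tendsto hlim hineq
  rw [intervalIntegral.integral_neg] at h5
  linarith

end TSP.GRDAux

namespace TSP

open Set MeasureTheory Real Filter Topology

theorem t_GRD : S_GRD := by
  intro L f A η H a b z ha hab hbL hz hw
  have hHa : HH f A η z a = 1 := by
    have := hw.left
    linarith
  have hHb : HH f A η z b = 1 := by
    have := hw.right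
    linarith
  have hf : ∀ r ∈ Icc a b, f r ≠ 0 := fun r hr =>
    (H.f_pos r (lt_of_lt_of_le ha hr.1) (lt_of_le_of_lt hr.2 hbL)).ne'
  have iB : ∀ w : ℝ × ℝ, IntervalIntegrable
      (fun r => BB f A η z w r / √(1 - HH f A η z r)) volume a b := by
    intro w
    rw [intervalIntegrable_iff_integrableOn_Ioo_of_le hab.le]
    exact hw.integrableOn fun r hr => (GRDAux.BB_contAt H z w (hf r hr)).continuousWithinAt
  have iH : IntervalIntegrable
      (fun r => HH f A η z r / √(1 - HH f A η z r)) volume a b := by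
    rw [intervalIntegrable_iff_integrableOn_Ioo_of_le hab.le]
    exact hw.integrableOn fun r hr => (GRDAux.HH_contAt H z (hf r hr)).continuousWithinAt
  constructor
  · have h1 := GRDAux.first_order H ha hab hbL hz hw (-z)
      (by rw [BB_neg, BB_self, hHa]; norm_num) (by rw [BB_neg, BB_self, hHb]; norm_num)
    have e : (∫ r in a..b, BB f A η z (-z) r / √(1 - HH f A η z r))
        = -∫ r in a..b, HH f A η z r / √(1 - HH f A η z r) := by
      rw [← intervalIntegral.integral_neg]
      refine intervalIntegral.integral_congr fun r _ => ?_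
      rw [BB_neg, BB_self, neg_div]
    rw [e, Prod.fst_neg] at h1
    linarith
  · intro heq
    -- the inequality for an arbitrary direction
    have key : ∀ w : ℝ × ℝ, π * w.1 ≤ ∫ r in a..b, BB f A η z w r / √(1 - HH f A η z r) := by
      intro w
      set M : ℝ := |BB f A η z w a| + |BB f A η z w b| + 1 with hM
      have hMpos : 0 < M := by positivity
      have hσ : 0 < 1 / M := one_div_pos.2 hMpos
      have hBa : 1 / M * BB f A η z w a < 1 := by
        rw [div_mul_eq_mul_div, one_mul, div_lt_one hMpos]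
        have := le_abs_self (BB f A η z w a)
        have := abs_nonneg (BB f A η z w b)
        linarith
      have hBb : 1 / M * BB f A η z w b < 1 := by
        rw [div_mul_eq_mul_div, one_mul, div_lt_one hMpos]
        have := le_abs_self (BB f A η z w b)
        have := abs_nonneg (BB f A η z w a)
        linarith
      have h1 := GRDAux.first_order H ha hab hbL hz hw ((-1 : ℝ) • z + (1 / M) • w)
        (by rw [BB_lin, BB_self, hHa]; linarith) (by rw [BB_lin, BB_self, hHb]; linarith)
      have e : (∫ r in a..b, BB f A η z ((-1 : ℝ) • z + (1 / M) • w) r / √(1 - HH f A η z r))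
          = (-1) * (∫ r in a..b, HH f A η z r / √(1 - HH f A η z r))
            + 1 / M * ∫ r in a..b, BB f A η z w r / √(1 - HH f A η z r) := by
        rw [← intervalIntegral.integral_const_mul, ← intervalIntegral.integral_const_mul,
          ← intervalIntegral.integral_add (iH.const_mul _) ((iB w).const_mul _)]
        refine intervalIntegral.integral_congr fun r _ => ?_
        rw [BB_lin, BB_self]
        ring
      rw [e, heq] at h1
      simp only [Prod.fst_add, Prod.smul_fst, smul_eq_mul] at h1
      have h2 : 1 / M * (π * w.1)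
          ≤ 1 / M * ∫ r in a..b, BB f A η z w r / √(1 - HH f A η z r) := by linarith
      exact le_of_mul_le_mul_left h2 hσ
    intro w
    refine le_antisymm ?_ (key w)
    have h1 := key (-w)
    have e : (∫ r in a..b, BB f A η z (-w) r / √(1 - HH f A η z r))
        = -∫ r in a..b, BB f A η z w r / √(1 - HH f A η z r) := by
      rw [← intervalIntegral.integral_neg]
      refine intervalIntegral.integral_congr fun r _ => ?_
      rw [BB_neg, neg_div]
    rw [e, Prod.fst_neg] at h1
    linarith

end TSP
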