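import Pool.Agent.TSP.Stmts

/-!
# Local descent

Every interval `x` with `0 < DD x < π c` has a uniform local descent direction.
-/

set_option autoImplicit false

namespace TSP

open Set MeasureTheory Real Filter Topology

theorem t_LOC (hmax : S_MAX) (hbnd : S_BND) (henl : S_ENL) (henr : S_ENR) (hdil : S_DIL)
    (hdir : S_DIR) (hwel : S_WEL) (hgrd : S_GRD) (hdsc : S_DSC) (hgeo : S_GEO) (hcir : S_CIR) :
    S_LOC := by
  intro L f A η c H hc hns x hx h0 hlt
  obtain ⟨hcL, -, hcrit⟩ := hcir L f A η c H hc hns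
  have hx' := hx
  obtain ⟨hx0, hx12, hxL⟩ := hx'
  obtain ⟨b1, -, -, b4⟩ := hbnd L f A η H x hx
  obtain ⟨m1, -, -, m4⟩ := hmax L f A η H
  rcases eq_or_lt_of_le hx12 with he | hl
  · -- the diagonal
    have hD := b4 he
    rw [hD] at h0 hlt
    have hf0 : 0 < f x.1 := by
      by_contra hcon
      have h1 : f x.1 ≤ 0 := not_lt.1 hcon
      have := mul_nonpos_of_nonneg_of_nonpos Real.pi_pos.le h1
      linarith
    have hfc : f x.1 < c := lt_of_mul_lt_mul_left hlt Real.pi_pos.le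
    have hx0' : 0 < x.1 := by
      rcases eq_or_lt_of_le hx0 with h | h
      · rw [← h, H.f_zero] at hf0
        exact absurd hf0 (lt_irrefl _)
      · exact h
    have hxL' : x.1 < L := by
      have h2 : x.1 ≤ L := hx12.trans hxL
      rcases eq_or_lt_of_le h2 with h | h
      · rw [h, H.f_L] at hf0
        exact absurd hf0 (lt_irrefl _)
      · exact h
    have hd : deriv f x.1 ≠ 0 := fun h => absurd (hcrit x.1 hx0' hxL' h) (not_lt.2 hfc.le)
    have hxe : x = (x.1, x.1) := Prod.ext rfl he.symm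
    rcases lt_or_gt_of_ne hd with h | h
    · refine ⟨(0, 1), ?_⟩
      have := hdir L f A η H x.1 hx0' hxL' h
      rw [← hxe] at this
      exact this
    · refine ⟨(-1, 0), ?_⟩
      have := hdil L f A η H x.1 hx0' hxL' h
      rw [← hxe] at this
      exact this
  · by_cases h1 : x.1 = 0
    · -- the left end is the axis
      have hx2 : x.2 < L := by
        rw [h1] at b1
        linarith
      exact ⟨(0, -1), henr L f A η H x 0 hx hx2 hl (m4 x hx (Or.inl h1))
        (by rw [HH_zero]; exact one_pos)⟩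
    by_cases h2 : x.2 = L
    · have hx1 : 0 < x.1 := lt_of_le_of_ne hx0 (Ne.symm h1)
      exact ⟨(1, 0), henl L f A η H x 0 hx hx1 hl (m4 x hx (Or.inr h2))
        (by rw [HH_zero]; exact one_pos)⟩
    have hx1 : 0 < x.1 := lt_of_le_of_ne hx0 (Ne.symm h1)
    have hx2 : x.2 < L := lt_of_le_of_ne hxL h2
    obtain ⟨z, hz⟩ := m1 x hx
    have e1 : HH f A η z x.1 ≤ 1 := H.HH_le_one (hz.1 x.1 ⟨le_rfl, hx12⟩)
    have e2 : HH f A η z x.2 ≤ 1 := H.HH_le_one (hz.1 x.2 ⟨hx12, le_rfl⟩)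
    rcases lt_or_eq_of_le e1 with g1 | g1
    · exact ⟨(1, 0), henl L f A η H x z hx hx1 hl hz g1⟩
    rcases lt_or_eq_of_le e2 with g2 | g2
    · exact ⟨(0, -1), henr L f A η H x z hx hx2 hl hz g2⟩
    have hw := hwel L f A η H x.1 x.2 z hx1 hl hx2 hz g1 g2
    obtain ⟨d1, d2⟩ := hgrd L f A η H x.1 x.2 z hx1 hl hx2 hz hw
    rcases lt_or_eq_of_le d1 with k | k
    · exact ⟨(-1, 1), hdsc L f A η H x.1 x.2 z hx1 hl hx2 hz hw k⟩
    · exfalso
      obtain ⟨r, θ, φ, T, hg, hcl, hT⟩ := hgeo L f A η H x.1 x.2 z hx1 hl hx2 hw (d2 k)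
      have hlong := hns r θ φ T hg hcl
      have hDD := hz.DD_eq
      have hT' : T = 2 * DD f A η x := by rw [hT, hDD]
      rw [hT'] at hlong
      nlinarith

end TSP
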