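import Pool.Agent.TSP.Stmts

/-!
# Lower semicontinuity of the action over the admissible covectors (module TSP_LSC)
-/

set_option autoImplicit false

namespace TSP

open Set MeasureTheory Real Filter Topology

namespace LSCAux

variable {L : ℝ} {f A η : ℝ → ℝ}

lemma tri_mem {y : ℝ × ℝ} (hy : y ∈ Tri L) : y ∈ Icc (0 : ℝ) L ×ˢ Icc (0 : ℝ) L := by
  obtain ⟨h0, h1, h2⟩ := hy
  exact ⟨⟨h0, h1.trans h2⟩, ⟨h0.trans h1, h2⟩⟩

/-- on an axis an admissible covector has first component zero -/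
lemma fst_zero (H : Profile L f A η) {z : ℝ × ℝ} {r : ℝ} (hf : f r = 0) (h : Adm f A η z r) :
    z.1 = 0 := by
  have h1 := h.1
  rw [hf] at h1
  have hη := H.η_pos r
  have h2 : z.1 ^ 2 * η r ^ 2 ≤ 0 := by nlinarith
  have h3 : 0 < η r ^ 2 := by positivity
  have h4 : z.1 ^ 2 ≤ 0 := by
    by_contra h5
    push Not at h5
    have := mul_pos h5 h3
    linarith
  have h5 : z.1 ^ 2 = 0 := le_antisymm h4 (sq_nonneg _)
  exact pow_eq_zero_iff (two_ne_zero) |>.1 h5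

/-- the action is at most the length of the interval -/
lemma int_le (H : Profile L f A η) (z : ℝ × ℝ) {a b : ℝ} (hab : a ≤ b) :
    (∫ r in a..b, √(1 - HH f A η z r)) ≤ b - a := by
  have h := intervalIntegral.integral_mono_on hab (H.ii z a b)
    (intervalIntegrable_const (c := (1 : ℝ))) (fun r _ => sqrt_le_one z r)
  simpa using h

lemma FF_zero (x : ℝ × ℝ) : FF f A η x 0 = x.2 - x.1 := by
  unfold FF
  simp [HH_zero]

/-- points near an interval -/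
lemma near {x y : ℝ × ℝ} {δ r : ℝ} (hx : x.1 ≤ x.2) (hd : dist y x < δ)
    (hr : r ∈ Icc y.1 y.2) : ∃ k ∈ Icc x.1 x.2, dist r k < δ := by
  have h1 : dist y.1 x.1 < δ := lt_of_le_of_lt (le_max_left _ _) hd
  have h2 : dist y.2 x.2 < δ := lt_of_le_of_lt (le_max_right _ _) hd
  rw [Real.dist_eq] at h1 h2
  have h1' := abs_lt.1 h1
  have h2' := abs_lt.1 h2
  have hδ : 0 < δ := lt_of_le_of_lt dist_nonneg hd
  obtain ⟨hr1, hr2⟩ := hr
  by_cases ha : r < x.1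
  · refine ⟨x.1, ⟨le_refl _, hx⟩, ?_⟩
    rw [Real.dist_eq, abs_lt]
    constructor <;> linarith
  · by_cases hb : x.2 < r
    · refine ⟨x.2, ⟨hx, le_refl _⟩, ?_⟩
      rw [Real.dist_eq, abs_lt]
      constructor <;> linarith
    · push Not at ha hb
      exact ⟨r, ⟨ha, hb⟩, by rw [dist_self]; exact hδ⟩

/-- the case where one end of the interval is on an axis -/
lemma caseA (H : Profile L f A η) {x : ℝ × ℝ} (hx : x ∈ Tri L) {u : ℝ × ℝ} (hu1 : u.1 = 0)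
    {ε : ℝ} (hε : 0 < ε) : ∃ δ > 0, ∀ y ∈ Tri L, dist y x < δ →
    ∃ u' ∈ KK f A η y, FF f A η x u - ε ≤ FF f A η y u' := by
  refine ⟨ε / 2, by positivity, fun y _ hd => ⟨0, zero_mem_KK y, ?_⟩⟩
  have h1 : dist y.1 x.1 < ε / 2 := lt_of_le_of_lt (le_max_left _ _) hd
  have h2 : dist y.2 x.2 < ε / 2 := lt_of_le_of_lt (le_max_right _ _) hd
  rw [Real.dist_eq] at h1 h2
  have h1' := abs_lt.1 h1
  have h2' := abs_lt.1 h2
  have h3 : FF f A η x u ≤ x.2 - x.1 := by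
    unfold FF
    rw [hu1, mul_zero, add_zero]
    exact int_le H u hx.2.1
  rw [FF_zero]
  linarith [h1'.1, h1'.2, h2'.1, h2'.2]

/-- the case of an interval inside `(0, L)` -/
lemma caseB (hcnt : S_CNT) (H : Profile L f A η) {x : ℝ × ℝ} (hx : x ∈ Tri L)
    (hx0 : 0 < x.1) (hxL : x.2 < L) {u : ℝ × ℝ} (hu : u ∈ KK f A η x)
    {ε : ℝ} (hε : 0 < ε) : ∃ δ > 0, ∀ y ∈ Tri L, dist y x < δ →
    ∃ u' ∈ KK f A η y, FF f A η x u - ε ≤ FF f A η y u' := by
  have hC := hcnt L f A η H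
  -- a scale factor
  have hcont : Continuous fun c : ℝ => FF f A η x (c • u) := by
    have h1 : Continuous fun c : ℝ => ((x, c • u) : (ℝ × ℝ) × (ℝ × ℝ)) := by fun_prop
    have h2 : ContinuousOn
        ((fun q : (ℝ × ℝ) × (ℝ × ℝ) => FF f A η q.1 q.2) ∘ fun c : ℝ => (x, c • u)) univ :=
      hC.comp h1.continuousOn (fun c _ => ⟨tri_mem hx, mem_univ _⟩)
    rw [← continuousOn_univ]
    exact h2
  have hev : ∀ᶠ c in 𝓝 (1 : ℝ), FF f A η x u - ε / 2 < FF f A η x (c • u) := by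
    have h1 : Tendsto (fun c : ℝ => FF f A η x (c • u)) (𝓝 1) (𝓝 (FF f A η x ((1 : ℝ) • u))) :=
      hcont.continuousAt
    rw [one_smul] at h1
    exact h1.eventually (lt_mem_nhds (by linarith))
  obtain ⟨ρ, hρ, hball⟩ := Metric.eventually_nhds_iff.1 hev
  set c : ℝ := 1 - min (ρ / 2) (1 / 2) with hc
  have hm1 : 0 < min (ρ / 2) (1 / 2) := lt_min (by positivity) (by norm_num)
  have hm2 : min (ρ / 2) (1 / 2) ≤ 1 / 2 := min_le_right _ _
  have hm3 : min (ρ / 2) (1 / 2) ≤ ρ / 2 := min_le_left _ _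
  have hc1 : c < 1 := by rw [hc]; linarith
  have hc0 : 0 < c := by rw [hc]; linarith
  have hcv : FF f A η x u - ε / 2 < FF f A η x (c • u) := by
    apply hball
    rw [Real.dist_eq, hc]
    rw [show (1 - min (ρ / 2) (1 / 2) - 1 : ℝ) = - min (ρ / 2) (1 / 2) by ring, abs_neg,
      abs_of_pos hm1]
    linarith
  have hc2 : c ^ 2 < 1 := by nlinarith
  -- an open set
  have hcO : ContinuousOn (HH f A η (c • u)) (Ioo 0 L) := by
    intro r hr
    have h1 := H.HH_contAt (z := c • u) (r := r) (H.f_pos r hr.1 hr.2).ne'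
    have h2 : ContinuousAt (fun s : ℝ => ((c • u, s) : (ℝ × ℝ) × ℝ)) r := by fun_prop
    exact (ContinuousAt.comp (f := fun s : ℝ => ((c • u, s) : (ℝ × ℝ) × ℝ))
      (g := fun q : (ℝ × ℝ) × ℝ => HH f A η q.1 q.2) h1 h2).continuousWithinAt
  have hopen : IsOpen (Ioo 0 L ∩ (HH f A η (c • u)) ⁻¹' Iio 1) :=
    hcO.isOpen_inter_preimage isOpen_Ioo isOpen_Iio
  have hsub : Icc x.1 x.2 ⊆ Ioo 0 L ∩ (HH f A η (c • u)) ⁻¹' Iio 1 := by
    intro r hr
    have hr0 : 0 < r := lt_of_lt_of_le hx0 hr.1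
    have hrL : r < L := lt_of_le_of_lt hr.2 hxL
    refine ⟨⟨hr0, hrL⟩, ?_⟩
    have h1 := H.HH_le_one (hu r hr)
    have h2 := HH_nonneg (f := f) (A := A) (η := η) u r
    change HH f A η (c • u) r < 1
    rw [HH_smul]
    nlinarith
  obtain ⟨δ₁, hδ₁, hth⟩ := isCompact_Icc.exists_thickening_subset_open hopen hsub
  -- continuity at the point
  have hxm : ((x, c • u) : (ℝ × ℝ) × (ℝ × ℝ)) ∈ (Icc (0 : ℝ) L ×ˢ Icc (0 : ℝ) L) ×ˢ
      (univ : Set (ℝ × ℝ)) := ⟨tri_mem hx, mem_univ _⟩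
  obtain ⟨δ₂, hδ₂, hδ₂'⟩ := Metric.continuousWithinAt_iff.1 (hC _ hxm) (ε / 2) (by positivity)
  refine ⟨min δ₁ δ₂, lt_min hδ₁ hδ₂, fun y hy hd => ⟨c • u, ?_, ?_⟩⟩
  · intro r hr
    obtain ⟨k, hk, hrk⟩ := near hx.2.1 (lt_of_lt_of_le hd (min_le_left _ _)) hr
    have hmem := hth (Metric.mem_thickening_iff.2 ⟨k, hk, hrk⟩)
    exact (H.adm_iff hmem.1.1 hmem.1.2).2 (le_of_lt hmem.2)
  · have hdy : dist ((y, c • u) : (ℝ × ℝ) × (ℝ × ℝ)) (x, c • u) < δ₂ := by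
      rw [Prod.dist_eq, dist_self, max_eq_left dist_nonneg]
      exact lt_of_lt_of_le hd (min_le_right _ _)
    have h1 := hδ₂' (show ((y, c • u) : (ℝ × ℝ) × (ℝ × ℝ)) ∈
      (Icc (0 : ℝ) L ×ˢ Icc (0 : ℝ) L) ×ˢ (univ : Set (ℝ × ℝ)) from ⟨tri_mem hy, mem_univ _⟩) hdy
    rw [Real.dist_eq] at h1
    have h2 := (abs_lt.1 h1).1
    simp only at h2
    linarith

end LSCAux

/-- **Lower semicontinuity** -/
theorem t_LSC (hcnt : S_CNT) : S_LSC := by
  intro L f A η H x hx u hu ε hε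
  by_cases h0 : x.1 = 0
  · refine LSCAux.caseA H hx ?_ hε
    have := hu x.1 ⟨le_refl _, hx.2.1⟩
    rw [h0] at this
    exact LSCAux.fst_zero H H.f_zero this
  · by_cases hL : x.2 = L
    · refine LSCAux.caseA H hx ?_ hε
      have := hu x.2 ⟨hx.2.1, le_refl _⟩
      rw [hL] at this
      exact LSCAux.fst_zero H H.f_L this
    · exact LSCAux.caseB hcnt H hx (lt_of_le_of_ne hx.1 (Ne.symm h0))
        (lt_of_le_of_ne hx.2.2 hL) hu hε

end TSP
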