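import Pool.Agent.TSP.Stmts

/-!
# Level sets are long
-/

set_option autoImplicit false

namespace TSP

open Set MeasureTheory Real Filter Topology

namespace LVLAux

theorem convex_tri (L : ℝ) : Convex ℝ (Tri L) := by
  rintro x ⟨hx1, hx2, hx3⟩ y ⟨hy1, hy2, hy3⟩ a b ha hb hab
  refine ⟨?_, ?_, ?_⟩
  · simp only [Prod.fst_add, Prod.smul_fst, smul_eq_mul]
    positivity
  · simp only [Prod.fst_add, Prod.smul_fst, Prod.snd_add, Prod.smul_snd, smul_eq_mul]
    exact add_le_add (mul_le_mul_of_nonneg_left hx2 ha) (mul_le_mul_of_nonneg_left hy2 hb)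
  · simp only [Prod.snd_add, Prod.smul_snd, smul_eq_mul]
    calc a * x.2 + b * y.2 ≤ a * L + b * L :=
          add_le_add (mul_le_mul_of_nonneg_left hx3 ha) (mul_le_mul_of_nonneg_left hy3 hb)
      _ = L := by rw [← add_mul, hab, one_mul]

theorem compact_tri (L : ℝ) : IsCompact (Tri L) := by
  have h1 : IsClosed (Tri L) := by
    have e : Tri L = {x : ℝ × ℝ | 0 ≤ x.1} ∩ ({x : ℝ × ℝ | x.1 ≤ x.2} ∩ {x : ℝ × ℝ | x.2 ≤ L}) := by
      ext x
      exact Iff.rfl
    rw [e]
    exact (isClosed_le continuous_const continuous_fst).inter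
      ((isClosed_le continuous_fst continuous_snd).inter
        (isClosed_le continuous_snd continuous_const))
  refine ((isCompact_Icc (a := (0 : ℝ)) (b := L)).prod
    (isCompact_Icc (a := (0 : ℝ)) (b := L))).of_isClosed_subset h1 ?_
  rintro x ⟨hx1, hx2, hx3⟩
  exact ⟨⟨hx1, hx2.trans hx3⟩, ⟨hx1.trans hx2, hx3⟩⟩

theorem seg {S : Set (ℝ × ℝ)} {x y : ℝ × ℝ}
    (h : ∀ θ : ℝ, 0 ≤ θ → θ ≤ 1 → (x.1 + θ * (y.1 - x.1), x.2 + θ * (y.2 - x.2)) ∈ S) :
    JoinedIn S x y := by
  apply JoinedIn.of_segment_subset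
  rw [segment_eq_image']
  rintro _ ⟨θ, hθ, rfl⟩
  exact h θ hθ.1 hθ.2

end LVLAux

open LVLAux in
theorem t_LVL (hmps : S_MPS) (hloc : S_LOC) (hbnd : S_BND) (hdco : S_DCO) (htub : S_TUB)
    (hcir : S_CIR) : S_LVL := by
  intro L f A η c H hc hns t ht htc
  obtain ⟨hcL, -, hcrit⟩ := hcir L f A η c H hc hns
  obtain ⟨a, b, ha, hab, hb, hfa, hfb, h1, h2, h3⟩ := htub L f A η c H hc hcrit t ht htc
  refine ⟨a, b, ha.le, hab, hb.le, h3, ?_⟩
  by_contra hcon
  push Not at hcon
  have hL := H.L_pos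
  have hπ := Real.pi_pos
  have hB := hbnd L f A η H
  have hmem : ∀ r, 0 ≤ r → r ≤ L → (r, r) ∈ Tri L := fun r h0 h1 => ⟨h0, le_rfl, h1⟩
  have hdiag : ∀ r, 0 ≤ r → r ≤ L → DD f A η (r, r) = π * f r := fun r h0 h1 =>
    (hB (r, r) (hmem r h0 h1)).2.2.2 rfl
  have hπt : π * t < π * c := mul_lt_mul_of_pos_left htc hπ
  have hnot := hmps (Tri L) (DD f A η) (fun x => x.1 + x.2 - L) (0, 0) (L, L) (π * c)
    (convex_tri L) (compact_tri L) (hdco L f A η H)
    ((continuous_fst.add continuous_snd).sub continuous_const) (hmem 0 le_rfl hL.le)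
    (hmem L hL.le le_rfl) (by rw [hdiag 0 le_rfl hL.le, H.f_zero, mul_zero])
    (by rw [hdiag L hL.le le_rfl, H.f_L, mul_zero]) (by dsimp only; linarith)
    (by dsimp only; linarith) (by
      intro x hx hx0
      rcases hx.2.1.eq_or_lt with he | hl
      · have hx' : x = (x.1, x.1) := Prod.ext rfl he.symm
        have h4 : x.1 = L / 2 := by rw [← he] at hx0; linarith
        rw [hx', hdiag x.1 hx.1 (hx.2.1.trans hx.2.2), h4]
        exact mul_pos hπ (H.f_pos _ (by linarith) (by linarith))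
      · exact lt_of_lt_of_le (sub_pos.mpr hl) (hB x hx).1) (by
      intro x hx h4 h5
      exact hloc L f A η c H hc hns x hx h4 h5)
  apply hnot
  have j1 : JoinedIn (Tri L ∩ {x | DD f A η x < π * c}) (0, 0) (a, a) := by
    apply seg
    intro θ h0 h1'
    have e1 : (0 : ℝ) + θ * (a - 0) = θ * a := by ring
    have h4 : 0 ≤ θ * a := mul_nonneg h0 ha.le
    have h5 : θ * a ≤ a := by nlinarith
    rw [e1]
    refine ⟨hmem _ h4 (by linarith), ?_⟩
    show DD f A η (θ * a, θ * a) < π * c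
    rw [hdiag _ h4 (by linarith)]
    exact lt_of_le_of_lt (mul_le_mul_of_nonneg_left (h1 _ ⟨h4, h5⟩) hπ.le) hπt
  have j2 : JoinedIn (Tri L ∩ {x | DD f A η x < π * c}) (a, a) (a, b) := by
    apply seg
    intro θ h0 h1'
    have e1 : a + θ * (a - a) = a := by ring
    have h4 : 0 ≤ θ * (b - a) := mul_nonneg h0 (by linarith)
    have h5 : θ * (b - a) ≤ b - a := by nlinarith
    rw [e1]
    have hT : (a, a + θ * (b - a)) ∈ Tri L := ⟨ha.le, by simpa using h4, by
      show a + θ * (b - a) ≤ L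
      linarith⟩
    refine ⟨hT, ?_⟩
    have h6 := (hB _ hT).2.1
    show DD f A η (a, a + θ * (b - a)) < π * c
    dsimp only at h6
    rw [hfa] at h6
    linarith
  have j3 : JoinedIn (Tri L ∩ {x | DD f A η x < π * c}) (a, b) (b, b) := by
    apply seg
    intro θ h0 h1'
    have e1 : b + θ * (b - b) = b := by ring
    have h4 : 0 ≤ θ * (b - a) := mul_nonneg h0 (by linarith)
    have h5 : θ * (b - a) ≤ b - a := by nlinarith
    rw [e1]
    have hT : (a + θ * (b - a), b) ∈ Tri L := ⟨by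
      show 0 ≤ a + θ * (b - a)
      linarith, by
      show a + θ * (b - a) ≤ b
      linarith, hb.le⟩
    refine ⟨hT, ?_⟩
    have h6 := (hB _ hT).2.2.1
    show DD f A η (a + θ * (b - a), b) < π * c
    dsimp only at h6
    rw [hfb] at h6
    linarith
  have j4 : JoinedIn (Tri L ∩ {x | DD f A η x < π * c}) (b, b) (L, L) := by
    apply seg
    intro θ h0 h1'
    have h4 : 0 ≤ θ * (L - b) := mul_nonneg h0 (by linarith)
    have h5 : θ * (L - b) ≤ L - b := by nlinarith
    have h6 : b + θ * (L - b) ≤ L := by linarith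
    refine ⟨hmem _ (by linarith) h6, ?_⟩
    show DD f A η (b + θ * (L - b), b + θ * (L - b)) < π * c
    rw [hdiag _ (by linarith) h6]
    exact lt_of_le_of_lt (mul_le_mul_of_nonneg_left (h2 _ ⟨by linarith, h6⟩) hπ.le) hπt
  exact ((j1.trans j2).trans j3).trans j4

end TSP
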