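import Pool.Agent.TSP.Stmts

/-!
# Existence and uniqueness of the maximizer
-/

set_option autoImplicit false

namespace TSP

open Set MeasureTheory Real Filter Topology

namespace MAXAux

variable {L : ℝ} {f A η : ℝ → ℝ}

/-- the set of admissible covectors is compact -/
lemma isCompact_KK (H : Profile L f A η) (hcmp : S_CMP) {x : ℝ × ℝ} (hx : x ∈ Tri L) :
    IsCompact (KK f A η x) := by
  obtain ⟨⟨R, hR⟩, hcl⟩ := hcmp L f A η H
  have h1 : IsClosed (KK f A η x) := by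
    have h2 : IsClosed ((fun z : ℝ × ℝ => (x, z)) ⁻¹'
        {q : (ℝ × ℝ) × (ℝ × ℝ) | q.1 ∈ Tri L ∧ q.2 ∈ KK f A η q.1}) :=
      hcl.preimage (by fun_prop)
    have h3 : (fun z : ℝ × ℝ => (x, z)) ⁻¹'
        {q : (ℝ × ℝ) × (ℝ × ℝ) | q.1 ∈ Tri L ∧ q.2 ∈ KK f A η q.1} = KK f A η x := by
      ext z
      rw [mem_preimage, Set.mem_ofPred_eq]
      exact ⟨fun h => h.2, fun h => ⟨hx, h⟩⟩
    rw [h3] at h2
    exact h2
  refine Metric.isCompact_of_isClosed_isBounded h1 ?_
  refine (Metric.isBounded_iff_subset_closedBall (0 : ℝ × ℝ)).2 ⟨R, fun z hz => ?_⟩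
  rw [mem_closedBall_zero_iff]
  exact hR x hx z hz

/-- the action is continuous in the covector -/
lemma cont_FF (H : Profile L f A η) (hcnt : S_CNT) {x : ℝ × ℝ} (hx : x ∈ Tri L) :
    Continuous (FF f A η x) := by
  have h1 := hcnt L f A η H
  have h2 : ContinuousOn (fun z : ℝ × ℝ =>
      (fun q : (ℝ × ℝ) × (ℝ × ℝ) => FF f A η q.1 q.2) (x, z)) univ := by
    refine h1.comp (g := fun q : (ℝ × ℝ) × (ℝ × ℝ) => FF f A η q.1 q.2)
      (f := fun z : ℝ × ℝ => (x, z)) (by fun_prop) ?_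
    intro z _
    have ha := hx.1
    have hb := hx.2.1
    have hc := hx.2.2
    exact ⟨⟨⟨ha, by linarith⟩, ⟨by linarith, hc⟩⟩, mem_univ _⟩
  exact continuousOn_univ.1 h2

lemma exists_mx (H : Profile L f A η) (hcnt : S_CNT) (hcmp : S_CMP) {x : ℝ × ℝ}
    (hx : x ∈ Tri L) : ∃ z, Mx f A η x z := by
  obtain ⟨z, hz, hmax⟩ := (isCompact_KK H hcmp hx).exists_isMaxOn ⟨0, zero_mem_KK x⟩
    (cont_FF H hcnt hx).continuousOn
  exact ⟨z, hz, fun w hw => hmax hw⟩

/-- on the diagonal the action is `π p` -/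
lemma FF_diag (a : ℝ) (z : ℝ × ℝ) : FF f A η (a, a) z = π * z.1 := by
  unfold FF
  simp

/-- admissible covectors on the torus `a` -/
lemma diag_bound (H : Profile L f A η) {a : ℝ} (h0 : 0 < a) (h1 : a < L) {z : ℝ × ℝ}
    (hz : z ∈ KK f A η (a, a)) : z.1 ≤ f a ∧ (z.1 = f a → z = (f a, A a * f a)) := by
  have hA : Adm f A η z a := hz a ⟨le_refl _, le_refl _⟩
  have hf := H.f_pos a h0 h1
  have hη := H.η_pos a
  have hη2 : 0 < η a ^ 2 := by positivity
  have hf2 : 0 < f a ^ 2 := by positivity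
  have h2 := hA.1
  constructor
  · have h3 : z.1 ^ 2 * η a ^ 2 ≤ f a ^ 2 * η a ^ 2 := by
      nlinarith [mul_nonneg (sq_nonneg (z.2 - A a * z.1)) hf2.le]
    have h4 : z.1 ^ 2 ≤ f a ^ 2 := le_of_mul_le_mul_right h3 hη2
    exact le_of_sq_le_sq h4 hf.le
  · intro h
    have h3 : (z.2 - A a * z.1) ^ 2 * f a ^ 2 ≤ 0 := by
      rw [h] at h2 ⊢
      linarith
    have h4 : (z.2 - A a * z.1) ^ 2 = 0 := by
      have h5 : 0 ≤ (z.2 - A a * z.1) ^ 2 := sq_nonneg _
      nlinarith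
    have h5 : z.2 - A a * z.1 = 0 := by
      exact pow_eq_zero_iff (two_ne_zero) |>.1 h4
    refine Prod.ext h ?_
    show z.2 = A a * f a
    rw [← h]
    linarith

lemma diag_mem (_H : Profile L f A η) (a : ℝ) :
    ((f a, A a * f a) : ℝ × ℝ) ∈ KK f A η (a, a) := by
  intro r hr
  have h : r = a := le_antisymm hr.2 hr.1
  subst h
  constructor
  · simp
  · simp only [sub_self, ne_eq, OfNat.ofNat_ne_zero, not_false_eq_true, zero_pow]
    positivity

lemma diag_mx (H : Profile L f A η) {a : ℝ} (h0 : 0 < a) (h1 : a < L) :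
    Mx f A η (a, a) (f a, A a * f a) := by
  refine ⟨diag_mem H a, fun w hw => ?_⟩
  rw [FF_diag, FF_diag]
  exact mul_le_mul_of_nonneg_left (diag_bound H h0 h1 hw).1 Real.pi_pos.le

lemma end_mx (H : Profile L f A η) {x : ℝ × ℝ} (hx : x ∈ Tri L) (he : x.1 = 0 ∨ x.2 = L) :
    Mx f A η x 0 := by
  refine ⟨zero_mem_KK x, fun w hw => ?_⟩
  have hw1 : w.1 = 0 := by
    have key : ∀ e : ℝ, e ∈ Icc x.1 x.2 → f e = 0 → w.1 = 0 := by
      intro e hm hf
      have h2 := (hw e hm).1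
      rw [hf] at h2
      have h3 := H.η_pos e
      have h4 : 0 < η e ^ 2 := by positivity
      have h5 : w.1 ^ 2 * η e ^ 2 ≤ 0 := by
        simpa using h2
      have h6 : w.1 ^ 2 ≤ 0 := by
        by_contra hc
        push Not at hc
        have := mul_pos hc h4
        linarith
      exact pow_eq_zero_iff (two_ne_zero) |>.1 (le_antisymm h6 (sq_nonneg _))
    rcases he with h | h
    · exact key x.1 ⟨le_refl _, hx.2.1⟩ (by rw [h]; exact H.f_zero)
    · exact key x.2 ⟨hx.2.1, le_refl _⟩ (by rw [h]; exact H.f_L)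
  unfold FF
  rw [hw1]
  simp only [mul_zero, add_zero, Prod.fst_zero]
  refine intervalIntegral.integral_mono_on hx.2.1 (H.ii w _ _) (H.ii 0 _ _) ?_
  intro r _
  rw [HH_zero, sub_zero, Real.sqrt_one]
  exact sqrt_le_one w r

lemma uniq (H : Profile L f A η) (hstr : S_STR) {x : ℝ × ℝ} (hx : x ∈ Tri L)
    (hx0 : x ≠ (0, 0)) (hxL : x ≠ (L, L)) {z w : ℝ × ℝ} (hz : Mx f A η x z)
    (hw : Mx f A η x w) : z = w := by
  rcases lt_or_eq_of_le hx.2.1 with h | h
  · by_contra hne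
    obtain ⟨h1, h2⟩ := hstr L f A η H x z w hx h hz.1 hw.1 hne
    have h3 := hz.2 _ h1
    have h4 := hw.2 _ h1
    linarith
  · obtain ⟨a, b⟩ := x
    simp only at h
    subst h
    have h0 : 0 < a := by
      rcases eq_or_lt_of_le hx.1 with h | h
      · exact absurd (by simp only at h; rw [← h]) hx0
      · exact h
    have h1 : a < L := by
      rcases eq_or_lt_of_le hx.2.2 with h | h
      · exact absurd (by simp only at h; rw [← h]) hxL
      · exact h
    have key : ∀ u : ℝ × ℝ, Mx f A η (a, a) u → u = (f a, A a * f a) := by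
      intro u hu
      have hb := diag_bound H h0 h1 hu.1
      refine hb.2 (le_antisymm hb.1 ?_)
      have h2 := hu.2 _ (diag_mem H a)
      rw [FF_diag, FF_diag] at h2
      exact le_of_mul_le_mul_left h2 Real.pi_pos
    rw [key z hz, key w hw]

end MAXAux

theorem t_MAX (hcnt : S_CNT) (hcmp : S_CMP) (hstr : S_STR) : S_MAX := by
  intro L f A η H
  refine ⟨fun x hx => MAXAux.exists_mx H hcnt hcmp hx, fun x hx h0 hL z w hz hw =>
    MAXAux.uniq H hstr hx h0 hL hz hw, fun a h0 h1 => MAXAux.diag_mx H h0 h1,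
    fun x hx he => MAXAux.end_mx H hx he⟩

end TSP
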