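import Pool.Agent.TSP.Stmts

set_option autoImplicit false

namespace TSP

open Set MeasureTheory Real Filter Topology

namespace MPSAux

/-- a path in a compact sublevel set stays below a smaller level -/
lemma lower {T : Set (ℝ × ℝ)} {D : ℝ × ℝ → ℝ} {x0 x1 : ℝ × ℝ} {m : ℝ} (hD : ContinuousOn D T)
    (h : JoinedIn (T ∩ {x | D x < m}) x0 x1) :
    ∃ m' < m, JoinedIn (T ∩ {x | D x < m'}) x0 x1 := by
  obtain ⟨γ, hγ⟩ := h
  have hc : Continuous (fun t => D (γ t)) := by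
    have : ContinuousOn (fun t => D (γ t)) univ :=
      hD.comp γ.continuous.continuousOn (fun t _ => (hγ t).1)
    exact continuousOn_univ.1 this
  obtain ⟨t, -, ht⟩ := isCompact_univ.exists_isMaxOn (univ_nonempty) hc.continuousOn
  have h1 : D (γ t) < m := (hγ t).2
  refine ⟨(D (γ t) + m) / 2, by linarith, γ, fun s => ⟨(hγ s).1, ?_⟩⟩
  have h2 : D (γ s) ≤ D (γ t) := ht (mem_univ s)
  show D (γ s) < _
  linarith

/-- two points of a convex set near a point are joined in it -/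
lemma joinBall {T S : Set (ℝ × ℝ)} {y u w : ℝ × ℝ} {δ : ℝ} (hT : Convex ℝ T)
    (h : ∀ z ∈ T, dist z y < δ → z ∈ S) (hu : u ∈ T) (hud : dist u y < δ) (hw : w ∈ T)
    (hwd : dist w y < δ) : JoinedIn S u w := by
  have hconv : Convex ℝ (T ∩ Metric.ball y δ) := hT.inter (convex_ball y δ)
  have h1 : JoinedIn (T ∩ Metric.ball y δ) u w :=
    hconv.isPathConnected ⟨u, hu, hud⟩ |>.joinedIn u ⟨hu, hud⟩ w ⟨hw, hwd⟩
  exact h1.mono (fun z hz => h z hz.1 hz.2)

/-- the two ends of a piece of a line are joined -/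
lemma joinLine {S : Set (ℝ × ℝ)} {y v : ℝ × ℝ} {s t : ℝ} (hst : s ≤ t)
    (h : ∀ r ∈ Icc s t, y + r • v ∈ S) : JoinedIn S (y + s • v) (y + t • v) := by
  have h1 : JoinedIn (Icc s t) s t :=
    (convex_Icc s t).isPathConnected ⟨s, left_mem_Icc.2 hst⟩ |>.joinedIn s (left_mem_Icc.2 hst) t
      (right_mem_Icc.2 hst)
  have h2 := h1.map_continuousOn (f := fun r : ℝ => y + r • v) (by fun_prop)
  exact h2.mono (by rintro _ ⟨r, hr, rfl⟩; exact h r hr)

end MPSAux

open MPSAux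

theorem t_MPS : S_MPS := by
  intro T D h x0 x1 m0 hT hTc hD hh hx0 hx1 hD0 hD1 hh0 hh1 hZ hdesc hJ0
  set J : ℝ → Prop := fun m => JoinedIn (T ∩ {x | D x < m}) x0 x1 with hJdef
  have hJmono : ∀ m m', m ≤ m' → J m → J m' := by
    intro m m' hm hJ
    exact JoinedIn.mono hJ (fun x hx => ⟨hx.1, lt_of_lt_of_le hx.2 hm⟩)
  have hJlow : ∀ m, J m → ∃ m' < m, J m' := fun m hJ => lower hD hJ
  have hJz : ∀ m, J m → ∃ x ∈ T, h x = 0 ∧ D x < m := by
    intro m hJ
    obtain ⟨γ, hγ⟩ := hJ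
    have hc : Continuous (fun t => h (γ t)) := hh.comp γ.continuous
    have : (0 : ℝ) ∈ range (fun t => h (γ t)) := by
      refine mem_range_of_exists_le_of_exists_ge hc ⟨0, ?_⟩ ⟨1, ?_⟩
      · simp only [Path.source]; exact hh0.le
      · simp only [Path.target]; exact hh1.le
    obtain ⟨t, ht⟩ := this
    exact ⟨γ t, (hγ t).1, ht, (hγ t).2⟩
  -- the minimum on the zero set of `h`
  have hZc : IsCompact (T ∩ {x | h x = 0}) :=
    hTc.inter_right (isClosed_eq hh continuous_const)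
  obtain ⟨xz, hxzT, hxz0, hxzm⟩ := hJz m0 hJ0
  obtain ⟨zm, hzm, hzmin⟩ := hZc.exists_isMinOn ⟨xz, hxzT, hxz0⟩ (hD.mono inter_subset_left)
  have hzpos : 0 < D zm := hZ zm hzm.1 hzm.2
  have hJge : ∀ m, J m → D zm < m := by
    intro m hJ
    obtain ⟨x, hxT, hx0', hxm⟩ := hJz m hJ
    have h1 : D zm ≤ D x := hzmin ⟨hxT, hx0'⟩
    linarith
  set S : Set ℝ := {m | J m} with hS
  have hSb : BddBelow S := ⟨D zm, fun m hm => (hJge m hm).le⟩
  have hSn : S.Nonempty := ⟨m0, hJ0⟩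
  set ms := sInf S with hms
  have hms_pos : 0 < ms := lt_of_lt_of_le hzpos (le_csInf hSn (fun m hm => (hJge m hm).le))
  have hms_lt : ms < m0 := by
    obtain ⟨m', hm', hJ'⟩ := hJlow m0 hJ0
    exact lt_of_le_of_lt (csInf_le hSb hJ') hm'
  have hJms : ¬ J ms := by
    intro hJ
    obtain ⟨m', hm', hJ'⟩ := hJlow ms hJ
    exact absurd (csInf_le hSb hJ') (not_le.2 hm')
  have hJgt : ∀ m, ms < m → J m := by
    intro m hm
    obtain ⟨m', hm', hlt⟩ := exists_lt_of_csInf_lt hSn hm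
    exact hJmono m' m hlt.le hm'
  -- the component
  set W : Set (ℝ × ℝ) := T ∩ {x | D x < ms} with hW
  set U : Set (ℝ × ℝ) := {y | JoinedIn W x0 y} with hU
  have hUW : U ⊆ W := fun y hy => hy.target_mem
  have hx0U : x0 ∈ U := JoinedIn.refl ⟨hx0, by show D x0 < ms; rw [hD0]; exact hms_pos⟩
  have hx1U : x1 ∉ U := hJms
  have hUext : ∀ y z, y ∈ U → JoinedIn W y z → z ∈ U := fun y z hy hz => JoinedIn.trans hy hz
  have hnear : ∀ y ∈ T, D y < ms → ∃ δ > 0, ∀ z ∈ T, dist z y < δ → z ∈ W := by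
    intro y hy hDy
    have h1 := (hD y hy).eventually (gt_mem_nhds hDy)
    obtain ⟨δ, hδ, hδ'⟩ := Metric.mem_nhdsWithin_iff.1 h1
    exact ⟨δ, hδ, fun z hz hzd => ⟨hz, hδ' ⟨hzd, hz⟩⟩⟩
  set P := closure U with hP
  have hPT : P ⊆ T := closure_minimal (hUW.trans inter_subset_left) hTc.isClosed
  have hPle : ∀ y ∈ P, D y ≤ ms := by
    intro y hy
    by_contra hcon
    push Not at hcon
    have h1 := (hD y (hPT hy)).eventually (lt_mem_nhds hcon)
    obtain ⟨δ, hδ, hδ'⟩ := Metric.mem_nhdsWithin_iff.1 h1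
    obtain ⟨u, hu, hud⟩ := Metric.mem_closure_iff.1 hy δ hδ
    rw [dist_comm] at hud
    have h2 : ms < D u := hδ' ⟨hud, (hUW hu).1⟩
    have h3 : D u < ms := (hUW hu).2
    linarith
  have hopen : ∀ x ∈ P, ∃ δ > 0, ∀ y ∈ T, dist y x < δ → D y ≤ ms → y ∈ P := by
    intro x hx
    have hxT := hPT hx
    rcases lt_or_eq_of_le (hPle x hx) with hlt | heq
    · obtain ⟨δ, hδ, hδ'⟩ := hnear x hxT hlt
      obtain ⟨u, hu, hud⟩ := Metric.mem_closure_iff.1 hx δ hδ
      rw [dist_comm] at hud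
      refine ⟨δ, hδ, fun y hy hyd _ => subset_closure ?_⟩
      exact hUext u y hu (joinBall hT hδ' (hUW hu).1 hud hy hyd)
    · obtain ⟨v, ε, hε, hv⟩ := hdesc x hxT (by rw [heq]; exact hms_pos) (by rw [heq]; exact hms_lt)
      obtain ⟨hy0T, hy0D⟩ := hv x hxT (by rw [dist_self]; exact hε) ε hε le_rfl
      rw [heq] at hy0D
      obtain ⟨δ0, hδ0, hδ0'⟩ := hnear _ hy0T hy0D
      obtain ⟨u, hu, hud⟩ := Metric.mem_closure_iff.1 hx (min ε δ0) (lt_min hε hδ0)
      rw [dist_comm] at hud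
      have hudε : dist u x < ε := lt_of_lt_of_le hud (min_le_left _ _)
      have hudδ : dist u x < δ0 := lt_of_lt_of_le hud (min_le_right _ _)
      have huT : u ∈ T := (hUW hu).1
      have huD : D u < ms := (hUW hu).2
      have hline : ∀ y ∈ T, dist y x < ε → D y ≤ ms → ∀ t, 0 < t → t ≤ ε → y + t • v ∈ W := by
        intro y hy hyd hyD t ht0 ht1
        obtain ⟨h1, h2⟩ := hv y hy hyd t ht0 ht1
        exact ⟨h1, lt_of_lt_of_le h2 hyD⟩
      have hue : u + ε • v ∈ U := by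
        have h1 : JoinedIn W (u + (0 : ℝ) • v) (u + ε • v) := by
          refine joinLine hε.le (fun r hr => ?_)
          rcases eq_or_lt_of_le hr.1 with h0 | h0
          · rw [← h0, zero_smul, add_zero]; exact hUW hu
          · exact hline u huT hudε huD.le r h0 hr.2
        rw [zero_smul, add_zero] at h1
        exact hUext u _ hu h1
      refine ⟨min ε δ0, lt_min hε hδ0, fun y hy hyd hyD => ?_⟩
      have hydε : dist y x < ε := lt_of_lt_of_le hyd (min_le_left _ _)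
      have hydδ : dist y x < δ0 := lt_of_lt_of_le hyd (min_le_right _ _)
      have hye : y + ε • v ∈ U := by
        refine hUext _ _ hue (joinBall hT hδ0' (hv u huT hudε ε hε le_rfl).1 ?_
          (hv y hy hydε ε hε le_rfl).1 ?_)
        · rw [dist_add_right]; exact hudδ
        · rw [dist_add_right]; exact hydδ
      have hyt : ∀ t, 0 < t → t ≤ ε → y + t • v ∈ U := by
        intro t ht0 ht1
        refine hUext _ _ hye (JoinedIn.symm (joinLine ht1 (fun r hr => ?_)))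
        exact hline y hy hydε hyD r (lt_of_lt_of_le ht0 hr.1) hr.2
      have hlim : Tendsto (fun t : ℝ => y + t • v) (𝓝[>] 0) (𝓝 y) := by
        have hc : Continuous (fun t : ℝ => y + t • v) := by fun_prop
        have := hc.tendsto 0
        simp only [zero_smul, add_zero] at this
        exact this.mono_left nhdsWithin_le_nhds
      refine mem_closure_of_tendsto hlim ?_
      have : Ioc (0 : ℝ) ε ∈ 𝓝[>] (0 : ℝ) := Ioc_mem_nhdsGT hε
      filter_upwards [this] with t ht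
      exact hyt t ht.1 ht.2
  have hx1P : x1 ∉ P := by
    intro hx
    obtain ⟨δ, hδ, hδ'⟩ := hnear x1 hx1 (by rw [hD1]; exact hms_pos)
    obtain ⟨u, hu, hud⟩ := Metric.mem_closure_iff.1 hx δ hδ
    rw [dist_comm] at hud
    exact hx1U (hUext u x1 hu (joinBall hT hδ' (hUW hu).1 hud hx1 (by rw [dist_self]; exact hδ)))
  -- the separation
  have hQclosed : IsClosed (T ∩ {x | D x ≤ ms}) := by
    have := hD.preimage_isClosed_of_isClosed hTc.isClosed (isClosed_Iic (a := ms))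
    exact this
  have hPc : IsCompact P := hTc.of_isClosed_subset isClosed_closure hPT
  have hRclosed : IsClosed ((T ∩ {x | D x ≤ ms}) \ P) := by
    rw [← isOpen_compl_iff, Metric.isOpen_iff]
    intro x hx
    by_cases hxQ : x ∈ T ∩ {x | D x ≤ ms}
    · have hxP : x ∈ P := by
        by_contra hcon
        exact hx ⟨hxQ, hcon⟩
      obtain ⟨δ, hδ, hδ'⟩ := hopen x hxP
      refine ⟨δ, hδ, fun y hy hy2 => hy2.2 (hδ' y hy2.1.1 hy hy2.1.2)⟩
    · obtain ⟨δ, hδ, hδ'⟩ := Metric.isOpen_iff.1 hQclosed.isOpen_compl x hxQ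
      exact ⟨δ, hδ, fun y hy hy2 => hδ' hy hy2.1⟩
  have hRc : IsCompact ((T ∩ {x | D x ≤ ms}) \ P) :=
    hTc.of_isClosed_subset hRclosed (sdiff_subset.trans inter_subset_left)
  have hdisj : Disjoint P ((T ∩ {x | D x ≤ ms}) \ P) := disjoint_sdiff_right
  obtain ⟨V1, V2, hV1, hV2, hPV, hRV, hVd⟩ := SeparatedNhds.of_isCompact_isCompact hPc hRc hdisj
  have hKc : IsCompact (T \ (V1 ∪ V2)) := hTc.diff (hV1.union hV2)
  have hx0P : x0 ∈ P := subset_closure hx0U
  have hx1R : x1 ∈ (T ∩ {x | D x ≤ ms}) \ P :=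
    ⟨⟨hx1, by show D x1 ≤ ms; rw [hD1]; exact hms_pos.le⟩, hx1P⟩
  have hmeet : ∀ m, ms < m → ∃ y ∈ T \ (V1 ∪ V2), D y < m := by
    intro m hm
    obtain ⟨γ, hγ⟩ := hJgt m hm
    by_contra hcon
    push Not at hcon
    have hsub : range γ ⊆ V1 ∪ V2 := by
      rintro _ ⟨t, rfl⟩
      by_contra hc
      exact absurd (hγ t).2 (not_lt.2 (hcon (γ t) ⟨(hγ t).1, hc⟩))
    have hpre : IsPreconnected (range γ) := isPreconnected_range γ.continuous
    obtain ⟨y, hy, hy1, hy2⟩ := hpre V1 V2 hV1 hV2 hsub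
      ⟨x0, ⟨0, γ.source⟩, hPV hx0P⟩ ⟨x1, ⟨1, γ.target⟩, hRV hx1R⟩
    exact (Set.disjoint_left.1 hVd hy1) hy2
  obtain ⟨y1, hy1, -⟩ := hmeet (ms + 1) (by linarith)
  obtain ⟨ym, hym, hmin⟩ := hKc.exists_isMinOn ⟨y1, hy1⟩ (hD.mono sdiff_subset)
  have hymD : D ym ≤ ms := by
    refine le_of_forall_gt (fun m hm => ?_)
    obtain ⟨y, hy, hyD⟩ := hmeet m hm
    exact lt_of_le_of_lt (hmin hy) hyD
  have hymQ : ym ∈ T ∩ {x | D x ≤ ms} := ⟨hym.1, hymD⟩
  by_cases hyP : ym ∈ P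
  · exact hym.2 (Or.inl (hPV hyP))
  · exact hym.2 (Or.inr (hRV ⟨hymQ, hyP⟩))

end TSP
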