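import Pool.Agent.TSP.Stmts
import Pool.Agent.DWS.Var

/-!
# Contacts are transversal
-/

set_option autoImplicit false

namespace TSP

open Set MeasureTheory Real Filter Topology

namespace NDGAux

lemma int_right {e s δ : ℝ} (hs : 0 < s) (h : s ≤ δ) :
    ∫ r in (e + s)..(e + δ), 1 / |r - e| = log (δ / s) := by
  have h1 : ∫ r in (e + s)..(e + δ), 1 / |r - e| = ∫ r in (e + s)..(e + δ), 1 / (r - e) := by
    refine intervalIntegral.integral_congr fun r hr => ?_
    rw [uIcc_of_le (by linarith)] at hr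
    have : 0 < r - e := by linarith [hr.1]
    simp only [abs_of_pos this]
  rw [h1, intervalIntegral.integral_comp_sub_right (fun x => 1 / x) e]
  have e1 : e + s - e = s := by ring
  have e2 : e + δ - e = δ := by ring
  rw [e1, e2, integral_one_div_of_pos hs (by linarith)]

lemma int_left {e s δ : ℝ} (hs : 0 < s) (h : s ≤ δ) :
    ∫ r in (e - δ)..(e - s), 1 / |r - e| = log (δ / s) := by
  have h1 := intervalIntegral.integral_comp_sub_left (a := e - δ) (b := e - s)
    (fun x => 1 / |x|) e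
  have e1 : e - (e - s) = s := by ring
  have e2 : e - (e - δ) = δ := by ring
  rw [e1, e2] at h1
  have h2 : ∫ r in (e - δ)..(e - s), 1 / |r - e| = ∫ r in (e - δ)..(e - s), 1 / |e - r| := by
    refine intervalIntegral.integral_congr fun r _ => ?_
    simp only [abs_sub_comm]
  rw [h2, h1]
  have h3 : ∫ x in s..δ, 1 / |x| = ∫ x in s..δ, 1 / x := by
    refine intervalIntegral.integral_congr fun r hr => ?_
    rw [uIcc_of_le h] at hr
    have : 0 < r := by linarith [hr.1]
    simp only [abs_of_pos this]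
  rw [h3, integral_one_div_of_pos hs (by linarith)]

lemma sqrt_gain {u d c x : ℝ} (hu : 0 ≤ u) (hd : 0 < d) (hx : 0 < x) (hc : 0 < c)
    (h : u + d ≤ (c * x) ^ 2) : d / (2 * (c * x)) ≤ √(u + d) - √u := by
  have h0 : 0 < √(u + d) := Real.sqrt_pos.2 (by linarith)
  have h1 : √(u + d) ≤ c * x := by
    rw [← Real.sqrt_sq (by positivity : 0 ≤ c * x)]
    exact Real.sqrt_le_sqrt h
  have h2 : √u ≤ √(u + d) := Real.sqrt_le_sqrt (by linarith)
  have h3 : √(u + d) ^ 2 = u + d := Real.sq_sqrt (by linarith)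
  have h4 : √u ^ 2 = u := Real.sq_sqrt hu
  have h5 : d = (√(u + d) - √u) * (√(u + d) + √u) := by nlinarith
  rw [div_le_iff₀ (by positivity)]
  have h6 : 0 ≤ √(u + d) - √u := by linarith
  have h7 : √(u + d) + √u ≤ 2 * (c * x) := by linarith
  calc d = (√(u + d) - √u) * (√(u + d) + √u) := h5
    _ ≤ (√(u + d) - √u) * (2 * (c * x)) := mul_le_mul_of_nonneg_left h7 h6

variable {L : ℝ} {f A η : ℝ → ℝ}

lemma core (H : Profile L f A η) {a b e C δ : ℝ} {z : ℝ × ℝ} (hab : a < b)
    (hm : Mx f A η (a, b) z) (hC : 0 < C)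
    (hq : ∀ r, |r - e| < δ → |1 - HH f A η z r| ≤ C * (r - e) ^ 2)
    (hh : ∀ r, |r - e| < δ → 1 / 2 ≤ HH f A η z r)
    {u v s : ℝ} (hu : a ≤ u) (huv : u ≤ v) (hv : v ≤ b) (hs : 0 < s) (hs1 : s ≤ 1)
    (hJ : ∀ r ∈ Icc u v, s ≤ |r - e| ∧ |r - e| < δ) :
    ∫ r in u..v, 1 / |r - e| ≤ 4 * √(C + 1) * (π * z.1) := by
  have hsq : 0 < √(C + 1) := Real.sqrt_pos.2 (by linarith)
  set ε := s ^ 2 with hε
  have hε0 : 0 < ε := by positivity
  have hε1 : ε ≤ 1 := by rw [hε]; nlinarith
  have hmem := hm.1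
  have hHH : ∀ r ∈ Icc a b, HH f A η z r ≤ 1 := fun r hr => H.HH_le_one (hmem r hr)
  have hmem' : (1 - ε) • z ∈ KK f A η (a, b) :=
    smul_mem_KK (by nlinarith) hmem
  have h1 := hm.2 _ hmem'
  unfold FF at h1
  simp only [Prod.smul_fst, smul_eq_mul] at h1
  have i1 := H.ii z a b
  have i2 := H.ii ((1 - ε) • z) a b
  have h2 : ∫ r in a..b, (√(1 - HH f A η ((1 - ε) • z) r) - √(1 - HH f A η z r)) ≤
      π * z.1 * ε := by
    rw [intervalIntegral.integral_sub i2 i1]
    linarith
  have h3 : ∫ r in u..v, (√(1 - HH f A η ((1 - ε) • z) r) - √(1 - HH f A η z r)) ≤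
      ∫ r in a..b, (√(1 - HH f A η ((1 - ε) • z) r) - √(1 - HH f A η z r)) := by
    refine intervalIntegral.integral_mono_interval hu huv hv ?_ (i2.sub i1)
    filter_upwards with r
    simp only [Pi.zero_apply, sub_nonneg]
    apply Real.sqrt_le_sqrt
    rw [HH_smul]
    have h5 := HH_nonneg (f := f) (A := A) (η := η) z r
    have h6 : (1 - ε) ^ 2 * HH f A η z r ≤ 1 * HH f A η z r :=
      mul_le_mul_of_nonneg_right (by nlinarith) h5
    linarith
  have hcont : ContinuousOn (fun r => 1 / |r - e|) (Icc u v) := by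
    refine continuousOn_const.div (by fun_prop) ?_
    intro r hr
    have := (hJ r hr).1
    have : 0 < |r - e| := by linarith
    exact this.ne'
  have i3 : IntervalIntegrable (fun r => 1 / |r - e|) volume u v :=
    hcont.intervalIntegrable_of_Icc huv
  have h4 : ∫ r in u..v, ε / (4 * √(C + 1)) * (1 / |r - e|) ≤
      ∫ r in u..v, (√(1 - HH f A η ((1 - ε) • z) r) - √(1 - HH f A η z r)) := by
    refine intervalIntegral.integral_mono_on huv (i3.const_mul _)
      ((H.ii ((1 - ε) • z) u v).sub (H.ii z u v)) ?_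
    intro r hr
    obtain ⟨j1, j2⟩ := hJ r hr
    have j0 : 0 < |r - e| := by linarith
    have hU : 0 ≤ 1 - HH f A η z r := by
      have := hHH r ⟨by linarith [hr.1], by linarith [hr.2]⟩
      linarith
    have hHr := hh r j2
    have hq' := hq r j2
    have habs : (r - e) ^ 2 = |r - e| ^ 2 := (sq_abs _).symm
    have hse : ε ≤ |r - e| ^ 2 := by
      rw [hε]
      exact pow_le_pow_left₀ hs.le j1 2
    have key := sqrt_gain (u := 1 - HH f A η z r) (d := ε / 2) (c := √(C + 1)) (x := |r - e|)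
      hU (by positivity) j0 hsq (by
        rw [mul_pow, Real.sq_sqrt (by linarith)]
        have := le_abs_self (1 - HH f A η z r)
        nlinarith)
    have h5 : √(1 - HH f A η z r + ε / 2) ≤ √(1 - HH f A η ((1 - ε) • z) r) := by
      apply Real.sqrt_le_sqrt
      rw [HH_smul]
      have h8 : ε ≤ 1 - (1 - ε) ^ 2 := by nlinarith
      have h9 : ε * (1 / 2) ≤ (1 - (1 - ε) ^ 2) * HH f A η z r :=
        mul_le_mul h8 hHr (by norm_num) (by linarith)
      linarith
    calc ε / (4 * √(C + 1)) * (1 / |r - e|) = ε / 2 / (2 * (√(C + 1) * |r - e|)) := by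
          field_simp
          ring
      _ ≤ √(1 - HH f A η z r + ε / 2) - √(1 - HH f A η z r) := key
      _ ≤ √(1 - HH f A η ((1 - ε) • z) r) - √(1 - HH f A η z r) := by linarith
  rw [intervalIntegral.integral_const_mul] at h4
  have h6 : ε / (4 * √(C + 1)) * ∫ r in u..v, 1 / |r - e| ≤ π * z.1 * ε := by linarith
  have h7 : ε * (∫ r in u..v, 1 / |r - e|) ≤ ε * (4 * √(C + 1) * (π * z.1)) := by
    have e1 : ε * (∫ r in u..v, 1 / |r - e|) =
        (4 * √(C + 1)) * (ε / (4 * √(C + 1)) * ∫ r in u..v, 1 / |r - e|) := by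
      field_simp
    rw [e1]
    calc (4 * √(C + 1)) * (ε / (4 * √(C + 1)) * ∫ r in u..v, 1 / |r - e|)
        ≤ (4 * √(C + 1)) * (π * z.1 * ε) := mul_le_mul_of_nonneg_left h6 (by positivity)
      _ = ε * (4 * √(C + 1) * (π * z.1)) := by ring
  exact le_of_mul_le_mul_left h7 hε0

end NDGAux

theorem t_NDG : S_NDG := by
  intro L f A η H a b e z ha hab hb hm he h1 hd
  have hfe : f e ≠ 0 := (H.f_pos e (by linarith [he.1]) (by linarith [he.2])).ne'
  have hsm : ContDiffAt ℝ (⊤ : ℕ∞) (fun r => 1 - HH f A η z r) e :=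
    contDiffAt_const.sub (H.HH_contDiffAt hfe)
  have hdiff : DifferentiableAt ℝ (HH f A η z) e := (H.HH_hasDerivAt hfe).differentiableAt
  have hd' : deriv (fun r => 1 - HH f A η z r) e = 0 := by
    rw [deriv_const_sub, hd, neg_zero]
  obtain ⟨C, hC, δ₁, hδ₁, hq⟩ := DWS.quad_bound hsm (by simp only [h1, sub_self]) hd'
  obtain ⟨δ₂, hδ₂, hh⟩ : ∃ δ₂ > 0, ∀ r, |r - e| < δ₂ → 1 / 2 ≤ HH f A η z r := by
    have hc : ContinuousAt (HH f A η z) e := hdiff.continuousAt
    have hev : ∀ᶠ r in 𝓝 e, 1 / 2 < HH f A η z r := by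
      refine hc.eventually_const_lt ?_
      rw [h1]
      norm_num
    obtain ⟨δ₂, hδ₂, hball⟩ := Metric.eventually_nhds_iff.1 hev
    exact ⟨δ₂, hδ₂, fun r hr => (hball (by rw [Real.dist_eq]; exact hr)).le⟩
  have hsq : 0 < √(C + 1) := Real.sqrt_pos.2 (by linarith)
  set K := 4 * √(C + 1) * (π * z.1) with hK
  set B := |K| + 1 with hB
  have hB0 : 0 < B := by positivity
  have hex : exp (-B) < 1 := by
    rw [exp_lt_one_iff]
    linarith
  have hex0 := exp_pos (-B)
  set δ := min δ₁ δ₂ with hδ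
  have hδ0 : 0 < δ := lt_min hδ₁ hδ₂
  have hq' : ∀ r, |r - e| < δ → |1 - HH f A η z r| ≤ C * (r - e) ^ 2 :=
    fun r hr => hq r (hr.trans_le (min_le_left _ _))
  have hh' : ∀ r, |r - e| < δ → 1 / 2 ≤ HH f A η z r :=
    fun r hr => hh r (hr.trans_le (min_le_right _ _))
  have fin : ∀ x : ℝ, 0 < x → log (x / (x * exp (-B))) = B := by
    intro x hx
    have e1 : x / (x * exp (-B)) = exp B := by
      rw [exp_neg]
      field_simp
    rw [e1, log_exp]
  have hKB : ¬ B ≤ K := by
    have := le_abs_self K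
    rw [hB]
    linarith
  rcases lt_or_ge e b with heb | heb
  · -- right side
    obtain ⟨x, hx0, hx1, hxδ, hxb⟩ : ∃ x : ℝ, 0 < x ∧ x ≤ 1 ∧ x < δ ∧ e + x ≤ b := by
      refine ⟨min (min 1 (δ / 2)) (b - e), ?_, ?_, ?_, ?_⟩
      · exact lt_min (lt_min one_pos (by positivity)) (by linarith)
      · exact (min_le_left _ _).trans (min_le_left _ _)
      · exact ((min_le_left _ _).trans (min_le_right _ _)).trans_lt (by linarith)
      · have := min_le_right (min 1 (δ / 2)) (b - e)
        linarith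
    have hs0 : 0 < x * exp (-B) := by positivity
    have hsx : x * exp (-B) ≤ x := by nlinarith
    have h2 := NDGAux.core H hab hm hC hq' hh' (u := e + x * exp (-B)) (v := e + x)
      (s := x * exp (-B)) (by linarith [he.1]) (by linarith) hxb hs0 (by linarith) (by
        intro r hr
        have h3 : 0 < r - e := by linarith [hr.1]
        rw [abs_of_pos h3]
        exact ⟨by linarith [hr.1], by linarith [hr.2]⟩)
    rw [NDGAux.int_right hs0 hsx, fin x hx0] at h2
    exact hKB h2
  · -- left side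
    have hae : a < e := by linarith
    obtain ⟨x, hx0, hx1, hxδ, hxb⟩ : ∃ x : ℝ, 0 < x ∧ x ≤ 1 ∧ x < δ ∧ a ≤ e - x := by
      refine ⟨min (min 1 (δ / 2)) (e - a), ?_, ?_, ?_, ?_⟩
      · exact lt_min (lt_min one_pos (by positivity)) (by linarith)
      · exact (min_le_left _ _).trans (min_le_left _ _)
      · exact ((min_le_left _ _).trans (min_le_right _ _)).trans_lt (by linarith)
      · have := min_le_right (min 1 (δ / 2)) (e - a)
        linarith
    have hs0 : 0 < x * exp (-B) := by positivity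
    have hsx : x * exp (-B) ≤ x := by nlinarith
    have h2 := NDGAux.core H hab hm hC hq' hh' (u := e - x) (v := e - x * exp (-B))
      (s := x * exp (-B)) hxb (by linarith) (by linarith [he.2]) hs0 (by linarith) (by
        intro r hr
        have h3 : r - e < 0 := by linarith [hr.2]
        rw [abs_of_neg h3]
        exact ⟨by linarith [hr.2], by linarith [hr.1]⟩)
    rw [NDGAux.int_left hs0 hsx, fin x hx0] at h2
    exact hKB h2

end TSP
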