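import Pool.Agent.TSP.Stmts

/-!
# Reflection of the profile

The reflection `r ↦ L - r` maps the profile to a profile and interchanges the two axes; it preserves the norm,
the maximizers and the descent directions.
-/

set_option autoImplicit false

namespace TSP

open Set MeasureTheory Real Filter Topology

namespace REFAux

variable {L : ℝ} {f A η : ℝ → ℝ}

lemma profile (H : Profile L f A η) :
    Profile L (fun r => f (L - r)) (fun r => A (L - r)) (fun r => η (L - r)) := by
  have hs : ContDiff ℝ (⊤ : ℕ∞) (fun r : ℝ => L - r) := contDiff_const.sub contDiff_id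
  have hd : ∀ x : ℝ, deriv (fun r => f (L - r)) x = - deriv f (L - x) := by
    intro x
    have h1 : HasDerivAt f (deriv f (L - x)) (L - x) := (H.f_diff (L - x)).hasDerivAt
    have h2 : HasDerivAt (fun r : ℝ => L - r) (-1) x := by
      simpa using (hasDerivAt_id x).const_sub L
    have h3 : HasDerivAt (fun r => f (L - r)) (deriv f (L - x) * (-1)) x := h1.comp x h2
    rw [h3.deriv]
    ring
  refine ⟨H.L_pos, H.smooth_f.comp hs, H.smooth_A.comp hs, H.smooth_η.comp hs, ?_, ?_, ?_, ?_, ?_, ?_,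
    ?_, fun r => H.η_pos _, ?_, ?_⟩
  · intro r
    have := H.f_odd' (L - r)
    show f (L - -r) = - f (L - r)
    rw [← this]
    congr 1
    ring
  · intro r
    have := H.f_odd (L - r)
    show f (L - (2 * L - r)) = - f (L - r)
    rw [← this]
    congr 1
    ring
  · intro r
    have := H.A_even' (L - r)
    show A (L - -r) = A (L - r)
    rw [← this]
    congr 1
    ring
  · intro r
    have := H.A_even (L - r)
    show A (L - (2 * L - r)) = A (L - r)
    rw [← this]
    congr 1
    ring
  · intro r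
    have := H.η_even' (L - r)
    show η (L - -r) = η (L - r)
    rw [← this]
    congr 1
    ring
  · intro r
    have := H.η_even (L - r)
    show η (L - (2 * L - r)) = η (L - r)
    rw [← this]
    congr 1
    ring
  · intro r h0 h1
    exact H.f_pos (L - r) (by linarith) (by linarith)
  · rw [hd 0, sub_zero, H.deriv_L, neg_neg]
  · rw [hd L, sub_self, H.deriv_zero]

lemma HH_eq (z : ℝ × ℝ) (r : ℝ) :
    HH (fun r => f (L - r)) (fun r => A (L - r)) (fun r => η (L - r)) z r = HH f A η z (L - r) := rfl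

lemma Adm_iff (z : ℝ × ℝ) (r : ℝ) :
    Adm (fun r => f (L - r)) (fun r => A (L - r)) (fun r => η (L - r)) z r ↔ Adm f A η z (L - r) :=
  Iff.rfl

lemma KK_eq (x : ℝ × ℝ) :
    KK (fun r => f (L - r)) (fun r => A (L - r)) (fun r => η (L - r)) (L - x.2, L - x.1)
      = KK f A η x := by
  ext z
  constructor
  · intro h r hr
    have h1 := h (L - r) ⟨by linarith [hr.2], by linarith [hr.1]⟩
    rw [Adm_iff, sub_sub_cancel] at h1
    exact h1
  · intro h r hr
    have hr1 : L - x.2 ≤ r := hr.1
    have hr2 : r ≤ L - x.1 := hr.2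
    exact (Adm_iff z r).2 (h (L - r) ⟨by linarith, by linarith⟩)

lemma FF_eq (x z : ℝ × ℝ) :
    FF (fun r => f (L - r)) (fun r => A (L - r)) (fun r => η (L - r)) (L - x.2, L - x.1) z
      = FF f A η x z := by
  unfold FF
  simp only [HH_eq]
  rw [intervalIntegral.integral_comp_sub_left (fun r => √(1 - HH f A η z r)) L]
  simp only [sub_sub_cancel]

lemma DD_eq (x : ℝ × ℝ) :
    DD (fun r => f (L - r)) (fun r => A (L - r)) (fun r => η (L - r)) (L - x.2, L - x.1)
      = DD f A η x := by
  unfold DD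
  rw [KK_eq]
  congr 1
  exact image_congr fun z _ => FF_eq x z

lemma Mx_of (x z : ℝ × ℝ) (h : Mx f A η x z) :
    Mx (fun r => f (L - r)) (fun r => A (L - r)) (fun r => η (L - r)) (L - x.2, L - x.1) z := by
  refine ⟨?_, ?_⟩
  · rw [KK_eq]
    exact h.1
  · intro w hw
    rw [KK_eq] at hw
    rw [FF_eq, FF_eq]
    exact h.2 w hw

lemma Tri_of {y : ℝ × ℝ} (h : y ∈ Tri L) : (L - y.2, L - y.1) ∈ Tri L := by
  obtain ⟨h1, h2, h3⟩ := h
  exact ⟨by show (0 : ℝ) ≤ L - y.2; linarith, by show L - y.2 ≤ L - y.1; linarith,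
    by show L - y.1 ≤ L; linarith⟩

lemma dist_eq (x y : ℝ × ℝ) :
    dist (L - y.2, L - y.1) (L - x.2, L - x.1) = dist y x := by
  rw [Prod.dist_eq, Prod.dist_eq, max_comm]
  simp only [Real.dist_eq]
  congr 1
  · rw [show L - y.1 - (L - x.1) = -(y.1 - x.1) by ring, abs_neg]
  · rw [show L - y.2 - (L - x.2) = -(y.2 - x.2) by ring, abs_neg]

lemma Desc_of (x v : ℝ × ℝ)
    (h : Desc (Tri L) (DD (fun r => f (L - r)) (fun r => A (L - r)) (fun r => η (L - r)))
      (L - x.2, L - x.1) v) : Desc (Tri L) (DD f A η) x (-v.2, -v.1) := by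
  obtain ⟨ε, hε, h⟩ := h
  refine ⟨ε, hε, ?_⟩
  intro y hy hyx t ht htε
  obtain ⟨h1, h2⟩ := h (L - y.2, L - y.1) (Tri_of hy) (by rw [dist_eq]; exact hyx) t ht htε
  have e : ((L - y.2, L - y.1) : ℝ × ℝ) + t • v
      = (L - (y + t • ((-v.2, -v.1) : ℝ × ℝ)).2, L - (y + t • ((-v.2, -v.1) : ℝ × ℝ)).1) := by
    ext
    · simp only [Prod.fst_add, Prod.snd_add, Prod.smul_fst, Prod.smul_snd, smul_eq_mul]
      ring
    · simp only [Prod.fst_add, Prod.snd_add, Prod.smul_fst, Prod.smul_snd, smul_eq_mul]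
      ring
  rw [e] at h1 h2
  constructor
  · have h3 := Tri_of h1
    simpa only [sub_sub_cancel] using h3
  · rw [DD_eq, DD_eq] at h2
    exact h2

end REFAux

theorem t_REF : S_REF := by
  intro L f A η H
  exact ⟨REFAux.profile H, fun z r => rfl, fun x z h => REFAux.Mx_of x z h,
    fun x v h => REFAux.Desc_of x v h⟩

end TSP
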