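import Pool.Agent.TSP.Stmts

/-!
# TSP, module STB: stability of the maximizer   (helper91, compactness part as in `Dco.lean`)
-/

set_option autoImplicit false

namespace TSP

open Set MeasureTheory Real Filter Topology

namespace STBAux

variable {L : ℝ}

theorem tri_mem {x : ℝ × ℝ} (hx : x ∈ Tri L) : x ∈ Icc (0 : ℝ) L ×ˢ Icc (0 : ℝ) L :=
  ⟨⟨hx.1, hx.2.1.trans hx.2.2⟩, ⟨hx.1.trans hx.2.1, hx.2.2⟩⟩

theorem tri_norm {x : ℝ × ℝ} (hx : x ∈ Tri L) : ‖x‖ ≤ L := by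
  have h := tri_mem hx
  rw [Prod.norm_def]
  refine max_le ?_ ?_
  · rw [Real.norm_of_nonneg h.1.1]; exact h.1.2
  · rw [Real.norm_of_nonneg h.2.1]; exact h.2.2

end STBAux

theorem t_STB (hcnt : S_CNT) (hcmp : S_CMP) (hmax : S_MAX) (hlsc : S_LSC) : S_STB := by
  intro L f A η H x z hx hx0 hxL hz ε hε
  obtain ⟨⟨R, hR⟩, hclosed⟩ := hcmp L f A η H
  obtain ⟨-, huni, -, -⟩ := hmax L f A η H
  have hcomp : IsCompact {q : (ℝ × ℝ) × (ℝ × ℝ) | q.1 ∈ Tri L ∧ q.2 ∈ KK f A η q.1} := by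
    refine Metric.isCompact_of_isClosed_isBounded hclosed ?_
    refine (Metric.isBounded_closedBall (x := (0 : (ℝ × ℝ) × (ℝ × ℝ)))
      (r := max L R)).subset ?_
    intro q hq
    rw [mem_closedBall_zero_iff, Prod.norm_def]
    exact max_le_max (STBAux.tri_norm hq.1) (hR q.1 hq.1 q.2 hq.2)
  by_contra hcon
  push Not at hcon
  -- a sequence of bad points
  have hseq : ∀ n : ℕ, ∃ y ∈ Tri L, dist y x < 1 / ((n : ℝ) + 1) ∧
      ∃ w, Mx f A η y w ∧ ε ≤ dist w z := fun n => hcon _ (by positivity)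
  choose y hyT hyx w hw hwz using hseq
  have hy : Tendsto y atTop (𝓝 x) := by
    rw [tendsto_iff_dist_tendsto_zero]
    exact squeeze_zero (fun _ => dist_nonneg) (fun n => (hyx n).le)
      tendsto_one_div_add_atTop_nhds_zero_nat
  have hmem : ∀ n, ((y n, w n) : (ℝ × ℝ) × (ℝ × ℝ)) ∈
      {q : (ℝ × ℝ) × (ℝ × ℝ) | q.1 ∈ Tri L ∧ q.2 ∈ KK f A η q.1} := fun n =>
    ⟨hyT n, (hw n).1⟩
  obtain ⟨q, hq, φ, hφ, hlim⟩ := hcomp.tendsto_subseq hmem
  have hy2 : Tendsto (fun n => y (φ n)) atTop (𝓝 x) := hy.comp hφ.tendsto_atTop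
  have hy3 : Tendsto (fun n => y (φ n)) atTop (𝓝 q.1) :=
    (continuous_fst.tendsto q).comp hlim
  have hw3 : Tendsto (fun n => w (φ n)) atTop (𝓝 q.2) :=
    (continuous_snd.tendsto q).comp hlim
  have hq1 : q.1 = x := tendsto_nhds_unique hy3 hy2
  have hqS : q ∈ (Icc (0 : ℝ) L ×ˢ Icc (0 : ℝ) L) ×ˢ (univ : Set (ℝ × ℝ)) :=
    ⟨STBAux.tri_mem hq.1, mem_univ _⟩
  set G : (ℝ × ℝ) × (ℝ × ℝ) → ℝ := fun q => FF f A η q.1 q.2 with hG
  have hc : Tendsto G (𝓝[(Icc (0 : ℝ) L ×ˢ Icc (0 : ℝ) L) ×ˢ (univ : Set (ℝ × ℝ))] q)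
      (𝓝 (G q)) := hcnt L f A η H q hqS
  have hin : Tendsto (fun n => ((y (φ n), w (φ n)) : (ℝ × ℝ) × (ℝ × ℝ))) atTop
      (𝓝[(Icc (0 : ℝ) L ×ˢ Icc (0 : ℝ) L) ×ˢ (univ : Set (ℝ × ℝ))] q) := by
    refine tendsto_nhdsWithin_iff.2 ⟨hlim, ?_⟩
    refine Filter.Eventually.of_forall fun n => ?_
    exact ⟨STBAux.tri_mem (hyT (φ n)), mem_univ _⟩
  have hlim2 : Tendsto (fun n => G (y (φ n), w (φ n))) atTop (𝓝 (G q)) := hc.comp hin
  have hGq : G q = FF f A η x q.2 := by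
    rw [hG]
    simp only
    rw [hq1]
  -- the limit is a maximizer
  have hMx : Mx f A η x q.2 := by
    constructor
    · have := hq.2
      rwa [hq1] at this
    · intro u hu
      refine le_of_forall_pos_le_add fun e he => ?_
      obtain ⟨δ, hδ, h⟩ := hlsc L f A η H x hx u hu e he
      have h1 : ∀ᶠ n in atTop, dist (y (φ n)) x < δ :=
        (Metric.tendsto_nhds.1 hy2) δ hδ
      have h2 : FF f A η x u - e ≤ G q := by
        refine ge_of_tendsto hlim2 ?_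
        filter_upwards [h1] with n hn
        obtain ⟨u', hu', hu2⟩ := h (y (φ n)) (hyT (φ n)) hn
        exact hu2.trans ((hw (φ n)).2 u' hu')
      rw [hGq] at h2
      linarith
  have heq : q.2 = z := huni x hx hx0 hxL q.2 z hMx hz
  have hdist : Tendsto (fun n => dist (w (φ n)) z) atTop (𝓝 (dist q.2 z)) :=
    hw3.dist tendsto_const_nhds
  have h3 : ε ≤ dist q.2 z := ge_of_tendsto' hdist fun n => hwz (φ n)
  rw [heq, dist_self] at h3
  linarith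

end TSP
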