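import Pool.Agent.TSP.Stmts

/-!
# Strict concavity of the action on the admissible covectors
-/

set_option autoImplicit false

namespace TSP

open Set MeasureTheory Real Filter Topology

namespace STRAux

variable {L : ℝ} {f A η : ℝ → ℝ}

/-- the admissibility condition is convex (midpoints) -/
lemma adm_mid {z w : ℝ × ℝ} {r : ℝ} (hz : Adm f A η z r) (hw : Adm f A η w r) :
    Adm f A η ((1 / 2 : ℝ) • (z + w)) r := by
  unfold Adm at hz hw ⊢
  simp only [Prod.smul_fst, Prod.smul_snd, Prod.fst_add, Prod.snd_add, smul_eq_mul]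
  have e : (1 / 2 * (z.2 + w.2) - A r * (1 / 2 * (z.1 + w.1)))
      = ((z.2 - A r * z.1) + (w.2 - A r * w.1)) / 2 := by ring
  rw [e]
  obtain ⟨h1, h2⟩ := hz
  obtain ⟨h3, h4⟩ := hw
  generalize z.2 - A r * z.1 = t at h1 h2 ⊢
  generalize w.2 - A r * w.1 = s at h3 h4 ⊢
  have k1 : (1 / 2 * (z.1 + w.1)) ^ 2 ≤ (z.1 ^ 2 + w.1 ^ 2) / 2 := by
    nlinarith [sq_nonneg (z.1 - w.1)]
  have k2 : ((t + s) / 2) ^ 2 ≤ (t ^ 2 + s ^ 2) / 2 := by
    nlinarith [sq_nonneg (t - s)]
  have k3 := mul_le_mul_of_nonneg_right k1 (sq_nonneg (η r))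
  have k4 := mul_le_mul_of_nonneg_right k2 (sq_nonneg (f r))
  constructor
  · nlinarith
  · linarith

/-- parallelogram law -/
lemma HH_par (z w : ℝ × ℝ) (r : ℝ) : HH f A η ((1 / 2 : ℝ) • (z + w)) r
    + HH f A η ((1 / 2 : ℝ) • (z - w)) r = (HH f A η z r + HH f A η w r) / 2 := by
  unfold HH
  simp only [Prod.smul_fst, Prod.smul_snd, Prod.fst_add, Prod.snd_add, Prod.fst_sub,
    Prod.snd_sub, smul_eq_mul]
  ring

/-- the squared norm is positive definite -/
lemma HH_pos {d : ℝ × ℝ} {r : ℝ} (hf : f r ≠ 0) (hη : η r ≠ 0) (hd : d ≠ 0) :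
    0 < HH f A η d r := by
  by_contra hcon
  have h0 : HH f A η d r = 0 := le_antisymm (not_lt.1 hcon) (HH_nonneg d r)
  unfold HH at h0
  have a1 : 0 ≤ d.1 ^ 2 / f r ^ 2 := by positivity
  have a2 : 0 ≤ (d.2 - A r * d.1) ^ 2 / η r ^ 2 := by positivity
  have b1 : d.1 ^ 2 / f r ^ 2 = 0 := by linarith
  have b2 : (d.2 - A r * d.1) ^ 2 / η r ^ 2 = 0 := by linarith
  have c1 : d.1 = 0 := by
    rcases div_eq_zero_iff.1 b1 with h | h
    · exact pow_eq_zero_iff (two_ne_zero) |>.1 h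
    · exact absurd (pow_eq_zero_iff (two_ne_zero) |>.1 h) hf
  have c2 : d.2 - A r * d.1 = 0 := by
    rcases div_eq_zero_iff.1 b2 with h | h
    · exact pow_eq_zero_iff (two_ne_zero) |>.1 h
    · exact absurd (pow_eq_zero_iff (two_ne_zero) |>.1 h) hη
  apply hd
  rw [c1, mul_zero, sub_zero] at c2
  exact Prod.ext c1 c2

/-- pointwise strict concavity -/
lemma sqrt_mid (H : Profile L f A η) {z w : ℝ × ℝ} {r : ℝ} (h0 : 0 < r) (h1 : r < L)
    (hz : Adm f A η z r) (hw : Adm f A η w r) (hne : z ≠ w) :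
    (√(1 - HH f A η z r) + √(1 - HH f A η w r)) / 2
      < √(1 - HH f A η ((1 / 2 : ℝ) • (z + w)) r) := by
  have hf := (H.f_pos r h0 h1).ne'
  have hη := (H.η_pos r).ne'
  have hd : (1 / 2 : ℝ) • (z - w) ≠ 0 := by
    intro h
    rcases smul_eq_zero.1 h with h | h
    · norm_num at h
    · exact hne (sub_eq_zero.1 h)
  have p := HH_pos (A := A) hf hη hd
  have q := HH_par (f := f) (A := A) (η := η) z w r
  have u := Real.sq_sqrt (show 0 ≤ 1 - HH f A η z r by linarith [H.HH_le_one hz])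
  have v := Real.sq_sqrt (show 0 ≤ 1 - HH f A η w r by linarith [H.HH_le_one hw])
  have u0 := Real.sqrt_nonneg (1 - HH f A η z r)
  have v0 := Real.sqrt_nonneg (1 - HH f A η w r)
  refine Real.lt_sqrt_of_sq_lt ?_
  generalize √(1 - HH f A η z r) = a at u u0 ⊢
  generalize √(1 - HH f A η w r) = b at v v0 ⊢
  nlinarith [sq_nonneg (a - b)]

end STRAux

open STRAux in
theorem t_STR : S_STR := by
  intro L f A η H x z w hx hlt hz hw hne
  refine ⟨fun r hr => adm_mid (hz r hr) (hw r hr), ?_⟩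
  have iz := H.ii z x.1 x.2
  have iw := H.ii w x.1 x.2
  have im := H.ii ((1 / 2 : ℝ) • (z + w)) x.1 x.2
  have is := (iz.add iw).div_const 2
  have key : 0 < ∫ r in x.1..x.2, (√(1 - HH f A η ((1 / 2 : ℝ) • (z + w)) r)
      - (√(1 - HH f A η z r) + √(1 - HH f A η w r)) / 2) := by
    refine intervalIntegral.intervalIntegral_pos_of_pos_on (im.sub is) ?_ hlt
    intro r hr
    have h0 : 0 < r := lt_of_le_of_lt hx.1 hr.1
    have h1 : r < L := lt_of_lt_of_le hr.2 hx.2.2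
    have hr' : r ∈ Icc x.1 x.2 := ⟨hr.1.le, hr.2.le⟩
    have := sqrt_mid H h0 h1 (hz r hr') (hw r hr') hne
    linarith
  rw [intervalIntegral.integral_sub im is, intervalIntegral.integral_div,
    intervalIntegral.integral_add iz iw] at key
  unfold FF
  have e : ((1 / 2 : ℝ) • (z + w)).1 = (z.1 + w.1) / 2 := by
    simp only [Prod.smul_fst, Prod.fst_add, smul_eq_mul]; ring
  rw [e]
  linarith

end TSP
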