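import Pool.Agent.TSP.Stmts

/-!
# Level sets of the profile
-/

set_option autoImplicit false

namespace TSP

open Set MeasureTheory Real Filter Topology

namespace TUBAux

theorem core {L t c : ℝ} {f : ℝ → ℝ} (hL : 0 < L) (hf : Differentiable ℝ f) (f0 : f 0 = 0)
    (fL : f L = 0) (fpos : ∀ r, 0 < r → r < L → 0 < f r)
    (hcrit : ∀ r : ℝ, 0 < r → r < L → deriv f r = 0 → c < f r) (ht : 0 < t) (htc : t < c) :
    ∃ a b : ℝ, 0 < a ∧ a ≤ b ∧ b < L ∧ f a = t ∧ f b = t ∧ (∀ r ∈ Icc 0 a, f r ≤ t) ∧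
      (∀ r ∈ Icc b L, f r ≤ t) ∧ ∀ r ∈ Icc a b, t ≤ f r := by
  have hc : Continuous f := hf.continuous
  obtain ⟨S, hS⟩ : ∃ S : Set ℝ, S = Icc 0 L ∩ {r | t ≤ f r} := ⟨_, rfl⟩
  have hmem : ∀ r, r ∈ S ↔ (0 ≤ r ∧ r ≤ L) ∧ t ≤ f r := by
    intro r; rw [hS]; exact Iff.rfl
  have hScl : IsCompact S := by
    rw [hS]; exact isCompact_Icc.inter_right (isClosed_le continuous_const hc)
  have hSne : S.Nonempty := by
    obtain ⟨m, hm, hmax⟩ := isCompact_Icc.exists_isMaxOn (nonempty_Icc.2 hL.le) hc.continuousOn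
    have hmid : f (L / 2) ≤ f m := hmax ⟨by linarith, by linarith⟩
    have hm2 : 0 < f m := lt_of_lt_of_le (fpos (L / 2) (by linarith) (by linarith)) hmid
    have h1 : 0 < m := by
      refine lt_of_le_of_ne hm.1 fun h => ?_
      rw [← h, f0] at hm2
      exact lt_irrefl _ hm2
    have h2 : m < L := by
      refine lt_of_le_of_ne hm.2 fun h => ?_
      rw [h, fL] at hm2
      exact lt_irrefl _ hm2
    have h3 : IsLocalMax f m := hmax.isLocalMax (Icc_mem_nhds h1 h2)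
    have h4 := hcrit m h1 h2 h3.deriv_eq_zero
    exact ⟨m, (hmem m).2 ⟨hm, by linarith⟩⟩
  obtain ⟨a, haS, hamin⟩ := hScl.exists_isLeast hSne
  obtain ⟨b, hbS, hbmax⟩ := hScl.exists_isGreatest hSne
  have ha := (hmem a).1 haS
  have hb := (hmem b).1 hbS
  have hfa : f a = t := by
    have h : t ∈ f '' Icc 0 a :=
      intermediate_value_Icc ha.1.1 hc.continuousOn ⟨by rw [f0]; exact ht.le, ha.2⟩
    obtain ⟨r, hr, e⟩ := h
    have h1 : r ∈ S := (hmem r).2 ⟨⟨hr.1, hr.2.trans ha.1.2⟩, e.ge⟩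
    have h2 : r = a := le_antisymm hr.2 (hamin h1)
    rw [← h2]; exact e
  have hfb : f b = t := by
    have h : t ∈ f '' Icc b L :=
      intermediate_value_Icc' hb.1.2 hc.continuousOn ⟨by rw [fL]; exact ht.le, hb.2⟩
    obtain ⟨r, hr, e⟩ := h
    have h1 : r ∈ S := (hmem r).2 ⟨⟨hb.1.1.trans hr.1, hr.2⟩, e.ge⟩
    have h2 : r = b := le_antisymm (hbmax h1) hr.1
    rw [← h2]; exact e
  have ha0 : 0 < a := by
    refine lt_of_le_of_ne ha.1.1 fun h => ?_
    rw [← h, f0] at hfa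
    exact absurd hfa ht.ne
  have hbL : b < L := by
    refine lt_of_le_of_ne hb.1.2 fun h => ?_
    rw [h, fL] at hfb
    exact absurd hfb ht.ne
  have hab : a ≤ b := hamin hbS
  refine ⟨a, b, ha0, hab, hbL, hfa, hfb, ?_, ?_, ?_⟩
  · intro r hr
    by_contra hlt
    push Not at hlt
    have h1 : r ∈ S := (hmem r).2 ⟨⟨hr.1, hr.2.trans ha.1.2⟩, hlt.le⟩
    have h2 : r = a := le_antisymm hr.2 (hamin h1)
    rw [h2, hfa] at hlt
    exact lt_irrefl _ hlt
  · intro r hr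
    by_contra hlt
    push Not at hlt
    have h1 : r ∈ S := (hmem r).2 ⟨⟨hb.1.1.trans hr.1, hr.2⟩, hlt.le⟩
    have h2 : r = b := le_antisymm (hbmax h1) hr.1
    rw [h2, hfb] at hlt
    exact lt_irrefl _ hlt
  · intro r hr
    by_contra hlt
    push Not at hlt
    obtain ⟨m, hm, hmin⟩ := isCompact_Icc.exists_isMinOn (nonempty_Icc.2 hab) hc.continuousOn
    have hm2 : f m ≤ f r := hmin hr
    have h1 : a < m := by
      refine lt_of_le_of_ne hm.1 fun h => ?_
      rw [← h, hfa] at hm2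
      linarith
    have h2 : m < b := by
      refine lt_of_le_of_ne hm.2 fun h => ?_
      rw [h, hfb] at hm2
      linarith
    have h3 : IsLocalMin f m := hmin.isLocalMin (Icc_mem_nhds h1 h2)
    have h4 := hcrit m (ha0.trans h1) (h2.trans hbL) h3.deriv_eq_zero
    linarith

end TUBAux

/-- level sets -/
theorem t_TUB : S_TUB := by
  intro L f A η c H hc hcrit t ht htc
  exact TUBAux.core H.L_pos H.f_diff H.f_zero H.f_L H.f_pos hcrit ht htc

end TSP
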