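import Pool.Agent.TSP.Stmts

/-!
# The well
-/

set_option autoImplicit false

namespace TSP

open Set MeasureTheory Real Filter Topology

namespace WELAux

/-- one-sided maximum from the right -/
lemma right_max {g : ℝ → ℝ} {a b D : ℝ} (hab : a < b) (hD : HasDerivAt g D a)
    (h : ∀ r ∈ Ioo a b, g r ≤ g a) : D ≤ 0 := by
  have h1 : Tendsto (slope g a) (𝓝[>] a) (𝓝 D) :=
    (hasDerivAt_iff_tendsto_slope.1 hD).mono_left
      (nhdsWithin_mono a fun x hx => ne_of_gt hx)
  refine le_of_tendsto h1 ?_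
  filter_upwards [Ioo_mem_nhdsGT hab] with r hr
  rw [slope_def_field]
  exact div_nonpos_of_nonpos_of_nonneg (sub_nonpos.2 (h r hr)) (sub_nonneg.2 hr.1.le)

/-- one-sided maximum from the left -/
lemma left_max {g : ℝ → ℝ} {a b D : ℝ} (hab : a < b) (hD : HasDerivAt g D b)
    (h : ∀ r ∈ Ioo a b, g r ≤ g b) : 0 ≤ D := by
  have h1 : Tendsto (slope g b) (𝓝[<] b) (𝓝 D) :=
    (hasDerivAt_iff_tendsto_slope.1 hD).mono_left
      (nhdsWithin_mono b fun x hx => ne_of_lt hx)
  refine ge_of_tendsto h1 ?_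
  filter_upwards [Ioo_mem_nhdsLT hab] with r hr
  rw [slope_def_field]
  exact div_nonneg_of_nonpos (sub_nonpos.2 (h r hr)) (sub_nonpos.2 hr.2.le)

end WELAux

/-- the well -/
theorem t_WEL (hndg : S_NDG) : S_WEL := by
  intro L f A η H a b z ha hab hb hM h1 h2
  have hne : ∀ r ∈ Icc a b, f r ≠ 0 := fun r hr =>
    (H.f_pos r (lt_of_lt_of_le ha hr.1) (lt_of_le_of_lt hr.2 hb)).ne'
  have hle : ∀ r ∈ Icc a b, HH f A η z r ≤ 1 := fun r hr => H.HH_le_one (hM.1 r hr)
  have hd : ∀ r ∈ Icc a b, HasDerivAt (HH f A η z) (deriv (HH f A η z) r) r := by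
    intro r hr
    have := H.HH_hasDerivAt (z := z) (hne r hr)
    rw [this.deriv]
    exact this
  have haI : a ∈ Icc a b := ⟨le_rfl, hab.le⟩
  have hbI : b ∈ Icc a b := ⟨hab.le, le_rfl⟩
  refine ⟨hab, ?_, ?_, ?_, ?_, ?_, ?_⟩
  · intro x hx
    exact contDiffAt_const.sub (H.HH_contDiffAt (hne x hx))
  · show 1 - HH f A η z a = 0
    rw [h1, sub_self]
  · show 1 - HH f A η z b = 0
    rw [h2, sub_self]
  · intro x hx
    show 0 < 1 - HH f A η z x
    have hx' : x ∈ Icc a b := ⟨hx.1.le, hx.2.le⟩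
    rcases lt_or_eq_of_le (hle x hx') with h | h
    · linarith
    · exfalso
      refine hndg L f A η H a b x z ha hab hb hM hx' h ?_
      refine IsLocalMax.deriv_eq_zero ?_
      filter_upwards [Icc_mem_nhds hx.1 hx.2] with r hr
      rw [h]
      exact hle r hr
  · rw [deriv_const_sub]
    have h3 := WELAux.right_max hab (hd a haI) (fun r hr => by
      rw [h1]; exact hle r ⟨hr.1.le, hr.2.le⟩)
    have h4 := hndg L f A η H a b a z ha hab hb hM haI h1
    have h5 := lt_of_le_of_ne h3 h4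
    linarith
  · rw [deriv_const_sub]
    have h3 := WELAux.left_max hab (hd b hbI) (fun r hr => by
      rw [h2]; exact hle r ⟨hr.1.le, hr.2.le⟩)
    have h4 := hndg L f A η H a b b z ha hab hb hM hbI h2
    have h5 := lt_of_le_of_ne h3 (Ne.symm h4)
    linarith

end TSP
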