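import Pool.Agent.TSP.Cnt
import Pool.Agent.TSP.Cmp
import Pool.Agent.TSP.Str
import Pool.Agent.TSP.Max
import Pool.Agent.TSP.Bnd
import Pool.Agent.TSP.Lsc
import Pool.Agent.TSP.Stb
import Pool.Agent.TSP.Dco
import Pool.Agent.TSP.Ref
import Pool.Agent.TSP.Enl
import Pool.Agent.TSP.Enr
import Pool.Agent.TSP.Dil
import Pool.Agent.TSP.Dir
import Pool.Agent.TSP.Ndg
import Pool.Agent.TSP.Wel
import Pool.Agent.TSP.Grd
import Pool.Agent.TSP.Dsc
import Pool.Agent.TSP.Geod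
import Pool.Agent.TSP.Cir
import Pool.Agent.TSP.Tub
import Pool.Agent.TSP.Mps
import Pool.Agent.TSP.Loc
import Pool.Agent.TSP.Lvl

/-!
# The statements of `Stmts.lean`, proved
-/

set_option autoImplicit false

namespace TSP

theorem c_MAX : S_MAX := t_MAX t_CNT t_CMP t_STR

theorem c_LSC : S_LSC := t_LSC t_CNT

theorem c_STB : S_STB := t_STB t_CNT t_CMP c_MAX c_LSC

theorem c_DCO : S_DCO := t_DCO t_CNT t_CMP c_MAX c_LSC

theorem c_BND : S_BND := t_BND c_MAX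

theorem c_ENL : S_ENL := t_ENL c_MAX c_STB

theorem c_DIL : S_DIL := t_DIL c_MAX c_STB

theorem c_DSC : S_DSC := t_DSC c_MAX c_STB

theorem c_LOC : S_LOC :=
  t_LOC c_MAX c_BND c_ENL (t_ENR t_REF c_ENL) c_DIL (t_DIR t_REF c_DIL) (t_WEL t_NDG) t_GRD c_DSC t_GEO t_CIR

theorem c_LVL : S_LVL := t_LVL t_MPS c_LOC c_BND c_DCO t_TUB t_CIR

end TSP
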