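import Pool.Agent.TSP.Stmts
import Pool.Agent.DWS.Geo

/-!
# Torus-invariant metrics on the product of the two-sphere and the circle: the oscillating geodesic
-/

set_option autoImplicit false

namespace TSP

open Set MeasureTheory Real Filter Topology

namespace GEOAux

section
variable {L : ℝ} {f A η : ℝ → ℝ}

lemma exp_add_int (x y : ℝ) (j : ℤ) (h : x = y + 2 * π * j) :
    Complex.exp (x * Complex.I) = Complex.exp (y * Complex.I) := by
  rw [h]
  push_cast
  have : ((y : ℂ) + 2 * π * j) * Complex.I = y * Complex.I + j * (2 * π * Complex.I) := by ring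
  rw [this, Complex.exp_add, Complex.exp_int_mul_two_pi_mul_I, mul_one]

lemma geodesic_of {r θ φ v w p q p1 p1' : ℝ → ℝ} {s : ℝ}
    (hr : ContDiff ℝ (⊤ : ℕ∞) r) (hθ : ContDiff ℝ (⊤ : ℕ∞) θ) (hφ : ContDiff ℝ (⊤ : ℕ∞) φ)
    (h1 : ∀ t, HasDerivAt r (v t) t) (h2 : ∀ t, HasDerivAt v (w t) t)
    (h3 : ∀ t, HasDerivAt θ (p t) t) (h5 : ∀ t, HasDerivAt φ (q t) t)
    (hp1 : ∀ t, p t + A (r t) * q t = p1 t) (h4 : ∀ t, HasDerivAt p1 (p1' t) t)
    (e1 : ∀ t, v t ^ 2 + f (r t) ^ 2 * p1 t ^ 2 + η (r t) ^ 2 * q t ^ 2 = 1)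
    (e2 : ∀ t, w t = f (r t) * deriv f (r t) * p1 t ^ 2
      + f (r t) ^ 2 * deriv A (r t) * (p1 t * q t) + η (r t) * deriv η (r t) * q t ^ 2)
    (e3 : ∀ t, f (r t) * p1' t + 2 * deriv f (r t) * v t * p1 t = 0)
    (e4 : ∀ t, η (r t) ^ 2 * q t + A (r t) * (f (r t) ^ 2 * p1 t) = s) :
    IsUnitGeodesic f A η r θ φ := by
  have d1 : deriv r = v := funext fun t => (h1 t).deriv
  have d2 : deriv v = w := funext fun t => (h2 t).deriv
  have d3 : deriv θ = p := funext fun t => (h3 t).deriv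
  have d5 : deriv φ = q := funext fun t => (h5 t).deriv
  have d4 : deriv p1 = p1' := funext fun t => (h4 t).deriv
  have c1 : (fun s => p s + A (r s) * q s) = p1 := funext hp1
  refine ⟨hr, hθ, hφ, ?_, ?_, ?_, ?_⟩
  · intro t; rw [d1, d3, d5, hp1]; exact e1 t
  · intro t; rw [d1, d2, d3, d5, hp1]; exact e2 t
  · intro t; rw [d3, d5, c1, d4, d1, hp1]; exact e3 t
  · intro t
    rw [d3, d5]
    have c2 : (fun u => (η (r u)) ^ 2 * q u + A (r u) * ((f (r u)) ^ 2 * (p u + A (r u) * q u)))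
        = fun _ => s := by
      funext u
      rw [hp1]; exact e4 u
    rw [c2, deriv_const]

/-- angular speed of `θ` -/
noncomputable def PP (f A η : ℝ → ℝ) (z : ℝ × ℝ) (x : ℝ) : ℝ := BB f A η z (1, 0) x

/-- angular speed of `φ` -/
noncomputable def QQ (f A η : ℝ → ℝ) (z : ℝ × ℝ) (x : ℝ) : ℝ := BB f A η z (0, 1) x

lemma QQ_eq (z : ℝ × ℝ) (x : ℝ) : QQ f A η z x = (z.2 - A x * z.1) / η x ^ 2 := by
  unfold QQ BB; ring

lemma PP_eq (z : ℝ × ℝ) (x : ℝ) : PP f A η z x = z.1 / f x ^ 2 - A x * QQ f A η z x := by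
  unfold PP QQ BB; ring

lemma mom_eq (z : ℝ × ℝ) (x : ℝ) : PP f A η z x + A x * QQ f A η z x = z.1 / f x ^ 2 := by
  rw [PP_eq]; ring

lemma smooth_mom (H : Profile L f A η) {z : ℝ × ℝ} {x : ℝ} (hf : f x ≠ 0) :
    ContDiffAt ℝ (⊤ : ℕ∞) (fun y => z.1 / f y ^ 2) x :=
  contDiffAt_const.div (H.smooth_f.contDiffAt.pow 2) (pow_ne_zero 2 hf)

lemma smooth_QQ (H : Profile L f A η) (z : ℝ × ℝ) (x : ℝ) :
    ContDiffAt ℝ (⊤ : ℕ∞) (QQ f A η z) x := by
  have e : QQ f A η z = fun y => (z.2 - A y * z.1) / η y ^ 2 := funext fun y => QQ_eq z y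
  rw [e]
  exact (contDiffAt_const.sub (H.smooth_A.contDiffAt.mul contDiffAt_const)).div
    (H.smooth_η.contDiffAt.pow 2) (pow_ne_zero 2 (H.η_pos x).ne')

lemma smooth_PP (H : Profile L f A η) {z : ℝ × ℝ} {x : ℝ} (hf : f x ≠ 0) :
    ContDiffAt ℝ (⊤ : ℕ∞) (PP f A η z) x := by
  have e : PP f A η z = fun y => z.1 / f y ^ 2 - A y * QQ f A η z y := funext fun y => PP_eq z y
  rw [e]
  exact (smooth_mom H hf).sub (H.smooth_A.contDiffAt.mul (smooth_QQ H z x))

lemma mom_hasDerivAt (H : Profile L f A η) {z : ℝ × ℝ} {x : ℝ} (hf : f x ≠ 0) :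
    HasDerivAt (fun y => z.1 / f y ^ 2) (-(2 * z.1 * deriv f x / f x ^ 3)) x := by
  have := (hasDerivAt_const x z.1).div ((H.f_diff x).hasDerivAt.pow 2) (pow_ne_zero 2 hf)
  refine this.congr_deriv ?_
  simp only [Nat.cast_ofNat, Pi.pow_apply]
  field_simp
  ring

/-- the well gives a geodesic -/
lemma geodesic_well (H : Profile L f A η) {a b : ℝ} {z : ℝ × ℝ}
    (hw : SGR.Well (fun r => 1 - HH f A η z r) a b) (h0 : ∀ x ∈ Icc a b, f x ≠ 0) :
    IsUnitGeodesic f A η hw.sol (DWS.ang hw (PP f A η z)) (DWS.ang hw (QQ f A η z)) := by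
  have hPc : ContinuousOn (PP f A η z) (Icc a b) := fun x hx =>
    (smooth_PP H (h0 x hx)).continuousAt.continuousWithinAt
  have hQc : ContinuousOn (QQ f A η z) (Icc a b) := fun x _ =>
    (smooth_QQ H z x).continuousAt.continuousWithinAt
  refine geodesic_of (s := z.2) (v := hw.vel)
    (w := fun t => deriv (fun r => 1 - HH f A η z r) (hw.sol t) / 2)
    (p := fun t => PP f A η z (hw.sol t)) (q := fun t => QQ f A η z (hw.sol t))
    (p1 := fun t => z.1 / f (hw.sol t) ^ 2)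
    (p1' := fun t => -(2 * z.1 * deriv f (hw.sol t) / f (hw.sol t) ^ 3) * hw.vel t)
    hw.sol_contDiff (DWS.ang_contDiff hw fun x hx => smooth_PP H (h0 x hx))
    (DWS.ang_contDiff hw fun x _ => smooth_QQ H z x) hw.sol_hasDerivAt
    hw.vel_hasDerivAt (DWS.ang_hasDerivAt hw hPc) (DWS.ang_hasDerivAt hw hQc) ?_ ?_ ?_ ?_ ?_ ?_
    <;> intro t
  · exact mom_eq z _
  · exact (mom_hasDerivAt H (h0 _ (hw.sol_mem t))).comp t (hw.sol_hasDerivAt t)
  · have hf := h0 _ (hw.sol_mem t)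
    have hη := (H.η_pos (hw.sol t)).ne'
    rw [hw.vel_sq]
    simp only [QQ_eq]
    unfold HH
    field_simp
    ring
  · have hf := h0 _ (hw.sol_mem t)
    have hη := (H.η_pos (hw.sol t)).ne'
    have e := ((H.HH_hasDerivAt (z := z) hf).const_sub 1).deriv
    simp only [QQ_eq]
    rw [e]
    unfold HHd
    field_simp
    ring
  · have hf := h0 _ (hw.sol_mem t)
    field_simp
    ring
  · have hf := h0 _ (hw.sol_mem t)
    have hη := (H.η_pos (hw.sol t)).ne'
    simp only [QQ_eq]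
    field_simp
    ring

/-- closing after one oscillation -/
lemma osc_closes {U P Q : ℝ → ℝ} {α β : ℝ} (hw : SGR.Well U α β) (hPc : ContinuousOn P (Icc α β))
    (hQc : ContinuousOn Q (Icc α β)) (m n : ℤ)
    (hΘ : 2 * ∫ x in Ioo α β, P x / √(U x) = 2 * π * m)
    (hΦ : 2 * ∫ x in Ioo α β, Q x / √(U x) = 2 * π * n) :
    Closes L hw.sol (DWS.ang hw P) (DWS.ang hw Q) (SGR.per U α β) := by
  refine ⟨hw.per_pos, fun t => ?_⟩
  unfold point
  rw [hw.sol_periodic]
  rw [exp_add_int (DWS.ang hw P (t + SGR.per U α β)) (DWS.ang hw P t) m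
    (by rw [DWS.ang_add hw hPc, hΘ])]
  rw [exp_add_int (DWS.ang hw Q (t + SGR.per U α β)) (DWS.ang hw Q t) n
    (by rw [DWS.ang_add hw hQc, hΦ])]

end

end GEOAux

open GEOAux in
theorem t_GEO : S_GEO := by
  intro L f A η H a b z ha hab hbL hw hI
  have h0 : ∀ x ∈ Icc a b, f x ≠ 0 := fun x hx =>
    (H.f_pos x (ha.trans_le hx.1) (hx.2.trans_lt hbL)).ne'
  have hPc : ContinuousOn (PP f A η z) (Icc a b) := fun x hx =>
    (smooth_PP H (h0 x hx)).continuousAt.continuousWithinAt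
  have hQc : ContinuousOn (QQ f A η z) (Icc a b) := fun x _ =>
    (smooth_QQ H z x).continuousAt.continuousWithinAt
  have toIoo : ∀ g : ℝ → ℝ, ∫ x in Ioo a b, g x = ∫ x in a..b, g x := by
    intro g
    rw [intervalIntegral.integral_of_le hab.le, integral_Ioc_eq_integral_Ioo]
  refine ⟨hw.sol, DWS.ang hw (PP f A η z), DWS.ang hw (QQ f A η z),
    SGR.per (fun r => 1 - HH f A η z r) a b, geodesic_well H hw h0, ?_, ?_⟩
  · refine osc_closes hw hPc hQc 1 0 ?_ ?_
    · rw [toIoo]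
      have := hI (1, 0)
      simp only [PP]
      rw [this]
      push_cast
      ring
    · rw [toIoo]
      have := hI (0, 1)
      simp only [QQ]
      rw [this]
      push_cast
      ring
  · have hHc : ContinuousOn (HH f A η z) (Icc a b) := fun x hx =>
      (H.HH_contDiffAt (h0 x hx)).continuousAt.continuousWithinAt
    have i1 : IntervalIntegrable (fun r => HH f A η z r / √(1 - HH f A η z r)) volume a b := by
      rw [intervalIntegrable_iff_integrableOn_Ioo_of_le hab.le]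
      exact hw.integrableOn hHc
    have h2 : (∫ r in a..b, HH f A η z r / √(1 - HH f A η z r)) = π * z.1 := by
      have := hI z
      simp only [BB_self] at this
      exact this
    rw [DWS.per_eq hw, toIoo]
    unfold FF
    simp only
    rw [← h2, ← intervalIntegral.integral_add (H.ii z a b) i1]
    congr 1
    rw [← toIoo, ← toIoo]
    refine setIntegral_congr_fun measurableSet_Ioo ?_
    intro x hx
    have hp : 0 < 1 - HH f A η z x := hw.pos x hx
    have hs := Real.sqrt_pos.2 hp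
    have hsq : √(1 - HH f A η z x) ^ 2 = 1 - HH f A η z x := Real.sq_sqrt hp.le
    simp only
    rw [div_eq_iff hs.ne', add_mul, div_mul_cancel₀ _ hs.ne', ← pow_two, hsq]
    ring

end TSP
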