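import Pool.Agent.TSP.Stmts

/-!
# Two dimensional lattices
-/

set_option autoImplicit false

namespace TSP

namespace LATAux

open Real

/-- `√3 / 2 * c < e` from the squares. -/
theorem half_lt {c e : ℝ} (he : 0 < e) (h : 3 * c ^ 2 < 4 * e ^ 2) : √3 / 2 * c < e := by
  have h3 : √3 ^ 2 = 3 := Real.sq_sqrt (by norm_num)
  have h1 : (√3 / 2 * c) ^ 2 < e ^ 2 := by
    rw [mul_pow, div_pow, h3]
    linarith
  exact lt_of_pow_lt_pow_left₀ 2 he.le h1

/-- The case in which all nonzero vectors of the lattice are long. -/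
theorem big {c y x e : ℝ} (hy : 0 < y) (he : 0 < e)
    (h : ∀ m n : ℤ, (m ≠ 0 ∨ n ≠ 0) →
      c ^ 2 < y ^ 2 * (m + x * n) ^ 2 + e ^ 2 * (n : ℝ) ^ 2) :
    √3 / 2 * c ^ 2 < y * e := by
  have him : 0 < (⟨x, e / y⟩ : ℂ).im := by
    change 0 < e / y
    positivity
  let τ : UpperHalfPlane := ⟨⟨x, e / y⟩, him⟩
  obtain ⟨g, hg⟩ := ModularGroup.exists_smul_mem_fd τ
  have h1 := ModularGroup.three_le_four_mul_im_sq_of_mem_fd hg
  have h2 := ModularGroup.im_smul_eq_div_normSq g τ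
  rw [ModularGroup.denom_apply] at h2
  have hτim : τ.im = e / y := rfl
  have hns : Complex.normSq ((g 1 0 : ℂ) * τ + (g 1 1 : ℂ))
      = ((g 1 1 : ℝ) + x * (g 1 0 : ℝ)) ^ 2 + (e / y) ^ 2 * (g 1 0 : ℝ) ^ 2 := by
    have e1 : ((g 1 0 : ℂ) * (τ : ℂ) + (g 1 1 : ℂ)).re = (g 1 1 : ℝ) + x * (g 1 0 : ℝ) := by
      simp [τ]
      ring
    have e2 : ((g 1 0 : ℂ) * (τ : ℂ) + (g 1 1 : ℂ)).im = (g 1 0 : ℝ) * (e / y) := by
      simp [τ]
    rw [Complex.normSq_apply, e1, e2]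
    ring
  rw [hns, hτim] at h2
  have hdet := Matrix.det_fin_two (g : Matrix (Fin 2) (Fin 2) ℤ)
  rw [g.det_coe] at hdet
  have hne : (g 1 1 : ℤ) ≠ 0 ∨ (g 1 0 : ℤ) ≠ 0 := by
    by_contra hcon
    push Not at hcon
    rw [hcon.1, hcon.2] at hdet
    simp at hdet
  have h3 := h (g 1 1) (g 1 0) hne
  set N : ℝ := ((g 1 1 : ℝ) + x * (g 1 0 : ℝ)) ^ 2 + (e / y) ^ 2 * (g 1 0 : ℝ) ^ 2 with hN
  have h4 : y ^ 2 * N = y ^ 2 * ((g 1 1 : ℝ) + x * (g 1 0 : ℝ)) ^ 2 + e ^ 2 * (g 1 0 : ℝ) ^ 2 := by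
    rw [hN]
    field_simp
  rw [← h4] at h3
  have hN0 : 0 < N := by
    have : 0 < y ^ 2 * N := lt_of_le_of_lt (sq_nonneg c) h3
    exact (mul_pos_iff_of_pos_left (by positivity)).mp this
  have h5 : √3 / 2 ≤ (g • τ).im := by
    have h3' : √3 ^ 2 = 3 := Real.sq_sqrt (by norm_num)
    refine le_of_sq_le_sq ?_ (UpperHalfPlane.im_pos _).le
    rw [div_pow, h3']
    linarith
  rw [h2, le_div_iff₀ hN0] at h5
  have h6 : √3 / 2 * (y ^ 2 * N) ≤ y * e := by
    have := mul_le_mul_of_nonneg_left h5 (show (0 : ℝ) ≤ y ^ 2 by positivity)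
    calc √3 / 2 * (y ^ 2 * N) = y ^ 2 * (√3 / 2 * N) := by ring
      _ ≤ y ^ 2 * (e / y) := this
      _ = y * e := by field_simp
  have h7 : √3 / 2 * c ^ 2 < √3 / 2 * (y ^ 2 * N) :=
    mul_lt_mul_of_pos_left h3 (by positivity)
  linarith

end LATAux

open LATAux in
theorem t_LAT : S_LAT := by
  intro c y x e hc hy he h
  rcases le_or_gt y c with hyc | hyc
  · rw [min_eq_right hyc]
    have h1 := h (-round x) 1 one_ne_zero
    have h2 : |x - round x| ≤ 1 / 2 := abs_sub_round x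
    have h3 : (x - round x) ^ 2 ≤ 1 / 4 := by
      have := sq_le_sq' (neg_le_of_abs_le h2) (le_of_abs_le h2)
      linarith
    have h4 : y ^ 2 * (x - round x) ^ 2 ≤ c ^ 2 * (1 / 4) :=
      mul_le_mul (pow_le_pow_left₀ hy.le hyc 2) h3 (sq_nonneg _) (sq_nonneg _)
    have h5 : ((-round x : ℤ) : ℝ) + x * ((1 : ℤ) : ℝ) = x - round x := by
      push_cast
      ring
    rw [h5] at h1
    have h6 := half_lt (c := c) he (by
      push_cast at h1
      linarith)
    calc √3 / 2 * c * y < e * y := mul_lt_mul_of_pos_right h6 hy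
      _ = y * e := mul_comm _ _
  · rw [min_eq_left hyc.le]
    have h1 := big (c := c) (x := x) hy he (fun m n hmn => by
      by_cases hn : n = 0
      · subst hn
        have hm : m ≠ 0 := by
          rcases hmn with h0 | h0
          · exact h0
          · exact absurd rfl h0
        have hm1 : (1 : ℝ) ≤ (m : ℝ) ^ 2 := by
          have : (1 : ℤ) ≤ m ^ 2 := by
            have := sq_pos_of_ne_zero hm
            omega
          exact_mod_cast this
        have h2 : c ^ 2 < y ^ 2 := pow_lt_pow_left₀ hyc hc.le two_ne_zero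
        have h3 : y ^ 2 * 1 ≤ y ^ 2 * (m : ℝ) ^ 2 :=
          mul_le_mul_of_nonneg_left hm1 (sq_nonneg y)
        simp only [Int.cast_zero, mul_zero, add_zero, ne_eq, OfNat.ofNat_ne_zero,
          not_false_eq_true, zero_pow]
        linarith
      · exact h m n hn)
    calc √3 / 2 * c * c = √3 / 2 * c ^ 2 := by ring
      _ < y * e := h1

end TSP
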