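import Pool.Agent.TSP.StmtsS
import Pool.Agent.TSP.Lat

/-!
# The volume, sharp constant (module TSS_VOL)
-/

set_option autoImplicit false

namespace TSP

open Set MeasureTheory Real Filter Topology

namespace VOLSAux

variable {L : ℝ} {f A η : ℝ → ℝ}

/-- the integrand is integrable on the product -/
lemma intProd (hf : Continuous f) {P : ℝ} (c : ℝ) {w : ℝ → ℝ} (hw : Continuous w) :
    Integrable (Function.uncurry fun r p : ℝ => w p * √(1 - p ^ 2 / (f r / c) ^ 2))
      ((volume.restrict (Ioc 0 L)).prod (volume.restrict (Ioc 0 P))) := by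
  rw [Measure.prod_restrict]
  obtain ⟨M, hM⟩ := (isCompact_Icc (a := (0 : ℝ)) (b := P)).exists_bound_of_continuousOn
    hw.continuousOn
  have hm : Measurable (Function.uncurry fun r p : ℝ => w p * √(1 - p ^ 2 / (f r / c) ^ 2)) := by
    have h1 : Measurable (fun q : ℝ × ℝ => w q.2) := hw.measurable.comp measurable_snd
    have h2 : Measurable (fun q : ℝ × ℝ => q.2 ^ 2) := measurable_snd.pow_const 2
    have h3 : Measurable (fun q : ℝ × ℝ => (f q.1 / c) ^ 2) :=
      ((hf.measurable.comp measurable_fst).div_const c).pow_const 2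
    exact h1.mul (measurable_const.sub (h2.div h3)).sqrt
  refine Measure.integrableOn_of_bounded (M := M) ?_ hm.aestronglyMeasurable ?_
  · rw [Measure.prod_prod, Real.volume_Ioc, Real.volume_Ioc]
    exact ENNReal.mul_ne_top ENNReal.ofReal_ne_top ENNReal.ofReal_ne_top
  · filter_upwards [ae_restrict_mem (measurableSet_Ioc.prod measurableSet_Ioc)] with q hq
    have h1 := hM q.2 ⟨hq.2.1.le, hq.2.2⟩
    have h2 : √(1 - q.2 ^ 2 / (f q.1 / c) ^ 2) ≤ 1 := by
      apply Real.sqrt_le_one.2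
      have : 0 ≤ q.2 ^ 2 / (f q.1 / c) ^ 2 := by positivity
      linarith
    have h3 := Real.sqrt_nonneg (1 - q.2 ^ 2 / (f q.1 / c) ^ 2)
    simp only [Function.uncurry]
    rw [norm_mul, Real.norm_of_nonneg h3]
    nlinarith [norm_nonneg (w q.2)]

/-- Fubini for a continuous weight -/
lemma fubC (hf : Continuous f) {P c : ℝ} {w : ℝ → ℝ} (hw : Continuous w) (hL : 0 ≤ L)
    (hP : 0 ≤ P) (hP1 : P ≤ 1) (hc : 0 < c) (hw0 : ∀ p ∈ Icc 0 P, 0 ≤ w p)
    (hW : ∀ p : ℝ, 0 ≤ p → p ≤ c →
      π * (c - p) ≤ ∫ r in (0 : ℝ)..L, √(1 - p ^ 2 / f r ^ 2)) :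
    IntervalIntegrable (fun r => ∫ p in (0 : ℝ)..P, w p * √(1 - p ^ 2 / (f r / c) ^ 2))
      volume 0 L ∧
    c * (∫ p in (0 : ℝ)..P, w p * (π * (1 - p)))
      ≤ ∫ r in (0 : ℝ)..L, ∫ p in (0 : ℝ)..P, w p * √(1 - p ^ 2 / (f r / c) ^ 2) := by
  have hI := intProd (L := L) (P := P) hf c hw
  have hI1 := hI.integral_prod_left
  have hI2 := hI.integral_prod_right
  constructor
  · rw [intervalIntegrable_iff_integrableOn_Ioc_of_le hL]
    simp_rw [intervalIntegral.integral_of_le hP]
    exact hI1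
  · have hsw : (∫ r in (0 : ℝ)..L, ∫ p in (0 : ℝ)..P, w p * √(1 - p ^ 2 / (f r / c) ^ 2))
        = ∫ p in (0 : ℝ)..P, ∫ r in (0 : ℝ)..L, w p * √(1 - p ^ 2 / (f r / c) ^ 2) := by
      simp_rw [intervalIntegral.integral_of_le hP, intervalIntegral.integral_of_le hL]
      exact integral_integral_swap hI
    rw [hsw, ← intervalIntegral.integral_const_mul]
    refine intervalIntegral.integral_mono_on hP ?_ ?_ (fun p hp => ?_)
    · exact (continuous_const.mul (hw.mul (continuous_const.mul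
        (continuous_const.sub continuous_id)))).intervalIntegrable _ _
    · rw [intervalIntegrable_iff_integrableOn_Ioc_of_le hP]
      simp_rw [intervalIntegral.integral_of_le hL]
      exact hI2
    · have h1 := hW (c * p) (mul_nonneg hc.le hp.1) (by nlinarith [hp.2])
      have h2 := hw0 p hp
      rw [intervalIntegral.integral_const_mul]
      have h3 : (∫ r in (0 : ℝ)..L, √(1 - p ^ 2 / (f r / c) ^ 2))
          = ∫ r in (0 : ℝ)..L, √(1 - (c * p) ^ 2 / f r ^ 2) := by
        refine intervalIntegral.integral_congr (fun r _ => ?_)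
        have : p ^ 2 / (f r / c) ^ 2 = (c * p) ^ 2 / f r ^ 2 := by
          have := hc.ne'
          by_cases h0 : f r = 0
          · rw [h0]; simp
          · field_simp
        simp only [this]
      rw [h3]
      have h4 := mul_le_mul_of_nonneg_left h1 h2
      refine le_trans (le_of_eq ?_) h4
      ring

/-- Fubini for a weight which is continuous on the interval -/
lemma fub (hf : Continuous f) {P c : ℝ} {w : ℝ → ℝ} (hw : ContinuousOn w (Icc 0 P)) (hL : 0 ≤ L)
    (hP : 0 ≤ P) (hP1 : P ≤ 1) (hc : 0 < c) (hw0 : ∀ p ∈ Icc 0 P, 0 ≤ w p)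
    (hW : ∀ p : ℝ, 0 ≤ p → p ≤ c →
      π * (c - p) ≤ ∫ r in (0 : ℝ)..L, √(1 - p ^ 2 / f r ^ 2)) :
    IntervalIntegrable (fun r => ∫ p in (0 : ℝ)..P, w p * √(1 - p ^ 2 / (f r / c) ^ 2))
      volume 0 L ∧
    c * (∫ p in (0 : ℝ)..P, w p * (π * (1 - p)))
      ≤ ∫ r in (0 : ℝ)..L, ∫ p in (0 : ℝ)..P, w p * √(1 - p ^ 2 / (f r / c) ^ 2) := by
  set W : ℝ → ℝ := IccExtend hP ((Icc 0 P).restrict w) with hWd
  have hWc : Continuous W := (continuousOn_iff_continuous_restrict.1 hw).Icc_extend'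
  have hWe : ∀ p ∈ Icc 0 P, W p = w p := fun p hp => by
    rw [hWd, IccExtend_of_mem hP _ hp]
    rfl
  have h := fubC (L := L) hf hWc hL hP hP1 hc (fun p hp => by rw [hWe p hp]; exact hw0 p hp) hW
  have e1 : ∀ r, (∫ p in (0 : ℝ)..P, W p * √(1 - p ^ 2 / (f r / c) ^ 2))
      = ∫ p in (0 : ℝ)..P, w p * √(1 - p ^ 2 / (f r / c) ^ 2) := fun r => by
    refine intervalIntegral.integral_congr (fun p hp => ?_)
    rw [uIcc_of_le hP] at hp
    simp only [hWe p hp]
  have e2 : (∫ p in (0 : ℝ)..P, W p * (π * (1 - p)))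
      = ∫ p in (0 : ℝ)..P, w p * (π * (1 - p)) := by
    refine intervalIntegral.integral_congr (fun p hp => ?_)
    rw [uIcc_of_le hP] at hp
    simp only [hWe p hp]
  simp_rw [e1] at h
  rw [e2] at h
  exact h

/-- the integral of the second weight -/
lemma uu_int : (∫ p in (0 : ℝ)..(3 / 4), uu p * (π * (1 - p)))
    = 4 * (3 / 4 - 9 / 32 - 27 / 50 * (9 / 64) + 27 / 50 * (81 / 1024)) := by
  have hπ := Real.pi_pos.ne'
  have h1 : ∀ p : ℝ, uu p * (π * (1 - p)) = 4 - 4 * p - 54 / 25 * p ^ 2 + 54 / 25 * p ^ 3 := by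
    intro p
    unfold uu
    field_simp
    ring
  simp_rw [h1]
  rw [intervalIntegral.integral_add, intervalIntegral.integral_sub,
    intervalIntegral.integral_sub, intervalIntegral.integral_const,
    intervalIntegral.integral_const_mul, intervalIntegral.integral_const_mul,
    intervalIntegral.integral_const_mul, integral_pow, integral_pow, integral_id]
  · norm_num
  all_goals
    apply Continuous.intervalIntegrable
    fun_prop

end VOLSAux

open VOLSAux in
/-- **The volume** -/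
theorem q_VOL (hca1 : Q_CA1) (hca2 : Q_CA2) (hwwb : Q_WWB) : Q_VOL := by
  intro L f A η c H hc hlat hW hY
  have hL := H.L_pos
  have hπ := Real.pi_pos
  -- the torus at one radius
  have hone : ∀ r ∈ Icc 0 L, 1 < (f r / c) ^ 2 / 4 + (η r / c) ^ 2 := by
    intro r hr
    have h1 := hlat r hr (-round (A r)) 1 one_ne_zero
    have e : ((-round (A r) : ℤ) : ℝ) + A r * ((1 : ℤ) : ℝ) = A r - round (A r) := by
      push_cast
      ring
    rw [e] at h1
    have h2 := abs_le.1 (abs_sub_round (A r))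
    have h3 : (A r - round (A r)) ^ 2 ≤ 1 / 4 := by nlinarith [h2.1, h2.2]
    simp only [Int.cast_one, one_pow, mul_one] at h1
    have h4 : c ^ 2 < f r ^ 2 / 4 + η r ^ 2 := by
      have h5 := mul_le_mul_of_nonneg_left h3 (sq_nonneg (f r))
      linarith
    have h5 : (f r / c) ^ 2 / 4 + (η r / c) ^ 2 = (f r ^ 2 / 4 + η r ^ 2) / c ^ 2 := by
      field_simp
    rw [h5, lt_div_iff₀ (by positivity)]
    linarith
  have hbig : ∀ r ∈ Ioo 0 L, 1 ≤ f r / c → √3 / 2 ≤ f r / c * (η r / c) := by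
    intro r hr h1
    have hf := H.f_pos r hr.1 hr.2
    rw [le_div_iff₀ hc, one_mul] at h1
    have h2 := t_LAT c (f r) (A r) (η r) hc hf (H.η_pos r)
      (fun m n hn => hlat r ⟨hr.1.le, hr.2.le⟩ m n hn)
    rw [min_eq_left h1] at h2
    rw [div_mul_div_comm, le_div_iff₀ (by positivity)]
    linarith
  -- the integral of `f η`
  have hvol : vol f η L = 4 * π ^ 2 * c ^ 2 * ∫ r in (0 : ℝ)..L, f r / c * (η r / c) := by
    have e : ∀ r, 4 * π ^ 2 * (f r * η r) = (4 * π ^ 2 * c ^ 2) * (f r / c * (η r / c)) := by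
      intro r
      have := hc.ne'
      field_simp
    unfold vol
    simp_rw [e]
    rw [intervalIntegral.integral_const_mul]
  have hfe : IntervalIntegrable (fun r => f r / c * (η r / c)) volume 0 L :=
    ((H.f_cont.div_const c).mul (H.η_cont.div_const c)).intervalIntegrable _ _
  suffices hmain : c * ((4 + 3 * log 3) / 4) < ∫ r in (0 : ℝ)..L, f r / c * (η r / c) by
    rw [hvol]
    have h1 : 0 < 4 * π ^ 2 * c ^ 2 := by positivity
    have h2 := mul_lt_mul_of_pos_left hmain h1
    refine lt_of_eq_of_lt ?_ h2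
    ring
  obtain ⟨hww1, hww2, -, hww4⟩ := hwwb
  by_cases hcase : ∀ r ∈ Icc 0 L, 16 / 25 ≤ η r / c
  · -- first case
    have hF := fub (L := L) (P := 1) (c := c) (w := ww) H.f_cont
      (hww1.mono (Icc_subset_Icc (le_refl _) (by norm_num))) hL.le zero_le_one (le_refl _) hc
      (fun p hp => hww2 p ⟨hp.1, hp.2.trans (by norm_num)⟩) hW
    rw [hww4] at hF
    refine lt_of_le_of_lt hF.2 ?_
    rw [← sub_pos, ← intervalIntegral.integral_sub hfe hF.1]
    refine intervalIntegral.intervalIntegral_pos_of_pos_on (hfe.sub hF.1) (fun r hr => ?_) hL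
    have h1 := hca1 (f r / c) (η r / c) (div_pos (H.f_pos r hr.1 hr.2) hc)
      (hcase r ⟨hr.1.le, hr.2.le⟩) (hone r ⟨hr.1.le, hr.2.le⟩)
    unfold KW at h1
    linarith
  · -- second case
    push Not at hcase
    obtain ⟨b, hb, hbη⟩ := hcase
    have hob := hone b hb
    have hηb : 0 < η b / c := div_pos (H.η_pos b) hc
    have hηb2 : (η b / c) ^ 2 < (16 / 25) ^ 2 := by
      exact pow_lt_pow_left₀ hbη hηb.le two_ne_zero
    have hfb : 2 * (η b / c) ^ 2 ≤ (f b / c) ^ 2 := by nlinarith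
    have hfb0 : f b ≠ 0 := by
      intro h0
      rw [h0] at hfb
      simp only [zero_div, ne_eq, OfNat.ofNat_ne_zero, not_false_eq_true, zero_pow] at hfb
      have : 0 < (η b / c) ^ 2 := by positivity
      linarith
    have hb0 : 0 < b := by
      rcases eq_or_lt_of_le hb.1 with h | h
      · exact absurd (by rw [← h]; exact H.f_zero) hfb0
      · exact h
    have hbL : b < L := by
      rcases eq_or_lt_of_le hb.2 with h | h
      · exact absurd (by rw [h]; exact H.f_L) hfb0
      · exact h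
    have hY1 := hY b (16 / 25 * c) (16 / 25 * c) hb0 hbL (by positivity) (by positivity)
      (by linarith) ?_ ?_
    rotate_left
    · have h1 : 1 ≤ (16 / 25 * c) ^ 2 / η b ^ 2 := by
        rw [le_div_iff₀ (pow_pos (H.η_pos b) 2), one_mul]
        rw [div_lt_iff₀ hc] at hbη
        exact pow_le_pow_left₀ (H.η_pos b).le hbη.le 2
      have h2 : 0 ≤ (16 / 25 * c) ^ 2 / f b ^ 2 := by positivity
      linarith
    · have h1 : 2 * η b ^ 2 ≤ f b ^ 2 := by
        have h2 := mul_le_mul_of_nonneg_right hfb (sq_nonneg c)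
        rw [mul_assoc, ← mul_pow, ← mul_pow, div_mul_cancel₀ _ hc.ne',
          div_mul_cancel₀ _ hc.ne'] at h2
        exact h2
      nlinarith
    have hF := fub (L := L) (P := 3 / 4) (c := c) (w := uu) H.f_cont
      (by unfold uu; fun_prop) hL.le (by norm_num) (by norm_num) hc
      (fun p hp => by
        unfold uu
        have h1 : 0 ≤ 1 - 27 / 50 * p ^ 2 := by nlinarith [hp.1, hp.2]
        positivity) hW
    rw [uu_int] at hF
    have hG : IntervalIntegrable (fun r => 1 / 3 * √(1 - ((16 / 25) ^ 2 / (f r / c) ^ 2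
        + (16 / 25) ^ 2 / (η r / c) ^ 2))) volume 0 L := by
      refine (intervalIntegrable_const (c := (1 : ℝ))).mono_fun (Measurable.aestronglyMeasurable ?_)
        (ae_of_all _ fun r => ?_)
      · have h1 := H.f_cont.measurable
        have h2 := H.η_cont.measurable
        exact measurable_const.mul (measurable_const.sub ((measurable_const.div
          ((h1.div_const c).pow_const 2)).add (measurable_const.div
          ((h2.div_const c).pow_const 2)))).sqrt
      · have h1 : √(1 - ((16 / 25) ^ 2 / (f r / c) ^ 2 + (16 / 25) ^ 2 / (η r / c) ^ 2)) ≤ 1 := by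
          apply Real.sqrt_le_one.2
          have h2 : 0 ≤ (16 / 25) ^ 2 / (f r / c) ^ 2 := by positivity
          have h3 : 0 ≤ (16 / 25) ^ 2 / (η r / c) ^ 2 := by positivity
          linarith
        have h0 := Real.sqrt_nonneg (1 - ((16 / 25) ^ 2 / (f r / c) ^ 2
          + (16 / 25) ^ 2 / (η r / c) ^ 2))
        change ‖1 / 3 * √(1 - ((16 / 25) ^ 2 / (f r / c) ^ 2
          + (16 / 25) ^ 2 / (η r / c) ^ 2))‖ ≤ ‖(1 : ℝ)‖
        rw [norm_one, Real.norm_of_nonneg (by positivity)]
        linarith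
    have hGv : (∫ r in (0 : ℝ)..L, 1 / 3 * √(1 - ((16 / 25) ^ 2 / (f r / c) ^ 2
        + (16 / 25) ^ 2 / (η r / c) ^ 2))) = 1 / 3 * ∫ r in (0 : ℝ)..L,
          √(1 - ((16 / 25 * c) ^ 2 / f r ^ 2 + (16 / 25 * c) ^ 2 / η r ^ 2)) := by
      rw [intervalIntegral.integral_const_mul]
      congr 1
      refine intervalIntegral.integral_congr (fun r _ => ?_)
      have e : ∀ x : ℝ, (16 / 25 : ℝ) ^ 2 / (x / c) ^ 2 = (16 / 25 * c) ^ 2 / x ^ 2 := by
        intro x
        have := hc.ne'
        by_cases h0 : x = 0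
        · rw [h0]; simp
        · field_simp
      simp only [e]
    have hle : (∫ r in (0 : ℝ)..L, ((∫ p in (0 : ℝ)..(3 / 4), uu p * √(1 - p ^ 2 / (f r / c) ^ 2))
        + 1 / 3 * √(1 - ((16 / 25) ^ 2 / (f r / c) ^ 2 + (16 / 25) ^ 2 / (η r / c) ^ 2))))
        ≤ ∫ r in (0 : ℝ)..L, f r / c * (η r / c) := by
      refine intervalIntegral.integral_mono_on_of_le_Ioo hL.le (hF.1.add hG) hfe (fun r hr => ?_)
      exact hca2 (f r / c) (η r / c) (div_pos (H.f_pos r hr.1 hr.2) hc)
        (div_pos (H.η_pos r) hc) (hone r ⟨hr.1.le, hr.2.le⟩).le (hbig r hr)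
    rw [intervalIntegral.integral_add hF.1 hG, hGv] at hle
    have hlog := Real.log_three_lt_d9
    have hpi := Real.pi_gt_d2
    have h1 := hF.2
    nlinarith

end TSP
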