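import Pool.Agent.TSP.StmtsS
import Pool.Agent.TSP.Exm
import Pool.Agent.TSP.Glu
import Pool.Agent.TSP.Swa
import Pool.Agent.TSP.Int
import Pool.Agent.TSP.Gek
import Pool.Agent.TSP.Ax1
import Pool.Agent.TSP.Axe
import Pool.Agent.TSP.Ax2
import Pool.Agent.TSP.Ax3
import Pool.Agent.TSP.Rfl
import Pool.Agent.TSP.Cll
import Pool.Agent.TSP.Cls
import Pool.Agent.TSP.Dst
import Pool.Agent.TSP.Wtm
import Pool.Agent.TSP.Wtc
import Pool.Agent.TSP.Wty
import Pool.Agent.TSP.Abl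
import Pool.Agent.TSP.Wwb
import Pool.Agent.TSP.Ca1
import Pool.Agent.TSP.Ca2
import Pool.Agent.TSP.Vols
import Pool.Agent.TSP.Fins
import Pool.Agent.TSP.Low

/-!
# The sharp constant for torus-invariant metrics on the product of the two-sphere and the circle
-/

set_option autoImplicit false

namespace TSP

theorem p_INT : Q_INT := q_INT q_GLU q_SWA

theorem p_AX1 : Q_AX1 := q_AX1 q_GLU

theorem p_AX2 : Q_AX2 := q_AX2 q_AXE

theorem p_CLL : Q_CLL := q_CLL p_AX1 p_AX2 q_AX3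

theorem p_CLS : Q_CLS := q_CLS q_EXM p_INT q_GEK p_CLL q_RFL

theorem p_DST : Q_DST := q_DST q_EXM p_INT p_CLS

theorem p_WTY : Q_WTY := q_WTY q_WTM q_WTC

theorem p_CA1 : Q_CA1 := q_CA1 q_ABL q_WWB

theorem p_VOL : Q_VOL := q_VOL p_CA1 q_CA2 q_WWB

/-- the upper bound with the sharp constant -/
theorem p_FIN : Q_FIN := q_FIN p_DST p_WTY q_RFL p_VOL

end TSP
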