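import Pool.Agent.TSP.Base
import Pool.Agent.SGR.Osc

/-!
# Torus-invariant metrics on the product of the two-sphere and the circle: statements

THEOREM (`S_FIN`). Every metric `dr² + f² (dθ + A dφ)² + η² dφ²` (profile `TSP.Profile L f A η`) has a closed geodesic of
length `T` with `T ^ 3 ≤ 8 / √3 * vol`.

Proof. Suppose that every closed geodesic is longer than `2 π c` (`NoShort`). Torus circles and the meridian give `S_CIR`. For
an interval `x = [a, b] ⊆ [0, L]` let `DD x` be the maximum of `FF x z = ∫_a^b √(1 - HH z r) dr + π p` over the covectors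
`z = (p, s)` of norm at most one on `[a, b]` (`KK x`); the maximizer is unique and depends continuously on `x` (`S_MAX`, `S_STB`).
Every `x` with `0 < DD x < π c` has a uniform local descent direction (`S_LOC`): otherwise the maximizer `z` has norm one at `a`
and at `b`, `1 - HH z` is a simple well (`S_WEL`) and the first order condition (`S_GRD`) says that the oscillating geodesic with
momenta `z` closes after one oscillation, with length `2 DD x < 2 π c` (`S_GEO`). So `(0, 0)` and `(L, L)` cannot be joined in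
`{DD < π c}` (`S_MPS`), and the path `(0,0) → (a,a) → (a,b) → (b,b) → (L,L)` gives `b - a ≥ π (c - t)` for `[a, b] = {f ≥ t}`,
`t < c` (`S_LVL`). Together with `f η > (√3/2) c min c f` (`S_LAT`) this gives `vol > √3 π ^ 3 c ^ 3` (`S_VOL`).
-/

set_option autoImplicit false

namespace TSP

open Set MeasureTheory Real Filter Topology

/-- every closed geodesic is longer than `2 π c` -/
def NoShort (L : ℝ) (f A η : ℝ → ℝ) (c : ℝ) : Prop :=
  ∀ (r θ φ : ℝ → ℝ) (T : ℝ), IsUnitGeodesic f A η r θ φ → Closes L r θ φ T → 2 * π * c < T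

/-- **Joint continuity.** Let `(x, z)` be in the set. For `(x', z')` in the set
`|∫_{x'} √(1 - HH z') - ∫_x √(1 - HH z)| ≤ |x'.1 - x.1| + |x'.2 - x.2| + |∫_x (√(1 - HH z') - √(1 - HH z))|` (the integrand is between `0` and `1`,
`sqrt_le_one`, `Profile.ii`); the last term tends to `0` for `z' → z` by dominated convergence (`HH z' r → HH z r` for every `r`
with `f r ≠ 0`, so for all `r ∈ (0, L)`; even for all `r`, since `z ↦ HH z r` is always continuous: it is a polynomial in `z`). -/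
def S_CNT : Prop := ∀ (L : ℝ) (f A η : ℝ → ℝ), Profile L f A η →
  ContinuousOn (fun q : (ℝ × ℝ) × (ℝ × ℝ) => FF f A η q.1 q.2) ((Icc 0 L ×ˢ Icc 0 L) ×ˢ univ)

/-- **Compactness.** Bound: `z ∈ KK x`, `r = x.1 ∈ [0, L]`: `Adm z r` gives `p² η² ≤ f² η²`, so `|p| ≤ f r ≤ max f`, and
`|s - A p| ≤ η r`, so `|s| ≤ max η + max |A| max f`. Closed: if `(xₙ, zₙ) → (x, z)` in the set then `x ∈ Tri L` (closed), and for
`r ∈ [x.1, x.2]` let `rₙ = max xₙ.1 (min r xₙ.2) ∈ [xₙ.1, xₙ.2]`; `rₙ → max x.1 (min r x.2) = r`, and `Adm zₙ rₙ` passes to the limit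
(the inequalities are between continuous functions of `(z, r)`). (`isClosed_of_closure_subset`/`mem_closure_iff_seq_limit`.) -/
def S_CMP : Prop := ∀ (L : ℝ) (f A η : ℝ → ℝ), Profile L f A η →
  (∃ R : ℝ, ∀ x ∈ Tri L, ∀ z ∈ KK f A η x, ‖z‖ ≤ R) ∧
  IsClosed {q : (ℝ × ℝ) × (ℝ × ℝ) | q.1 ∈ Tri L ∧ q.2 ∈ KK f A η q.1}

/-- **Strict concavity.** `KK x` is convex (both conditions are sublevel sets of nonnegative quadratic forms in `z`). For `0 < r < L` put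
`uᵢ = √(1 - HH zᵢ r)`; the vectors `(pᵢ/f, (sᵢ - A pᵢ)/η, uᵢ)` are distinct unit vectors of `ℝ³`, so with `m` the midpoint
`HH m r + ((u₀ + u₁)/2)² = 1 - |w₀ - w₁|²/4 < 1`, i.e. `(u₀ + u₁)/2 < √(1 - HH m r)`. Integrate over `(x.1, x.2)` (strict inequality on
the open interval: `intervalIntegral.intervalIntegral_pos_of_pos_on` for the difference); the term `π p` is linear. -/
def S_STR : Prop := ∀ (L : ℝ) (f A η : ℝ → ℝ), Profile L f A η → ∀ x z w : ℝ × ℝ, x ∈ Tri L →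
  x.1 < x.2 → z ∈ KK f A η x → w ∈ KK f A η x → z ≠ w →
  (1 / 2 : ℝ) • (z + w) ∈ KK f A η x ∧
    (FF f A η x z + FF f A η x w) / 2 < FF f A η x ((1 / 2 : ℝ) • (z + w))

/-- **Maximizers** (uses `S_CNT`, `S_CMP`, `S_STR`). Existence: `KK x` is compact (closed and bounded by `S_CMP`), contains `0`, and `FF x` is
continuous. Uniqueness for `x.1 < x.2`: `S_STR`. On the diagonal `FF (a, a) z = π p`, `Adm z a` gives `p ≤ f a` with equality only if
`s = A p`; so `(f a, A a f a)` is the only maximizer for `0 < a < L`. If `x.1 = 0` or `x.2 = L` then `f = 0` at this end, hence `p = 0`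
for `z ∈ KK x` and `FF x z ≤ x.2 - x.1 = FF x 0`. -/
def S_MAX : Prop := ∀ (L : ℝ) (f A η : ℝ → ℝ), Profile L f A η →
  (∀ x ∈ Tri L, ∃ z, Mx f A η x z) ∧
  (∀ x ∈ Tri L, x ≠ (0, 0) → x ≠ (L, L) → ∀ z w, Mx f A η x z → Mx f A η x w → z = w) ∧
  (∀ a : ℝ, 0 < a → a < L → Mx f A η (a, a) (f a, A a * f a)) ∧
  (∀ x ∈ Tri L, x.1 = 0 ∨ x.2 = L → Mx f A η x 0)

/-- **Bounds** (uses `S_MAX`). `z = 0` gives the lower bound. For `z ∈ KK x`: `FF x z ≤ (x.2 - x.1) + π p` and `p ≤ f x.1`, `p ≤ f x.2`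
(`p² η² ≤ f² η²` from `Adm`, `f ≥ 0` on `[0, L]`). On the diagonal: `(f a, A a f a)` is in `KK (a, a)` (also for `a = 0`, `a = L`, where
`f a = 0`). -/
def S_BND : Prop := ∀ (L : ℝ) (f A η : ℝ → ℝ), Profile L f A η → ∀ x ∈ Tri L,
  x.2 - x.1 ≤ DD f A η x ∧ DD f A η x ≤ x.2 - x.1 + π * f x.1 ∧
  DD f A η x ≤ x.2 - x.1 + π * f x.2 ∧ (x.1 = x.2 → DD f A η x = π * f x.1)

/-- **Lower semicontinuity** (uses `S_CNT`). If `x.1 = 0` or `x.2 = L` then `p = 0` for `u` (see `S_MAX`), so `FF x u ≤ x.2 - x.1`; take `u' = 0`,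
`FF y 0 = y.2 - y.1`. If `0 < x.1` and `x.2 < L`: choose `σ ∈ (0, 1)` with `FF x ((1 - σ) u) ≥ FF x u - ε/2` (continuity) and
`u' = (1 - σ) u`. On `[x.1, x.2]` we have `HH u' r ≤ (1 - σ)² < 1` (`HH_smul`, `Profile.HH_le_one`), so `HH u' r ≤ 1` on
`[x.1 - δ, x.2 + δ] ⊆ (0, L)` for a small `δ` (continuity on a compact interval), hence `u' ∈ KK y` for `dist y x < δ`
(`Profile.adm_iff`), and `FF y u' ≥ FF x u' - ε/2` for `y` near `x` (`S_CNT`). -/
def S_LSC : Prop := ∀ (L : ℝ) (f A η : ℝ → ℝ), Profile L f A η → ∀ x ∈ Tri L,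
  ∀ u ∈ KK f A η x, ∀ ε > 0, ∃ δ > 0, ∀ y ∈ Tri L, dist y x < δ →
    ∃ u' ∈ KK f A η y, FF f A η x u - ε ≤ FF f A η y u'

/-- **Stability of the maximizer** (uses `S_CNT`, `S_CMP`, `S_MAX`, `S_LSC`). Suppose not: `yₙ ∈ Tri L`, `yₙ → x`, `Mx yₙ wₙ`, `dist wₙ z ≥ ε`. By `S_CMP`
a subsequence of `(yₙ, wₙ)` converges to some `(x, w)` with `w ∈ KK x`, `dist w z ≥ ε`. For `u ∈ KK x` and `ε' > 0`: by `S_LSC` there are
`uₙ ∈ KK yₙ` with `FF x u - ε' ≤ FF yₙ uₙ ≤ FF yₙ wₙ → FF x w` (`S_CNT`). So `Mx x w`, and `w = z` by uniqueness. -/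
def S_STB : Prop := ∀ (L : ℝ) (f A η : ℝ → ℝ), Profile L f A η → ∀ x z : ℝ × ℝ, x ∈ Tri L →
  x ≠ (0, 0) → x ≠ (L, L) → Mx f A η x z → ∀ ε > 0, ∃ δ > 0, ∀ y ∈ Tri L, dist y x < δ →
    ∀ w, Mx f A η y w → dist w z < ε

/-- **Continuity of the maximal value** (uses `S_CNT`, `S_CMP`, `S_MAX`, `S_LSC`). Lower semicontinuity: `S_LSC` for a maximizer. Upper
semicontinuity: if `yₙ → x`, `DD yₙ ≥ DD x + ε`, take maximizers `wₙ` and a limit `w ∈ KK x` as in `S_STB`: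
`DD x ≥ FF x w = lim FF yₙ wₙ ≥ DD x + ε`. -/
def S_DCO : Prop := ∀ (L : ℝ) (f A η : ℝ → ℝ), Profile L f A η → ContinuousOn (DD f A η) (Tri L)

/-- **Reflection** `r ↦ L - r`. All parts are direct; the integral by `intervalIntegral.integral_comp_sub_left`. For the last part:
`(y.1, y.2) ↦ (L - y.2, L - y.1)` is an isometry of `Tri L` (sup metric) and maps `y + t (-v.2, -v.1)` to `(L - y.2, L - y.1) + t v`. -/
def S_REF : Prop := ∀ (L : ℝ) (f A η : ℝ → ℝ), Profile L f A η →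
  Profile L (fun r => f (L - r)) (fun r => A (L - r)) (fun r => η (L - r)) ∧
  (∀ z r, HH (fun r => f (L - r)) (fun r => A (L - r)) (fun r => η (L - r)) z r
    = HH f A η z (L - r)) ∧
  (∀ x z : ℝ × ℝ, Mx f A η x z →
    Mx (fun r => f (L - r)) (fun r => A (L - r)) (fun r => η (L - r)) (L - x.2, L - x.1) z) ∧
  (∀ x v : ℝ × ℝ, Desc (Tri L)
      (DD (fun r => f (L - r)) (fun r => A (L - r)) (fun r => η (L - r))) (L - x.2, L - x.1) v →
    Desc (Tri L) (DD f A η) x (-v.2, -v.1))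

/-- **Descent, norm less than one at the left end** (uses `S_MAX`, `S_STB`). By joint continuity (`Profile.HH_contAt`) there is `δ₁ > 0` with `HH w r < 1`,
`0 < r < L` for `dist w z < δ₁`, `|r - x.1| < δ₁`. `S_STB` gives `δ₂`. Let `ε` be small (`2 ε < δ₁`, `2 ε < δ₂`, `4 ε < x.2 - x.1`). For `y ∈ Tri L`,
`dist y x < ε`, `0 < t ≤ ε` let `y' = y + t (1, 0) ∈ Tri L` and `w` a maximizer for `y'`, so `dist w z < δ₁`. Then `w ∈ KK y` (`Adm` on
`[y.1, y.1 + t]` because `HH w < 1` there) and `DD y ≥ FF y w = DD y' + ∫_{y.1}^{y.1 + t} √(1 - HH w r) dr > DD y'`. -/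
def S_ENL : Prop := ∀ (L : ℝ) (f A η : ℝ → ℝ), Profile L f A η → ∀ x z : ℝ × ℝ, x ∈ Tri L →
  0 < x.1 → x.1 < x.2 → Mx f A η x z → HH f A η z x.1 < 1 →
  Desc (Tri L) (DD f A η) x (1, 0)

/-- **Descent, norm less than one at the right end** (uses `S_REF`, `S_ENL`): apply `S_ENL` to the reflected profile and `(L - x.2, L - x.1)`. -/
def S_ENR : Prop := ∀ (L : ℝ) (f A η : ℝ → ℝ), Profile L f A η → ∀ x z : ℝ × ℝ, x ∈ Tri L →
  x.2 < L → x.1 < x.2 → Mx f A η x z → HH f A η z x.2 < 1 →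
  Desc (Tri L) (DD f A η) x (0, -1)

/-- **Descent on the diagonal where `f` increases** (uses `S_MAX`, `S_STB`). The maximizer at `(a, a)` is `z = (f a, A a f a)`, `HH z a = 1`,
`HHd z a = -2 f'(a)/f(a) < 0`. By `Profile.HHd_contAt`, `Profile.HH_contAt` there are `c₀ > 0`, `δ₁ > 0` with `HHd w r ≤ -c₀`, `HH w r ≥ 1/4`, `1 - HH w r ≤ ω²`,
`w.1 ≥ f a / 2`, `0 < r < L` for `dist w z < δ₁`, `|r - a| < δ₁` (`ω > 0` small, chosen below). `S_STB` gives `δ₂`; let `ε` be small. For `y ∈ Tri L`,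
`dist y (a,a) < ε`, `0 < t ≤ ε` let `w` be a maximizer for `y' = y + t (-1, 0)`. `HH w (y.1 - t) ≤ 1`, so `HH w r ≤ 1 - c₀ (r - y.1 + t) ≤ 1 - c₀ t` on
`[y.1, y.2]` (mean value theorem). Let `κ = c₀/4`, `λ = 1 + κ t`; if `κ t ≤ 1` then `λ² ≤ 1 + 3 κ t` and `λ² (1 - c₀ t) ≤ 1`, so `λ w ∈ KK y`. With
`√(1 - HH) - √(1 - λ² HH) ≤ (λ² - 1) HH/√(1 - HH) ≤ 3 κ t/√(c₀ (r - y.1))` we get
`DD y - DD y' ≥ FF y (λ w) - FF y' w ≥ π κ t w.1 - 6 κ t √(y.2 - y.1)/√c₀ - ω t > 0` if `ω < π κ f a / 8` and `y.2 - y.1 ≤ 2 ε` is small. -/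
def S_DIL : Prop := ∀ (L : ℝ) (f A η : ℝ → ℝ), Profile L f A η → ∀ a : ℝ, 0 < a → a < L →
  0 < deriv f a → Desc (Tri L) (DD f A η) (a, a) (-1, 0)

/-- **Descent on the diagonal where `f` decreases** (uses `S_REF`, `S_DIL`). -/
def S_DIR : Prop := ∀ (L : ℝ) (f A η : ℝ → ℝ), Profile L f A η → ∀ a : ℝ, 0 < a → a < L →
  deriv f a < 0 → Desc (Tri L) (DD f A η) (a, a) (0, 1)

/-- **Contacts are transversal.** Let `U = 1 - HH z ≥ 0` on `[a, b]`, `U e = 0` and suppose `U' e = 0`. By `DWS.quad_bound` (file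
`Pool/Agent/DWS/Var.lean`) `U r ≤ C (r - e)²` for `|r - e| < δ`. Let `e < b` (otherwise use the left side), `δ` small such that `[e, e + δ] ⊆ [a, b]` and
`HH z ≥ 1/2` there. For `0 < ε < 1`: `(1 - ε) z ∈ KK`, so `∫_a^b (√(1 - (1-ε)² HH) - √(1 - HH)) ≤ π ε p`; the integrand is `≥ 0`, and for
`√ε ≤ r - e ≤ δ` it is `≥ √(U + ε/2) - √U ≥ (ε/2)/(2 √(U + ε/2)) ≥ (ε/4)/(√(C+1) (r - e))`. So `log (δ/√ε) ≤ 4 √(C+1) π p` for all small `ε`:
contradiction for `ε = δ² exp (-8 √(C+1) (π |p| + 1))`. -/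
def S_NDG : Prop := ∀ (L : ℝ) (f A η : ℝ → ℝ), Profile L f A η → ∀ (a b e : ℝ) (z : ℝ × ℝ),
  0 < a → a < b → b < L → Mx f A η (a, b) z → e ∈ Icc a b → HH f A η z e = 1 →
  deriv (HH f A η z) e ≠ 0

/-- **The well** (uses `S_NDG`). `HH z ≤ 1` on `[a, b]`; an interior point with `HH z = 1` would be a local maximum, so its derivative would vanish. At
the ends the derivative of `1 - HH z` has the right sign (one-sided extremum) and does not vanish. Smoothness: `Profile.HH_contDiffAt`. -/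
def S_WEL : Prop := ∀ (L : ℝ) (f A η : ℝ → ℝ), Profile L f A η → ∀ (a b : ℝ) (z : ℝ × ℝ),
  0 < a → a < b → b < L → Mx f A η (a, b) z → HH f A η z a = 1 → HH f A η z b = 1 →
  SGR.Well (fun r => 1 - HH f A η z r) a b

/-- **First order conditions.** (1) For `w` with `BB z w a < 0` and `BB z w b < 0`: `π w.1 ≤ ∫_a^b BB z w/√(1 - HH z)`. Proof: `z + t w ∈ KK (a, b)` for small
`t > 0` (`HH_add`; near the ends `BB z w ≤ -β < 0`, in the middle `HH z ≤ 1 - c₁`), so `FF (z + t w) ≤ FF z`; divide by `t` and let `t → 0⁺`: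
`(√(1 - HH (z + t w)) - √(1 - HH z))/t = (-2 BB z w - t HH w)/(√(1 - HH (z + t w)) + √(1 - HH z)) → -BB z w/√(1 - HH z)` on `(a, b)`, dominated by
`(2 |BB z w| + HH w)/√(1 - HH z)`, which is integrable (`SGR.Well.integrableOn`, file `Pool/Agent/SGR/Osc.lean`). (2) `w = -z`: `∫ HH z/√(1 - HH z) ≤ π z.1`. (3) If
equality holds in (2): for any `w` and small `σ > 0` take `-z + σ w` in (1) (`BB_lin`, `BB_self`): `π w.1 ≤ ∫ BB z w/√(1 - HH z)`; the same for `-w`. -/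
def S_GRD : Prop := ∀ (L : ℝ) (f A η : ℝ → ℝ), Profile L f A η → ∀ (a b : ℝ) (z : ℝ × ℝ),
  0 < a → a < b → b < L → Mx f A η (a, b) z → SGR.Well (fun r => 1 - HH f A η z r) a b →
  (∫ r in a..b, HH f A η z r / √(1 - HH f A η z r)) ≤ π * z.1 ∧
  ((∫ r in a..b, HH f A η z r / √(1 - HH f A η z r)) = π * z.1 →
    ∀ w : ℝ × ℝ, ∫ r in a..b, BB f A η z w r / √(1 - HH f A η z r) = π * w.1)

/-- **Descent by enlarging the interval** (uses `S_MAX`, `S_STB`). Let `x = (a, b)`, `I = ∫_a^b HH z/√(1 - HH z) < π z.1`. By `Profile.HHd_contAt`, `Profile.HH_contAt`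
there are `c₀, δ > 0` with (for `dist w z < δ`) `HHd w ≤ -c₀` on `[a - δ, a + δ]`, `HHd w ≥ c₀` on `[b - δ, b + δ]`, and for every `0 < δ' < δ` a `c₁ > 0` with
`HH w ≤ 1 - c₁` on `[a + δ', b - δ']` for `w` near `z`. For `y = (a', b')` near `x`, `t > 0` small, let `w` be a maximizer for `y' = (a' - t, b' + t)` (near `z`
by `S_STB`). As in `S_DIL`: `HH w r ≤ 1 - c₀ (r - a' + t)` left, `≤ 1 - c₀ (b' + t - r)` right, so `HH w ≤ 1 - c₀ t` on `[a', b']`; `κ = c₀/4`,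
`λ = 1 + κ t`, `λ w ∈ KK y`, and `1 - λ² HH w ≥ c₀ (r - a')/4`, `≥ c₀ (b' - r)/4` near the ends. `DD y - DD y' ≥ FF y (λ w) - FF y' w =
π κ t w.1 - ∫_{a'}^{b'} (√(1 - HH w) - √(1 - λ² HH w)) - ∫_{a'-t}^{a'} √(1 - HH w) - ∫_{b'}^{b'+t} √(1 - HH w)`. The last two are `≤ ω t`, `ω → 0`. The first
integral is `≤ ((λ² - 1)/2) ∫_{a'}^{b'} HH w/√(1 - λ² HH w)`, `(λ² - 1)/2 = κ t (1 + κ t/2)`, and the limsup of this last integral is `≤ I`: it is `≤ 2 √(8 δ'/c₀)` on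
each end piece `[a', a + δ']`, `[b - δ', b']` (use `∫_0^s dr/√(c₀ r/4) = 4 √(s/c₀)`, `s ≤ 2 δ'`), and converges uniformly on `[a + δ', b - δ']`. So for
`(y, t)` near `(x, 0)` the difference is `≥ κ t (π z.1 - I)/2 > 0`. (Alternatively argue with sequences and dominated convergence after the substitution
`r = a' + (b' - a') τ`, bound `C (1/√τ + 1/√(1 - τ) + 1)`.) -/
def S_DSC : Prop := ∀ (L : ℝ) (f A η : ℝ → ℝ), Profile L f A η → ∀ (a b : ℝ) (z : ℝ × ℝ),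
  0 < a → a < b → b < L → Mx f A η (a, b) z → SGR.Well (fun r => 1 - HH f A η z r) a b →
  (∫ r in a..b, HH f A η z r / √(1 - HH f A η z r)) < π * z.1 →
  Desc (Tri L) (DD f A η) (a, b) (-1, 1)

/-- **The oscillating geodesic.** Follow `Pool/Agent/TIS/Geo.lean` (`geodesic_of`, `Profile.geodesic_well`, `osc_closes_one`) and
`Pool/Agent/TIS/Closed.lean` (`Cr.closed_regular`) with `θ' = P = BB z (1, 0)`, `φ' = Q = BB z (0, 1)` along the solution `hw.sol` of the well (`DWS.ang hw P`, `DWS.ang hw Q`,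
file `Pool/Agent/DWS/Geo.lean`): `θ' + A φ' = p/f²`, `η² φ' + A f² (θ' + A φ') = s`, `r'² = 1 - HH z r`, `r'' = -HHd z r/2`. Increments over one oscillation: `2 ∫ P/√(1 - HH) = 2 π`,
`2 ∫ Q/√(1 - HH) = 0`. Length: `T = SGR.per = 2 ∫ 1/√(1 - HH) = 2 (∫ √(1 - HH) + ∫ HH/√(1 - HH)) = 2 FF (a, b) z` (`w = z` in the hypothesis, `BB_self`). -/
def S_GEO : Prop := ∀ (L : ℝ) (f A η : ℝ → ℝ), Profile L f A η → ∀ (a b : ℝ) (z : ℝ × ℝ),
  0 < a → a < b → b < L → SGR.Well (fun r => 1 - HH f A η z r) a b →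
  (∀ w : ℝ × ℝ, ∫ r in a..b, BB f A η z w r / √(1 - HH f A η z r) = π * w.1) →
  ∃ (r θ φ : ℝ → ℝ) (T : ℝ), IsUnitGeodesic f A η r θ φ ∧ Closes L r θ φ T ∧
    T = 2 * FF f A η (a, b) z

/-- **Meridians and torus circles.** `r = t`, `θ = φ = 0` is a geodesic which closes after `2 L`. For `m, n ∈ ℤ` let
`N(r) = f² (m + A n)² + η² n²`; if `N'(x) = 0` and `N(x) = ρ² > 0`, then `r = x`, `θ = m t/ρ`, `φ = n t/ρ` is a geodesic which closes after `2 π ρ` (see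
`Pool/Agent/TIS/Geo.lean`: `geodesic_of`, `geodesic_circle`, `circle_closes`, `exp_add_int`). For `n ≠ 0`: `N > 0` everywhere, its minimum over `[0, L]` is a critical point of `N` on the line (`N` is even at both ends, so `N' = 0`
there). For `m = 1`, `n = 0`: `N = f²`. -/
def S_CIR : Prop := ∀ (L : ℝ) (f A η : ℝ → ℝ) (c : ℝ), Profile L f A η → 0 < c →
  NoShort L f A η c →
  π * c < L ∧
  (∀ r ∈ Icc 0 L, ∀ m n : ℤ, n ≠ 0 →
    c ^ 2 < f r ^ 2 * (m + A r * n) ^ 2 + η r ^ 2 * (n : ℝ) ^ 2) ∧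
  (∀ r : ℝ, 0 < r → r < L → deriv f r = 0 → c < f r)

/-- **Level sets of `f`.** `S = {r ∈ [0, L] | t ≤ f r}` is compact; it is not empty: the maximum point of `f` on `[0, L]` is interior (`f > 0` there), critical, so
`f > c > t` there. `a = min S`, `b = max S`; `f a = t`, `f b = t` by continuity (`f 0 = f L = 0 < t`). If `f r < t` for some `r ∈ (a, b)`, then the minimum of `f` on `[a, b]` is
interior, critical, with value `< t < c`: contradiction. -/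
def S_TUB : Prop := ∀ (L : ℝ) (f A η : ℝ → ℝ) (c : ℝ), Profile L f A η → 0 < c →
  (∀ r : ℝ, 0 < r → r < L → deriv f r = 0 → c < f r) → ∀ t : ℝ, 0 < t → t < c →
  ∃ a b : ℝ, 0 < a ∧ a ≤ b ∧ b < L ∧ f a = t ∧ f b = t ∧ (∀ r ∈ Icc 0 a, f r ≤ t) ∧
    (∀ r ∈ Icc b L, f r ≤ t) ∧ ∀ r ∈ Icc a b, t ≤ f r

/-- **Mountain pass without critical points.** Let `J m = JoinedIn (T ∩ {D < m}) x0 x1` and suppose `J m0` (so `m0 > 0`). The path is compact, so `J m` for some `m < m0`.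
Let `ms = inf {m | J m} < m0`; `J m → 0 < m`, so `ms ≥ 0`. (1) `ms > 0`: `D ≥ m' > 0` on the compact set `T ∩ {h = 0}` (if it is not empty), and every path from `x0` to `x1` meets
`{h = 0}` (intermediate value theorem). (2) Let `U = {y | JoinedIn (T ∩ {D < ms}) x0 y}`, `P = closure U`. `x1 ∉ U` (compact path, otherwise `J m` for some `m < ms`), and `x1 ∉ P` because `D x1 = 0 < ms`: a ball `B` around
`x1` has `B ∩ T ⊆ {D < ms}`, `B ∩ T` is convex, so a point of `U` in it would be joined to `x1`. `D ≤ ms` on `P`. (3) Every `x ∈ P` has a ball `B` with `B ∩ T ∩ {D ≤ ms} ⊆ P`: if `D x < ms` as before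
(`B ∩ T ⊆ U`). If `D x = ms`, let `v, ε` be as in `Desc`: `x + ε v ∈ T`, `D (x + ε v) < ms`, so there is `δ ≤ ε` with `ball (x + ε v) δ ∩ T ⊆ {D < ms}` (convex). For `u ∈ U`, `dist u x < δ`: the segment from `u` to `u + ε v` is in
`T ∩ {D < ms}`, so `u + ε v ∈ U` and `ball (x + ε v) δ ∩ T ⊆ U`. For `y ∈ T`, `dist y x < δ`, `D y ≤ ms`: `y + ε v ∈ U`, the half-open segment `(y, y + ε v]` is in `T ∩ {D < ms}`, so it is in `U` and `y ∈ P`. (4) By compactness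
(`IsCompact.exists_cthickening_subset_open` or a Lebesgue number) there is `ρ > 0` with: `y ∈ T`, `infDist y P ≤ ρ`, `D y ≤ ms` imply `y ∈ P`; also `ρ < infDist x1 P`. On the compact set `{y ∈ T | infDist y P = ρ}` therefore `D > ms`, so
`D ≥ m'' > ms` there (if it is not empty). Take `m < m''` with `J m`; the path meets this set (`infDist x0 P = 0`): contradiction. -/
def S_MPS : Prop := ∀ (T : Set (ℝ × ℝ)) (D h : ℝ × ℝ → ℝ) (x0 x1 : ℝ × ℝ) (m0 : ℝ), Convex ℝ T →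
  IsCompact T → ContinuousOn D T → Continuous h → x0 ∈ T → x1 ∈ T → D x0 = 0 → D x1 = 0 →
  h x0 < 0 → 0 < h x1 → (∀ x ∈ T, h x = 0 → 0 < D x) →
  (∀ x ∈ T, 0 < D x → D x < m0 → ∃ v, Desc T D x v) →
  ¬ JoinedIn (T ∩ {x | D x < m0}) x0 x1

/-- **Local descent** (uses `S_MAX`, `S_BND`, `S_ENL`, `S_ENR`, `S_DIL`, `S_DIR`, `S_WEL`, `S_GRD`, `S_DSC`, `S_GEO`, `S_CIR`). Diagonal `x = (a, a)`: `DD = π f a` (`S_BND`), so `0 < a < L`, `f a < c`, `f' a ≠ 0` (`S_CIR`): `S_DIL` or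
`S_DIR`. Now `x.1 < x.2`. If `x.1 = 0`: `x.2 ≤ DD x < π c < L`, the maximizer is `0` (`S_MAX`): `S_ENR`. If `x.2 = L`: `S_ENL`. Otherwise let `z` be a maximizer; `HH z ≤ 1` at both ends (`Profile.HH_le_one`). If `< 1` at one end: `S_ENL` or
`S_ENR`. Otherwise `S_WEL`, `S_GRD`: if the inequality is strict `S_DSC`, if equality holds `S_GEO` gives a closed geodesic of length `2 DD x < 2 π c`, contradiction. -/
def S_LOC : Prop := ∀ (L : ℝ) (f A η : ℝ → ℝ) (c : ℝ), Profile L f A η → 0 < c →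
  NoShort L f A η c → ∀ x ∈ Tri L, 0 < DD f A η x → DD f A η x < π * c →
  ∃ v, Desc (Tri L) (DD f A η) x v

/-- **Level sets are long** (uses `S_MPS`, `S_LOC`, `S_BND`, `S_DCO`, `S_TUB`, `S_CIR`). Let `a, b` be as in `S_TUB` and suppose `b - a < π (c - t)`. `S_MPS` with `T = Tri L`, `D = DD`, `h x = x.1 + x.2 - L`, `x0 = (0, 0)`, `x1 = (L, L)`,
`m0 = π c` (`S_BND`: `DD = 0` at the corners, `DD > 0` on `h = 0`: either `x.1 < x.2` or `x = (L/2, L/2)`) says that the corners are not joined in `{DD < π c}`. But the segments `(0,0) → (a,a)` (`DD = π f r ≤ π t`), `(a,a) → (a,b)` (`DD ≤ (r - a) + π f a`),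
`(a,b) → (b,b)` (`DD ≤ (b - r) + π f b`), `(b,b) → (L,L)` are in it (`S_BND`). -/
def S_LVL : Prop := ∀ (L : ℝ) (f A η : ℝ → ℝ) (c : ℝ), Profile L f A η → 0 < c →
  NoShort L f A η c → ∀ t : ℝ, 0 < t → t < c →
  ∃ a b : ℝ, 0 ≤ a ∧ a ≤ b ∧ b ≤ L ∧ (∀ r ∈ Icc a b, t ≤ f r) ∧ π * (c - t) ≤ b - a

/-- **Lattices.** If `y ≤ c`: choose `m` with `|m + x| ≤ 1/2` (`round`), `n = 1`: `c² < y²/4 + e² ≤ c²/4 + e²`, so `e > (√3/2) c`. If `y > c`: all nonzero vectors of the lattice have `y² (m + x n)² + e² n² > c²`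
(`n = 0`: `y² m² ≥ y²`). Let `τ = x + i e/y` in the upper half plane; by `ModularGroup.exists_smul_mem_fd` and `ModularGroup.three_le_four_mul_im_sq_of_mem_fd` there is `g` in `SL(2, ℤ)` with bottom row `(n, m)` and `im (g τ) = (e/y)/|n τ + m|² ≥ √3/2`, so
`c² < y² |n τ + m|² ≤ (2/√3) y e`. -/
def S_LAT : Prop := ∀ c y x e : ℝ, 0 < c → 0 < y → 0 < e →
  (∀ m n : ℤ, n ≠ 0 → c ^ 2 < y ^ 2 * (m + x * n) ^ 2 + e ^ 2 * (n : ℝ) ^ 2) →
  √3 / 2 * c * min c y < y * e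

/-- **The volume** (uses `S_LAT`). `vol = 4 π² ∫_0^L f η > 4 π² (√3/2) c ∫_0^L min c f` (strict inequality of continuous functions on `(0, L)`), and by the layer cake formula
`∫_0^L min c f = ∫_0^c |{r ∈ [0, L] | t ≤ f r}| dt ≥ ∫_0^c π (c - t) dt = π c²/2` (`MeasureTheory.Integrable.integral_eq_integral_meas_le` or `lintegral_eq_lintegral_meas_le`). -/
def S_VOL : Prop := ∀ (L : ℝ) (f A η : ℝ → ℝ) (c : ℝ), Profile L f A η → 0 < c →
  (∀ r ∈ Icc 0 L, ∀ m n : ℤ, n ≠ 0 →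
    c ^ 2 < f r ^ 2 * (m + A r * n) ^ 2 + η r ^ 2 * (n : ℝ) ^ 2) →
  (∀ t : ℝ, 0 < t → t < c →
    ∃ a b : ℝ, 0 ≤ a ∧ a ≤ b ∧ b ≤ L ∧ (∀ r ∈ Icc a b, t ≤ f r) ∧ π * (c - t) ≤ b - a) →
  √3 * π ^ 3 * c ^ 3 < vol f η L

/-- **The theorem** (uses `S_CIR`, `S_LVL`, `S_VOL`). Otherwise `T ^ 3 > 8 / √3 * vol = (2 π c) ^ 3` for all closed geodesics, so `NoShort c`, and `vol > √3 π ^ 3 c ^ 3 = vol`. -/
def S_FIN : Prop := ∀ (L : ℝ) (f A η : ℝ → ℝ), Profile L f A η →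
  ∃ (r θ φ : ℝ → ℝ) (T : ℝ), IsUnitGeodesic f A η r θ φ ∧ Closes L r θ φ T ∧
    T ^ 3 ≤ 8 / √3 * vol f η L

end TSP
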