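import Pool.Agent.TSP.Core

/-!
# Torus-invariant metrics on the product of the two-sphere and the circle: the sharp constant

THEOREM (`Q_FIN`). Every metric `dr² + f² (dθ + A dφ)² + η² dφ²` (profile `TSP.Profile L f A η`) has a closed geodesic of
length `T` with `T ^ 3 ≤ 8 π / (4 + 3 log 3) * vol`. (The constant is optimal: `t_LOW`, file `Low.lean`.)

Suppose every closed geodesic is longer than `2 π c`. (a) `t_WID` (file `Wid.lean`): `π (c - p) ≤ ∫_0^L √(1 - p²/f²)`. (b) For an integer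
`m` the shortest curves with displacement `(m π, π)` between two orbits have length at least `π c` (`Q_CLS`): minimise over all pairs of orbits;
an interior minimum is half a closed geodesic (`Q_INT`, `Q_GEK`), and so is a minimum on an axis (`Q_AX1`, `Q_AX2`, `Q_AX3`). (c) Hence the same with
displacement `(π/2, π)` for the metric without `A` (`Q_DST`), and `∫_0^b √(1 - p²/f² - t²/η²) ≥ π (c - t - p/2)` if `p²/f² + t²/η² ≥ 1` at `b`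
(`Q_WTM`, `Q_WTC`, `Q_WTY`). (d) Pointwise inequalities for `f η` (`Q_CA1`, `Q_CA2`) and integration (`Q_VOL`).
Everywhere `√x` is `Real.sqrt`, which is `0` for `x ≤ 0`, and `x / 0 = 0`.
-/

set_option autoImplicit false

namespace TSP

open Set MeasureTheory Real Filter Topology

/-- the action plus `π (k p + s)`: for `z = (p, s)` in `KK x` a lower bound for the length of curves with displacement `(k π, π)` -/
noncomputable def FK (f A η : ℝ → ℝ) (k : ℝ) (x z : ℝ × ℝ) : ℝ :=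
  (∫ r in x.1..x.2, √(1 - HH f A η z r)) + π * (k * z.1 + z.2)

/-- `z` is a maximizer of `FK` for the interval `x` -/
def MK (f A η : ℝ → ℝ) (k : ℝ) (x z : ℝ × ℝ) : Prop :=
  z ∈ KK f A η x ∧ ∀ w ∈ KK f A η x, FK f A η k x w ≤ FK f A η k x z

/-- the functions of the same metric in the basis `(k, 1)`, `(-1, 0)` of the angles -/
noncomputable def fS (f A η : ℝ → ℝ) (k r : ℝ) : ℝ := √(f r ^ 2 * (k + A r) ^ 2 + η r ^ 2)
noncomputable def aS (f A η : ℝ → ℝ) (k r : ℝ) : ℝ :=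
  -(f r ^ 2 * (k + A r)) / (f r ^ 2 * (k + A r) ^ 2 + η r ^ 2)
noncomputable def eS (f A η : ℝ → ℝ) (k r : ℝ) : ℝ :=
  f r * η r / √(f r ^ 2 * (k + A r) ^ 2 + η r ^ 2)

/-- the weight of Abel's equation `∫_0^y ww p √(1 - p²/y²) = y √(1 - y²/4)` -/
noncomputable def ww (p : ℝ) : ℝ :=
  2 / π * (3 / 2 - 3 / 4 * p * log ((2 + p) / (2 - p)) + (4 - 3 * p ^ 2) / (2 * (4 - p ^ 2)))

/-- the weight of the second case -/
noncomputable def uu (p : ℝ) : ℝ := 4 / π * (1 - 27 / 50 * p ^ 2)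

noncomputable def KW (y : ℝ) : ℝ := ∫ p in (0 : ℝ)..1, ww p * √(1 - p ^ 2 / y ^ 2)
noncomputable def UW (y : ℝ) : ℝ := ∫ p in (0 : ℝ)..(3 / 4), uu p * √(1 - p ^ 2 / y ^ 2)

/-- **Existence** (uses `t_CNT`, `t_CMP`). (1) `FK f A η k x z = FF f A η x z + π ((k - 1) z.1 + z.2)` is jointly continuous on
`(Icc 0 L ×ˢ Icc 0 L) ×ˢ univ` (`t_CNT`), `KK x` is compact for `x ∈ Tri L` (bounded and closed by `t_CMP`; closed: section of the closed set) and contains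
`0`: a maximizer exists. (2) LOWER SEMICONTINUITY: for `x ∈ Tri L`, `u ∈ KK x`, `ε > 0` there is `δ > 0` such that for all `y ∈ Tri L` with `dist y x < δ` there is `u' ∈ KK y` with
`FK x u - ε ≤ FK y u'` (as `t_LSC`, file `Lsc.lean`): choose `σ ∈ (0, 1)` with `FK x ((1 - σ) u) ≥ FK x u - ε/2` and `u' = (1 - σ) u`. If `0 < x.1` and `x.2 < L` exactly as in
`Lsc.lean`. If `x.1 = 0` or `x.2 = L` then `u.1 = 0` (`Adm` on the axis, lemma `fst_zero` of `Lsc.lean`), so `Adm u' r` is equivalent to `u'.2 ^ 2 ≤ η r ^ 2` for all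
`r` (`HH` does not contain `f`), and this holds near `[x.1, x.2]` because `u'.2 ^ 2 ≤ (1 - σ)² η r ^ 2 < η r ^ 2` on `[x.1, x.2]`. (3) `D x = FK x (maximizer)` is lower semicontinuous on the compact set
`Tri L`, so it has a minimum (`LowerSemicontinuousOn.exists_isMinOn`); for `y ∈ Tri L` take a maximizer `w` for `y`. -/
def Q_EXM : Prop := ∀ (L : ℝ) (f A η : ℝ → ℝ) (k : ℝ), Profile L f A η →
  (∀ x ∈ Tri L, ∃ z, MK f A η k x z) ∧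
  ∃ x ∈ Tri L, ∃ z, MK f A η k x z ∧
    ∀ y ∈ Tri L, ∃ w ∈ KK f A η y, FK f A η k x z ≤ FK f A η k y w

/-- **Gluing.** Put `s(y) = (L/π) arccos y` (smooth on `(-1, 1)`, inverse of `r ↦ cos (π r/L)`, `0 < r < L`) and let `χ : ℝ → ℝ` be a smooth bump function
(`ContDiffBump` with centre `(y1 + y2)/2`, `rIn ≥ (y2 - y1)/2`, `y1 = cos (π (b + δ)/L)`, `y2 = cos (π (a - δ)/L)`) with `χ = 1` on `[y1, y2]` and support in a compact subset of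
`(-1, 1)`, `0 ≤ χ ≤ 1`. Define `F y = χ y * (g1 (s y)/√(1 - y²)) + (1 - χ y) * (L/π)`, `f' r = sin (π r/L) * F (cos (π r/L))`, `A' r = (χ · g2 ∘ s) (cos (π r/L))`,
`η' r = (χ · g3 ∘ s + (1 - χ)) (cos (π r/L))` (a product of `χ` with a function smooth on `(-1, 1)` is smooth on `ℝ`: it is `0` near the complement of `(-1, 1)`). Parity: `cos` is even at `0` and at `π`, `sin` is
odd. `F > 0`, `η' > 0` on `[-1, 1]` (convex combinations). Slopes: `χ = 0` near `±1`, so `F (±1) = L/π` and `f'` has the slopes `1`, `-1`. On `[a - δ, b + δ]`: `χ = 1`, `√(1 - cos²) = sin`, `s (cos (π r/L)) = r`. -/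
def Q_GLU : Prop := ∀ (L a b : ℝ) (g1 g2 g3 : ℝ → ℝ), 0 < a → a ≤ b → b < L →
  (∀ r, 0 < r → r < L → ContDiffAt ℝ (⊤ : ℕ∞) g1 r ∧ ContDiffAt ℝ (⊤ : ℕ∞) g2 r ∧
    ContDiffAt ℝ (⊤ : ℕ∞) g3 r ∧ 0 < g1 r ∧ 0 < g3 r) →
  ∃ (f A η : ℝ → ℝ) (δ : ℝ), Profile L f A η ∧ 0 < δ ∧ δ < a ∧ b + δ < L ∧
    ∀ r ∈ Icc (a - δ) (b + δ), f r = g1 r ∧ A r = g2 r ∧ η r = g3 r

/-- **Change of basis.** Smoothness: the radicand is positive (`η > 0`). The identities are algebra: for `f r, η r ≠ 0` put `N = f²(k + A)² + η²`, then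
`(k p + s)²/N + (-p + f²(k+A)(k p + s)/N)² N/(f² η²) = p²/f² + (s - A p)²/η²` (`field_simp`, `ring`), and the same for the bilinear form. -/
def Q_SWA : Prop := ∀ (L : ℝ) (f A η : ℝ → ℝ) (k : ℝ), Profile L f A η →
  (∀ r, 0 < r → r < L → ContDiffAt ℝ (⊤ : ℕ∞) (fS f A η k) r ∧ ContDiffAt ℝ (⊤ : ℕ∞) (aS f A η k) r ∧
    ContDiffAt ℝ (⊤ : ℕ∞) (eS f A η k) r ∧ 0 < fS f A η k r ∧ 0 < eS f A η k r) ∧
  (∀ r, 0 < r → r < L → ∀ z w : ℝ × ℝ,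
    HH (fS f A η k) (aS f A η k) (eS f A η k) (k * z.1 + z.2, -z.1) r = HH f A η z r ∧
    BB (fS f A η k) (aS f A η k) (eS f A η k) (k * z.1 + z.2, -z.1) (k * w.1 + w.2, -w.1) r
      = BB f A η z w r)

/-- **Interior minima are critical** (uses `Q_GLU`, `Q_SWA` and `c_MAX`, `c_ENL`, `t_ENR t_REF c_ENL`, `t_WEL t_NDG`, `t_GRD`, `c_DSC`). Let `P'` be the profile given by `Q_GLU` for `fS, aS, eS` and `[a, b]`, and
`τ z = (k z.1 + z.2, -z.1)` (bijective). For `y ∈ Tri L` with `a - δ ≤ y.1`, `y.2 ≤ b + δ`: `w ∈ KK y ↔ τ w ∈ KK' y` (`adm_iff`, `f, η ≠ 0` there, `HH' (τ w) r = HH w r`) and `FF' y (τ w) = FK k y w`.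
So `Mx' (a, b) (τ z)`, and there is NO descent direction of `DD'` at `(a, b)`: `Desc (Tri L) DD' (a, b) v` would give, for small `t > 0`, `y = (a, b) + t v ∈ Tri L` near `(a, b)` with `DD' y < DD' (a, b) = FK k (a, b) z`, but
there is `w ∈ KK y` with `FK k (a, b) z ≤ FK k y w = FF' y (τ w) ≤ DD' y` (`Mx.le_DD` for a maximizer of `P'` at `y`, `c_MAX`). Hence, as in `t_LOC` (file `Loc.lean`): `HH' (τ z) = 1` at `a` and at `b` (`ENL`, `ENR`), `WEL` gives the well,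
`GRD` and `DSC` give equality in (2) of `S_GRD`, so `∫ BB' (τ z) w' /√(1 - HH' (τ z)) = π w'.1` for all `w'`; take `w' = τ w`. The well transfers because the functions agree near `[a, b]`. -/
def Q_INT : Prop := ∀ (L : ℝ) (f A η : ℝ → ℝ) (k a b : ℝ) (z : ℝ × ℝ), Profile L f A η →
  0 < a → a < b → b < L → MK f A η k (a, b) z →
  (∀ y ∈ Tri L, ∃ w ∈ KK f A η y, FK f A η k (a, b) z ≤ FK f A η k y w) →
  SGR.Well (fun r => 1 - HH f A η z r) a b ∧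
    ∀ w : ℝ × ℝ, ∫ r in a..b, BB f A η z w r / √(1 - HH f A η z r) = π * (k * w.1 + w.2)

/-- **The oscillating geodesic.** Copy of `t_GEO` (file `Geod.lean`; `GEOAux.geodesic_well`, `GEOAux.osc_closes` with the integers `m`, `1`, `w = (1, 0)`, `w = (0, 1)`); length `T = per = 2 ∫ 1/√(1 - HH) =
2 (∫ √(1 - HH) + ∫ HH/√(1 - HH)) = 2 FK (a, b) z` by `w = z`. -/
def Q_GEK : Prop := ∀ (L : ℝ) (f A η : ℝ → ℝ) (m : ℤ) (a b : ℝ) (z : ℝ × ℝ), Profile L f A η →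
  0 < a → a < b → b < L → SGR.Well (fun r => 1 - HH f A η z r) a b →
  (∀ w : ℝ × ℝ, ∫ r in a..b, BB f A η z w r / √(1 - HH f A η z r) = π * (m * w.1 + w.2)) →
  ∃ (r θ φ : ℝ → ℝ) (T : ℝ), IsUnitGeodesic f A η r θ φ ∧ Closes L r θ φ T ∧
    T = 2 * FK f A η m (a, b) z

/-- **Minima on the left axis, first part** (uses `Q_GLU` and `c_MAX`, `c_ENL`, `t_ENR t_REF c_ENL`, `t_WEL t_NDG`, `t_GRD`, `c_DSC`). `z.1 = 0` (`fst_zero` of `Lsc.lean`, `f 0 = 0`); put `s = z.2`. `s ≥ 0` (compare with `(0, |s|)`, which is in `KK (0, b)` too). For `z.1 = 0` we have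
`HH z r = s²/η²`, also at `r = 0`, and `FK k (0, β) (0, s) = ∫_0^β √(1 - s²/η²) + π s`. DOUBLING: let `P'` be the profile given by `Q_GLU` for the length `4 L`, `g1 r = 2 η (r - 2 L)`, `g2 = 0`, `g3 = 1` and the interval
`[2 L - b, 2 L + b]`. For `0 < β ≤ b + δ` (and `β < L`), `y = (2 L - β, 2 L + β)`: `FF' y (2 s', 0) = 2 FK k (0, β) (0, s')` (`η` is even) and `(2 s', 0) ∈ KK' y ↔ (0, s') ∈ KK (0, β)`; for `w' ∈ KK' y` also `(w'.1, 0) ∈ KK' y` and `FF' y w' ≤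
FF' y (w'.1, 0)`. So `Mx' (2L - b, 2L + b) (2 s, 0)`, and for every `β` near `b` (`β < L`) `DD' (2L - β, 2L + β) ≥ DD' (2L - b, 2L + b)` by the hypothesis. So `Desc` in the direction `(-1, 1)` is impossible, and `Desc` in the directions `(0, -1)` AND `(1, 0)` together
is impossible (first step `t (0, -1)`, then `t (1, 0)` at the new point, which is still near: it leads to `β = b - t`). By symmetry `HH' (2 s, 0) = s²/η(b)²` at both ends, so it is `1` (`ENL`, `ENR`); `WEL`, `GRD`, `DSC` give the well and, with `w' = (2, 0)`,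
`∫ (s/η²)/√(1 - s²/η²) = 2 π`. Translate by `2 L`. `0 < s` because the integral is positive. -/
def Q_AX1 : Prop := ∀ (L : ℝ) (f A η : ℝ → ℝ) (k b : ℝ) (z : ℝ × ℝ), Profile L f A η →
  0 < b → b < L → MK f A η k (0, b) z →
  (∀ β : ℝ, 0 < β → β < L → ∃ w ∈ KK f A η (0, β), FK f A η k (0, b) z ≤ FK f A η k (0, β) w) →
  z.1 = 0 ∧ 0 < z.2 ∧ SGR.Well (fun r => 1 - z.2 ^ 2 / η r ^ 2) (-b) b ∧
    (∫ r in (-b)..b, z.2 / η r ^ 2 / √(1 - z.2 ^ 2 / η r ^ 2)) = 2 * π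

/-- **An elementary inequality.** `K = 2` and `√ ≤ 1` give `σ ψ ≥ 1`, so `σ, ψ` have the same sign; replace them by `|σ|`, `|ψ|`. Concavity in `σ ∈ [0, 1]`: for `u > 1`
`√(1 - σ²/u²) ≤ √(1 - 1/u²) + (1 - σ) (1/u²)/√(1 - 1/u²)`, and `∫_1^K √(1 - 1/u²) = √(K² - 1) - arccos (1/K)`, `∫_1^K (1/u²)/√(1 - 1/u²) = arccos (1/K)` (antiderivatives continuous on `[1, K]`). So `σ ψ ≥ K - √(K² - 1) + σ arccos (1/K) ≥ σ arccos (1/K)`, and `K → ∞`. -/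
def Q_AXE : Prop := ∀ σ ψ : ℝ, |σ| ≤ 1 →
  (∀ K : ℝ, 1 < K → K ≤ (∫ u in (1 : ℝ)..K, √(1 - σ ^ 2 / u ^ 2)) + σ * ψ) → π / 2 ≤ |ψ|

/-- **Minima on the left axis, second part (blow up)** (uses `Q_AXE`). Put `κ = √(1 - s²/η²)` (positive on `(-b, b)`), `Φ = (s/η²)/κ` (integrable on `[0, b]`: `SGR.Well.integrableOn`), `∫_0^b Φ = π` (`η` is even), `α = ∫_0^b A Φ`, `ψ = k π + α`, `D0 = ∫_0^b κ + π s`. (i) For `w = (p, s')` with
`HH w r ≤ 1`, `0 < r < b`: `√(1 - HH w r) ≤ κ + (s - s' + A p) Φ` (Cauchy: `√(1-HH w) · 1 + ((s' - A p)/η)(η Φ) ≤ √(1 + η² Φ²) = 1/κ = κ + s Φ`). (ii) Let `wₙ = (pₙ, sₙ) ∈ KK (εₙ, b)`, `εₙ → 0⁺`, be as in the hypothesis. `|pₙ| ≤ f εₙ`, so `pₙ → 0` and `qₙ = pₙ/εₙ` is bounded; `sₙ` is bounded.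
Pass to a subsequence: `qₙ → q`, `sₙ → s'`. `s'² ≤ η²` on `[0, b]`, and by dominated convergence `D0 ≤ ∫_0^b √(1 - s'²/η²) + π s'`; but for `s' ≠ s` the inequality (i) with `p = 0` is strict (`(κ + (s - s') Φ)² - (1 - s'²/η²) = (s - s')² (1/η² + Φ²) > 0`), so
`∫_0^b √(1 - s'²/η²) + π s' < D0`. Hence `sₙ → s`. (iii) For `K > 1`, `ρ = K εₙ`: `D0 ≤ FK k (εₙ, b) wₙ`, (i) on `[ρ, b]`, and `∫_ρ^b Φ = π - ∫_0^ρ Φ` give
`∫_0^ρ κ ≤ ∫_{εₙ}^ρ √(1 - HH wₙ) - (s - sₙ) ∫_0^ρ Φ + pₙ (ψ - ∫_0^ρ A Φ)`. Divide by `εₙ`, substitute `r = εₙ u`, `n → ∞` (`f (εₙ u)/εₙ → u`, dominated convergence, integrand between `0` and `1`): with `κ₀ = κ 0 > 0`: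
`K κ₀ ≤ ∫_1^K √(κ₀² - q²/u²) du + q ψ`, `|q| ≤ κ₀`. (iv) `Q_AXE` for `σ = q/κ₀`. -/
def Q_AX2 : Prop := ∀ (L : ℝ) (f A η : ℝ → ℝ) (k b s : ℝ), Profile L f A η →
  0 < b → b < L → 0 < s → SGR.Well (fun r => 1 - s ^ 2 / η r ^ 2) (-b) b →
  (∫ r in (-b)..b, s / η r ^ 2 / √(1 - s ^ 2 / η r ^ 2)) = 2 * π →
  (∀ ε : ℝ, 0 < ε → ε < b → ∃ w ∈ KK f A η (ε, b),
    (∫ r in (0 : ℝ)..b, √(1 - s ^ 2 / η r ^ 2)) + π * s ≤ FK f A η k (ε, b) w) →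
  π / 2 ≤ |k * π + ∫ r in (0 : ℝ)..b, A r * (s / η r ^ 2 / √(1 - s ^ 2 / η r ^ 2))|

/-- **The geodesic through the axis.** Along the solution `r = hw.sol` of the well `[-b, b]` of `U = 1 - s²/η²` (file `Pool/Agent/SGR/Osc.lean`) take `θ' = -A s/η²`, `φ' = s/η²` (`DWS.ang hw`, as in `GEOAux.geodesic_well`, file `Geod.lean`; now `θ' + A φ' = 0`, `η² φ' = s`, `r'² + η² φ'² = 1`,
`r'' = U'/2 = η η' φ'²`; nothing is divided by `f`, so `r = 0` and negative `r` are allowed). `U` is even, so `wQ (φ + π) = wQ φ` (`rho (φ + π) = - rho φ`; `wq` is even because `U x = (x + b)(b - x) wq x` and continuity at the ends), `tau (φ + π) = tau φ + per/2`, `hw.phase (t + per/2) = hw.phase t + π`,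
`r (t + per/2) = - r t`. (Alternatively: uniqueness of solutions.) `θ (t + per/2) - θ t` has derivative `0` (`A`, `η` even), it is the integral over half a period `= -∫_{-b}^b A (s/η²)/√U = -(2 j + 1) π` (half of the increment `DWS.ang_add` over `per`), `φ (t + per/2) - φ t = 2 π`. So
`point L (r (t+T)) (θ (t+T)) (φ (t+T)) = point L (r t) (θ t) (φ t)` for `T = per/2`: `sin (-π r/L) e^{i (θ - (2j+1) π)} = sin (π r/L) e^{i θ}`. Length: `per/2 = ∫_{-b}^b 1/√U` (`DWS.per_eq`) `= ∫_{-b}^b √U + s ∫_{-b}^b (s/η²)/√U = 2 ∫_0^b √U + 2 π s`. -/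
def Q_AX3 : Prop := ∀ (L : ℝ) (f A η : ℝ → ℝ) (b s : ℝ) (j : ℤ), Profile L f A η →
  0 < b → b < L → SGR.Well (fun r => 1 - s ^ 2 / η r ^ 2) (-b) b →
  (∫ r in (-b)..b, s / η r ^ 2 / √(1 - s ^ 2 / η r ^ 2)) = 2 * π →
  (∫ r in (-b)..b, A r * (s / η r ^ 2 / √(1 - s ^ 2 / η r ^ 2))) = (2 * j + 1) * π →
  ∃ (r θ φ : ℝ → ℝ) (T : ℝ), IsUnitGeodesic f A η r θ φ ∧ Closes L r θ φ T ∧
    T = 2 * ((∫ r in (0 : ℝ)..b, √(1 - s ^ 2 / η r ^ 2)) + π * s)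

/-- **Reflection** `r ↦ L - r`. First part: if `(r, θ, φ)` is a unit speed geodesic of the reflected profile then `(L - r, θ, φ)` is one of the given profile (all four equations are invariant: `deriv (L - r) = -r'`, `deriv (fun x => f (L - x)) x = -f' (L - x)`), and it closes after the same time
(`sin (π (L - r)/L) = sin (π r/L)`, `cos (π (L - r)/L) = - cos (π r/L)`). Second part: direct (`t_REF` for `HH`; substitution `intervalIntegral.integral_comp_sub_left`). -/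
def Q_RFL : Prop := ∀ (L : ℝ) (f A η : ℝ → ℝ), Profile L f A η →
  (∀ c : ℝ, NoShort L f A η c →
    NoShort L (fun r => f (L - r)) (fun r => A (L - r)) (fun r => η (L - r)) c) ∧
  (∀ x w : ℝ × ℝ, w ∈ KK (fun r => f (L - r)) (fun r => A (L - r)) (fun r => η (L - r)) (L - x.2, L - x.1) ↔
    w ∈ KK f A η x) ∧
  (∀ (k : ℝ) (x w : ℝ × ℝ), FK (fun r => f (L - r)) (fun r => A (L - r)) (fun r => η (L - r)) k (L - x.2, L - x.1) w
    = FK f A η k x w)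

/-- **No short minima on the left axis** (uses `Q_AX1`, `Q_AX2`, `Q_AX3`). Suppose `v = FK m (0, b) z < π c`. `Q_AX1` (hypothesis for `m' = m`, `y = (0, β)`) gives `s = z.2 > 0`, the well and `∫_0^b Φ = π` for `Φ = (s/η²)/√(1 - s²/η²)` (`η` even); `z.1 = 0`, so `v = ∫_0^b √(1 - s²/η²) + π s`.
Let `α = ∫_0^b A Φ`, `|α| ≤ R π`, `m' = - round (α/π)`: `|m' π + α| ≤ π/2` and `|m'| ≤ R + 1 ≤ M`. `Q_AX2` for `k = m'` (hypothesis for `y = (ε, b)`) gives `|m' π + α| = π/2`, so `∫_{-b}^b A Φ = 2 α = (2 j + 1) π` (`A` even) and `Q_AX3` gives a closed geodesic of length `2 v < 2 π c`: contradiction to `NoShort`. -/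
def Q_CLL : Prop := ∀ (L : ℝ) (f A η : ℝ → ℝ) (c : ℝ) (m M : ℤ) (R b : ℝ) (z : ℝ × ℝ), Profile L f A η → 0 < c →
  NoShort L f A η c → (∀ r ∈ Icc 0 L, |A r| ≤ R) → R + 1 ≤ M → |m| ≤ M → 0 < b → b < L →
  MK f A η m (0, b) z →
  (∀ m' : ℤ, |m'| ≤ M → ∀ y ∈ Tri L, ∃ w ∈ KK f A η y, FK f A η m (0, b) z ≤ FK f A η m' y w) →
  π * c ≤ FK f A η m (0, b) z

/-- **Half loops are long** (uses `Q_EXM`, `Q_INT`, `Q_GEK`, `Q_CLL`, `Q_RFL`, `t_CIR`). Suppose not: there are `m0`, `x0` with `FK m0 x0 w < π c` for all `w ∈ KK x0`. Let `|A| ≤ R` on `[0, L]`, `M ≥ |m0|`, `M ≥ R + 1`. By `Q_EXM` and finiteness there are `m`, `|m| ≤ M`, `x ∈ Tri L`, `z`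
with `MK m x z`, `v = FK m x z < π c`, and for all `|m'| ≤ M`, `y ∈ Tri L` there is `w ∈ KK y` with `v ≤ FK m' y w`. (1) `x = (a, a)`: with `N = f²(m + A)² + η²` at `a`, the covector `(f²(m + A), η² + A f²(m + A))/√N` is in `KK x` and gives `v ≥ π √N > π c` (`t_CIR`, `n = 1`): contradiction.
(2) `0 < x.1 < x.2 < L`: `Q_INT`, `Q_GEK` give a closed geodesic of length `2 v < 2 π c`. (3) `x = (0, L)`: `w = 0` gives `v ≥ L > π c` (`t_CIR`). (4) `x = (0, b)`, `0 < b < L`: `Q_CLL`. (5) `x = (a, L)`, `0 < a`: `Q_CLL` for the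
reflected profile (`Q_RFL`; `y ↦ (L - y.2, L - y.1)` is a bijection of `Tri L`). -/
def Q_CLS : Prop := ∀ (L : ℝ) (f A η : ℝ → ℝ) (c : ℝ), Profile L f A η → 0 < c →
  NoShort L f A η c → ∀ (m : ℤ), ∀ x ∈ Tri L, ∃ w ∈ KK f A η x, π * c ≤ FK f A η m x w

/-- **Without `A`** (uses `Q_EXM`, `Q_INT`, `Q_CLS`, `t_CIR`). `f, 0, η` is a profile; put `H w = w.1²/f² + w.2²/η² = HH f 0 η w`. `c² < f²/4 + η²` on `[0, L]` (`t_CIR` with `n = 1`, `m = - round (A r)`, `|m + A| ≤ 1/2`). Let `x`, `z` be as in `Q_EXM` for `f, 0, η`, `k = 1/2`, and suppose `v = FK f 0 η (1/2) x z < π c`.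
(1) `x = (a, a)`: `(f²/2, η²)/√(f²/4 + η²)` gives `v > π c`. (2) `x.1 = 0` or `x.2 = L`: the covector `w` of `Q_CLS` for `m = 0` has `w.1 = 0`, so it is in `KK f 0 η x` and `FK f 0 η (1/2) x w = FK f A η 0 x w ≥ π c`. (3) Otherwise `Q_INT`: with `Φ = (z.2/η²)/√(1 - H z)`, `X = (z.1/f²)/√(1 - H z)` we have `∫ X = π/2`,
`∫ Φ = π`. Let `α = ∫ A Φ`, `m = - round (α/π)`, `ψ = m π + α`, `λ = ψ/(π/2)`, `|λ| ≤ 1`. Let `w` be the covector of `Q_CLS` for `m`, `x`. Pointwise on `(a, b)`: `√(1 - HH f A η w) + w.1 (λ X) + (w.2 - A w.1) Φ ≤ √(1 + f² λ² X² + η² Φ²) ≤ √(1 + f² X² + η² Φ²) = 1/√(1 - H z)` (Cauchy). Integrate: the left side gives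
`∫ √(1 - HH w) + w.1 ψ + w.2 π - w.1 α = FK f A η m x w ≥ π c`, the right side `∫ √(1 - H z) + ∫ H z/√(1 - H z) = FK f 0 η (1/2) x z = v < π c`. Contradiction. So for every `x ∈ Tri L` there is `w ∈ KK f 0 η x` with `π c ≤ FK f 0 η (1/2) x w`, and `(|w.1|, |w.2|)` is also in `KK` with a value at least as large. -/
def Q_DST : Prop := ∀ (L : ℝ) (f A η : ℝ → ℝ) (c : ℝ), Profile L f A η → 0 < c →
  NoShort L f A η c → ∀ x ∈ Tri L, ∃ w ∈ KK f (fun _ => 0) η x, 0 ≤ w.1 ∧ 0 ≤ w.2 ∧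
    π * c ≤ FK f (fun _ => 0) η (1 / 2) x w

/-- the data of a minimum of `FK f 0 η (1/2) (α, β) z` under the constraints: norm at least one at the ends, on the branches `t f² ≤ 2 p η²` at `α` and `2 p η² ≤ t f²` at `β` -/
def WMin (L : ℝ) (f η : ℝ → ℝ) (c : ℝ) (z : ℝ × ℝ) (α β : ℝ) : Prop :=
  0 ≤ α ∧ α < β ∧ β < L ∧ 0 ≤ z.1 ∧ 0 < z.2 ∧ z.2 + z.1 / 2 < c ∧
  (∀ r ∈ Ioo α β, HH f (fun _ => 0) η z r < 1) ∧ (α = 0 → z.1 = 0) ∧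
  (0 < α → 0 < z.1 ∧ 1 ≤ HH f (fun _ => 0) η z α ∧ z.2 * f α ^ 2 < 2 * z.1 * η α ^ 2) ∧
  1 ≤ HH f (fun _ => 0) η z β ∧ 2 * z.1 * η β ^ 2 < z.2 * f β ^ 2 ∧
  FK f (fun _ => 0) η (1 / 2) (α, β) z < π * c ∧
  ∀ w : ℝ × ℝ, 0 ≤ w.1 → 0 ≤ w.2 → w.2 + w.1 / 2 ≤ c →
    (0 < α → 1 ≤ HH f (fun _ => 0) η w α ∧ w.2 * f α ^ 2 ≤ 2 * w.1 * η α ^ 2) →
    1 ≤ HH f (fun _ => 0) η w β → 2 * w.1 * η β ^ 2 ≤ w.2 * f β ^ 2 →
    FK f (fun _ => 0) η (1 / 2) (α, β) z ≤ FK f (fun _ => 0) η (1 / 2) (α, β) w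

/-- **The well inequality, compactness** (uses `t_CNT`). Write `H z = HH f 0 η z = p²/f² + t²/η²` for `z = (p, t)`, `G x z = FK f 0 η (1/2) x z`. Let `𝒞` be the set of `(z, α, β)` with `p, t ≥ 0`, `t + p/2 ≤ c`, `0 ≤ α ≤ β ≤ b`, `α ∈ R₋(z) = {r | f² η² ≤ p² η² + t² f², t f² ≤ 2 p η²}`, `β ∈ R₊(z) = {r | f² η² ≤ p² η² + t² f², 2 p η² ≤ t f²,
4 η⁴ ≤ t² (4 η² + f²)}`: compact (closed conditions), and `((p, t), 0, b) ∈ 𝒞` for the given `p, t` (`f 0 = 0`; for `f r > 0` the third condition of `R₊` follows from the other two: `p²/f² ≤ t² f²/(4 η⁴)`). `R₋(z) ∩ R₊(z) = ∅` for `t + p/2 ≤ c`: at `r > 0` (`f > 0`) `2 p η² = t f²` and `H z ≥ 1` give `t ≥ 2 η²/√(f² + 4 η²)`, `p ≥ f²/√(f² + 4 η²)`,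
`t + p/2 ≥ √(f²/4 + η²) > c`, and `0 ∈ R₊(z)` would give `t ≥ η 0 > c`. `(z, α, β) ↦ G (α, β) z = FF f 0 η (α, β) z + π (t - p/2)` is continuous (`t_CNT` for the profile `f, 0, η`), so it has a minimum `μ` on `𝒞`, attained at `(z1, α, β)`; if the conclusion is false for the given `p, t, b` then `μ < π c`, so `t1 + p1/2 < c`. SHRINK: let `α'` be the largest point of `R₋(z1) ∩ [α, β]`,
`β'` the smallest point of `R₊(z1) ∩ [α', β]` (compact sets): `(z1, α', β') ∈ 𝒞`, value `≤ μ` (the integrand is `≥ 0`), `α' < β'`, and `H z1 < 1` on `(α', β')` (a point with `H z1 ≥ 1` is in `R₋` or in `R₊`). By the third condition at `β'` `t1 > 0`; if `p1 = 0` then `α' = 0` (`R₋(z1) ∩ [0, b] = {0}`); if `α' = 0` then `p1 = 0` (otherwise `H z1 > 1` near `0`, `f → 0`).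
The strict inequalities at `α'`, `β'` hold because `R₋ ∩ R₊ = ∅`. -/
def Q_WTM : Prop := ∀ (L : ℝ) (f A η : ℝ → ℝ) (c : ℝ), Profile L f A η → 0 < c →
  (∀ r ∈ Icc 0 L, c ^ 2 < f r ^ 2 / 4 + η r ^ 2) →
  ∀ b p t : ℝ, 0 < b → b < L → 0 ≤ p → 0 ≤ t → t + p / 2 ≤ c →
    1 ≤ p ^ 2 / f b ^ 2 + t ^ 2 / η b ^ 2 → 2 * p * η b ^ 2 ≤ t * f b ^ 2 →
    (∫ r in (0 : ℝ)..b, √(1 - (p ^ 2 / f r ^ 2 + t ^ 2 / η r ^ 2))) < π * (c - t - p / 2) →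
    ∃ (z : ℝ × ℝ) (α β : ℝ), WMin L f η c z α β

/-- **The well inequality, variation.** Write `H = HH f 0 η`, `G = FK f 0 η (1/2) (α, β)`, `z = (p, t)`, `z' = w = (p', t')`, `z_ε = z - ε (z' - z)`. `z' ∈ KK (α, β)` means `H z' ≤ 1` on `(α, β]` and at `α` if `α > 0`, and `p' = 0` if `α = 0` (`Adm` at the axis). For small `ε > 0` the covector `z_ε` satisfies the constraints of `WMin`:
`z = (z_ε + ε z')/(1 + ε)` and convexity of `H` give `H z_ε ≥ (1 + ε) H z - ε H z' ≥ 1` at `α` (if `α > 0`) and at `β`; the inequalities `t f² < 2 p η²` at `α > 0`, `2 p η² < t f²` at `β`, `t > 0`, `t + p/2 < c` are strict, so they survive; `p_ε > 0` if `p > 0`, and if `p = 0` then `α = 0` (field 9 of `WMin` excludes `α > 0`), so `p' = 0` and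
`p_ε = 0`. For `r ∈ (α, β)` with `H z_ε r ≤ 1`: `√(1 - H z_ε) ≤ (1 + ε) √(1 - H z) - ε √(1 - H z')` (concavity of `√(1 - |·|²)` on the unit disk); if `H z_ε r > 1` this holds with `+ ε` on the right (`√` of a negative number is `0`, `√(1 - H z') ≤ 1`). The set `S_ε` of these last `r` has measure `→ 0` (for `δ > 0` it does not meet
`[α + δ, β - δ]` if `ε` is small, because `H z ≤ 1 - δ'` there and `H` is continuous). The linear terms satisfy the same relation with equality. So `G z_ε ≤ (1 + ε) G z - ε G z' + ε |S_ε| ≤ G z - ε (π c - G z - |S_ε|) < G z` for small `ε`: contradiction to minimality. -/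
def Q_WTC : Prop := ∀ (L : ℝ) (f A η : ℝ → ℝ) (c : ℝ) (z w : ℝ × ℝ) (α β : ℝ), Profile L f A η → 0 < c →
  WMin L f η c z α β → w ∈ KK f (fun _ => 0) η (α, β) → 0 ≤ w.1 → 0 ≤ w.2 →
  π * c ≤ FK f (fun _ => 0) η (1 / 2) (α, β) w → False

/-- **The well inequality** (uses `Q_WTM`, `Q_WTC`): direct. -/
def Q_WTY : Prop := ∀ (L : ℝ) (f A η : ℝ → ℝ) (c : ℝ), Profile L f A η → 0 < c →
  (∀ x ∈ Tri L, ∃ w ∈ KK f (fun _ => 0) η x, 0 ≤ w.1 ∧ 0 ≤ w.2 ∧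
    π * c ≤ FK f (fun _ => 0) η (1 / 2) x w) →
  (∀ r ∈ Icc 0 L, c ^ 2 < f r ^ 2 / 4 + η r ^ 2) →
  ∀ b p t : ℝ, 0 < b → b < L → 0 ≤ p → 0 ≤ t → t + p / 2 ≤ c →
    1 ≤ p ^ 2 / f b ^ 2 + t ^ 2 / η b ^ 2 → 2 * p * η b ^ 2 ≤ t * f b ^ 2 →
    π * (c - t - p / 2) ≤ ∫ r in (0 : ℝ)..b, √(1 - (p ^ 2 / f r ^ 2 + t ^ 2 / η r ^ 2))

/-- **Abel's equation.** By parts (`p √(y² - p²) dp = d(-(y² - p²)^{3/2}/3)`, `d log ((2+p)/(2-p)) = 4/(4 - p²) dp`, boundary terms vanish): `∫_0^y p log ((2+p)/(2-p)) √(y² - p²) = (4/3) ∫_0^y (y² - p²)^{3/2}/(4 - p²) = (4/3)(J - (4 - y²) I)` with `J = ∫_0^y √(y² - p²) = π y²/4`, `I = ∫_0^y √(y² - p²)/(4 - p²)`, and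
`∫_0^y (4 - 3p²)/(4 - p²) √(y² - p²) = 3 J - 8 I`. So `y · (left side) = (2/π) [(3/2) J - (J - (4 - y²) I) + (3 J - 8 I)/2] = (2/π) (2 J - y² I)`. `I = (π/2)(1 - √(4 - y²)/2)`: the function `arcsin (p/y) - (√(4 - y²)/2) arcsin (√(4 - y²) p/(y √(4 - p²)))` is continuous on `[0, y]` with derivative
`√(y² - p²)/(4 - p²)` inside. (`√(1 - p²/y²) = √(y² - p²)/y`.) -/
def Q_ABL : Prop := ∀ y : ℝ, 0 < y → y < 2 →
  (∫ p in (0 : ℝ)..y, ww p * √(1 - p ^ 2 / y ^ 2)) = y * √(1 - y ^ 2 / 4)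

/-- **The weight.** Continuity: `4 - p² > 0`. Nonnegativity: `p log ((2+p)/(2-p))` increases, `(4 - 3p²)/(4 - p²) = 3 - 8/(4 - p²)` decreases, so `ww` decreases on `[0, 2)`, and `(π/2) ww (6/5) = 3/2 - (9/10) log 4 - 1/16 > 0` (`log 4 = 2 log 2 < 1.3864`). Upper bound: `log ((2+p)/(2-p)) ≥ p + p³/12 + p⁵/80`
(derivative `4/(4 - p²) ≥ 1 + p²/4 + p⁴/16`) and `(4 - 3p²)/(2 (4 - p²)) = 1/2 - p²/(4 - p²) ≤ 1/2 - p²/4 - p⁴/16 - p⁶/64`; the sum is `≤ 2 - p² - p⁴/8 - p⁶/40`. Integral: antiderivative with `log (2 + p)`, `log (2 - p)`; the value is `(4 + 3 log 3)/4`. (Check: `∫_0^1 ww p (1 - p) π dp = 1 + (3/4) log 3 = 1.82396`.) -/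
def Q_WWB : Prop := ContinuousOn ww (Icc 0 (6 / 5)) ∧ (∀ p ∈ Icc (0 : ℝ) (6 / 5), 0 ≤ ww p) ∧
  (∀ p ∈ Icc (0 : ℝ) 1, ww p ≤ 4 / π * (1 - p ^ 2 / 2 - p ^ 4 / 16 - p ^ 6 / 80)) ∧
  (∫ p in (0 : ℝ)..1, ww p * (π * (1 - p))) = (4 + 3 * log 3) / 4

/-- **First case, pointwise** (uses `Q_ABL`, `Q_WWB`). `KW` is increasing in `y > 0` (`ww ≥ 0`). `e > √(1 - y²/4)` if `y < 2`. (1) `y ≤ 1`: the integrand vanishes for `p ≥ y`, so `KW y = y √(1 - y²/4) < y e` (`Q_ABL`). (2) `1 ≤ y ≤ 6/5`: `KW y ≤ ∫_0^y ww √(1 - p²/y²)` (`ww ≥ 0` on `[1, 6/5]`) `= y √(1 - y²/4) < y e`. (3) `y ≥ 1`: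
`√(1 - x) ≤ 1 - x/2 - x²/8 - x³/16` and the polynomial bound give `KW y ≤ (4/π) (m0 - m1/(2 y²) - m2/(8 y⁴) - m3/(16 y⁶)) =: K' y`, `m_j = 1/(2j+1) - 1/(2(2j+3)) - 1/(16(2j+5)) - 1/(80(2j+7))`: `K' (1.3) < 0.951`, `K' (1.45) < 0.9704`, `K' (1.5) < 0.9755`, `K' (1.537) < 0.979`, `K' (1.56) < 0.9809`, `K' (1.7) < 0.9913`, and
`KW y ≤ 1.05` always. (4) `y e > y √(1 - y²/4)` is `≥ 0.96` on `[1.2, 1.3]`, `≥ 0.987` on `[1.3, 1.45]`, `≥ 0.992` on `[1.45, 1.5]`, `≥ 0.983` on `[1.5, 1.537]` (square; `y² (1 - y²/4)` is concave in `y²`); `y e ≥ 0.64 y` is `≥ 0.9836` on `[1.537, 1.56]`, `≥ 0.998` on `[1.56, 1.7]`, `≥ 1.088` on `[1.7, ∞)`. -/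
def Q_CA1 : Prop := ∀ y e : ℝ, 0 < y → 16 / 25 ≤ e → 1 < y ^ 2 / 4 + e ^ 2 → KW y < y * e

/-- **Second case, pointwise.** Put `t = 16/25`, `B = 1 - t²/y²`, `u = B - t²/e²` (the radicand). BOUNDS FOR `UW`: (a) `UW y ≤ y - (27/200) y³` for `0 < y ≤ 1.04` (equality for `y ≤ 3/4`: `∫_0^y √(1 - p²/y²) = π y/4`, `∫_0^y p² √(1 - p²/y²) = π y³/16`; otherwise `uu ≥ 0` and the integral over `[3/4, y]` is dropped); (b) `UW y ≤ (4/π) ∫_0^{3/4} (1 - (27/50) p²) = 0.8583` always;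
(c) `√(1 - x) ≤ 1 - x/2 - x²/8` for `x ≤ 1`: `UW y ≤ (4/π) (0.6740625 - 0.057498/y² - 0.0046454/y⁴)` for `y ≥ 3/4`. (i) `u ≤ 0` (the root is `0`): for `y ≤ 1.04` `UW y ≤ y - (27/200) y³ ≤ y √(1 - y²/4) ≤ y e` (`1 - 0.54 x ≤ √(1 - x)` for `0 ≤ x ≤ 0.2704`); for `y ≥ 1` `UW y ≤ 0.859 < √3/2 ≤ y e`. (ii) `u > 0`: then `y > t`, `B > 0`; put `σ = √B < 1`, `e = t ε/σ`, `ε > 1`:
`√u = σ √(1 - 1/ε²) ≤ σ √(2 (ε - 1))`, so `y e - √u/3 ≥ (y t/σ) (1 + (ε - 1)) - (σ/3) √(2 (ε - 1)) ≥ y t/σ - σ³/(18 y t) =: Λ` (AM-GM). It remains to show `Λ ≥ UW y` for all `y > t`: by (a) for `y ≤ 0.87`, by (b) for `y ≥ 1.2`, by (c) on `[0.87, 1.2]` (smallest difference `0.014`, near `y = 0.985`). For (c): `1/y² = (1 - v)/t²` with `v = σ²`, so after multiplication with `σ/y` and squaring it is a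
polynomial inequality of degree `6` in `v ∈ [0.45, 0.72]`: `(t²)(t - v² (1 - v)/(18 t³))² ≥ v (1 - v) N(v)²`, `N = (4/π)(0.6740625 - 0.057498 (1 - v)/t² - 0.0046454 (1 - v)²/t⁴)`; subdivide. -/
def Q_CA2 : Prop := ∀ y e : ℝ, 0 < y → 0 < e → 1 ≤ y ^ 2 / 4 + e ^ 2 → (1 ≤ y → √3 / 2 ≤ y * e) →
  UW y + 1 / 3 * √(1 - ((16 / 25) ^ 2 / y ^ 2 + (16 / 25) ^ 2 / e ^ 2)) ≤ y * e

/-- **The volume** (uses `t_WID` or the hypothesis (W), `Q_CA1`, `Q_CA2`, `Q_WWB`). All functions are divided by `c`: `y = f r/c`, `e = η r/c`. `S_LAT` (`t_LAT`) gives `√3/2 ≤ y e` for `y ≥ 1`. FUBINI: for a continuous weight `w ≥ 0` on `[0, P]`, `P ≤ 1`: `∫_0^L ∫_0^P w p √(1 - p² c²/f²) dp dr = ∫_0^P w p (∫_0^L √(1 - (c p)²/f²) dr) dp ≥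
∫_0^P w p π c (1 - p) dp`. CASE 1: `η ≥ (16/25) c` on `[0, L]`: `f η/c² > KW (f/c)` on `(0, L)`, so `(1/c²) ∫ f η > ∫_0^1 ww p π c (1 - p) = c (4 + 3 log 3)/4`. CASE 2: `η b < (16/25) c` for some `b`, so `0 < b < L` (`η 0, η L > c`). Hypothesis (Y) and its reflection with `p = t = (16/25) c` (`2 η² ≤ f²` at `b` because `f²/4 + η² > c²`):
`∫_0^L √(1 - t²/f² - t²/η²) ≥ 2 π c (1 - 16/25 - 8/25) = (2/25) π c`. By `Q_CA2` `(1/c²) ∫ f η ≥ ∫_0^{3/4} uu p π c (1 - p) + (2/75) π c = 4 c (3/4 - 9/32 - (27/50)(9/64) + (27/50)(81/1024)) + (2/75) π c = 1.7421 c + 0.08377 c > 1.8241 c > c (4 + 3 log 3)/4` (`log 3 < 1.0987`). -/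
def Q_VOL : Prop := ∀ (L : ℝ) (f A η : ℝ → ℝ) (c : ℝ), Profile L f A η → 0 < c →
  (∀ r ∈ Icc 0 L, ∀ m n : ℤ, n ≠ 0 →
    c ^ 2 < f r ^ 2 * (m + A r * n) ^ 2 + η r ^ 2 * (n : ℝ) ^ 2) →
  (∀ p : ℝ, 0 ≤ p → p ≤ c → π * (c - p) ≤ ∫ r in (0 : ℝ)..L, √(1 - p ^ 2 / f r ^ 2)) →
  (∀ b p t : ℝ, 0 < b → b < L → 0 ≤ p → 0 ≤ t → t + p / 2 ≤ c →
    1 ≤ p ^ 2 / f b ^ 2 + t ^ 2 / η b ^ 2 → 2 * p * η b ^ 2 ≤ t * f b ^ 2 →
    2 * π * (c - t - p / 2) ≤ ∫ r in (0 : ℝ)..L, √(1 - (p ^ 2 / f r ^ 2 + t ^ 2 / η r ^ 2))) →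
  π ^ 2 * (4 + 3 * log 3) * c ^ 3 < vol f η L

/-- **The theorem** (uses `t_CIR`, `t_WID`, `Q_DST`, `Q_WTY`, `Q_RFL`, `Q_VOL`). As `main_of` (file `Main.lean`): otherwise `T ^ 3 > 8 π/(4 + 3 log 3) * vol = (2 π c) ^ 3` for all closed geodesics, so `NoShort c`. The third hypothesis of `Q_VOL`: `Q_WTY` on `[0, b]` and, for the reflected profile (`Q_RFL`), on `[b, L]`. `Q_VOL` gives `vol > vol`. -/
def Q_FIN : Prop := ∀ (L : ℝ) (f A η : ℝ → ℝ), Profile L f A η →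
  ∃ (r θ φ : ℝ → ℝ) (T : ℝ), IsUnitGeodesic f A η r θ φ ∧ Closes L r θ φ T ∧
    T ^ 3 ≤ 8 * π / (4 + 3 * log 3) * vol f η L

end TSP
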