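import Pool.Agent.TSP.Stmts

/-!
# The volume
-/

set_option autoImplicit false

namespace TSP

open Set MeasureTheory Real Filter Topology

namespace VOLAux

/-- the truncated value as an integral over the levels -/
lemma min_eq {c y : ℝ} (hc : 0 < c) (hy : 0 ≤ y) :
    min c y = ∫ t in (0 : ℝ)..c, (if t ≤ y then (1 : ℝ) else 0) := by
  have hm0 : 0 ≤ min c y := le_min hc.le hy
  have hmc : min c y ≤ c := min_le_left _ _
  have hmeas : Measurable (fun t : ℝ => if t ≤ y then (1 : ℝ) else 0) :=
    Measurable.ite measurableSet_Iic measurable_const measurable_const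
  have hI : ∀ a b : ℝ, IntervalIntegrable (fun t : ℝ => if t ≤ y then (1 : ℝ) else 0) volume a b := by
    intro a b
    refine (intervalIntegrable_const (c := (1 : ℝ))).mono_fun' hmeas.aestronglyMeasurable ?_
    filter_upwards with t
    by_cases h : t ≤ y
    · simp only [if_pos h]; norm_num
    · simp only [if_neg h]; norm_num
  rw [← intervalIntegral.integral_add_adjacent_intervals (hI 0 (min c y)) (hI (min c y) c)]
  have e1 : ∫ t in (0 : ℝ)..(min c y), (if t ≤ y then (1 : ℝ) else 0) = min c y := by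
    have : ∫ t in (0 : ℝ)..(min c y), (if t ≤ y then (1 : ℝ) else 0)
        = ∫ t in (0 : ℝ)..(min c y), (1 : ℝ) := by
      apply intervalIntegral.integral_congr
      intro t ht
      rw [uIcc_of_le hm0] at ht
      simp only [if_pos (ht.2.trans (min_le_right c y))]
    rw [this]
    simp
  have e2 : ∫ t in (min c y)..c, (if t ≤ y then (1 : ℝ) else 0) = 0 := by
    rcases le_total c y with h | h
    · rw [min_eq_left h]; simp
    · rw [min_eq_right h]
      rw [intervalIntegral.integral_of_le h]
      have : ∀ t ∈ Ioc y c, (if t ≤ y then (1 : ℝ) else 0) = (0 : ℝ) := by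
        intro t ht
        rw [if_neg (not_le.2 ht.1)]
      rw [setIntegral_congr_fun measurableSet_Ioc this]
      simp
  rw [e1, e2, add_zero]

/-- layer cake -/
lemma layers {L c : ℝ} {f : ℝ → ℝ} (hL : 0 < L) (hc : 0 < c) (hf : Continuous f)
    (h0 : ∀ r ∈ Icc 0 L, 0 ≤ f r)
    (h : ∀ t : ℝ, 0 < t → t < c →
      ∃ a b : ℝ, 0 ≤ a ∧ a ≤ b ∧ b ≤ L ∧ (∀ r ∈ Icc a b, t ≤ f r) ∧ π * (c - t) ≤ b - a) :
    π * c ^ 2 / 2 ≤ ∫ r in (0 : ℝ)..L, min c (f r) := by
  have hmeas : Measurable (fun q : ℝ × ℝ => if q.2 ≤ f q.1 then (1 : ℝ) else 0) :=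
    Measurable.ite (measurableSet_le measurable_snd (hf.measurable.comp measurable_fst))
      measurable_const measurable_const
  have hint : Integrable (Function.uncurry fun r t : ℝ => if t ≤ f r then (1 : ℝ) else 0)
      ((volume.restrict (Ioc 0 L)).prod (volume.restrict (Ioc 0 c))) := by
    rw [Measure.prod_restrict]
    refine IntegrableOn.of_bound ?_ hmeas.aestronglyMeasurable 1 ?_
    · rw [Measure.prod_prod, Real.volume_Ioc, Real.volume_Ioc]
      exact ENNReal.mul_lt_top ENNReal.ofReal_lt_top ENNReal.ofReal_lt_top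
    · filter_upwards with q
      show ‖if q.2 ≤ f q.1 then (1 : ℝ) else 0‖ ≤ 1
      by_cases hh : q.2 ≤ f q.1
      · rw [if_pos hh]; norm_num
      · rw [if_neg hh]; norm_num
  have e1 : ∫ r in (0 : ℝ)..L, min c (f r)
      = ∫ t in Ioc 0 c, ∫ r in Ioc 0 L, (if t ≤ f r then (1 : ℝ) else 0) := by
    rw [← integral_integral_swap hint, intervalIntegral.integral_of_le hL.le]
    refine setIntegral_congr_fun measurableSet_Ioc ?_
    intro r hr
    show min c (f r) = _
    rw [min_eq hc (h0 r ⟨hr.1.le, hr.2⟩), intervalIntegral.integral_of_le hc.le]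
  have e0 : ∫ t in (0 : ℝ)..c, π * (c - t) = π * c ^ 2 / 2 := by
    rw [intervalIntegral.integral_const_mul, intervalIntegral.integral_sub
      intervalIntegrable_const intervalIntegral.intervalIntegrable_id,
      intervalIntegral.integral_const, integral_id]
    simp only [smul_eq_mul]
    ring
  rw [e1, ← e0, intervalIntegral.integral_of_le hc.le]
  refine integral_mono_ae ?_ ?_ ?_
  · have : ContinuousOn (fun t => π * (c - t)) (Icc 0 c) := by fun_prop
    exact (this.integrableOn_Icc).mono_set Ioc_subset_Icc_self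
  · exact hint.integral_prod_right
  · have hne : ∀ᵐ t ∂(volume.restrict (Ioc 0 c)), t ≠ c := by
      apply ae_restrict_of_ae
      rw [ae_iff]
      simp
    filter_upwards [ae_restrict_mem measurableSet_Ioc, hne] with t ht htc
    have ht1 : t < c := lt_of_le_of_ne ht.2 htc
    obtain ⟨a, b, ha, hab, hb, hfr, hlen⟩ := h t ht.1 ht1
    have e2 : ∀ r : ℝ, (if t ≤ f r then (1 : ℝ) else 0) = {r | t ≤ f r}.indicator 1 r := by
      intro r
      by_cases hh : t ≤ f r
      · rw [if_pos hh, indicator_of_mem (show r ∈ {r | t ≤ f r} from hh)]; simp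
      · rw [if_neg hh, indicator_of_notMem (show r ∉ {r | t ≤ f r} from hh)]
    simp only [e2]
    have hms : MeasurableSet {r | t ≤ f r} := measurableSet_le measurable_const hf.measurable
    rw [integral_indicator_one hms, measureReal_restrict_apply hms]
    have hsub : Ioc a b ⊆ {r | t ≤ f r} ∩ Ioc 0 L := by
      intro r hr
      exact ⟨hfr r ⟨hr.1.le, hr.2⟩, lt_of_le_of_lt ha hr.1, hr.2.trans hb⟩
    have hle : volume.real (Ioc a b) ≤ volume.real ({r | t ≤ f r} ∩ Ioc 0 L) := by
      refine measureReal_mono hsub ?_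
      refine ne_top_of_le_ne_top ?_ (measure_mono inter_subset_right)
      rw [Real.volume_Ioc]
      exact ENNReal.ofReal_ne_top
    have hv : volume.real (Ioc a b) = b - a := by
      rw [Measure.real, Real.volume_Ioc, ENNReal.toReal_ofReal (by linarith)]
    rw [hv] at hle
    linarith

end VOLAux

open VOLAux in
/-- **The volume.** -/
theorem t_VOL (hlat : S_LAT) : S_VOL := by
  intro L f A η c H hc h1 h2
  have hπ := pi_pos
  have hL := H.L_pos
  have hs3 : 0 < √3 := Real.sqrt_pos.2 (by norm_num)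
  have h3 := layers hL hc H.f_cont (fun r hr => H.f_nonneg hr.1 hr.2) h2
  have hc1 : Continuous (fun r => √3 / 2 * c * min c (f r)) :=
    continuous_const.mul (continuous_const.min H.f_cont)
  have hc2 : Continuous (fun r => f r * η r) := H.f_cont.mul H.η_cont
  have h4 : ∀ r ∈ Ioo 0 L, √3 / 2 * c * min c (f r) < f r * η r := fun r hr =>
    hlat c (f r) (A r) (η r) hc (H.f_pos r hr.1 hr.2) (H.η_pos r) (h1 r ⟨hr.1.le, hr.2.le⟩)
  have h5 : 0 < ∫ r in (0 : ℝ)..L, (f r * η r - √3 / 2 * c * min c (f r)) := by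
    refine intervalIntegral.intervalIntegral_pos_of_pos_on ((hc2.sub hc1).intervalIntegrable 0 L) ?_ hL
    intro r hr
    linarith [h4 r hr]
  rw [intervalIntegral.integral_sub (hc2.intervalIntegrable _ _) (hc1.intervalIntegrable _ _),
    intervalIntegral.integral_const_mul] at h5
  have h6 : vol f η L = 4 * π ^ 2 * ∫ r in (0 : ℝ)..L, f r * η r := by
    unfold vol
    rw [intervalIntegral.integral_const_mul]
  rw [h6]
  have h7 : √3 * π ^ 3 * c ^ 3 = 4 * π ^ 2 * (√3 / 2 * c * (π * c ^ 2 / 2)) := by ring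
  rw [h7]
  apply mul_lt_mul_of_pos_left _ (by positivity)
  have h8 : √3 / 2 * c * (π * c ^ 2 / 2) ≤ √3 / 2 * c * ∫ r in (0 : ℝ)..L, min c (f r) :=
    mul_le_mul_of_nonneg_left h3 (by positivity)
  linarith

end TSP
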