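import Pool.Agent.TSP.Lat

/-!
# The volume, with the sharp lattice bound for small theta circles
-/

set_option autoImplicit false

namespace TSP

open Set MeasureTheory Real Filter Topology

namespace Vol2Aux

/-- the least area (divided by `4 π²`) of the orbit whose `θ` circle has length `2 π y` -/
noncomputable def GG (c y : ℝ) : ℝ := min c y * √(c ^ 2 - (min c y) ^ 2 / 4)

/-- the derivative of `GG c` on `(0, c)` -/
noncomputable def gg (c t : ℝ) : ℝ := (c ^ 2 - t ^ 2 / 2) / √(c ^ 2 - t ^ 2 / 4)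

lemma lat2 {c y x e : ℝ} (hc : 0 < c) (hy : 0 < y) (he : 0 < e)
    (h : ∀ m n : ℤ, n ≠ 0 → c ^ 2 < y ^ 2 * (m + x * n) ^ 2 + e ^ 2 * (n : ℝ) ^ 2) :
    GG c y < y * e := by
  unfold GG
  rcases le_or_gt y c with hyc | hyc
  · rw [min_eq_right hyc]
    have h1 := h (-round x) 1 one_ne_zero
    have h2 : |x - round x| ≤ 1 / 2 := abs_sub_round x
    have h3 : (x - round x) ^ 2 ≤ 1 / 4 := by
      have := sq_le_sq' (neg_le_of_abs_le h2) (le_of_abs_le h2)
      linarith
    have h4 : y ^ 2 * (x - round x) ^ 2 ≤ y ^ 2 * (1 / 4) :=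
      mul_le_mul_of_nonneg_left h3 (sq_nonneg _)
    have h5 : ((-round x : ℤ) : ℝ) + x * ((1 : ℤ) : ℝ) = x - round x := by
      push_cast
      ring
    rw [h5] at h1
    push_cast at h1
    have h6 : √(c ^ 2 - y ^ 2 / 4) < e := by
      rw [Real.sqrt_lt' he]
      linarith
    exact mul_lt_mul_of_pos_left h6 hy
  · have h0 := t_LAT c y x e hc hy he h
    rw [min_eq_left hyc.le] at h0 ⊢
    have h1 : √(c ^ 2 - c ^ 2 / 4) = √3 / 2 * c := by
      have : c ^ 2 - c ^ 2 / 4 = 3 * (c / 2) ^ 2 := by ring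
      rw [this, Real.sqrt_mul (by norm_num), Real.sqrt_sq (by positivity)]
      ring
    rw [h1]
    calc c * (√3 / 2 * c) = √3 / 2 * c * c := by ring
      _ < y * e := h0

lemma GG_cont (c : ℝ) : Continuous (GG c) := by
  unfold GG
  exact (continuous_const.min continuous_id).mul
    ((continuous_const.sub (((continuous_const.min continuous_id).pow 2).div_const 4)).sqrt)

lemma rad_pos {c t : ℝ} (hc : 0 < c) (h0 : 0 ≤ t) (h1 : t ≤ c) : 0 < c ^ 2 - t ^ 2 / 4 := by
  have : t ^ 2 ≤ c ^ 2 := pow_le_pow_left₀ h0 h1 2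
  have : 0 < c ^ 2 := by positivity
  linarith

lemma gg_nonneg {c t : ℝ} (h0 : 0 ≤ t) (h1 : t ≤ c) : 0 ≤ gg c t := by
  unfold gg
  apply div_nonneg _ (Real.sqrt_nonneg _)
  have : t ^ 2 ≤ c ^ 2 := pow_le_pow_left₀ h0 h1 2
  nlinarith [sq_nonneg c]

lemma sqrt_der {c t : ℝ} (hc : 0 < c) (h0 : 0 ≤ t) (h1 : t ≤ c) :
    HasDerivAt (fun t : ℝ => √(c ^ 2 - t ^ 2 / 4)) (-(t / (4 * √(c ^ 2 - t ^ 2 / 4)))) t := by
  have h := rad_pos hc h0 h1
  have hd : HasDerivAt (fun t : ℝ => c ^ 2 - t ^ 2 / 4) (-(t / 2)) t := by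
    have := ((hasDerivAt_pow 2 t).div_const 4).const_sub (c ^ 2)
    refine this.congr_deriv ?_
    push_cast
    ring
  have := hd.sqrt h.ne'
  refine this.congr_deriv ?_
  have hs := Real.sqrt_pos.2 h
  field_simp
  ring

lemma GGder {c t : ℝ} (hc : 0 < c) (h0 : 0 ≤ t) (h1 : t ≤ c) :
    HasDerivAt (fun t : ℝ => t * √(c ^ 2 - t ^ 2 / 4)) (gg c t) t := by
  have h := rad_pos hc h0 h1
  have hs := Real.sqrt_pos.2 h
  have := (hasDerivAt_id t).mul (sqrt_der hc h0 h1)
  refine this.congr_deriv ?_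
  unfold gg
  have hsq : √(c ^ 2 - t ^ 2 / 4) ^ 2 = c ^ 2 - t ^ 2 / 4 := Real.sq_sqrt h.le
  have e : c ^ 2 - t ^ 2 / 2 = √(c ^ 2 - t ^ 2 / 4) ^ 2 - t ^ 2 / 4 := by rw [hsq]; ring
  rw [e]
  simp only [id]
  clear e hsq this
  generalize √(c ^ 2 - t ^ 2 / 4) = u at hs ⊢
  field_simp
  ring

lemma gg_contOn {c : ℝ} (hc : 0 < c) : ContinuousOn (gg c) (Icc 0 c) := by
  unfold gg
  refine ContinuousOn.div (by fun_prop) (by fun_prop) ?_
  intro t ht
  exact (Real.sqrt_pos.2 (rad_pos hc ht.1 ht.2)).ne'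

/-- the value as an integral over the levels -/
lemma GG_eq {c y : ℝ} (hc : 0 < c) (hy : 0 ≤ y) :
    GG c y = ∫ t in (0 : ℝ)..c, (if t ≤ y then gg c t else 0) := by
  have hm0 : 0 ≤ min c y := le_min hc.le hy
  have hmc : min c y ≤ c := min_le_left _ _
  have hi : IntervalIntegrable (gg c) volume 0 c := (gg_contOn hc).intervalIntegrable_of_Icc hc.le
  have h1 : ∫ t in (0 : ℝ)..(min c y), gg c t = GG c y := by
    have := intervalIntegral.integral_eq_sub_of_hasDerivAt (a := 0) (b := min c y)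
      (f := fun t : ℝ => t * √(c ^ 2 - t ^ 2 / 4)) (f' := gg c) (fun t ht => ?_) ?_
    · rw [this]
      unfold GG
      simp
    · rw [uIcc_of_le hm0] at ht
      exact GGder hc ht.1 (ht.2.trans hmc)
    · exact hi.mono_set (by rw [uIcc_of_le hm0, uIcc_of_le hc.le]; exact Icc_subset_Icc le_rfl hmc)
  rw [← h1]
  have e1 : ∫ t in (0 : ℝ)..(min c y), gg c t
      = ∫ t in (0 : ℝ)..(min c y), (if t ≤ y then gg c t else 0) := by
    apply intervalIntegral.integral_congr
    intro t ht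
    rw [uIcc_of_le hm0] at ht
    simp only [if_pos (ht.2.trans (min_le_right c y))]
  have e2 : ∫ t in (min c y)..c, (if t ≤ y then gg c t else 0) = 0 := by
    rcases le_total c y with h | h
    · rw [min_eq_left h]; simp
    · rw [min_eq_right h]
      rw [intervalIntegral.integral_of_le h]
      have : ∀ t ∈ Ioc y c, (if t ≤ y then gg c t else 0) = (0 : ℝ) := by
        intro t ht
        rw [if_neg (not_le.2 ht.1)]
      rw [setIntegral_congr_fun measurableSet_Ioc this]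
      simp
  have hmeas : Measurable (fun t : ℝ => if t ≤ y then gg c t else 0) := by
    refine Measurable.ite measurableSet_Iic ?_ measurable_const
    unfold gg
    fun_prop
  have hI : IntervalIntegrable (fun t : ℝ => if t ≤ y then gg c t else 0) volume 0 c := by
    refine hi.mono_fun' hmeas.aestronglyMeasurable ?_
    rw [uIoc_of_le hc.le]
    filter_upwards [ae_restrict_mem measurableSet_Ioc] with t ht
    have h0 := gg_nonneg ht.1.le ht.2
    by_cases h : t ≤ y
    · simp only [if_pos h]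
      rw [Real.norm_of_nonneg h0]
    · simp only [if_neg h]
      rw [norm_zero]; exact h0
  have hI1 : IntervalIntegrable (fun t : ℝ => if t ≤ y then gg c t else 0) volume 0 (min c y) :=
    hI.mono_set (by rw [uIcc_of_le hm0, uIcc_of_le hc.le]; exact Icc_subset_Icc le_rfl hmc)
  have hI2 : IntervalIntegrable (fun t : ℝ => if t ≤ y then gg c t else 0) volume (min c y) c :=
    hI.mono_set (by rw [uIcc_of_le hmc, uIcc_of_le hc.le]; exact Icc_subset_Icc hm0 le_rfl)
  rw [e1, ← intervalIntegral.integral_add_adjacent_intervals hI1 hI2, e2, add_zero]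

/-- the final integral -/
lemma last {c : ℝ} (hc : 0 < c) :
    ∫ t in (0 : ℝ)..c, gg c t * (π * (c - t)) = π / 6 * (8 - 3 * √3) * c ^ 3 := by
  have hd : ∀ t ∈ uIcc 0 c, HasDerivAt (fun t : ℝ => π * (t * √(c ^ 2 - t ^ 2 / 4) * (c - t)
      - 4 / 3 * √(c ^ 2 - t ^ 2 / 4) ^ 3)) (gg c t * (π * (c - t))) t := by
    intro t ht
    rw [uIcc_of_le hc.le] at ht
    have h := rad_pos hc ht.1 ht.2
    have hs := Real.sqrt_pos.2 h
    have d1 := (GGder hc ht.1 ht.2).mul ((hasDerivAt_id t).const_sub c)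
    have d2 := ((sqrt_der hc ht.1 ht.2).pow 3).const_mul (4 / 3 : ℝ)
    have d3 := (d1.sub d2).const_mul π
    refine d3.congr_deriv ?_
    simp only [id, Nat.cast_ofNat]
    clear d1 d2 d3
    generalize √(c ^ 2 - t ^ 2 / 4) = u at hs ⊢
    generalize gg c t = g
    field_simp
    ring
  rw [intervalIntegral.integral_eq_sub_of_hasDerivAt hd]
  · have e1 : √(c ^ 2 - c ^ 2 / 4) = √3 / 2 * c := by
      have : c ^ 2 - c ^ 2 / 4 = 3 * (c / 2) ^ 2 := by ring
      rw [this, Real.sqrt_mul (by norm_num), Real.sqrt_sq (by positivity)]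
      ring
    have e2 : √(c ^ 2 - 0 ^ 2 / 4) = c := by
      have : c ^ 2 - 0 ^ 2 / 4 = c ^ 2 := by ring
      rw [this, Real.sqrt_sq hc.le]
    have h3 : √3 ^ 2 = 3 := Real.sq_sqrt (by norm_num)
    have h3' : √3 ^ 3 = 3 * √3 := by rw [pow_succ, h3]
    rw [e1, e2]
    have e3 : (√3 / 2 * c) ^ 3 = √3 ^ 3 / 8 * c ^ 3 := by ring
    rw [e3, h3']
    ring
  · apply ContinuousOn.intervalIntegrable_of_Icc hc.le
    exact (gg_contOn hc).mul (by fun_prop)

/-- layer cake -/
lemma layers {L c : ℝ} {f : ℝ → ℝ} (hL : 0 < L) (hc : 0 < c) (hf : Continuous f)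
    (h0 : ∀ r ∈ Icc 0 L, 0 ≤ f r)
    (h : ∀ t : ℝ, 0 < t → t < c →
      ∃ a b : ℝ, 0 ≤ a ∧ a ≤ b ∧ b ≤ L ∧ (∀ r ∈ Icc a b, t ≤ f r) ∧ π * (c - t) ≤ b - a) :
    π / 6 * (8 - 3 * √3) * c ^ 3 ≤ ∫ r in (0 : ℝ)..L, GG c (f r) := by
  have hmeas : Measurable (fun q : ℝ × ℝ => if q.2 ≤ f q.1 then gg c q.2 else 0) := by
    refine Measurable.ite (measurableSet_le measurable_snd (hf.measurable.comp measurable_fst)) ?_
      measurable_const
    unfold gg
    fun_prop
  obtain ⟨M, hM⟩ := isCompact_Icc.exists_bound_of_continuousOn (gg_contOn hc)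
  have hM0 : 0 ≤ M := (norm_nonneg _).trans (hM 0 ⟨le_rfl, hc.le⟩)
  have hint : Integrable (Function.uncurry fun r t : ℝ => if t ≤ f r then gg c t else 0)
      ((volume.restrict (Ioc 0 L)).prod (volume.restrict (Ioc 0 c))) := by
    rw [Measure.prod_restrict]
    refine IntegrableOn.of_bound ?_ hmeas.aestronglyMeasurable M ?_
    · rw [Measure.prod_prod, Real.volume_Ioc, Real.volume_Ioc]
      exact ENNReal.mul_lt_top ENNReal.ofReal_lt_top ENNReal.ofReal_lt_top
    · filter_upwards [ae_restrict_mem (measurableSet_Ioc.prod measurableSet_Ioc)] with q hq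
      have hq2 : q.2 ∈ Icc 0 c := ⟨hq.2.1.le, hq.2.2⟩
      show ‖if q.2 ≤ f q.1 then gg c q.2 else 0‖ ≤ M
      by_cases hh : q.2 ≤ f q.1
      · rw [if_pos hh]; exact hM _ hq2
      · rw [if_neg hh, norm_zero]; exact hM0
  have e1 : ∫ r in (0 : ℝ)..L, GG c (f r)
      = ∫ t in Ioc 0 c, ∫ r in Ioc 0 L, (if t ≤ f r then gg c t else 0) := by
    rw [← integral_integral_swap hint, intervalIntegral.integral_of_le hL.le]
    refine setIntegral_congr_fun measurableSet_Ioc ?_
    intro r hr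
    show GG c (f r) = _
    rw [GG_eq hc (h0 r ⟨hr.1.le, hr.2⟩), intervalIntegral.integral_of_le hc.le]
  rw [e1, ← last hc, intervalIntegral.integral_of_le hc.le]
  refine integral_mono_ae ?_ ?_ ?_
  · have : ContinuousOn (fun t => gg c t * (π * (c - t))) (Icc 0 c) :=
      (gg_contOn hc).mul (by fun_prop)
    exact (this.integrableOn_Icc).mono_set Ioc_subset_Icc_self
  · exact hint.integral_prod_right
  · have hne : ∀ᵐ t ∂(volume.restrict (Ioc 0 c)), t ≠ c := by
      apply ae_restrict_of_ae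
      exact (measure_singleton c : volume ({c} : Set ℝ) = 0) |> fun h => by
        rw [ae_iff]
        simp
    filter_upwards [ae_restrict_mem measurableSet_Ioc, hne] with t ht htc
    have ht1 : t < c := lt_of_le_of_ne ht.2 htc
    obtain ⟨a, b, ha, hab, hb, hfr, hlen⟩ := h t ht.1 ht1
    have hg0 := gg_nonneg ht.1.le ht.2
    have e2 : ∀ r : ℝ, (if t ≤ f r then gg c t else 0) = gg c t * ({r | t ≤ f r}.indicator 1 r) := by
      intro r
      by_cases hh : t ≤ f r
      · rw [if_pos hh, indicator_of_mem (show r ∈ {r | t ≤ f r} from hh)]; simp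
      · rw [if_neg hh, indicator_of_notMem (show r ∉ {r | t ≤ f r} from hh)]; simp
    simp only [e2]
    rw [MeasureTheory.integral_const_mul]
    apply mul_le_mul_of_nonneg_left _ hg0
    have hms : MeasurableSet {r | t ≤ f r} := measurableSet_le measurable_const hf.measurable
    rw [integral_indicator_one hms, measureReal_restrict_apply hms]
    have hsub : Ioc a b ⊆ {r | t ≤ f r} ∩ Ioc 0 L := by
      intro r hr
      exact ⟨hfr r ⟨hr.1.le, hr.2⟩, lt_of_le_of_lt ha hr.1, hr.2.trans hb⟩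
    have hle : volume.real (Ioc a b) ≤ volume.real ({r | t ≤ f r} ∩ Ioc 0 L) := by
      refine measureReal_mono hsub ?_
      refine ne_top_of_le_ne_top ?_ (measure_mono inter_subset_right)
      rw [Real.volume_Ioc]
      exact ENNReal.ofReal_ne_top
    have hv : volume.real (Ioc a b) = b - a := by
      rw [Measure.real, Real.volume_Ioc, ENNReal.toReal_ofReal (by linarith)]
    rw [hv] at hle
    linarith

end Vol2Aux

open Vol2Aux in
/-- The volume bound with the better constant. -/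
theorem vol2 {L : ℝ} {f A η : ℝ → ℝ} {c : ℝ} (H : Profile L f A η) (hc : 0 < c)
    (h1 : ∀ r ∈ Icc 0 L, ∀ m n : ℤ, n ≠ 0 →
      c ^ 2 < f r ^ 2 * (m + A r * n) ^ 2 + η r ^ 2 * (n : ℝ) ^ 2)
    (h2 : ∀ t : ℝ, 0 < t → t < c →
      ∃ a b : ℝ, 0 ≤ a ∧ a ≤ b ∧ b ≤ L ∧ (∀ r ∈ Icc a b, t ≤ f r) ∧ π * (c - t) ≤ b - a) :
    2 / 3 * π ^ 3 * (8 - 3 * √3) * c ^ 3 < vol f η L := by
  have hπ := pi_pos
  have hL := H.L_pos
  have h3 := layers hL hc H.f_cont (fun r hr => H.f_nonneg hr.1 hr.2) h2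
  have hc1 : Continuous (fun r => GG c (f r)) := (GG_cont c).comp H.f_cont
  have hc2 : Continuous (fun r => f r * η r) := H.f_cont.mul H.η_cont
  have h4 : ∀ r ∈ Ioo 0 L, GG c (f r) < f r * η r := fun r hr =>
    lat2 hc (H.f_pos r hr.1 hr.2) (H.η_pos r) (h1 r ⟨hr.1.le, hr.2.le⟩)
  have h5 : 0 < ∫ r in (0 : ℝ)..L, (f r * η r - GG c (f r)) := by
    refine intervalIntegral.intervalIntegral_pos_of_pos_on ((hc2.sub hc1).intervalIntegrable 0 L) ?_ hL
    intro r hr
    linarith [h4 r hr]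
  rw [intervalIntegral.integral_sub (hc2.intervalIntegrable _ _) (hc1.intervalIntegrable _ _)] at h5
  have h6 : vol f η L = 4 * π ^ 2 * ∫ r in (0 : ℝ)..L, f r * η r := by
    unfold vol
    rw [intervalIntegral.integral_const_mul]
  rw [h6]
  have h7 : 2 / 3 * π ^ 3 * (8 - 3 * √3) * c ^ 3
      = 4 * π ^ 2 * (π / 6 * (8 - 3 * √3) * c ^ 3) := by ring
  rw [h7]
  apply mul_lt_mul_of_pos_left _ (by positivity)
  linarith

end TSP
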